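import Mathlib
import Pool.Agent.H187R3.Picard

/-!
Entire functions `H` with `φ ∘ H = φ` near a fixed point; entire functions with a continuous left
inverse; fixed points of the second iterate.
-/

set_option autoImplicit false

namespace Pool.Agent.Q72.SH

open Filter Topology Metric

/-- **Local analysis at a fixed point.** -/
theorem fix_finite_order {φ H : ℂ → ℂ} {z0 : ℂ} (hφ : AnalyticAt ℂ φ z0)
    (hφ' : ¬ ∀ᶠ z in 𝓝 z0, φ z = φ z0) (hH : AnalyticAt ℂ H z0) (h0 : H z0 = z0)
    (h : ∀ᶠ z in 𝓝 z0, φ (H z) = φ z) : ∃ m : ℕ, 0 < m ∧ ∀ᶠ z in 𝓝 z0, H^[m] z = z := by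
  classical
  -- order
  have hφ1 : AnalyticAt ℂ (fun z => φ z - φ z0) z0 := hφ.sub analyticAt_const
  have hfin : analyticOrderAt (fun z => φ z - φ z0) z0 ≠ ⊤ := by
    intro htop
    apply hφ'
    filter_upwards [analyticOrderAt_eq_top.1 htop] with z hz
    exact sub_eq_zero.1 hz
  obtain ⟨p, hp⟩ := ENat.ne_top_iff_exists.1 hfin
  obtain ⟨g, hg, hg0, hgz⟩ := (hφ1.analyticOrderAt_eq_natCast).1 hp.symm
  have hp0 : p ≠ 0 := by
    rintro rfl
    have h1 := hφ1.analyticOrderAt_eq_zero.1 (by rw [← hp]; rfl)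
    exact h1 (sub_self _)
  obtain ⟨d, hd⟩ := IsAlgClosed.exists_pow_nat_eq (g z0) (Nat.pos_of_ne_zero hp0)
  have hd0 : d ≠ 0 := by
    rintro rfl
    rw [zero_pow hp0] at hd
    exact hg0 hd.symm
  set v : ℂ → ℂ := fun z => d * (g z / g z0) ^ ((p : ℂ)⁻¹) with hv
  have hva : AnalyticAt ℂ v z0 := by
    refine analyticAt_const.mul ?_
    refine (hg.div analyticAt_const hg0).cpow analyticAt_const ?_
    simp [div_self hg0]
  have hvp : ∀ z, v z ^ p = g z := by
    intro z
    simp only [hv]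
    rw [mul_pow, Complex.cpow_nat_inv_pow _ hp0, hd]
    field_simp
  have hv0 : v z0 ≠ 0 := by
    intro h1
    have h2 := hvp z0
    rw [h1, zero_pow hp0] at h2
    exact hg0 h2.symm
  set ψ : ℂ → ℂ := fun z => (z - z0) * v z with hψ
  have hψa : AnalyticAt ℂ ψ z0 := (analyticAt_id.sub analyticAt_const).mul hva
  have hψz0 : ψ z0 = 0 := by simp [hψ]
  have hψ' : HasStrictDerivAt ψ (v z0) z0 := by
    have h1 := hψa.hasStrictDerivAt
    have h2 : deriv ψ z0 = v z0 := by
      have h3 : HasDerivAt ψ (1 * v z0 + (z0 - z0) * deriv v z0) z0 :=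
        ((hasDerivAt_id z0).sub_const z0).mul hva.differentiableAt.hasDerivAt
      rw [h3.deriv]
      ring
    rwa [h2] at h1
  have hψp : ∀ᶠ z in 𝓝 z0, ψ z ^ p = φ z - φ z0 := by
    filter_upwards [hgz] with z hz
    simp only [hψ]
    rw [mul_pow, hvp, hz, smul_eq_mul]
  have hHt : Tendsto H (𝓝 z0) (𝓝 z0) := by
    have := hH.continuousAt
    unfold ContinuousAt at this
    rwa [h0] at this
  have hpow : ∀ᶠ z in 𝓝 z0, ψ (H z) ^ p = ψ z ^ p := by
    filter_upwards [hHt.eventually hψp, hψp, h] with z h1 h2 h3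
    rw [h1, h2, h3]
  have hne : ∀ᶠ z in 𝓝[≠] z0, ψ z ≠ 0 := by
    rcases hψa.eventually_eq_zero_or_eventually_ne_zero with h1 | h1
    · exfalso
      have h2 : ψ =ᶠ[𝓝 z0] fun _ => 0 := h1
      have h3 := h2.deriv_eq
      rw [hψ'.hasDerivAt.deriv, deriv_const] at h3
      exact hv0 h3
    · exact h1
  -- the root of unity
  obtain ⟨ζ, hζ, hfr⟩ : ∃ ζ : ℂ, ζ ^ p = 1 ∧ ∃ᶠ z in 𝓝[≠] z0, ψ (H z) - ζ * ψ z = 0 := by
    by_contra hcon
    push Not at hcon
    have hS : (Polynomial.nthRootsFinset p (1 : ℂ) : Finset ℂ).Nonempty ∨ True := Or.inr trivial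
    have h1 : ∀ᶠ z in 𝓝[≠] z0, ∀ ζ ∈ Polynomial.nthRootsFinset p (1 : ℂ),
        ψ (H z) - ζ * ψ z ≠ 0 := by
      rw [Filter.eventually_all_finset]
      intro ζ hζ
      rw [Polynomial.mem_nthRootsFinset (Nat.pos_of_ne_zero hp0)] at hζ
      exact hcon ζ hζ
    obtain ⟨z, h2, h3, h4⟩ := (h1.and (hne.and (hpow.filter_mono nhdsWithin_le_nhds))).exists
    apply h2 (ψ (H z) / ψ z)
    · rw [Polynomial.mem_nthRootsFinset (Nat.pos_of_ne_zero hp0), div_pow, h4,
        div_self (pow_ne_zero _ h3)]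
    · field_simp
      ring
  have hψH : AnalyticAt ℂ (fun z => ψ (H z)) z0 := by
    have h1 : AnalyticAt ℂ ψ (H z0) := by rwa [h0]
    exact h1.comp hH
  have hlin : ∀ᶠ z in 𝓝 z0, ψ (H z) = ζ * ψ z := by
    have h1 : AnalyticAt ℂ (fun z => ψ (H z) - ζ * ψ z) z0 := hψH.sub (analyticAt_const.mul hψa)
    filter_upwards [h1.frequently_zero_iff_eventually_zero.1 hfr] with z hz
    exact sub_eq_zero.1 hz
  have hit : ∀ k : ℕ, Tendsto (H^[k]) (𝓝 z0) (𝓝 z0) := by
    intro k
    induction k with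
    | zero => exact tendsto_id
    | succ k ih =>
      rw [Function.iterate_succ']
      exact hHt.comp ih
  have hlink : ∀ k : ℕ, ∀ᶠ z in 𝓝 z0, ψ (H^[k] z) = ζ ^ k * ψ z := by
    intro k
    induction k with
    | zero => exact Eventually.of_forall fun z => by simp
    | succ k ih =>
      filter_upwards [ih, (hit k).eventually hlin] with z h1 h2
      rw [Function.iterate_succ_apply', h2, h1, pow_succ]
      ring
  refine ⟨p, Nat.pos_of_ne_zero hp0, ?_⟩
  have hinv := hψ'.eventually_left_inverse hv0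
  filter_upwards [hlink p, hinv, (hit p).eventually hinv] with z h1 h2 h3
  rw [hζ, one_mul] at h1
  rw [h1] at h3
  exact h3.symm.trans h2

/-- entire functions of linear growth -/
theorem affine_of_growth {k : ℂ → ℂ} (hk : Differentiable ℂ k) {C R : ℝ}
    (h : ∀ z, R ≤ ‖z‖ → ‖k z‖ ≤ C * (‖z‖ + 1)) : ∃ a b : ℂ, ∀ z, k z = a * z + b := by
  have hds : Differentiable ℂ (dslope k 0) := by
    rw [← differentiableOn_univ]
    exact (Complex.differentiableOn_dslope univ_mem).mpr hk.differentiableOn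
  have hbd : Bornology.IsBounded (Set.range (dslope k 0)) := by
    obtain ⟨M, hM⟩ := (isCompact_closedBall (0 : ℂ) (max R 1)).image_of_continuousOn
      hds.continuous.continuousOn |>.isBounded.exists_norm_le
    rw [isBounded_iff_forall_norm_le]
    refine ⟨max M (2 * |C| + ‖k 0‖), ?_⟩
    rintro _ ⟨z, rfl⟩
    rcases le_or_gt ‖z‖ (max R 1) with h1 | h1
    · exact (hM _ (Set.mem_image_of_mem _ (by rw [mem_closedBall, dist_zero_right]; exact h1))).trans
        (le_max_left _ _)
    · have hz1 : 1 < ‖z‖ := lt_of_le_of_lt (le_max_right _ _) h1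
      have hz0 : z ≠ 0 := by
        rintro rfl
        rw [norm_zero] at hz1
        linarith
      rw [dslope_of_ne _ hz0, slope_def_field, sub_zero, norm_div]
      refine le_trans ?_ (le_max_right _ _)
      rw [div_le_iff₀ (by linarith)]
      have h2 := h z ((le_max_left _ _).trans h1.le)
      have h3 := norm_sub_le (k z) (k 0)
      have h4 : ‖k 0‖ ≤ ‖k 0‖ * ‖z‖ := le_mul_of_one_le_right (norm_nonneg _) hz1.le
      have h5 : C * (‖z‖ + 1) ≤ |C| * (2 * ‖z‖) :=
        mul_le_mul (le_abs_self C) (by linarith) (by positivity) (abs_nonneg C)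
      linarith
  obtain ⟨a, ha⟩ := hds.exists_const_forall_eq_of_bounded hbd
  refine ⟨a, k 0, fun z => ?_⟩
  have h1 := sub_smul_dslope k 0 z
  rw [ha z, sub_zero, smul_eq_mul] at h1
  linear_combination -h1

/-- entire functions with a continuous left inverse -/
theorem affine_of_left_inv {H K : ℂ → ℂ} (hH : Differentiable ℂ H) (hK : Continuous K)
    (hKH : ∀ z, K (H z) = z) : ∃ a b : ℂ, a ≠ 0 ∧ ∀ z, H z = a * z + b := by
  have hinj : Function.Injective H := fun z w hzw => by
    have := congrArg K hzw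
    rwa [hKH, hKH] at this
  obtain ⟨c, hc⟩ : ∃ c, deriv H c ≠ 0 := by
    by_contra hcon
    push Not at hcon
    have h1 := is_const_of_deriv_eq_zero hH hcon 0 1
    exact zero_ne_one (hinj h1)
  set q : ℂ → ℂ := dslope H c with hq
  have hqd : Differentiable ℂ q := by
    rw [← differentiableOn_univ]
    exact (Complex.differentiableOn_dslope univ_mem).mpr hH.differentiableOn
  have hHq : ∀ z, H z - H c = (z - c) * q z := fun z => by
    have := sub_smul_dslope H c z
    rw [smul_eq_mul] at this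
    exact this.symm
  have hq0 : ∀ z, q z ≠ 0 := by
    intro z hz
    by_cases hzc : z = c
    · rw [hzc, hq, dslope_same] at hz
      exact hc hz
    · have h1 := hHq z
      rw [hz, mul_zero, sub_eq_zero] at h1
      exact hzc (hinj h1)
  -- properness
  obtain ⟨R0, hR0⟩ := ((isCompact_closedBall (H c) 1).image hK).isBounded.exists_norm_le
  have hbig : ∀ z, R0 < ‖z‖ → 1 < ‖H z - H c‖ := by
    intro z hz
    by_contra hcon
    push Not at hcon
    have h1 := hR0 z ⟨H z, by rwa [mem_closedBall, dist_eq_norm], hKH z⟩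
    linarith
  obtain ⟨a, b, hab⟩ := affine_of_growth (k := fun z => (q z)⁻¹) (hqd.inv hq0)
    (C := 1 + ‖c‖) (R := R0 + 1) (fun z hz => by
      have h1 := hbig z (by linarith)
      rw [hHq, norm_mul] at h1
      have h2 : 0 < ‖q z‖ := norm_pos_iff.2 (hq0 z)
      rw [norm_inv, inv_le_iff_one_le_mul₀ h2]
      have h3 : ‖z - c‖ ≤ (1 + ‖c‖) * (‖z‖ + 1) := by
        have h4 := norm_sub_le z c
        have h5 := norm_nonneg z
        have h6 := norm_nonneg c
        nlinarith
      nlinarith)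
  have ha0 : a = 0 := by
    by_contra ha
    have h1 := hab (-b / a)
    rw [mul_div_cancel₀ _ ha, neg_add_cancel] at h1
    exact inv_ne_zero (hq0 _) h1
  have hb : b ≠ 0 := by
    intro h1
    have h2 := hab 0
    rw [ha0, h1, zero_mul, add_zero] at h2
    exact inv_ne_zero (hq0 _) h2
  refine ⟨b⁻¹, H c - c * b⁻¹, inv_ne_zero hb, fun z => ?_⟩
  have h1 := hab z
  rw [ha0, zero_mul, zero_add] at h1
  have h2 : q z = b⁻¹ := by rw [← h1, inv_inv]
  have h3 := hHq z
  rw [h2] at h3
  linear_combination h3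

/-- **Fixed points of the second iterate.** -/
theorem exists_per {H : ℂ → ℂ} (hH : Differentiable ℂ H) :
    (∃ z, H (H z) = z) ∨ ∃ a b : ℂ, ∀ z, H z = a * z + b := by
  by_contra hcon
  push Not at hcon
  obtain ⟨h2, h3⟩ := hcon
  have h1 : ∀ z, H z ≠ z := fun z hz => h2 z (by rw [hz, hz])
  set u : ℂ → ℂ := fun z => (H (H z) - z) / (H z - z) with hu
  have hHH : Differentiable ℂ fun z => H (H z) := hH.comp hH
  have hud : Differentiable ℂ u :=
    (hHH.sub differentiable_id).div (hH.sub differentiable_id) fun z => sub_ne_zero.2 (h1 z)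
  have hu0 : ∀ z, u z ≠ 0 := fun z =>
    div_ne_zero (sub_ne_zero.2 (h2 z)) (sub_ne_zero.2 (h1 z))
  have hu1 : ∀ z, u z ≠ 1 := by
    intro z hz
    simp only [hu] at hz
    rw [div_eq_one_iff_eq (sub_ne_zero.2 (h1 z))] at hz
    exact h1 (H z) (by linear_combination hz)
  have hc := Pool.Agent.H187R3.little_picard hud zero_ne_one hu0 hu1
  set c := u 0 with hc0
  have hcz : ∀ z, H (H z) - z = c * (H z - z) := by
    intro z
    have h4 := hc z 0
    simp only [hu] at h4
    rw [div_eq_iff (sub_ne_zero.2 (h1 z))] at h4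
    exact h4
  have hder : ∀ z, deriv H (H z) * deriv H z - 1 = c * (deriv H z - 1) := by
    intro z
    have e1 : HasDerivAt (fun z => H (H z) - z) (deriv H (H z) * deriv H z - 1) z :=
      ((hH (H z)).hasDerivAt.comp z (hH z).hasDerivAt).sub (hasDerivAt_id z)
    have e2 : HasDerivAt (fun z => c * (H z - z)) (c * (deriv H z - 1)) z :=
      ((hH z).hasDerivAt.sub (hasDerivAt_id z)).const_mul c
    have e3 : (fun z => H (H z) - z) = fun z => c * (H z - z) := funext hcz
    rw [e3] at e1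
    exact e1.unique e2
  have hc1 : c ≠ 1 := hu1 0
  have hcne : c ≠ 0 := hu0 0
  set w : ℂ → ℂ := fun z => deriv H (H z) with hw
  have hHd : Differentiable ℂ (deriv H) := hH.deriv
  have hwd : Differentiable ℂ w := hHd.comp hH
  have hwc : ∀ z, w z ≠ c := by
    intro z hz
    have h4 := hder z
    simp only [hw] at hz
    rw [hz] at h4
    exact hc1 (by linear_combination h4)
  have hd0 : ∀ z, deriv H z ≠ 0 := by
    intro z hz
    have h4 := hder z
    rw [hz] at h4
    exact hc1 (by linear_combination h4)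
  have hw0 : ∀ z, w z ≠ 0 := fun z => hd0 (H z)
  have hwconst := Pool.Agent.H187R3.little_picard hwd hcne.symm hw0 hwc
  have hdc : ∀ z, deriv H z = deriv H 0 := by
    intro z
    have e1 := hder z
    have e2 := hder 0
    have e3 : w z = w 0 := hwconst z 0
    simp only [hw] at e3
    rw [e3] at e1
    have e4 : deriv H (H 0) - c ≠ 0 := sub_ne_zero.2 (hwc 0)
    apply mul_left_cancel₀ e4
    linear_combination e1 - e2
  obtain ⟨z, hz⟩ := h3 (deriv H 0) (H 0)
  apply hz
  have e1 : ∀ z, HasDerivAt (fun z => H z - deriv H 0 * z) 0 z := by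
    intro z
    refine ((hH z).hasDerivAt.sub ((hasDerivAt_id z).const_mul (deriv H 0))).congr_deriv ?_
    rw [hdc z]
    ring
  have e2 := is_const_of_deriv_eq_zero (fun z => (e1 z).differentiableAt)
    (fun z => (e1 z).deriv) z 0
  simp only [mul_zero, sub_zero] at e2
  linear_combination e2

end Pool.Agent.Q72.SH
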