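import Pool.Agent.Q72.SH.Grp
import Pool.Agent.Q72.SH.Fix

/-!
Entire substitutions which leave the hyperplane sections of an entire curve invariant.
-/

set_option autoImplicit false

namespace Pool.Agent.Q72.SH

open Finset MvPolynomial Filter Topology
open Pool.Agent.TH143.EL Pool.Agent.TH143.GT Pool.Agent.W602.GT Pool.Agent.TH143
open Pool.Agent.W603.BPR (EntireCurve)

variable {n : ℕ} {E : Set (MvPolynomial (Fin (n + 1)) ℂ)} {Q : MvPolynomial (Fin (n + 1)) ℂ}
  {p : Ideal (MvPolynomial (Fin (n + 1)) ℂ)} {f : ℂ → Fin (n + 1) → ℂ}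

/-- composition with a nonconstant entire function -/
theorem comp_zero {F h : ℂ → ℂ} (hF : Differentiable ℂ F) (hh : Differentiable ℂ h)
    (hnc : ∃ z w, h z ≠ h w) (h0 : ∀ z, F (h z) = 0) (z : ℂ) : F z = 0 := by
  have hFa : AnalyticOnNhd ℂ F Set.univ := fun z _ => hF.analyticAt z
  obtain ⟨z1, w1, hzw⟩ := hnc
  have hopen : ∀ᶠ y in 𝓝 (h z1), F y = 0 := by
    rcases (hh.analyticAt z1).eventually_constant_or_nhds_le_map_nhds with h1 | h1
    · exfalso
      have h2 : ∀ z, h z - h z1 = 0 := by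
        have h3 : AnalyticOnNhd ℂ (fun z => h z - h z1) Set.univ := fun z _ =>
          (hh.sub_const _).analyticAt z
        intro z
        refine h3.eqOn_zero_of_preconnected_of_eventuallyEq_zero isPreconnected_univ
          (Set.mem_univ z1) ?_ (Set.mem_univ z)
        filter_upwards [h1] with w hw
        simp only [Pi.zero_apply]
        rw [hw, sub_self]
      have h4 := h2 w1
      exact hzw (sub_eq_zero.1 h4).symm
    · apply h1
      rw [Filter.mem_map]
      exact Filter.Eventually.of_forall h0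
  exact hFa.eqOn_zero_of_preconnected_of_eventuallyEq_zero isPreconnected_univ
    (Set.mem_univ (h z1)) hopen (Set.mem_univ z)

theorem cross_of_same {u v : Fin (n + 1) → ℂ} (h : ∃ c : ℂ, u = c • v) (i j : Fin (n + 1)) :
    u i * v j = u j * v i := by
  obtain ⟨c, rfl⟩ := h
  simp only [Pi.smul_apply, smul_eq_mul]
  ring

theorem same_of_cross {u v : Fin (n + 1) → ℂ} (hv : v ≠ 0) (h : ∀ i j, u i * v j = u j * v i) :
    ∃ c : ℂ, u = c • v := by
  obtain ⟨j, hj⟩ : ∃ j, v j ≠ 0 := by
    by_contra hc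
    push Not at hc
    exact hv (funext hc)
  refine ⟨u j / v j, ?_⟩
  funext i
  rw [Pi.smul_apply, smul_eq_mul]
  field_simp
  rw [h i j]

/-- nonconstant coordinates quotients -/
theorem exists_nonconst (hf : EntireCurve p Q f) {z0 : ℂ} {j : Fin (n + 1)} (hj : f z0 j ≠ 0) :
    ∃ i, ¬ ∀ᶠ z in 𝓝 z0, f z i / f z j = f z0 i / f z0 j := by
  by_contra hcon
  push Not at hcon
  have h1 : ∀ i z, f z i * f z0 j - f z0 i * f z j = 0 := by
    intro i
    have hd : Differentiable ℂ fun z => f z i * f z0 j - f z0 i * f z j :=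
      ((coord_diff hf.1 i).mul_const _).sub ((coord_diff hf.1 j).const_mul _)
    have ha : AnalyticOnNhd ℂ (fun z => f z i * f z0 j - f z0 i * f z j) Set.univ :=
      fun z _ => hd.analyticAt z
    intro z
    refine ha.eqOn_zero_of_preconnected_of_eventuallyEq_zero isPreconnected_univ
      (Set.mem_univ z0) ?_ (Set.mem_univ z)
    have h2 : ∀ᶠ z in 𝓝 z0, f z j ≠ 0 :=
      ((coord_diff hf.1 j).continuous.continuousAt).eventually_ne hj
    filter_upwards [hcon i, h2] with w h3 h4
    rw [div_eq_div_iff h4 hj] at h3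
    simp only [Pi.zero_apply]
    linear_combination h3
  obtain ⟨z, w, hzw⟩ := hf.2.2
  have h0 : ∀ z, f z ≠ 0 := fun z => (hf.2.1 z).1
  have hw : f w j ≠ 0 := by
    intro h2
    apply h0 w
    funext i
    have h3 := h1 i w
    rw [h2, mul_zero, sub_zero] at h3
    exact (mul_eq_zero.1 h3).resolve_right hj
  apply hzw (f z j / f w j)
  funext i
  rw [Pi.smul_apply, smul_eq_mul]
  field_simp
  apply mul_right_cancel₀ hj
  linear_combination f w j * h1 i z - f z j * h1 i w

/-- `f ∘ H = f` and `H` has a fixed point -/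
theorem per_of_fix (hf : EntireCurve p Q f) {H : ℂ → ℂ} (hH : Differentiable ℂ H)
    (h : SameCurve (fun z => f (H z)) f) {z0 : ℂ} (h0 : H z0 = z0) :
    ∃ m : ℕ, 0 < m ∧ ∀ z, H^[m] z = z := by
  obtain ⟨j, hj⟩ : ∃ j, f z0 j ≠ 0 := by
    by_contra hc
    push Not at hc
    exact (hf.2.1 z0).1 (funext hc)
  obtain ⟨i, hi⟩ := exists_nonconst hf hj
  set φ : ℂ → ℂ := fun z => f z i / f z j with hφ
  have hφa : AnalyticAt ℂ φ z0 :=
    ((coord_diff hf.1 i).analyticAt z0).div ((coord_diff hf.1 j).analyticAt z0) hj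
  have hHt : Tendsto H (𝓝 z0) (𝓝 z0) := by
    have := (hH z0).continuousAt
    unfold ContinuousAt at this
    rwa [h0] at this
  have hj' : ∀ᶠ z in 𝓝 z0, f z j ≠ 0 :=
    ((coord_diff hf.1 j).continuous.continuousAt).eventually_ne hj
  obtain ⟨m, hm, hev⟩ := fix_finite_order (φ := φ) (H := H) hφa hi (hH.analyticAt z0) h0 (by
    filter_upwards [hj', hHt.eventually hj'] with z h1 h2
    simp only [hφ]
    rw [div_eq_div_iff h2 h1]
    exact (cross_of_same (h z) i j).trans (by ring))
  refine ⟨m, hm, fun z => ?_⟩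
  have hd : Differentiable ℂ fun z => H^[m] z - z := (hH.iterate m).sub differentiable_id
  have ha : AnalyticOnNhd ℂ (fun z => H^[m] z - z) Set.univ := fun z _ => hd.analyticAt z
  have h1 := ha.eqOn_zero_of_preconnected_of_eventuallyEq_zero isPreconnected_univ
    (Set.mem_univ z0) (by
      filter_upwards [hev] with w hw
      simp only [Pi.zero_apply]
      rw [hw, sub_self]) (Set.mem_univ z)
  exact sub_eq_zero.1 h1

/-- affine substitutions -/
theorem root_of_same (hf : EntireCurve p Q f) {a b : ℂ} (ha : a ≠ 0)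
    (h : SameCurve (fun z => f (a * z + b)) f) : ∃ k : ℕ, 0 < k ∧ a ^ k = 1 := by
  by_cases ha1 : a = 1
  · exact ⟨1, one_pos, by rw [ha1, one_pow]⟩
  have ha' : (1 : ℂ) - a ≠ 0 := sub_ne_zero.2 (Ne.symm ha1)
  set z0 : ℂ := b / (1 - a) with hz0
  have hz : a * z0 + b = z0 := by
    rw [hz0]
    field_simp
    ring
  refine root_of_inv hf (A := a) (z0 := z0) ha fun z => ?_
  obtain ⟨c, hc⟩ := h z
  refine ⟨c, ?_⟩
  rw [← hc]
  congr 1
  linear_combination -hz

/-- **Entire functions with `f ∘ H = f`.** -/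
theorem affine_of_same (hf : EntireCurve p Q f) {H : ℂ → ℂ} (hH : Differentiable ℂ H)
    (hnc : ∃ z w, H z ≠ H w) (h : SameCurve (fun z => f (H z)) f) :
    ∃ a b : ℂ, (∃ k : ℕ, 0 < k ∧ a ^ k = 1) ∧ ∀ z, H z = a * z + b := by
  have hf0 : ∀ z, f z ≠ 0 := fun z => (hf.2.1 z).1
  obtain ⟨a, b, hab⟩ : ∃ a b : ℂ, ∀ z, H z = a * z + b := by
    rcases exists_per hH with ⟨z0, hz0⟩ | h1
    · have h2 : SameCurve (fun z => f (H (H z))) f := by
        intro z
        obtain ⟨c, hc⟩ := h (H z)
        obtain ⟨d, hd⟩ := h z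
        simp only at hc hd
        refine ⟨c * d, ?_⟩
        change f (H (H z)) = _
        rw [hc, hd, smul_smul]
      obtain ⟨m, hm, hper⟩ := per_of_fix hf (hH.comp hH) h2 (z0 := z0) hz0
      obtain ⟨k, rfl⟩ := Nat.exists_eq_succ_of_ne_zero hm.ne'
      -- left inverse
      obtain ⟨a, b, -, hab⟩ := affine_of_left_inv (H := H) (K := fun z => (H ∘ H)^[k] (H z)) hH
        (((hH.continuous.comp hH.continuous).iterate k).comp hH.continuous) (fun z => by
          have h3 := hper z
          rw [Function.iterate_succ_apply] at h3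
          exact h3)
      exact ⟨a, b, hab⟩
    · exact h1
  have ha : a ≠ 0 := by
    rintro rfl
    obtain ⟨z, w, hzw⟩ := hnc
    apply hzw
    rw [hab, hab, zero_mul, zero_mul]
  refine ⟨a, b, root_of_same hf ha (b := b) ?_, hab⟩
  intro z
  obtain ⟨c, hc⟩ := h z
  simp only at hc
  rw [hab] at hc
  exact ⟨c, hc⟩

theorem nc_iter {h : ℂ → ℂ} (hh : Differentiable ℂ h) (hnc : ∃ z w, h z ≠ h w) (k : ℕ) :
    ∃ z w, h^[k] z ≠ h^[k] w := by
  induction k with
  | zero => exact ⟨0, 1, by simp⟩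
  | succ k ih =>
    by_contra hcon
    push Not at hcon
    obtain ⟨z, w, hzw⟩ := ih
    apply hzw
    have h1 : ∀ y, h^[k] y - h^[k] (h 0) = 0 := by
      refine comp_zero (F := fun y => h^[k] y - h^[k] (h 0)) ((hh.iterate k).sub_const _) hh hnc
        fun z => ?_
      have h2 := hcon z 0
      rw [Function.iterate_succ_apply, Function.iterate_succ_apply] at h2
      rw [h2, sub_self]
    rw [sub_eq_zero.1 (h1 z), sub_eq_zero.1 (h1 w)]

/-- invariant sections are invariant under the iterates -/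
theorem same_comp {h : ℂ → ℂ} (hf : Differentiable ℂ f) (hh : Differentiable ℂ h)
    (hs : SameSections (fun z => f (h z)) f) (k : ℕ) :
    SameSections (fun z => f (h^[k] z)) f := by
  induction k with
  | zero => exact fun l z => rfl
  | succ k ih =>
    intro l z
    have e1 : (fun z => f (h^[k + 1] z) l) = (fun z => f (h^[k] z) l) ∘ h := by
      funext z
      simp only [Function.comp_apply]
      rw [Function.iterate_succ_apply]
    have e2 : (fun z => f (h z) l) = (fun z => f z l) ∘ h := rfl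
    have hfk : Differentiable ℂ fun z => f (h^[k] z) l := (coord_diff hf l).comp (hh.iterate k)
    rw [e1, (hfk.analyticAt (h z)).analyticOrderAt_comp (hh.analyticAt z), ih l (h z),
      ← ((coord_diff hf l).analyticAt (h z)).analyticOrderAt_comp (hh.analyticAt z), ← e2]
    exact hs l z

theorem EC.subst {h : ℂ → ℂ} (hf : EntireCurve p Q f) (hh : Differentiable ℂ h)
    (hnc : ∃ z w, h z ≠ h w) : EntireCurve p Q fun z => f (h z) := by
  refine ⟨hf.1.comp hh, fun z => hf.2.1 (h z), ?_⟩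
  by_contra hcon
  push Not at hcon
  obtain ⟨z, w, hzw⟩ := hf.2.2
  have h1 : ∀ i j y, f y i * f (h 0) j - f y j * f (h 0) i = 0 := by
    intro i j
    refine comp_zero (((coord_diff hf.1 i).mul_const _).sub ((coord_diff hf.1 j).mul_const _)) hh
      hnc fun z => ?_
    exact sub_eq_zero.2 (cross_of_same (hcon z 0) i j)
  obtain ⟨c, hc⟩ := same_of_cross (u := f z) (hf.2.1 (h 0)).1 fun i j => sub_eq_zero.1 (h1 i j z)
  obtain ⟨d, hd⟩ := same_of_cross (u := f w) (hf.2.1 (h 0)).1 fun i j => sub_eq_zero.1 (h1 i j w)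
  have hd0 : d ≠ 0 := by
    rintro rfl
    rw [zero_smul] at hd
    exact (hf.2.1 w).1 hd
  apply hzw (c / d)
  rw [hd, smul_smul, div_mul_cancel₀ _ hd0, hc]

theorem ZD.subst {h : ℂ → ℂ} (hfd : Differentiable ℂ f) (hf : ZDense p f Set.univ)
    (hh : Differentiable ℂ h) (hnc : ∃ z w, h z ≠ h w) :
    ZDense p (fun z => f (h z)) Set.univ := by
  intro G hG h0
  refine hf G hG fun z _ => ?_
  exact comp_zero (F := fun z => eval (f z) G) (eval_diff hfd G) hh hnc
    (fun z => h0 z trivial) z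

/-- **Entire substitutions which leave the hyperplane sections invariant.** -/
theorem subst_of_bd {M : ℕ} (hB : Bd M (idl f) Q) (hf : EntireCurve (Ideal.span E) Q f)
    {h : ℂ → ℂ} (hh : Differentiable ℂ h) (hnc : ∃ z w, h z ≠ h w)
    (hs : SameSections (fun z => f (h z)) f) :
    ∃ a b : ℂ, (∃ k : ℕ, 0 < k ∧ a ^ k = 1) ∧ ∀ z, h z = a * z + b := by
  have hsk := same_comp hf.1 hh hs
  obtain ⟨s, t, hst, h1⟩ := hB (fun s z => f (h^[s] z))
    (fun s => EC.subst (EC.idl hf) (hh.iterate s) (nc_iter hh hnc s))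
    (fun s => ZD.subst hf.1 (zd_idl f) (hh.iterate s) (nc_iter hh hnc s))
    (fun s t => (hsk s).trans (hsk t).symm)
  have key : ∃ (s m : ℕ), 0 < m ∧ ∀ z, ∃ c : ℂ, f (h^[m] (h^[s] z)) = c • f (h^[s] z) := by
    have h0 : ∀ z, f z ≠ 0 := fun z => (hf.2.1 z).1
    rcases lt_trichotomy (s : ℕ) t with h2 | h2 | h2
    · refine ⟨s, t - s, by omega, fun z => ?_⟩
      obtain ⟨c, hc⟩ := (SameCurve.symm (fun z => h0 _) h1) z
      simp only at hc
      refine ⟨c, ?_⟩
      rw [← Function.iterate_add_apply, Nat.sub_add_cancel h2.le, hc]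
    · exact absurd (Fin.ext h2) hst
    · refine ⟨t, s - t, by omega, fun z => ?_⟩
      obtain ⟨c, hc⟩ := h1 z
      simp only at hc
      refine ⟨c, ?_⟩
      rw [← Function.iterate_add_apply, Nat.sub_add_cancel h2.le, hc]
  obtain ⟨s, m, hm, hc⟩ := key
  have hcur : SameCurve (fun z => f (h^[m] z)) f := by
    intro z
    refine same_of_cross (hf.2.1 z).1 fun i j => ?_
    have hfm : ∀ i, Differentiable ℂ fun y => f (h^[m] y) i := fun i =>
      (coord_diff hf.1 i).comp (hh.iterate m)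
    refine sub_eq_zero.1 (comp_zero
      (F := fun y => f (h^[m] y) i * f y j - f (h^[m] y) j * f y i)
      (((hfm i).mul (coord_diff hf.1 j)).sub ((hfm j).mul (coord_diff hf.1 i)))
      (hh.iterate s) (nc_iter hh hnc s) (fun z => ?_) z)
    exact sub_eq_zero.2 (cross_of_same (hc z) i j)
  obtain ⟨a, b, ⟨k, hk, hak⟩, hab⟩ := affine_of_same hf (hh.iterate m) (nc_iter hh hnc m) hcur
  have ha : a ≠ 0 := by
    rintro rfl
    rw [zero_pow hk.ne'] at hak
    exact zero_ne_one hak
  obtain ⟨m', rfl⟩ := Nat.exists_eq_succ_of_ne_zero hm.ne'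
  obtain ⟨α, β, hα, hαβ⟩ := affine_of_left_inv (H := h)
    (K := fun y => (h^[m'] y - b) / a) hh
    (((hh.iterate m').continuous.sub continuous_const).div_const _) (fun z => by
      have h2 := hab z
      rw [Function.iterate_succ_apply] at h2
      rw [h2]
      field_simp
      ring)
  refine ⟨α, β, ⟨(m' + 1) * k, Nat.mul_pos (Nat.succ_pos _) hk, ?_⟩, hαβ⟩
  -- the linear coefficient of the iterate
  have hlin : ∀ j : ℕ, ∃ γ : ℂ, ∀ z, h^[j] z = α ^ j * z + γ := by
    intro j
    induction j with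
    | zero => exact ⟨0, fun z => by simp⟩
    | succ j ih =>
      obtain ⟨γ, hγ⟩ := ih
      refine ⟨α ^ j * β + γ, fun z => ?_⟩
      rw [Function.iterate_succ_apply, hγ, hαβ, pow_succ]
      ring
  obtain ⟨γ, hγ⟩ := hlin (m' + 1)
  have h3 : a = α ^ (m' + 1) := by
    have e1 := (hab 0).symm.trans (hγ 0)
    have e2 := (hab 1).symm.trans (hγ 1)
    linear_combination e2 - e1
  rw [pow_mul, ← h3, hak]

end Pool.Agent.Q72.SH
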