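import Pool.Agent.Q72.SH.ExpC
import Pool.Agent.Q72.SH.Subst
import Pool.Agent.TH143.GT.Fin

/-!
Rigid entire curves, and morphisms from the multiplicative group.
-/

set_option autoImplicit false

namespace Pool.Agent.Q72.SH

open Finset MvPolynomial Filter Topology
open Pool.Agent.TH143.EL Pool.Agent.TH143.GT Pool.Agent.W602.GT Pool.Agent.TH143
open Pool.Agent.W603.BPR (EntireCurve)
open Pool.Agent.W603.GR (SubVarP OffQ)

variable {n : ℕ} {E : Set (MvPolynomial (Fin (n + 1)) ℂ)} {Q : MvPolynomial (Fin (n + 1)) ℂ}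
  {f : ℂ → Fin (n + 1) → ℂ}

/-- The entire curve `f` in the set `E = 0`, `Q ≠ 0` is rigid: (1) the entire curves in this set
which have the same Zariski closure as `f` and the same intersections, with multiplicities, with the
coordinate hyperplanes are finite in number; (2) every nonconstant entire function `h` for which
`f ∘ h` has the same intersections with the coordinate hyperplanes as `f` is of the form `a z + b`
where `a` is a root of unity; (3) if the translation by `b` leaves these intersections invariant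
then a multiple `k b`, `k > 0`, is a period of `f`; (4) if `f` is given by homogeneous coordinates
of exponential type then no translation other than the identity leaves them invariant; (5) if the
translations of a lattice leave them invariant then `f` factors through a one-dimensional complex
torus. -/
def Rigid (E : Set (MvPolynomial (Fin (n + 1)) ℂ)) (Q : MvPolynomial (Fin (n + 1)) ℂ)
    (f : ℂ → Fin (n + 1) → ℂ) : Prop :=
  (∃ M : ℕ, ∀ g : Fin (M + 1) → ℂ → Fin (n + 1) → ℂ,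
    (∀ s, EntireCurve (Ideal.span E) Q (g s)) → (∀ s, SameClosure (g s) f) →
    (∀ s, SameSections (g s) f) → ∃ s t, s ≠ t ∧ SameCurve (g s) (g t)) ∧
  (∀ h : ℂ → ℂ, Differentiable ℂ h → (∃ z w, h z ≠ h w) → SameSections (fun z => f (h z)) f →
    ∃ a b : ℂ, (∃ k : ℕ, 0 < k ∧ a ^ k = 1) ∧ ∀ z, h z = a * z + b) ∧
  (∀ b, SameSections (fun z => f (z + b)) f →
    ∃ k : ℕ, 0 < k ∧ SameCurve (fun z => f (z + k * b)) f) ∧
  (ExpType f → ∀ b, SameSections (fun z => f (z + b)) f → b = 0) ∧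
  (Lattice f → Torus f)

/-- All translations that leave the intersections of `f` with the coordinate hyperplanes invariant
are translations by rational multiples of one complex number. -/
def RatPeriods (f : ℂ → Fin (n + 1) → ℂ) : Prop :=
  ∃ c : ℂ, ∀ b, SameSections (fun z => f (z + b)) f → ∃ r : ℚ, b = r * c

theorem rigid_of_bd {d q : ℕ} (hE : ∀ F ∈ E, ∃ e ≤ d, F.IsHomogeneous e) (hq : q ≤ d)
    (hQ : Q.IsHomogeneous q) (hf : EntireCurve (Ideal.span E) Q f)
    (hnot : ¬ ∀ z, f z ∈ SpGm E Q) {M : ℕ} (hM : Bd M (idl f) Q) : Rigid E Q f := by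
  refine ⟨⟨M, fun g hg hc hs => fam_of_bd hM g hg hc hs⟩,
    fun h hh hnc hs => subst_of_bd hM hf hh hnc hs, fun b hb => per_of_bd hM hf hb,
    fun hT b hb => ?_, fun hl => ?_⟩
  · by_contra hb0
    exact hnot (exp_trans hE hq hQ hf hT hb0 hb)
  · rcases lattice_dichQ hE hq hQ hf hl with h1 | h1
    · exact absurd h1 hnot
    · exact h1

/-- **The alternative.** -/
theorem rigid_or {d q : ℕ} (hE : ∀ F ∈ E, ∃ e ≤ d, F.IsHomogeneous e) (hq : q ≤ d)
    (hQ : Q.IsHomogeneous q) (hf : EntireCurve (Ideal.span E) Q f) :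
    (Rigid E Q f ∧ ∃ M, Bd M (idl f) Q) ∨ ∀ z, f z ∈ SpGm E Q := by
  by_cases hnot : ∀ z, f z ∈ SpGm E Q
  · exact Or.inr hnot
  · left
    obtain ⟨M, hM⟩ : ∃ M, Bd M (idl f) Q := by
      rcases bd_or_weighted hE hq hQ hf with h1 | h1
      · exact h1
      · exact absurd (fun z => weighted_spGm hE hq hQ hf h1 z) hnot
    exact ⟨rigid_of_bd hE hq hQ hf hnot hM, M, hM⟩

/-! ### morphisms from the multiplicative group -/

/-- The polynomials `T` give a morphism from the multiplicative group to the quasi-projective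
algebraic set `E = 0`, `Q ≠ 0`. -/
structure GmMor (E : Set (MvPolynomial (Fin (n + 1)) ℂ)) (Q : MvPolynomial (Fin (n + 1)) ℂ)
    (T : Fin (n + 1) → Polynomial ℂ) : Prop where
  ne : ∀ t : ℂ, t ≠ 0 → (fun j => (T j).eval t) ≠ 0
  mem : ∀ t : ℂ, t ≠ 0 → ∀ F ∈ E, eval (fun j => (T j).eval t) F = 0
  off : ∀ t : ℂ, t ≠ 0 → eval (fun j => (T j).eval t) Q ≠ 0

/-- The morphisms given by `T` and `T'` coincide. -/
def SameMor (T T' : Fin (n + 1) → Polynomial ℂ) : Prop :=
  ∀ t : ℂ, t ≠ 0 → ∃ c : ℂ, (fun j => (T j).eval t) = c • fun j => (T' j).eval t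

/-- The morphism is not constant. -/
def GmNC (T : Fin (n + 1) → Polynomial ℂ) : Prop :=
  ∃ s t : ℂ, s ≠ 0 ∧ t ≠ 0 ∧ ∀ c : ℂ, (fun j => (T j).eval s) ≠ c • fun j => (T j).eval t

/-- The point lies in the algebraic set given by the forms in `J`. -/
def InD (J : Set (MvPolynomial (Fin (n + 1)) ℂ)) (x : Fin (n + 1) → ℂ) : Prop :=
  ∀ H ∈ J, eval x H = 0

/-- All nonconstant morphisms from the multiplicative group map to the closed subset given by
`J`. -/
def GmIn (E : Set (MvPolynomial (Fin (n + 1)) ℂ)) (Q : MvPolynomial (Fin (n + 1)) ℂ)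
    (J : Set (MvPolynomial (Fin (n + 1)) ℂ)) : Prop :=
  ∀ T, GmMor E Q T → GmNC T → ∀ t : ℂ, t ≠ 0 → InD J fun j => (T j).eval t

/-- For all points `x` outside of the closed subset given by `J` there are only finitely many
morphisms from the multiplicative group which map the unit element to `x`. -/
def GmPointed (E : Set (MvPolynomial (Fin (n + 1)) ℂ)) (Q : MvPolynomial (Fin (n + 1)) ℂ)
    (J : Set (MvPolynomial (Fin (n + 1)) ℂ)) : Prop :=
  ∀ x : Fin (n + 1) → ℂ, ¬ InD J x → ∃ N : ℕ, ∀ T : Fin (N + 1) → Fin (n + 1) → Polynomial ℂ,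
    (∀ s, GmMor E Q (T s)) → (∀ s, ∃ c : ℂ, (fun j => (T s j).eval 1) = c • x) →
    ∃ s t, s ≠ t ∧ SameMor (T s) (T t)

/-- The degrees of the morphisms from the multiplicative group, whose image does not lie in the
closed subset given by `J`, are bounded. -/
def GmBounded (E : Set (MvPolynomial (Fin (n + 1)) ℂ)) (Q : MvPolynomial (Fin (n + 1)) ℂ)
    (J : Set (MvPolynomial (Fin (n + 1)) ℂ)) : Prop :=
  ∃ B : ℕ, ∀ T, GmMor E Q T → (∃ t : ℂ, t ≠ 0 ∧ ¬ InD J fun j => (T j).eval t) →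
    ∃ T', (∀ j, (T' j).natDegree ≤ B) ∧ GmMor E Q T' ∧ SameMor T T'

theorem GmMor.entire {T : Fin (n + 1) → Polynomial ℂ} (h : GmMor E Q T) (hN : GmNC T) :
    EntireCurve (Ideal.span E) Q fun z j => (T j).eval (Complex.exp z) := by
  refine ⟨?_, fun z => ⟨h.ne _ (Complex.exp_ne_zero z), fun H hH => ?_,
    h.off _ (Complex.exp_ne_zero z)⟩, ?_⟩
  · exact differentiable_pi.2 fun j => (T j).differentiable.comp Complex.differentiable_exp
  · have h1 : Ideal.span E ≤ RingHom.ker (eval fun j => (T j).eval (Complex.exp z)) := by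
      rw [Ideal.span_le]
      intro F hF
      exact h.mem _ (Complex.exp_ne_zero z) F hF
    exact h1 hH
  · obtain ⟨s, t, hs, ht, hst⟩ := hN
    refine ⟨Complex.log s, Complex.log t, ?_⟩
    simp only [Complex.exp_log hs, Complex.exp_log ht]
    exact hst

theorem GmCurve.mor {g : ℂ → Fin (n + 1) → ℂ} (hg : EntireCurve (Ideal.span E) Q g)
    {T : Fin (n + 1) → Polynomial ℂ} (hT : ∀ z l, g z l = (T l).eval (Complex.exp z)) :
    GmMor E Q T ∧ GmNC T := by
  have hgT : ∀ t, t ≠ 0 → (fun j => (T j).eval t) = g (Complex.log t) := by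
    intro t ht
    funext j
    rw [hT, Complex.exp_log ht]
  refine ⟨⟨fun t ht => ?_, fun t ht F hF => ?_, fun t ht => ?_⟩, ?_⟩
  · rw [hgT t ht]
    exact (hg.2.1 _).1
  · rw [hgT t ht]
    exact (hg.2.1 _).2.1 F (Ideal.subset_span hF)
  · rw [hgT t ht]
    exact (hg.2.1 _).2.2
  · obtain ⟨z, w, hzw⟩ := hg.2.2
    refine ⟨Complex.exp z, Complex.exp w, Complex.exp_ne_zero z, Complex.exp_ne_zero w, ?_⟩
    intro c hc
    apply hzw c
    have e : ∀ z, g z = fun j => (T j).eval (Complex.exp z) := fun z => funext fun j => hT z j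
    rw [e z, e w]
    exact hc

variable {J : Set (MvPolynomial (Fin (n + 1)) ℂ)}

/-- curves in the closure of the union of the images of the multiplicative group -/
theorem inD_of_gm (hJ : ∀ H ∈ J, IsForm H) (h : GmIn E Q J) {x : Fin (n + 1) → ℂ}
    (hx : x ∈ SpGm E Q) : InD J x := by
  intro H hH
  refine hx.2 H (hJ H hH) ?_
  rintro g ⟨hg, T, hT⟩ z
  obtain ⟨h1, h2⟩ := GmCurve.mor hg hT
  have e : g z = fun j => (T j).eval (Complex.exp z) := funext fun j => hT z j
  rw [e]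
  exact h T h1 h2 _ (Complex.exp_ne_zero z) H hH

theorem rigid_of_gmIn {d q : ℕ} (hE : ∀ F ∈ E, ∃ e ≤ d, F.IsHomogeneous e) (hq : q ≤ d)
    (hQ : Q.IsHomogeneous q) (hJ : ∀ H ∈ J, IsForm H) (h : GmIn E Q J)
    (hf : EntireCurve (Ideal.span E) Q f) (hoff : ∃ z, ¬ InD J (f z)) :
    Rigid E Q f ∧ ∃ M, Bd M (idl f) Q := by
  rcases rigid_or hE hq hQ hf with h1 | h1
  · exact h1
  · obtain ⟨z, hz⟩ := hoff
    exact absurd (inD_of_gm hJ h (h1 z)) hz

theorem gmIn_of_rigid (h : ∀ f, EntireCurve (Ideal.span E) Q f → (∃ z, ¬ InD J (f z)) →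
    Rigid E Q f) : GmIn E Q J := by
  intro T hT hN t ht
  by_contra hcon
  have hg : GmCurve fun z j => (T j).eval (Complex.exp z) := ⟨T, fun z l => rfl⟩
  have h1 := (h _ (hT.entire hN) ⟨Complex.log t, by
    simp only [Complex.exp_log ht]
    exact hcon⟩).2.2.2.1 hg.expType (2 * Real.pi * Complex.I) fun l z => by
      simp only [Complex.exp_periodic _]
  exact Complex.two_pi_I_ne_zero h1

/-- a constant morphism -/
theorem const_of_not {T : Fin (n + 1) → Polynomial ℂ} (hN : ¬ GmNC T) {s t : ℂ} (hs : s ≠ 0)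
    (ht : t ≠ 0) : ∃ c : ℂ, (fun j => (T j).eval s) = c • fun j => (T j).eval t := by
  unfold GmNC at hN
  push Not at hN
  exact hN s t hs ht

theorem pointed_of_gmIn (h : GmIn E Q J) (hJ : ∀ H ∈ J, IsForm H) : GmPointed E Q J := by
  intro x hx
  refine ⟨1, fun T hT hTx => ⟨0, 1, by simp, fun t ht => ?_⟩⟩
  have key : ∀ s, ∃ c : ℂ, c ≠ 0 ∧ (fun j => (T s j).eval t) = c • x := by
    intro s
    have hN : ¬ GmNC (T s) := by
      intro hN
      apply hx
      have h1 := h (T s) (hT s) hN 1 one_ne_zero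
      obtain ⟨c, hc⟩ := hTx s
      intro H hH
      obtain ⟨e, he⟩ := hJ H hH
      have h2 := h1 H hH
      rw [hc] at h2
      have h3 : (c • x) = fun j => c * x j := rfl
      rw [h3, eval_scale he] at h2
      refine (mul_eq_zero.1 h2).resolve_left (pow_ne_zero _ ?_)
      rintro rfl
      rw [zero_smul] at hc
      exact (hT s).ne 1 one_ne_zero hc
    obtain ⟨c, hc⟩ := const_of_not hN ht one_ne_zero
    obtain ⟨c', hc'⟩ := hTx s
    refine ⟨c * c', ?_, by rw [hc, hc', smul_smul]⟩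
    intro h0
    apply (hT s).ne t ht
    rw [hc, hc', smul_smul, h0, zero_smul]
  obtain ⟨c, hc, h1⟩ := key 0
  obtain ⟨c', hc', h2⟩ := key 1
  refine ⟨c / c', ?_⟩
  rw [h1, h2, smul_smul, div_mul_cancel₀ _ hc']

theorem bounded_of_gmIn (h : GmIn E Q J) (hE : ∀ F ∈ E, IsForm F) {q : ℕ}
    (hQ : Q.IsHomogeneous q) : GmBounded E Q J := by
  refine ⟨0, fun T hT ⟨t, ht, hTt⟩ => ?_⟩
  have hN : ¬ GmNC T := fun hN => hTt (h T hT hN t ht)
  refine ⟨fun j => Polynomial.C ((T j).eval 1), fun j => ?_, ⟨fun s hs => ?_, fun s hs F hF => ?_,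
    fun s hs => ?_⟩, fun s hs => ?_⟩
  · rw [Polynomial.natDegree_C]
  · simp only [Polynomial.eval_C]
    exact hT.ne 1 one_ne_zero
  · simp only [Polynomial.eval_C]
    exact hT.mem 1 one_ne_zero F hF
  · simp only [Polynomial.eval_C]
    exact hT.off 1 one_ne_zero
  · simp only [Polynomial.eval_C]
    exact const_of_not hN hs one_ne_zero

/-- substitution of a monomial -/
theorem GmMor.pow {T : Fin (n + 1) → Polynomial ℂ} (h : GmMor E Q T) {u : ℂ} (hu : u ≠ 0)
    (k : ℕ) : GmMor E Q fun j => (T j).comp (Polynomial.C u * Polynomial.X ^ k) := by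
  have e : ∀ t : ℂ, (fun j => ((T j).comp (Polynomial.C u * Polynomial.X ^ k)).eval t) =
      fun j => (T j).eval (u * t ^ k) := by
    intro t
    funext j
    simp
  refine ⟨fun t ht => ?_, fun t ht => ?_, fun t ht => ?_⟩
  · rw [e]
    exact h.ne _ (mul_ne_zero hu (pow_ne_zero _ ht))
  · rw [e]
    exact h.mem _ (mul_ne_zero hu (pow_ne_zero _ ht))
  · rw [e]
    exact h.off _ (mul_ne_zero hu (pow_ne_zero _ ht))

/-- a polynomial map which coincides with its value at `u` on all the roots of unity of a large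
order is constant -/
theorem const_of_roots {T : Fin (n + 1) → Polynomial ℂ} {B k : ℕ} (hB : ∀ j, (T j).natDegree ≤ B)
    (hk : B < k) (h1 : (fun j => (T j).eval 1) ≠ 0)
    (h : ∀ ζ : ℂ, ζ ^ k = 1 → ∃ c : ℂ, (fun j => (T j).eval ζ) = c • fun j => (T j).eval 1)
    (t : ℂ) : ∃ c : ℂ, (fun j => (T j).eval t) = c • fun j => (T j).eval 1 := by
  refine same_of_cross h1 fun i j => ?_
  have hP : (Polynomial.C ((T j).eval 1) * T i - Polynomial.C ((T i).eval 1) * T j) = 0 := by
    refine Polynomial.eq_zero_of_natDegree_lt_card_of_eval_eq_zero'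
      _ (Polynomial.nthRootsFinset k (1 : ℂ)) (fun ζ hζ => ?_) ?_
    · rw [Polynomial.mem_nthRootsFinset (by omega)] at hζ
      have h2 := cross_of_same (h ζ hζ) i j
      rw [Polynomial.eval_sub, Polynomial.eval_mul, Polynomial.eval_mul, Polynomial.eval_C,
        Polynomial.eval_C]
      linear_combination h2
    · have h2 : (Polynomial.nthRootsFinset k (1 : ℂ)).card = k := by
        have hk0 : NeZero k := ⟨by omega⟩
        exact (Complex.isPrimitiveRoot_exp k (by omega)).card_nthRootsFinset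
      rw [h2]
      refine lt_of_le_of_lt ?_ hk
      refine (Polynomial.natDegree_sub_le _ _).trans (max_le ?_ ?_)
      · exact (Polynomial.natDegree_C_mul_le _ _).trans (hB i)
      · exact (Polynomial.natDegree_C_mul_le _ _).trans (hB j)
  have h2 := congrArg (Polynomial.eval t) hP
  rw [Polynomial.eval_sub, Polynomial.eval_mul, Polynomial.eval_mul, Polynomial.eval_C,
    Polynomial.eval_C, Polynomial.eval_zero] at h2
  linear_combination h2

theorem exists_deg (T : Fin (n + 1) → Polynomial ℂ) : ∃ B : ℕ, ∀ j, (T j).natDegree ≤ B :=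
  ⟨Finset.univ.sup fun j => (T j).natDegree, fun j =>
    Finset.le_sup (f := fun j => (T j).natDegree) (Finset.mem_univ j)⟩

theorem gmIn_of_bounded (h : GmBounded E Q J) : GmIn E Q J := by
  intro T hT hN u hu
  by_contra hTu
  obtain ⟨B, hB⟩ := h
  obtain ⟨T', hT'B, hT', hsame⟩ := hB _ (hT.pow hu (B + 1)) ⟨1, one_ne_zero, by
    have e : (fun j => ((T j).comp (Polynomial.C u * Polynomial.X ^ (B + 1))).eval 1) =
        fun j => (T j).eval u := by
      funext j
      simp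
    rw [e]
    exact hTu⟩
  have hsame' : ∀ t : ℂ, t ≠ 0 → ∃ c : ℂ, c ≠ 0 ∧ (fun j => (T j).eval (u * t ^ (B + 1))) =
      c • fun j => (T' j).eval t := by
    intro t ht
    obtain ⟨c, hc⟩ := hsame t ht
    have e : (fun j => ((T j).comp (Polynomial.C u * Polynomial.X ^ (B + 1))).eval t) =
        fun j => (T j).eval (u * t ^ (B + 1)) := by
      funext j
      simp
    rw [e] at hc
    refine ⟨c, ?_, hc⟩
    rintro rfl
    rw [zero_smul] at hc
    exact hT.ne _ (mul_ne_zero hu (pow_ne_zero _ ht)) hc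
  have hconst := const_of_roots hT'B (Nat.lt_succ_self B) (hT'.ne 1 one_ne_zero) fun ζ hζ => by
    have hζ0 : ζ ≠ 0 := by
      rintro rfl
      rw [zero_pow (Nat.succ_ne_zero B)] at hζ
      exact zero_ne_one hζ
    obtain ⟨c, hc0, hc⟩ := hsame' ζ hζ0
    obtain ⟨c', hc0', hc'⟩ := hsame' 1 one_ne_zero
    rw [hζ] at hc
    rw [one_pow] at hc'
    refine ⟨c⁻¹ * c', ?_⟩
    rw [← smul_smul, ← hc', hc, smul_smul, inv_mul_cancel₀ hc0, one_smul]
  obtain ⟨s, t, hs, ht, hst⟩ := hN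
  -- every nonzero number is `u` times a power
  have hroot : ∀ s : ℂ, s ≠ 0 → ∃ w : ℂ, w ≠ 0 ∧ u * w ^ (B + 1) = s := by
    intro s hs
    obtain ⟨w, hw⟩ := IsAlgClosed.exists_pow_nat_eq (s / u) (Nat.succ_pos B)
    refine ⟨w, ?_, by rw [hw]; field_simp⟩
    rintro rfl
    rw [zero_pow (Nat.succ_ne_zero B)] at hw
    exact div_ne_zero hs hu hw.symm
  have hall : ∀ s : ℂ, s ≠ 0 → ∃ c : ℂ, c ≠ 0 ∧ (fun j => (T j).eval s) =
      c • fun j => (T' j).eval 1 := by
    intro s hs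
    obtain ⟨w, hw0, hw⟩ := hroot s hs
    obtain ⟨c, hc0, hc⟩ := hsame' w hw0
    obtain ⟨c', hc'⟩ := hconst w
    rw [hw] at hc
    refine ⟨c * c', ?_, by rw [hc, hc', smul_smul]⟩
    intro h0
    apply hT.ne s hs
    rw [hc, hc', smul_smul, h0, zero_smul]
  obtain ⟨c, hc0, hc⟩ := hall s hs
  obtain ⟨c', hc0', hc'⟩ := hall t ht
  apply hst (c / c')
  rw [hc, hc', smul_smul, div_mul_cancel₀ _ hc0']

theorem gmIn_of_pointed (h : GmPointed E Q J) : GmIn E Q J := by
  intro T hT hN u hu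
  by_contra hTu
  obtain ⟨N, hNN⟩ := h (fun j => (T j).eval u) hTu
  obtain ⟨a, b, hab, hsame⟩ := hNN (fun s j => (T j).comp
    (Polynomial.C u * Polynomial.X ^ ((s : ℕ) + 1))) (fun s => hT.pow hu _) (fun s => ⟨1, by
      rw [one_smul]
      funext j
      simp⟩)
  have e : ∀ (k : ℕ) (t : ℂ), (fun j => ((T j).comp (Polynomial.C u * Polynomial.X ^ k)).eval t) =
      fun j => (T j).eval (u * t ^ k) := by
    intro k t
    funext j
    simp
  have key : ∃ a b : ℕ, 0 < a ∧ a < b ∧ ∀ t : ℂ, t ≠ 0 → ∃ c : ℂ, c ≠ 0 ∧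
      (fun j => (T j).eval (u * t ^ a)) = c • fun j => (T j).eval (u * t ^ b) := by
    have h1 : ∀ t : ℂ, t ≠ 0 → ∃ c : ℂ, c ≠ 0 ∧ (fun j => (T j).eval (u * t ^ ((a : ℕ) + 1))) =
        c • fun j => (T j).eval (u * t ^ ((b : ℕ) + 1)) := by
      intro t ht
      obtain ⟨c, hc⟩ := hsame t ht
      simp only [e] at hc
      refine ⟨c, ?_, hc⟩
      rintro rfl
      rw [zero_smul] at hc
      exact hT.ne _ (mul_ne_zero hu (pow_ne_zero _ ht)) hc
    rcases lt_trichotomy (a : ℕ) b with h2 | h2 | h2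
    · exact ⟨a + 1, b + 1, by omega, by omega, h1⟩
    · exact absurd (Fin.ext h2) hab
    · refine ⟨b + 1, a + 1, by omega, by omega, fun t ht => ?_⟩
      obtain ⟨c, hc0, hc⟩ := h1 t ht
      exact ⟨c⁻¹, inv_ne_zero hc0, by rw [hc, smul_smul, inv_mul_cancel₀ hc0, one_smul]⟩
  clear e
  obtain ⟨a, b, ha, hlt, hkey⟩ := key
  -- iteration
  have hit : ∀ m : ℕ, ∀ t : ℂ, t ≠ 0 → ∃ c : ℂ, c ≠ 0 ∧
      (fun j => (T j).eval (u * t ^ a ^ m)) = c • fun j => (T j).eval (u * t ^ b ^ m) := by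
    intro m
    induction m with
    | zero => exact fun t _ => ⟨1, one_ne_zero, by simp⟩
    | succ m ih =>
      intro t ht
      obtain ⟨c, hc0, hc⟩ := ih (t ^ a) (pow_ne_zero _ ht)
      obtain ⟨c', hc0', hc'⟩ := hkey (t ^ b ^ m) (pow_ne_zero _ ht)
      refine ⟨c * c', mul_ne_zero hc0 hc0', ?_⟩
      rw [← pow_mul, ← pow_mul] at hc hc'
      rw [pow_succ', hc, mul_comm a (b ^ m), hc', smul_smul, ← pow_succ]
  obtain ⟨B, hB⟩ := exists_deg T
  obtain ⟨m, hm⟩ : ∃ m : ℕ, B * a ^ m < b ^ m := by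
    have h1 : (1 : ℝ) < (b : ℝ) / a := by
      rw [one_lt_div (by exact_mod_cast ha)]
      exact_mod_cast hlt
    obtain ⟨m, hm⟩ := pow_unbounded_of_one_lt (B : ℝ) h1
    refine ⟨m, ?_⟩
    rw [div_pow, lt_div_iff₀ (by positivity)] at hm
    exact_mod_cast hm
  set T1 : Fin (n + 1) → Polynomial ℂ := fun j =>
    (T j).comp (Polynomial.C u * Polynomial.X ^ a ^ m) with hT1
  have e1 : ∀ t : ℂ, (fun j => (T1 j).eval t) = fun j => (T j).eval (u * t ^ a ^ m) := by
    intro t
    funext j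
    simp [hT1]
  have hconst := const_of_roots (T := T1) (B := B * a ^ m) (k := b ^ m) (fun j => by
      simp only [hT1]
      rw [Polynomial.natDegree_comp]
      refine Nat.mul_le_mul (hB j) ?_
      exact (Polynomial.natDegree_C_mul_X_pow_le u _)) hm (by
      rw [e1]
      exact hT.ne _ (mul_ne_zero hu (pow_ne_zero _ one_ne_zero))) fun ζ hζ => by
    have hζ0 : ζ ≠ 0 := by
      rintro rfl
      rw [zero_pow (by
        have : 0 < b ^ m := Nat.pow_pos (by omega)
        omega)] at hζ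
      exact zero_ne_one hζ
    obtain ⟨c, hc0, hc⟩ := hit m ζ hζ0
    rw [hζ] at hc
    refine ⟨c, ?_⟩
    rw [e1, e1, hc, one_pow]
  obtain ⟨s, t, hs, ht, hst⟩ := hN
  have hroot : ∀ s : ℂ, s ≠ 0 → ∃ w : ℂ, w ≠ 0 ∧ u * w ^ a ^ m = s := by
    intro s hs
    have ham : 0 < a ^ m := Nat.pow_pos ha
    obtain ⟨w, hw⟩ := IsAlgClosed.exists_pow_nat_eq (s / u) ham
    refine ⟨w, ?_, by rw [hw]; field_simp⟩
    rintro rfl
    rw [zero_pow ham.ne'] at hw
    exact div_ne_zero hs hu hw.symm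
  have hall : ∀ s : ℂ, s ≠ 0 → ∃ c : ℂ, c ≠ 0 ∧ (fun j => (T j).eval s) =
      c • fun j => (T1 j).eval 1 := by
    intro s hs
    obtain ⟨w, hw0, hw⟩ := hroot s hs
    obtain ⟨c', hc'⟩ := hconst w
    rw [e1, hw] at hc'
    refine ⟨c', ?_, hc'⟩
    rintro rfl
    rw [zero_smul] at hc'
    exact hT.ne s hs hc'
  obtain ⟨c, hc0, hc⟩ := hall s hs
  obtain ⟨c', hc0', hc'⟩ := hall t ht
  apply hst (c / c')
  rw [hc, hc', smul_smul, div_mul_cancel₀ _ hc0']

/-- **The equivalence.** -/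
theorem rig_tfae {d q : ℕ} (hE : ∀ F ∈ E, ∃ e ≤ d, F.IsHomogeneous e) (hq : q ≤ d)
    (hQ : Q.IsHomogeneous q) (hJ : ∀ H ∈ J, IsForm H) :
    List.TFAE [∀ f, EntireCurve (Ideal.span E) Q f → (∃ z, ¬ InD J (f z)) → Rigid E Q f,
      GmIn E Q J, GmPointed E Q J, GmBounded E Q J] := by
  have hE' : ∀ F ∈ E, IsForm F := fun F hF => by
    obtain ⟨e, -, he⟩ := hE F hF
    exact ⟨e, he⟩
  tfae_have 1 → 2 := gmIn_of_rigid
  tfae_have 2 → 1 := fun h f hf hoff => (rigid_of_gmIn hE hq hQ hJ h hf hoff).1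
  tfae_have 2 → 3 := fun h => pointed_of_gmIn h hJ
  tfae_have 3 → 2 := gmIn_of_pointed
  tfae_have 2 → 4 := fun h => bounded_of_gmIn h hE' hQ
  tfae_have 4 → 2 := gmIn_of_bounded
  tfae_finish

end Pool.Agent.Q72.SH
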