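import Pool.Agent.Q72.SH.Rig

/-!
Subvarieties of (logarithmic) general type, and rigid entire curves.
-/

set_option autoImplicit false

namespace Pool.Agent.Q72.SH

open Finset MvPolynomial Filter Topology
open Pool.Agent.TH143.EL Pool.Agent.TH143.GT Pool.Agent.W602.GT Pool.Agent.TH143
open Pool.Agent.W603.BPR (EntireCurve)
open Pool.Agent.W603.GR (SubVarP OffQ)
open Pool.Agent.Y189.DD (torus_not_gt)

variable {n : ℕ} {E : Set (MvPolynomial (Fin (n + 1)) ℂ)} {Q : MvPolynomial (Fin (n + 1)) ℂ}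
  {f : ℂ → Fin (n + 1) → ℂ}

/-- polynomials without nonzero roots -/
theorem eq_mono {P : Polynomial ℂ} (h : ∀ t, t ≠ 0 → P.eval t ≠ 0) :
    ∃ (c : ℂ) (m : ℕ), c ≠ 0 ∧ P = Polynomial.C c * Polynomial.X ^ m := by
  have hP : P ≠ 0 := by
    rintro rfl
    exact h 1 one_ne_zero Polynomial.eval_zero
  obtain ⟨q, hq, hnd⟩ := Polynomial.exists_eq_pow_rootMultiplicity_mul_and_not_dvd P hP 0
  set m := Polynomial.rootMultiplicity 0 P
  have hq0 : q ≠ 0 := by
    rintro rfl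
    exact hnd (dvd_zero _)
  have hdeg : q.degree = 0 := by
    by_contra hcon
    obtain ⟨r, hr⟩ := IsAlgClosed.exists_root q hcon
    by_cases hr0 : r = 0
    · rw [hr0] at hr
      exact hnd (Polynomial.dvd_iff_isRoot.2 hr)
    · apply h r hr0
      rw [hq, Polynomial.eval_mul, hr.eq_zero, mul_zero]
  rw [Polynomial.eq_C_of_degree_eq_zero hdeg] at hq
  refine ⟨q.coeff 0, m, ?_, ?_⟩
  · intro h0
    apply hP
    rw [hq, h0, Polynomial.C_0, mul_zero]
  · rw [hq, Polynomial.C_0, sub_zero, mul_comm]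

/-- the closure of an entire curve as a subvariety -/
theorem exists_sub_curve (hE : ∀ F ∈ E, IsForm F) {q : ℕ} (hQ : Q.IsHomogeneous q)
    (hf : EntireCurve (Ideal.span E) Q f) :
    ∃ (K : Type) (_ : Field K) (_ : Algebra ℂ K) (w : ℕ) (y : Fin (n + 1) → K),
      SubVarP (Ideal.span E) Q K w y ∧ FunField (idl f) Q K w y ∧ 0 < w ∧
      ∀ G, IsForm G → (W602.GT.val y G = 0 ↔ ∀ z : ℂ, eval (f z) G = 0) := by
  obtain ⟨j0, hj0⟩ : ∃ j, f 0 j ≠ 0 := by
    by_contra hc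
    push Not at hc
    exact (hf.2.1 0).1 (funext hc)
  obtain ⟨K, i1, i2, w, y, h1, h2, h3, h4, -⟩ := exists_closure f isPreconnected_univ
    (fun j z _ => (coord_diff hf.1 j).analyticAt z) ⟨0, Set.mem_univ _, hj0⟩
  have hrel : ∀ G, IsForm G → (W602.GT.val y G = 0 ↔ ∀ z : ℂ, eval (f z) G = 0) :=
    fun G hG => (h4 G hG).trans ⟨fun h z => h z (Set.mem_univ _), fun h z _ => h z⟩
  have hoff : W602.GT.val y Q ≠ 0 := by
    intro h0
    exact (hf.2.1 0).2.2 ((hrel Q ⟨q, hQ⟩).1 h0 0)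
  have hFF : FunField (idl f) Q K w y := by
    refine ⟨⟨h1, fun H hH => ?_, hoff, h2, h3⟩, fun H hH h0 => ?_⟩
    · have h5 : idl f ≤ RingHom.ker (aeval y : MvPolynomial (Fin (n + 1)) ℂ →ₐ[ℂ] K) := by
        unfold idl
        rw [Ideal.span_le]
        intro G hG
        exact (hrel G hG.1).2 hG.2
      exact h5 hH
    · exact Ideal.subset_span ⟨hH, (hrel H hH).1 h0⟩
  refine ⟨K, i1, i2, w, y, ⟨h1, fun H hH => ?_, hoff, h2, h3⟩, hFF, pos_dim hFF (EC.idl hf), hrel⟩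
  have h5 : Ideal.span E ≤ RingHom.ker (aeval y : MvPolynomial (Fin (n + 1)) ℂ →ₐ[ℂ] K) := by
    rw [Ideal.span_le]
    intro G hG
    exact (hrel G (hE G hG)).2 fun z => (hf.2.1 z).2.1 G (Ideal.subset_span hG)
  exact h5 hH

theorem ev_aeval (T : Fin (n + 1) → Polynomial ℂ) (G : MvPolynomial (Fin (n + 1)) ℂ) (z : ℂ) :
    (aeval T G : Polynomial ℂ).eval z = eval (fun j => (T j).eval z) G := eval_comp_poly T G z

/-- The closure of a nonconstant image of the multiplicative group is not flat. -/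
theorem not_allFlat {q : ℕ} (hQ : Q.IsHomogeneous q) {T : Fin (n + 1) → Polynomial ℂ}
    (hT : GmMor E Q T) (hN : GmNC T) {K : Type} [Field K] [Algebra ℂ K] {y : Fin (n + 1) → K}
    (hrel : ∀ G, IsForm G → (W602.GT.val y G = 0 ↔
      ∀ z : ℂ, eval (fun j => (T j).eval (Complex.exp z)) G = 0)) : ∃ r, ¬ AllFlat Q y r := by
  have hzero : ∀ G : MvPolynomial (Fin (n + 1)) ℂ, (aeval T G : Polynomial ℂ) = 0 ↔
      ∀ z : ℂ, eval (fun j => (T j).eval (Complex.exp z)) G = 0 := by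
    intro G
    constructor
    · intro h z
      rw [← ev_aeval, h, Polynomial.eval_zero]
    · intro h
      apply Polynomial.eq_zero_of_infinite_isRoot
      refine Set.Infinite.mono (s := {u : ℂ | u ≠ 0}) ?_
        (Set.finite_singleton (0 : ℂ)).infinite_compl
      intro u hu
      rw [Set.mem_ofPred_eq, Polynomial.IsRoot.def, ev_aeval]
      have h1 := h (Complex.log u)
      rwa [Complex.exp_log hu] at h1
  obtain ⟨c, l, hc, hcl⟩ := eq_mono (P := aeval T Q) fun t ht => by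
    rw [ev_aeval]
    exact hT.off t ht
  have hF : Fam y Q T l := ⟨fun G hG => (hrel G hG).trans (hzero G).symm, c, hc, hcl⟩
  have hm : Algebra.trdeg ℂ ℂ = (0 : ℕ) := by
    rw [Nat.cast_zero]
    exact _root_.trdeg_eq_zero
  obtain ⟨s, t, hs, ht, hst⟩ := hN
  obtain ⟨k, hk⟩ : ∃ k, (T k).eval t ≠ 0 := by
    by_contra hcon
    push Not at hcon
    exact hT.ne t ht (funext hcon)
  obtain ⟨j, hj⟩ : ∃ j, (T j).eval s * (T k).eval t ≠ (T k).eval s * (T j).eval t := by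
    by_contra hcon
    push Not at hcon
    apply hst ((T k).eval s / (T k).eval t)
    funext j
    rw [Pi.smul_apply, smul_eq_mul]
    field_simp
    exact hcon j
  have hder : Polynomial.derivative (aeval T (X j : MvPolynomial (Fin (n + 1)) ℂ)) *
      aeval T (X k : MvPolynomial (Fin (n + 1)) ℂ) ≠
      aeval T (X j : MvPolynomial (Fin (n + 1)) ℂ) *
        Polynomial.derivative (aeval T (X k : MvPolynomial (Fin (n + 1)) ℂ)) := by
    rw [aeval_X, aeval_X]
    intro h0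
    apply hj
    rw [poly_const h0 s t]
    ring
  have hyk : W602.GT.val y (X k : MvPolynomial (Fin (n + 1)) ℂ) ≠ 0 := by
    intro h0
    apply hder
    rw [(hF.rel (X k) ⟨1, isHomogeneous_X _ _⟩).1 h0, mul_zero, Polynomial.derivative_zero,
      mul_zero]
  refine ⟨W602.GT.val y (X j : MvPolynomial (Fin (n + 1)) ℂ) /
    W602.GT.val y (X k : MvPolynomial (Fin (n + 1)) ℂ), fun h => hder ?_⟩
  exact h ℂ 0 T l hm hF 1 (X j) (X k) (isHomogeneous_X _ _) (isHomogeneous_X _ _) hyk rfl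

theorem not_gmNC {q : ℕ} (hE : ∀ F ∈ E, IsForm F) (hQ : Q.IsHomogeneous q)
    (h : ∀ (K : Type) [Field K] [Algebra ℂ K] (w : ℕ) (y : Fin (n + 1) → K),
      SubVarP (Ideal.span E) Q K w y → 0 < w →
        LogGeneralType ℂ K w (OffQ Q q y) ∨ Q = 1 ∧ GeneralType ℂ K w)
    {T : Fin (n + 1) → Polynomial ℂ} (hT : GmMor E Q T) : ¬ GmNC T := by
  intro hN
  obtain ⟨K, i1, i2, w, y, h1, h2, h3, h4⟩ := exists_sub_curve hE hQ (hT.entire hN)
  obtain ⟨r, hr⟩ := not_allFlat hQ hT hN h4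
  apply hr
  rcases h K w y h1 h3 with h5 | ⟨rfl, h5⟩
  · exact Pool.Agent.TH143.DE.flat_gt h2 hQ h5 r
  · exact allFlat_of h2 (Or.inr (Or.inr h5)) r

/-- no tori -/
theorem not_torus_gt (hE : ∀ F ∈ E, IsForm F)
    (h : ∀ (K : Type) [Field K] [Algebra ℂ K] (w : ℕ) (y : Fin (n + 1) → K),
      SubVarP (Ideal.span E) 1 K w y → 0 < w → GeneralType ℂ K w)
    (hf : EntireCurve (Ideal.span E) 1 f) {ω₁ ω₂ : ℂ} (hp1 : SameCurve (fun z => f (z + ω₁)) f)
    (hp2 : SameCurve (fun z => f (z + ω₂)) f) : ¬ LinearIndependent ℝ ![ω₁, ω₂] := by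
  intro hind
  obtain ⟨K, i1, i2, w, y, h1, h2, h3, h4⟩ := exists_sub_curve hE (isHomogeneous_one _ _) hf
  have h0 : ∀ z, f z ≠ 0 := fun z => (hf.2.1 z).1
  exact torus_not_gt h2 (toP_hol hf.1 h0) (toP_inV h0 fun z => ((EC.idl hf).2.1 z).2.1)
    (toP_dense h0 (zd_idl f)) hind (fun z => toP_eq (z := z + ω₁) (w := z) h0 (hp1 z))
    (fun z => toP_eq (z := z + ω₂) (w := z) h0 (hp2 z)) h3 (h K w y h1 h3)

end Pool.Agent.Q72.SH
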