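import Pool.Agent.Q72.SH.RigAlg

/-!
Rigid entire curves in projective algebraic sets without maps from tori.
-/

set_option autoImplicit false

namespace Pool.Agent.Q72.SH

open Finset MvPolynomial Filter Topology
open Pool.Agent.TH143.EL Pool.Agent.TH143.GT Pool.Agent.W602.GT Pool.Agent.TH143
open Pool.Agent.W603.BPR (EntireCurve)

variable {n : ℕ} {E : Set (MvPolynomial (Fin (n + 1)) ℂ)} {Q : MvPolynomial (Fin (n + 1)) ℂ}
  {f : ℂ → Fin (n + 1) → ℂ}

/-- removing the common power of the variable -/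
theorem exists_red (P : Fin (n + 1) → Polynomial ℂ) (h : ∃ l, P l ≠ 0) :
    ∃ (m : ℕ) (P' : Fin (n + 1) → Polynomial ℂ), (∀ l, P l = Polynomial.X ^ m * P' l) ∧
      ∃ l, (P' l).eval 0 ≠ 0 := by
  obtain ⟨l0, hl0⟩ := h
  by_contra hcon
  push Not at hcon
  have key : ∀ m : ℕ, ∀ l, (Polynomial.X : Polynomial ℂ) ^ m ∣ P l := by
    intro m
    induction m with
    | zero => intro l; rw [pow_zero]; exact one_dvd _
    | succ m ih =>
      choose P' hP' using ih
      intro l
      have h1 := hcon m P' hP' l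
      rw [hP' l, pow_succ]
      refine mul_dvd_mul_left _ ?_
      rw [Polynomial.X_dvd_iff, Polynomial.coeff_zero_eq_eval_zero]
      exact h1
  have h1 := Polynomial.natDegree_le_of_dvd (key ((P l0).natDegree + 1) l0) hl0
  rw [Polynomial.natDegree_X_pow] at h1
  omega

/-- a form that vanishes along a polynomial curve outside of the origin -/
theorem poly_zero_at {P : Fin (n + 1) → Polynomial ℂ} {G : MvPolynomial (Fin (n + 1)) ℂ}
    (h : ∀ z : ℂ, z ≠ 0 → eval (fun l => (P l).eval z) G = 0) (z : ℂ) :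
    eval (fun l => (P l).eval z) G = 0 := by
  have h1 : (aeval P G : Polynomial ℂ) = 0 := by
    apply Polynomial.eq_zero_of_infinite_isRoot
    refine Set.Infinite.mono (s := {u : ℂ | u ≠ 0}) ?_
      (Set.finite_singleton (0 : ℂ)).infinite_compl
    intro u hu
    rw [Set.mem_ofPred_eq, Polynomial.IsRoot.def, ev_aeval]
    exact h u hu
  rw [← ev_aeval, h1, Polynomial.eval_zero]

/-- The closure of the image of the multiplicative group is a rational curve. -/
theorem poly_of_gm (hE : ∀ F ∈ E, IsForm F) (hf : EntireCurve (Ideal.span E) 1 f)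
    (hG : GmCurve f) : ∃ h, EntireCurve (Ideal.span E) 1 h ∧ PolyCurve h := by
  obtain ⟨P, hP⟩ := hG
  have hfP : ∀ z, f z = fun l => (P l).eval (Complex.exp z) := fun z => funext fun l => hP z l
  obtain ⟨m, P', hP', l1, hl1⟩ := exists_red P (by
    by_contra hcon
    push Not at hcon
    apply (hf.2.1 0).1
    funext l
    rw [hP, hcon, Polynomial.eval_zero, Pi.zero_apply])
  have hPP : ∀ z : ℂ, (fun l => (P l).eval z) = fun l => z ^ m * (P' l).eval z := by
    intro z
    funext l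
    rw [hP', Polynomial.eval_mul, Polynomial.eval_pow, Polynomial.eval_X]
  have hlog : ∀ z : ℂ, z ≠ 0 → f (Complex.log z) = fun l => z ^ m * (P' l).eval z := by
    intro z hz
    rw [hfP, Complex.exp_log hz]
    exact hPP z
  refine ⟨fun z l => (P' l).eval z, ⟨?_, fun z => ⟨?_, fun F hF => ?_, ?_⟩, ?_⟩,
    P', fun z l => rfl⟩
  · exact differentiable_pi.2 fun l => (P' l).differentiable
  · by_cases hz : z = 0
    · subst hz
      intro h0
      exact hl1 (congrFun h0 l1)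
    · intro h0
      apply (hf.2.1 (Complex.log z)).1
      rw [hlog z hz]
      funext l
      have h1 := congrFun h0 l
      simp only [Pi.zero_apply] at h1 ⊢
      rw [h1, mul_zero]
  · have h5 : Ideal.span E ≤ RingHom.ker (eval fun l => (P' l).eval z) := by
      rw [Ideal.span_le]
      intro G hG
      change eval (fun l => (P' l).eval z) G = 0
      refine poly_zero_at (fun u hu => ?_) z
      obtain ⟨e, he⟩ := hE G hG
      have h1 := (hf.2.1 (Complex.log u)).2.1 G (Ideal.subset_span hG)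
      rw [hlog u hu, eval_scale he] at h1
      exact (mul_eq_zero.1 h1).resolve_left (pow_ne_zero _ (pow_ne_zero _ hu))
    exact h5 hF
  · rw [map_one]
    exact one_ne_zero
  · obtain ⟨z, w, hzw⟩ := hf.2.2
    refine ⟨Complex.exp z, Complex.exp w, fun c hc => hzw ((Complex.exp z) ^ m * c *
      ((Complex.exp w) ^ m)⁻¹) ?_⟩
    rw [hfP, hfP, hPP, hPP]
    funext l
    have h1 := congrFun hc l
    simp only [Pi.smul_apply, smul_eq_mul] at h1 ⊢
    rw [h1]
    have h2 : (Complex.exp w) ^ m ≠ 0 := pow_ne_zero _ (Complex.exp_ne_zero w)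
    field_simp

/-- No nonconstant entire curve in the projective algebraic set given by `E` factors through a
one-dimensional complex torus. -/
def NoTor (E : Set (MvPolynomial (Fin (n + 1)) ℂ)) : Prop :=
  ∀ f, EntireCurve (Ideal.span E) 1 f → ¬ Torus f

theorem noTor_of_maps (h : NoTorusMaps E) : NoTor E := by
  rintro f hf ⟨ω₁, ω₂, hind, h1, h2⟩
  exact not_torus h hf h1 h2 hind

theorem not_spGm (hE : ∀ F ∈ E, IsForm F) (h : NoTor E) (x : Fin (n + 1) → ℂ) :
    x ∉ SpGm E 1 := by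
  rintro ⟨-, hx⟩
  have h1 := hx 1 ⟨0, isHomogeneous_one _ _⟩ (by
    rintro g ⟨hg, hG⟩
    obtain ⟨g', hg', hp⟩ := poly_of_gm hE hg hG
    obtain ⟨g'', hg'', ht, -⟩ := torus_of_poly hE hg' hp
    exact absurd ht (h g'' hg''))
  rw [map_one] at h1
  exact one_ne_zero h1

theorem rat_dep {ω₁ ω₂ c : ℂ} {r₁ r₂ : ℚ} (h1 : ω₁ = r₁ * c) (h2 : ω₂ = r₂ * c) :
    ¬ LinearIndependent ℝ ![ω₁, ω₂] := by
  intro hind
  rw [LinearIndependent.pair_iff] at hind
  have h3 := hind (r₂ : ℝ) (-(r₁ : ℝ)) (by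
    rw [h1, h2, Complex.real_smul, Complex.real_smul]
    push_cast
    ring)
  have h4 : (r₂ : ℝ) = 0 := h3.1
  have h5 : (r₁ : ℝ) = 0 := by linarith [h3.2]
  have h6 := hind 1 0 (by
    have : (r₁ : ℚ) = 0 := by exact_mod_cast h5
    rw [h1, this]
    simp)
  exact one_ne_zero h6.1

theorem RatPeriods.not_lattice (h : RatPeriods f) : ¬ Lattice f := by
  rintro ⟨ω₁, ω₂, hind, h1, h2⟩
  obtain ⟨c, hc⟩ := h
  obtain ⟨r₁, hr₁⟩ := hc ω₁ h1
  obtain ⟨r₂, hr₂⟩ := hc ω₂ h2
  exact rat_dep hr₁ hr₂ hind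

/-- all entire curves are rigid -/
theorem rigid_of_noTor {d : ℕ} (hE : ∀ F ∈ E, ∃ e ≤ d, F.IsHomogeneous e) (h : NoTor E)
    (hf : EntireCurve (Ideal.span E) 1 f) : Rigid E 1 f ∧ RatPeriods f := by
  have hE' : ∀ F ∈ E, IsForm F := fun F hF => by
    obtain ⟨e, -, he⟩ := hE F hF
    exact ⟨e, he⟩
  rcases rigid_or hE (Nat.zero_le d) (isHomogeneous_one _ _) hf with ⟨h1, M, hM⟩ | h1
  · exact ⟨h1, periods hM (EC.idl hf) (zd_idl f) fun ω₁ ω₂ p1 p2 hind =>
      h f hf ⟨ω₁, ω₂, hind, p1, p2⟩⟩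
  · exact absurd (h1 0) (not_spGm hE' h _)

/-- **The equivalence for projective sets.** -/
theorem proj_tfae {d : ℕ} (hE : ∀ F ∈ E, ∃ e ≤ d, F.IsHomogeneous e) :
    List.TFAE [NoTor E, ∀ f, EntireCurve (Ideal.span E) 1 f → Rigid E 1 f ∧ RatPeriods f,
      ∀ f, EntireCurve (Ideal.span E) 1 f → ¬ Lattice f] := by
  tfae_have 1 → 2 := fun h f hf => rigid_of_noTor hE h hf
  tfae_have 2 → 3 := fun h f hf => (h f hf).2.not_lattice
  tfae_have 3 → 1 := fun h f hf ht => h f hf (ht.lattice hf)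
  tfae_finish

/-- the uniform bound -/
theorem diag_of_noTor (n d : ℕ) : ∃ M : ℕ, ∀ E : Set (MvPolynomial (Fin (n + 1)) ℂ),
    (∀ F ∈ E, ∃ e ≤ d, F.IsHomogeneous e) → NoTor E →
    ∀ g : Fin (M + 1) → ℂ → Fin (n + 1) → ℂ, (∀ s, EntireCurve (Ideal.span E) 1 (g s)) →
      (∀ s t, SameSections (g s) (g t)) → ∃ s t, s ≠ t ∧ DiagEq (g s) (g t) := by
  obtain ⟨M, hM⟩ := diag_or_weighted n d
  refine ⟨M, fun E hE h g hg hs => ?_⟩
  have hE' : ∀ F ∈ E, IsForm F := fun F hF => by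
    obtain ⟨e, -, he⟩ := hE F hF
    exact ⟨e, he⟩
  rcases hM E hE 1 0 (Nat.zero_le d) (isHomogeneous_one _ _) g hg hs with h1 | ⟨s, h1⟩
  · exact h1
  · exact absurd (weighted_spGm hE (Nat.zero_le d) (isHomogeneous_one _ _) (hg s) h1 0)
      (not_spGm hE' h _)

/-- sets all of whose subvarieties are of general type -/
theorem noTor_of_gt (hE : ∀ F ∈ E, IsForm F)
    (h : ∀ (K : Type) [Field K] [Algebra ℂ K] (w : ℕ) (y : Fin (n + 1) → K),
      Pool.Agent.W603.GR.SubVarP (Ideal.span E) 1 K w y → 0 < w → GeneralType ℂ K w) :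
    NoTor E := by
  rintro f hf ⟨ω₁, ω₂, hind, h1, h2⟩
  exact not_torus_gt hE h hf h1 h2 hind

end Pool.Agent.Q72.SH
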