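import Pool.Agent.Q72.SH.Main
import Pool.Agent.TH143.EL.Proj

/-!
Entire curves with the same hyperplane sections which differ by constant diagonal matrices.
-/

set_option autoImplicit false

namespace Pool.Agent.Q72.SH

open Finset MvPolynomial Filter
open Pool.Agent.TH143.EL Pool.Agent.TH143.GT Pool.Agent.W602.GT Pool.Agent.TH143
open Pool.Agent.W603.BPR (EntireCurve)

variable {n D : ℕ} {p : Ideal (MvPolynomial (Fin (n + 1)) ℂ)}
  {Q : MvPolynomial (Fin (n + 1)) ℂ}
  {I : Type} {g : I → ℂ → Fin (n + 1) → ℂ} {f : ℂ → Fin (n + 1) → ℂ}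
  {G : I → Option (Fin (n + 1)) → Ent}
  {K : Type} [Field K] [Algebra ℂ K] {w : ℕ} {y : Fin (n + 1) → K}

theorem eval_scale {F : MvPolynomial (Fin (n + 1)) ℂ} {e : ℕ} (hF : F.IsHomogeneous e) (c : ℂ)
    (v : Fin (n + 1) → ℂ) : eval (fun j => c * v j) F = c ^ e * eval v F :=
  Pool.Agent.TH143.EL.eval_smul_homog hF c v

theorem coord_zero (hy : GP p Q y) (h : Data p Q g f G) {l : Fin (n + 1)}
    (hl : y l = 0) (s : I) (z : ℂ) : g s z l = 0 := by
  have h1 : (X l : MvPolynomial (Fin (n + 1)) ℂ) ∈ p := by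
    refine hy.gen _ ⟨1, isHomogeneous_X _ _⟩ ?_
    rw [aeval_X]
    exact hl
  have h2 := h.mem s z _ h1
  rwa [eval_X] at h2

/-- the indices of the variables which do not vanish -/
def JJ (y : Fin (n + 1) → K) : Set (Option (Fin (n + 1))) :=
  {l | ∀ m, l = some m → y m ≠ 0}

open Classical in
theorem Data.case2 (h : Data p Q g f G) (hd : ∀ s, ZDense p (g s) Set.univ) (hy : GP p Q y)
    {q : ℕ}
    (hQ : Q.IsHomogeneous q) (hQD : LeD (D + 1) Q)
    {Sg : Set (MvPolynomial (Fin (n + 1)) ℂ)} (hp : p = Ideal.span Sg)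
    (hSg : ∀ F ∈ Sg, LeD (D + 1) F ∧ ∃ e, F.IsHomogeneous e)
    {N1 : ℕ} (hN1 : ∀ (Δ : Set (Option (Ex (Fin (n + 1)) (D + 1)) ×
        Option (Ex (Fin (n + 1)) (D + 1)))) (J : Set (Option (Fin (n + 1))))
        (j0 : Option (Fin (n + 1))),
      (∃ b : Option (Fin (n + 1)) → ℤ, (∀ p ∈ Δ, wt b (ex' p.1) = wt b (ex' p.2)) ∧
        (∀ l, (l ∉ J ∨ l = j0) → b l = 0) ∧ ∃ l, b l ≠ 0) ∨
        ∀ F : Finset (Option (Fin (n + 1)) → ℂ),
          (F : Set (Option (Fin (n + 1)) → ℂ)) ⊆ Lam ex' Δ J j0 → F.card ≤ N1)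
    [DecidableEq I] {S : Finset I} (hS : N1 < S.card)
    (hinj : ∀ a b : Option (Ex (Fin (n + 1)) (D + 1)), ¬ rr (D + 1) G S a b → ∀ s ∈ S, ∀ t ∈ S,
      (gam (G s) a - gam (G s) b) - (gam (G t) a - gam (G t) b) ∈ Cst → s = t)
    (hrob : Robust (fun s (a : Option (Ex (Fin (n + 1)) (D + 1))) => eE (gam (G s) a))
      ((Fintype.card (Option (Ex (Fin (n + 1)) (D + 1)))).factorial ^ 2) S)
    (hdist : ∀ s ∈ S, ∀ t ∈ S, (∀ z, ∃ c : ℂ, g s z = c • g t z) → s = t)
    (hall : ∀ i j, y i ≠ 0 → y j ≠ 0 → rr (D + 1) G S (some (ei D i)) (some (ei D j))) :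
    ∃ b : Option (Fin (n + 1)) → ℤ,
      (∀ F ∈ Sg, ∀ k, aeval y (comp (D + 1) (fun l => b (some l)) k F) = 0) ∧
      (∀ k, k ≠ b none → aeval y (comp (D + 1) (fun l => b (some l)) k Q) = 0) ∧
      ∃ i j, y i ≠ 0 ∧ y j ≠ 0 ∧ b (some i) ≠ b (some j) := by
  obtain ⟨j0, hj0⟩ := Function.ne_iff.1 hy.ne
  have hj0' : y j0 ≠ 0 := hj0
  obtain ⟨t0, ht0⟩ := Finset.card_pos.1 (lt_of_le_of_lt (Nat.zero_le _) hS)
  -- constants
  have hκ : ∀ s l, ∃ κ : ℂ, s ∈ S → y l ≠ 0 → ∀ z, ((G s (some l)).1 z - (G s (some j0)).1 z) -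
      ((G t0 (some l)).1 z - (G t0 (some j0)).1 z) = κ := by
    intro s l
    by_cases hs : s ∈ S
    · by_cases hl : y l ≠ 0
      · obtain ⟨c, hc⟩ := hall l j0 hl hj0' s hs t0 ht0
        refine ⟨c, fun _ _ z => ?_⟩
        rw [← hc z, gam_ei, gam_ei, gam_ei, gam_ei]
        rfl
      · exact ⟨0, fun _ h2 => absurd h2 hl⟩
    · exact ⟨0, fun h2 => absurd h2 hs⟩
  choose κ hκ using hκ
  let lam : I → Fin (n + 1) → ℂ := fun s l => if y l = 0 then 1 else Complex.exp (κ s l)
  let ws : I → ℂ → ℂ := fun s z => (G s (some j0)).1 z - (G t0 (some j0)).1 z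
  have hgs : ∀ s ∈ S, ∀ z, g s z = fun l => Complex.exp (ws s z) * (lam s l * g t0 z l) := by
    intro s hs z
    funext l
    by_cases hl : y l = 0
    · rw [coord_zero hy h hl, coord_zero hy h hl, mul_zero, mul_zero]
    · have h1 := hκ s l hs hl z
      simp only [lam, if_neg hl]
      rw [h.unit s l z, h.unit t0 l z]
      have h2 : (G s (some l)).1 z = ws s z + (κ s l + (G t0 (some l)).1 z) := by
        rw [← h1]
        simp only [ws]
        ring
      rw [h2, Complex.exp_add, Complex.exp_add]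
      ring
  have hlam0 : ∀ s l, lam s l ≠ 0 := by
    intro s l
    simp only [lam]
    split_ifs
    · exact one_ne_zero
    · exact Complex.exp_ne_zero _
  -- the class of the boundary
  obtain ⟨a, ha1, ha2, ha3⟩ : ∃ a : Ex (Fin (n + 1)) (D + 1), rr (D + 1) G S (some a) none ∧
      coeff (fs a) Q ≠ 0 ∧ ∀ l, (a l : ℕ) ≠ 0 → y l ≠ 0 := by
    by_contra hcon
    push Not at hcon
    have h1 := h.core hinj hrob (fun a => rr (D + 1) G S a none) (by
      intro a b h2 h3 h4
      exact h3 (rr_trans (rr_symm h4) h2)) (v := vec h Q (-1)) (by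
        intro t _
        rw [h.row t hQD, h.bdry_hat t]
        ring) t0 ht0
    rw [Fintype.sum_option, if_pos (rr_refl S none), Finset.sum_eq_zero, add_zero, gam_none] at h1
    · have h2 : (vec h Q (-1) : Option (Ex (Fin (n + 1)) (D + 1)) → MK) none = -1 := rfl
      rw [h2] at h1
      have h3 := eE_ne (G t0 none)
      apply h3
      linear_combination -h1
    · intro a _
      split_ifs with h2
      · by_cases h3 : coeff (fs a) Q = 0
        · change algebraMap ℂ MK (coeff (fs a) Q) * (∏ l, hat h.fd l ^ (a l : ℕ)) * _ = 0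
          rw [h3, map_zero, zero_mul, zero_mul]
        · obtain ⟨l, hl1, hl2⟩ := hcon a h2 h3
          have h4 : hat h.fd l = 0 := by
            unfold hat
            rw [cl_eq_zero]
            refine Eventually.of_forall fun z => ?_
            have h5 := coord_zero hy h hl2 t0 z
            rw [h.unit t0 l z] at h5
            exact (mul_eq_zero.1 h5).resolve_left (Complex.exp_ne_zero _)
          change algebraMap ℂ MK (coeff (fs a) Q) * (∏ l, hat h.fd l ^ (a l : ℕ)) * _ = 0
          rw [Finset.prod_eq_zero (Finset.mem_univ l) (by rw [h4, zero_pow hl1]), mul_zero,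
            zero_mul]
      · rfl
  have hasum : ∑ l, (a l : ℕ) = q := homog_sum hQ ha2
  have hμ : ∀ s, ∃ μ : ℂ, μ ≠ 0 ∧ (s ∈ S → ∀ z, Complex.exp ((G s none).1 z) =
      Complex.exp (ws s z) ^ q * (μ * Complex.exp ((G t0 none).1 z))) := by
    intro s
    by_cases hs : s ∈ S
    · obtain ⟨c, hc⟩ := ha1 s hs t0 ht0
      refine ⟨Complex.exp (∑ l, (a l : ℕ) * κ s l - c), Complex.exp_ne_zero _, fun _ z => ?_⟩
      have hg : ∀ s : I, (gam (G s) (some a)).1 z = ∑ l, ((a l : ℕ) : ℂ) * (G s (some l)).1 z := by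
        intro s
        rw [gam_some]
        have h3 : Ent.subtype (∑ l, (a l : ℕ) • G s (some l)) =
          ∑ l, Ent.subtype ((a l : ℕ) • G s (some l)) := map_sum _ _ _
        change (Ent.subtype (∑ l, (a l : ℕ) • G s (some l))) z = _
        rw [h3, Finset.sum_apply]
        refine Finset.sum_congr rfl fun l _ => ?_
        rw [map_nsmul]
        change ((a l : ℕ) • (G s (some l)).1) z = _
        rw [Pi.smul_apply, nsmul_eq_mul]
      have h1 : ((gam (G s) (some a)).1 z -
          (gam (G s) (none : Option (Ex (Fin (n + 1)) (D + 1)))).1 z) -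
          ((gam (G t0) (some a)).1 z -
            (gam (G t0) (none : Option (Ex (Fin (n + 1)) (D + 1)))).1 z) = c := hc z
      rw [hg, hg, gam_none, gam_none] at h1
      have h2 : ∑ l, ((a l : ℕ) : ℂ) * (G s (some l)).1 z -
          ∑ l, ((a l : ℕ) : ℂ) * (G t0 (some l)).1 z =
          q * ws s z + ∑ l, (a l : ℕ) * κ s l := by
        rw [← hasum]
        push_cast
        rw [Finset.sum_mul, ← Finset.sum_sub_distrib, ← Finset.sum_add_distrib]
        refine Finset.sum_congr rfl fun l _ => ?_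
        by_cases h0 : (a l : ℕ) = 0
        · rw [h0]
          push_cast
          ring
        · have h3 := hκ s l hs (ha3 l h0) z
          rw [← h3]
          simp only [ws]
          ring
      have h3 : (G s none).1 z = q * ws s z + ((∑ l, (a l : ℕ) * κ s l - c) +
          (G t0 none).1 z) := by
        linear_combination h2 - h1
      rw [h3, Complex.exp_add, Complex.exp_add, Complex.exp_nat_mul]
    · exact ⟨1, one_ne_zero, fun h2 => absurd h2 hs⟩
  choose μ hμ0 hμ using hμ
  -- invariance of the ideal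
  have hpth : ∀ s ∈ S, ∀ F ∈ p, th (lam s) F ∈ p := by
    intro s hs
    have h1 : p ≤ p.comap (th (lam s)) := by
      conv_lhs => rw [hp]
      rw [Ideal.span_le]
      intro F hF
      obtain ⟨-, e, he⟩ := hSg F hF
      have hFp : F ∈ p := by
        rw [hp]
        exact Ideal.subset_span hF
      refine hd t0 _ ⟨e, th_homog _ he⟩ fun z _ => ?_
      rw [eval_th]
      have h2 := h.mem s z F hFp
      rw [hgs s hs z, eval_scale he] at h2
      exact (mul_eq_zero.1 h2).resolve_left (pow_ne_zero _ (Complex.exp_ne_zero _))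
    exact fun F hF => h1 hF
  have hQth : ∀ s ∈ S, th (lam s) Q - C (μ s) * Q ∈ p := by
    intro s hs
    refine hd t0 _ ⟨q, (th_homog _ hQ).sub ?_⟩ fun z _ => ?_
    · have := (isHomogeneous_C (Fin (n + 1)) (μ s)).mul hQ
      rwa [zero_add] at this
    · rw [map_sub, eval_th, map_mul, eval_C, h.bdry t0 z]
      have h2 := h.bdry s z
      rw [hgs s hs z, eval_scale hQ, hμ s hs z] at h2
      have h3 := mul_left_cancel₀ (pow_ne_zero _ (Complex.exp_ne_zero _)) h2
      rw [h3, sub_self]
  let lam' : I → Option (Fin (n + 1)) → ℂ := fun s l => match l with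
    | some l => lam s l
    | none => μ s
  have hstab : ∀ s ∈ S, ∀ c ∈ VV (D + 1) p Q,
      (fun a => mon (lam' s) (ex' a) * c a) ∈ VV (D + 1) p Q := by
    intro s hs c hc
    rw [mem_VV] at hc ⊢
    have h1 : (fun a : Ex (Fin (n + 1)) (D + 1) => mon (lam' s) (ex' (some a)) * c (some a)) =
        fun a => mon (lam s) (exf a) * c (some a) := by
      funext a
      rw [mon_some]
    rw [h1, ← th_poly, mon_none]
    have h2 := p.sub_mem (hpth s hs _ hc) (p.mul_mem_left (C (c none)) (hQth s hs))
    have h3 : th (lam s) (poly fun a => c (some a)) + C (lam' s none * c none) * Q =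
        th (lam s) (poly (fun a => c (some a)) + C (c none) * Q) -
          C (c none) * (th (lam s) Q - C (μ s) * Q) := by
      have h4 : th (lam s) (C (c none)) = C (c none) := (th (lam s)).commutes _
      rw [map_add, map_mul (th (lam s)), h4]
      have h5 : lam' s none = μ s := rfl
      rw [h5, C_mul]
      ring
    rw [h3]
    exact h2
  have hLam : ∀ s ∈ S, lam' s ∈ Lam ex' (Dl (VV (D + 1) p Q)) (JJ y) (some j0) := by
    intro s hs
    have h0 : ∀ j, lam' s j ≠ 0 := by
      intro j
      cases j with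
      | some l => exact hlam0 s l
      | none => exact hμ0 s
    refine ⟨h0, fun j hj => ?_, fun pp hpp => mon_eq_of_stab ex' h0 (hstab s hs) hpp⟩
    rcases hj with hj | rfl
    · unfold JJ at hj
      simp only [Set.mem_ofPred_eq] at hj
      push Not at hj
      obtain ⟨m, rfl, hm⟩ := hj
      change (if y m = 0 then (1 : ℂ) else Complex.exp (κ s m)) = 1
      rw [if_pos hm]
    · change (if y j0 = 0 then (1 : ℂ) else Complex.exp (κ s j0)) = 1
      rw [if_neg hj0']
      have h1 := hκ s j0 hs hj0' 0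
      rw [sub_self, sub_self, sub_self] at h1
      rw [← h1, Complex.exp_zero]
  have hinjl : Set.InjOn lam' (S : Set I) := by
    intro s hs t ht hst
    refine hdist s hs t ht fun z => ⟨Complex.exp (ws s z - ws t z), ?_⟩
    funext l
    rw [Pi.smul_apply, smul_eq_mul, hgs s hs z, hgs t ht z]
    have h1 : lam s l = lam t l := congrFun hst (some l)
    have h2 : Complex.exp (ws s z) = Complex.exp (ws s z - ws t z) * Complex.exp (ws t z) := by
      rw [← Complex.exp_add, sub_add_cancel]
    simp only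
    rw [h1, h2]
    ring
  rcases hN1 (Dl (VV (D + 1) p Q)) (JJ y) (some j0) with ⟨b, hb1, hb2, hb3⟩ | hfin
  swap
  · exfalso
    have h1 := hfin (S.image lam') (by
      intro x hx
      rw [Finset.mem_coe, Finset.mem_image] at hx
      obtain ⟨s, hs, rfl⟩ := hx
      exact hLam s hs)
    rw [Finset.card_image_of_injOn hinjl] at h1
    omega
  have hcompF : ∀ F : MvPolynomial (Fin (n + 1)) ℂ, LeD (D + 1) F → ∀ t : ℂ, F + C t * Q ∈ p →
      ∀ k, (k ≠ b none ∨ t = 0) → aeval y (comp (D + 1) (fun l => b (some l)) k F) = 0 := by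
    intro F hFD t hFt k hk
    let c : Option (Ex (Fin (n + 1)) (D + 1)) → ℂ := fun a => match a with
      | some a => coeff (fs a) F
      | none => t
    have hc : c ∈ VV (D + 1) p Q := by
      rw [mem_VV]
      change poly (fun a => coeff (fs a) F) + C t * Q ∈ p
      rw [poly_coeff hFD]
      exact hFt
    have h1 := comp_mem ex' hb1 k hc
    rw [mem_VV] at h1
    have h2 : (if wt b (ex' (none : Option (Ex (Fin (n + 1)) (D + 1)))) = k then c none else 0) =
        0 := by
      rw [wt_none]
      split_ifs with h3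
      · rcases hk with hk | hk
        · exact absurd h3.symm hk
        · exact hk
      · rfl
    rw [h2, C_0, zero_mul, add_zero] at h1
    refine hy.mem _ ?_
    unfold comp
    have h3 : (fun a : Ex (Fin (n + 1)) (D + 1) => if wt (fun l => b (some l)) (exf a) = k then
        coeff (fs a) F else 0) = fun a => if wt b (ex' (some a)) = k then c (some a) else 0 := by
      funext a
      rw [wt_some]
    rw [h3]
    exact h1
  refine ⟨b, fun F hF k => ?_, fun k hk => ?_, ?_⟩
  · have hFp : F ∈ p := by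
      rw [hp]
      exact Ideal.subset_span hF
    exact hcompF F (hSg F hF).1 0 (by rw [C_0, zero_mul, add_zero]; exact hFp) k (Or.inr rfl)
  · exact hcompF Q hQD (-1) (by
      rw [C_neg, C_1, neg_one_mul, add_neg_cancel]
      exact p.zero_mem) k (Or.inl hk)
  · by_contra hcon
    push Not at hcon
    have hbj0 : b (some j0) = 0 := hb2 _ (Or.inr rfl)
    have hbl : ∀ l, b (some l) = 0 := by
      intro l
      by_cases hl : y l = 0
      · refine hb2 _ (Or.inl ?_)
        intro h1
        exact h1 l rfl hl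
      · rw [hcon l j0 hl hj0', hbj0]
    obtain ⟨l, hl⟩ := hb3
    have hbn : b none ≠ 0 := by
      cases l with
      | some l => exact absurd (hbl l) hl
      | none => exact hl
    have h1 := hcompF Q hQD (-1) (by
      rw [C_neg, C_1, neg_one_mul, add_neg_cancel]
      exact p.zero_mem) 0 (Or.inl hbn.symm)
    apply hy.off
    rw [← h1, aeval_comp, aeval_sum _ hQD]
    refine Finset.sum_congr rfl fun a _ => ?_
    rw [if_pos]
    unfold wt
    refine Finset.sum_eq_zero fun l _ => ?_
    change b (some l) * _ = 0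
    rw [hbl l, zero_mul]

end Pool.Agent.Q72.SH
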