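import Mathlib

/-!
Vectors of minimal support in a subspace; robust sets of vectors; choice of subsets on which
functions are constant or injective.
-/

set_option autoImplicit false

namespace Pool.Agent.Q72.SH

open Finset

section circ

variable {k : Type*} [Field k] {A : Type*} [Fintype A] [DecidableEq A]

/-- `c` is a nonzero vector of `V` of minimal support. -/
def IsCirc (V : Submodule k (A → k)) (c : A → k) : Prop :=
  c ∈ V ∧ c ≠ 0 ∧ ∀ c' ∈ V, c' ≠ 0 → (∀ a, c a = 0 → c' a = 0) → ∀ a, c' a = 0 → c a = 0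

/-- the vectors of minimal support span -/
theorem circ_span (V V' : Submodule k (A → k)) (h : ∀ c, IsCirc V c → c ∈ V') : V ≤ V' := by
  classical
  let sp : (A → k) → Finset A := fun c => univ.filter fun a => c a ≠ 0
  have hsp : ∀ c a, a ∈ sp c ↔ c a ≠ 0 := fun c a => by simp [sp]
  have key : ∀ n : ℕ, ∀ c ∈ V, (sp c).card = n → c ∈ V' := by
    intro n
    induction n using Nat.strong_induction_on with
    | _ n ih =>
      intro c hc hn
      by_cases h0 : c = 0
      · rw [h0]; exact V'.zero_mem
      -- a circuit inside the support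
      obtain ⟨c', hc', hmin⟩ : ∃ c', (c' ∈ V ∧ c' ≠ 0 ∧ ∀ a, c a = 0 → c' a = 0) ∧
          ∀ d, (d ∈ V ∧ d ≠ 0 ∧ ∀ a, c a = 0 → d a = 0) → (sp c').card ≤ (sp d).card := by
        let P : ℕ → Prop := fun m => ∃ d, (d ∈ V ∧ d ≠ 0 ∧ ∀ a, c a = 0 → d a = 0) ∧
          (sp d).card = m
        have hP : ∃ m, P m := ⟨_, c, ⟨hc, h0, fun a h => h⟩, rfl⟩
        obtain ⟨d, hd, hdm⟩ := Nat.find_spec hP
        exact ⟨d, hd, fun d' hd' => by
          rw [hdm]; exact Nat.find_min' hP ⟨d', hd', rfl⟩⟩
      have hcirc : IsCirc V c' := by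
        refine ⟨hc'.1, hc'.2.1, fun d hd hd0 hdc a hda => ?_⟩
        have h1 := hmin d ⟨hd, hd0, fun a ha => hdc a (hc'.2.2 a ha)⟩
        have h2 : sp d ⊆ sp c' := by
          intro x hx
          rw [hsp] at hx ⊢
          exact fun h3 => hx (hdc x h3)
        have h3 := Finset.eq_of_subset_of_card_le h2 h1
        by_contra h4
        have h5 : a ∈ sp c' := (hsp _ _).2 h4
        rw [← h3, hsp] at h5
        exact h5 hda
      obtain ⟨a, ha⟩ := Function.ne_iff.1 hc'.2.1
      have ha' : c' a ≠ 0 := ha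
      have hca : c a ≠ 0 := fun h1 => ha' (hc'.2.2 a h1)
      set d : A → k := c - (c a / c' a) • c' with hd
      have hdV : d ∈ V := V.sub_mem hc (V.smul_mem _ hc'.1)
      have hda : d a = 0 := by
        simp only [hd, Pi.sub_apply, Pi.smul_apply, smul_eq_mul]
        field_simp
        ring
      have hlt : (sp d).card < n := by
        rw [← hn]
        apply Finset.card_lt_card
        refine ⟨fun x hx => ?_, fun hsub => ?_⟩
        · rw [hsp] at hx ⊢
          intro h1
          apply hx
          simp only [hd, Pi.sub_apply, Pi.smul_apply, smul_eq_mul]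
          rw [h1, hc'.2.2 x h1]
          ring
        · have := hsub ((hsp c a).2 hca)
          rw [hsp] at this
          exact this hda
      have h1 := ih _ hlt d hdV rfl
      have h2 : c = d + (c a / c' a) • c' := by rw [hd]; abel
      rw [h2]
      exact V'.add_mem h1 (V'.smul_mem _ (h c' hcirc))
  exact fun c hc => key _ c hc rfl

/-- vectors of the subspace supported in the support of a circuit are multiples of it -/
theorem IsCirc.unique {V : Submodule k (A → k)} {c : A → k} (hc : IsCirc V c) {d : A → k}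
    (hd : d ∈ V) (hs : ∀ a, c a = 0 → d a = 0) : ∃ t : k, d = t • c := by
  obtain ⟨a, ha⟩ := Function.ne_iff.1 hc.2.1
  have ha' : c a ≠ 0 := ha
  refine ⟨d a / c a, ?_⟩
  by_contra hne
  have h1 : d - (d a / c a) • c ≠ 0 := sub_ne_zero.2 hne
  have h2 := hc.2.2 _ (V.sub_mem hd (V.smul_mem (d a / c a) hc.1)) h1 (fun x hx => by
    simp only [Pi.sub_apply, Pi.smul_apply, smul_eq_mul]
    rw [hx, hs x hx]; ring) a (by
    simp only [Pi.sub_apply, Pi.smul_apply, smul_eq_mul]
    field_simp
    ring)
  exact ha' h2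

end circ

section robust

variable {K : Type*} [Field K] {A : Type*} [Fintype A] {I : Type*} [DecidableEq I]

/-- no `T` elements of `S` can be removed from `S` without the others spanning the same space -/
def Robust (R : I → A → K) (T : ℕ) (S : Finset I) : Prop :=
  ∀ B ⊆ S, B.card ≤ T → ∀ s ∈ S, R s ∈ Submodule.span K (R '' ((S \ B : Finset I) : Set I))

theorem exists_robust (R : I → A → K) (T m : ℕ) : ∀ (r : ℕ) (S : Finset I),
    Module.finrank K (Submodule.span K (R '' (S : Set I))) ≤ r → r * T + m ≤ S.card →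
    ∃ S' ⊆ S, m ≤ S'.card ∧ Robust R T S' := by
  intro r
  induction r with
  | zero =>
    intro S hS hc
    refine ⟨S, subset_rfl, by omega, fun B _ _ s hs => ?_⟩
    have h1 : Submodule.span K (R '' (S : Set I)) = ⊥ :=
      Submodule.finrank_eq_zero.1 (Nat.le_zero.1 hS)
    have h2 : R s ∈ Submodule.span K (R '' (S : Set I)) :=
      Submodule.subset_span ⟨s, hs, rfl⟩
    rw [h1, Submodule.mem_bot] at h2
    rw [h2]
    exact Submodule.zero_mem _
  | succ r ih =>
    intro S hS hc
    by_cases hrob : Robust R T S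
    · exact ⟨S, subset_rfl, by
        have : (r + 1) * T = r * T + T := by ring
        omega, hrob⟩
    · unfold Robust at hrob
      push Not at hrob
      obtain ⟨B, hB, hBT, s, hs, hsB⟩ := hrob
      have h1 : Submodule.span K (R '' ((S \ B : Finset I) : Set I)) <
          Submodule.span K (R '' (S : Set I)) := by
        refine lt_of_le_of_ne (Submodule.span_mono (Set.image_mono ?_)) fun h2 => hsB ?_
        · intro x hx
          exact (Finset.mem_sdiff.1 (Finset.mem_coe.1 hx)).1
        · rw [h2]
          exact Submodule.subset_span ⟨s, hs, rfl⟩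
      have h2 := Submodule.finrank_lt_finrank_of_lt h1
      have h3 : (S \ B).card = S.card - B.card := Finset.card_sdiff_of_subset hB
      obtain ⟨S', h4, h5, h6⟩ := ih (S \ B) (by omega) (by
        rw [h3]
        have : (r + 1) * T = r * T + T := by ring
        omega)
      exact ⟨S', h4.trans Finset.sdiff_subset, h5, h6⟩

end robust

section pigeon

variable {I : Type*} [DecidableEq I]

/-- constant or injective on `S` -/
def CI {X : Type*} (c : I → X) (S : Finset I) : Prop :=
  (∀ s ∈ S, ∀ t ∈ S, c s = c t) ∨ (∀ s ∈ S, ∀ t ∈ S, c s = c t → s = t)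

theorem CI.mono {X : Type*} {c : I → X} {S S' : Finset I} (h : CI c S) (hS : S' ⊆ S) :
    CI c S' := by
  rcases h with h | h
  · exact Or.inl fun s hs t ht => h s (hS hs) t (hS ht)
  · exact Or.inr fun s hs t ht => h s (hS hs) t (hS ht)

theorem exists_CI_one {X : Type*} (c : I → X) (m : ℕ) (S : Finset I) (hS : m * m < S.card) :
    ∃ S' ⊆ S, m ≤ S'.card ∧ CI c S' := by
  classical
  by_cases h : m ≤ (S.image c).card
  · -- representatives
    obtain ⟨s0, hs0⟩ := Finset.card_pos.1 (show 0 < S.card by omega)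
    have : Nonempty I := ⟨s0⟩
    have h1 : ∀ x ∈ S.image c, ∃ s ∈ S, c s = x := fun x hx => Finset.mem_image.1 hx
    choose! g hg1 hg2 using h1
    refine ⟨(S.image c).image g, ?_, ?_, Or.inr ?_⟩
    · intro x hx
      obtain ⟨y, hy, rfl⟩ := Finset.mem_image.1 hx
      exact hg1 y hy
    · rw [Finset.card_image_of_injOn]
      · exact h
      · intro x hx y hy hxy
        have h2 := congrArg c hxy
        rwa [hg2 x hx, hg2 y hy] at h2
    · intro s hs t ht hst
      obtain ⟨x, hx, rfl⟩ := Finset.mem_image.1 hs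
      obtain ⟨y, hy, rfl⟩ := Finset.mem_image.1 ht
      rw [hg2 x hx, hg2 y hy] at hst
      rw [hst]
  · push Not at h
    obtain ⟨x, hx, hxm⟩ := Finset.exists_lt_card_fiber_of_mul_lt_card_of_maps_to
      (s := S) (t := S.image c) (f := c) (n := m) (fun a ha => Finset.mem_image_of_mem _ ha) (by
        have : (S.image c).card * m ≤ m * m := Nat.mul_le_mul_right m h.le
        omega)
    refine ⟨S.filter fun s => c s = x, Finset.filter_subset _ _, hxm.le, Or.inl ?_⟩
    intro s hs t ht
    rw [(Finset.mem_filter.1 hs).2, (Finset.mem_filter.1 ht).2]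

/-- **Choice of a subset.** -/
theorem exists_CI {P : Type*} [Finite P] (m : ℕ) : ∃ N : ℕ, ∀ (I : Type) [DecidableEq I]
    (X : Type) (c : P → I → X) (S : Finset I), N ≤ S.card → ∃ S' ⊆ S, m ≤ S'.card ∧
      ∀ p, CI (c p) S' := by
  classical
  have := Fintype.ofFinite P
  have key : ∀ Q : Finset P, ∃ N : ℕ, ∀ (I : Type) [DecidableEq I] (X : Type) (c : P → I → X)
      (S : Finset I), N ≤ S.card → ∃ S' ⊆ S, m ≤ S'.card ∧ ∀ p ∈ Q, CI (c p) S' := by
    intro Q
    induction Q using Finset.induction_on with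
    | empty => exact ⟨m, fun I _ X c S hS => ⟨S, subset_rfl, hS, fun p hp =>
        absurd hp (Finset.notMem_empty p)⟩⟩
    | insert q Q _ ih =>
      obtain ⟨N, hN⟩ := ih
      refine ⟨N * N + 1, fun I _ X c S hS => ?_⟩
      obtain ⟨S1, h1, h2, h3⟩ := exists_CI_one (c q) N S (by omega)
      obtain ⟨S2, h4, h5, h6⟩ := hN I X c S1 h2
      refine ⟨S2, h4.trans h1, h5, fun p hp => ?_⟩
      rcases Finset.mem_insert.1 hp with rfl | hp
      · exact h3.mono h4
      · exact h6 p hp
  obtain ⟨N, hN⟩ := key Finset.univ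
  exact ⟨N, fun I _ X c S hS => by
    obtain ⟨S', h1, h2, h3⟩ := hN I X c S hS
    exact ⟨S', h1, h2, fun p => h3 p (Finset.mem_univ p)⟩⟩

end pigeon

end Pool.Agent.Q72.SH
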