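import Pool.Agent.Q72.SH.Final
import Pool.Agent.Y189.DD.Final

/-!
Corollaries: affine substitutions which leave the hyperplane sections of an entire curve invariant.
-/

set_option autoImplicit false

namespace Pool.Agent.Q72.SH

open Finset MvPolynomial Filter Topology
open scoped LinearAlgebra.Projectivization
open Pool.Agent.TH143.EL Pool.Agent.TH143.GT Pool.Agent.W602.GT Pool.Agent.TH143
open Pool.Agent.W603.BPR (EntireCurve)

variable {n : ℕ} {p : Ideal (MvPolynomial (Fin (n + 1)) ℂ)}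
  {Q : MvPolynomial (Fin (n + 1)) ℂ}

/-- the affine substitutions -/
def Aff (σ : ℂ → ℂ) : Prop := ∃ a b : ℂ, a ≠ 0 ∧ ∀ z, σ z = a * z + b

theorem Aff.an {σ : ℂ → ℂ} (h : Aff σ) (z : ℂ) : AnalyticAt ℂ σ z := by
  obtain ⟨a, b, -, h⟩ := h
  obtain rfl : σ = fun z => a * z + b := funext h
  fun_prop

theorem Aff.deriv {σ : ℂ → ℂ} (h : Aff σ) (z : ℂ) : deriv σ z ≠ 0 := by
  obtain ⟨a, b, ha, h⟩ := h
  obtain rfl : σ = fun z => a * z + b := funext h
  have h1 : HasDerivAt (fun z : ℂ => a * z + b) a z := by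
    have := ((hasDerivAt_id z).const_mul a).add_const b
    simpa using this
  rw [h1.deriv]
  exact ha

theorem Aff.surj {σ : ℂ → ℂ} (h : Aff σ) (z : ℂ) : ∃ w, σ w = z := by
  obtain ⟨a, b, ha, h⟩ := h
  refine ⟨(z - b) / a, ?_⟩
  rw [h]
  field_simp
  ring

theorem Aff.comp {σ τ : ℂ → ℂ} (h : Aff σ) (h' : Aff τ) : Aff fun z => σ (τ z) := by
  obtain ⟨a, b, ha, h⟩ := h
  obtain ⟨a', b', ha', h'⟩ := h'
  refine ⟨a * a', a * b' + b, mul_ne_zero ha ha', fun z => ?_⟩
  simp only [h, h']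
  ring

theorem Aff.iter {σ : ℂ → ℂ} (h : Aff σ) (k : ℕ) : Aff (σ^[k]) := by
  induction k with
  | zero => exact ⟨1, 0, one_ne_zero, fun z => by simp⟩
  | succ k ih =>
    have h1 := ih.comp h
    exact h1

theorem SameSections.symm {g g' : ℂ → Fin (n + 1) → ℂ} (h : SameSections g g') :
    SameSections g' g := fun l z => (h l z).symm

theorem SameSections.trans {g g' g'' : ℂ → Fin (n + 1) → ℂ} (h : SameSections g g')
    (h' : SameSections g' g'') : SameSections g g'' := fun l z => (h l z).trans (h' l z)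

theorem SameSections.comp {g g' : ℂ → Fin (n + 1) → ℂ} (h : SameSections g g') {σ : ℂ → ℂ}
    (hσ : Aff σ) : SameSections (fun z => g (σ z)) fun z => g' (σ z) := by
  intro l z
  have h1 := analyticOrderAt_comp_of_deriv_ne_zero (f := fun z => g z l) (hσ.an z) (hσ.deriv z)
  have h2 := analyticOrderAt_comp_of_deriv_ne_zero (f := fun z => g' z l) (hσ.an z) (hσ.deriv z)
  exact (h1.trans (h l (σ z))).trans h2.symm

theorem same_iter {f : ℂ → Fin (n + 1) → ℂ} {σ : ℂ → ℂ} (hσ : Aff σ)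
    (h : SameSections (fun z => f (σ z)) f) (k : ℕ) : SameSections (fun z => f (σ^[k] z)) f := by
  induction k with
  | zero => exact fun l z => rfl
  | succ k ih =>
    have h1 := ih.comp hσ
    exact h1.trans h

theorem EC.comp {f : ℂ → Fin (n + 1) → ℂ} (hf : EntireCurve p Q f) {σ : ℂ → ℂ} (hσ : Aff σ) :
    EntireCurve p Q fun z => f (σ z) := by
  refine ⟨fun z => ?_, fun z => hf.2.1 (σ z), ?_⟩
  · exact (hf.1 (σ z)).comp z (hσ.an z).differentiableAt
  · obtain ⟨z, w, h⟩ := hf.2.2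
    obtain ⟨z', hz⟩ := hσ.surj z
    obtain ⟨w', hw⟩ := hσ.surj w
    refine ⟨z', w', ?_⟩
    simp only [hz, hw]
    exact h

theorem ZD.comp {f : ℂ → Fin (n + 1) → ℂ} (hf : ZDense p f Set.univ) {σ : ℂ → ℂ} (hσ : Aff σ) :
    ZDense p (fun z => f (σ z)) Set.univ := by
  intro H hH h0
  refine hf H hH fun z _ => ?_
  obtain ⟨z', hz⟩ := hσ.surj z
  rw [← hz]
  exact h0 z' trivial

/-- the uniform bound `M` for the number of Zariski-dense curves with given sections -/
def Bd (M : ℕ) (p : Ideal (MvPolynomial (Fin (n + 1)) ℂ)) (Q : MvPolynomial (Fin (n + 1)) ℂ) :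
    Prop :=
  ∀ g : Fin (M + 1) → ℂ → Fin (n + 1) → ℂ, (∀ s, EntireCurve p Q (g s)) →
    (∀ s, ZDense p (g s) Set.univ) → (∀ s t, SameSections (g s) (g t)) →
    ∃ s t, s ≠ t ∧ SameCurve (g s) (g t)

theorem Bd.index {M : ℕ} (hM : Bd M p Q) {f : ℂ → Fin (n + 1) → ℂ} (hf : EntireCurve p Q f)
    (hd : ZDense p f Set.univ) (σ : Fin (M + 1) → ℂ → ℂ) (hσ : ∀ s, Aff (σ s))
    (h : ∀ s, SameSections (fun z => f (σ s z)) f) :
    ∃ s t, s ≠ t ∧ SameCurve (fun z => f (σ s z)) fun z => f (σ t z) :=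
  hM (fun s z => f (σ s z)) (fun s => EC.comp hf (hσ s)) (fun s => ZD.comp hd (hσ s))
    fun s t => (h s).trans (h t).symm

theorem SameCurve.symm {g g' : ℂ → Fin (n + 1) → ℂ} (hg : ∀ z, g z ≠ 0)
    (h : SameCurve g g') : SameCurve g' g := by
  intro z
  obtain ⟨c, hc⟩ := h z
  have hc0 : c ≠ 0 := by
    rintro rfl
    rw [zero_smul] at hc
    exact hg z hc
  refine ⟨c⁻¹, ?_⟩
  rw [hc, smul_smul, inv_mul_cancel₀ hc0, one_smul]

theorem SameCurve.trans {g g' g'' : ℂ → Fin (n + 1) → ℂ} (h : SameCurve g g')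
    (h' : SameCurve g' g'') : SameCurve g g'' := by
  intro z
  obtain ⟨c, hc⟩ := h z
  obtain ⟨c', hc'⟩ := h' z
  exact ⟨c * c', by rw [hc, hc', smul_smul]⟩

theorem Bd.iter {M : ℕ} (hM : Bd M p Q) {f : ℂ → Fin (n + 1) → ℂ} (hf : EntireCurve p Q f)
    (hd : ZDense p f Set.univ) {σ : ℂ → ℂ} (hσ : Aff σ)
    (h : SameSections (fun z => f (σ z)) f) :
    ∃ k, 0 < k ∧ k ≤ M ∧ SameCurve (fun z => f (σ^[k] z)) f := by
  obtain ⟨s, t, hst, h1⟩ := hM.index hf hd (fun s => σ^[(s : ℕ)]) (fun s => hσ.iter s)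
    fun s => same_iter hσ h s
  have key : ∀ s t : Fin (M + 1), (s : ℕ) < t →
      SameCurve (fun z => f (σ^[(t : ℕ)] z)) (fun z => f (σ^[(s : ℕ)] z)) →
      ∃ k, 0 < k ∧ k ≤ M ∧ SameCurve (fun z => f (σ^[k] z)) f := by
    intro s t hlt h1
    refine ⟨(t : ℕ) - s, Nat.sub_pos_of_lt hlt, ?_, fun z => ?_⟩
    · have := t.2
      omega
    · obtain ⟨w, hw⟩ := (hσ.iter s).surj z
      obtain ⟨c, hc⟩ := h1 w
      refine ⟨c, ?_⟩
      have h2 : (t : ℕ) = ((t : ℕ) - s) + s := by omega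
      simp only at hc
      rw [h2, Function.iterate_add_apply, hw] at hc
      exact hc
  rcases lt_trichotomy (s : ℕ) t with h2 | h2 | h2
  · exact key s t h2 (SameCurve.symm (fun z => (hf.2.1 _).1) h1)
  · exact absurd (Fin.ext h2) hst
  · exact key t s h2 h1

/-- an entire curve is not invariant under a rotation of infinite order -/
theorem root_of_inv {f : ℂ → Fin (n + 1) → ℂ} (hf : EntireCurve p Q f) {A z0 : ℂ} (hA : A ≠ 0)
    (h : ∀ z, ∃ c : ℂ, f (z0 + A * (z - z0)) = c • f z) : ∃ k : ℕ, 0 < k ∧ A ^ k = 1 := by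
  by_contra hcon
  push Not at hcon
  -- minors
  have hcr : ∀ {u v : Fin (n + 1) → ℂ}, (∃ c : ℂ, u = c • v) → ∀ i j, u i * v j = u j * v i := by
    rintro u v ⟨c, rfl⟩ i j
    simp only [Pi.smul_apply, smul_eq_mul]
    ring
  have h0 : ∀ z, f z ≠ 0 := fun z => (hf.2.1 z).1
  -- the orbit of each point
  have horb : ∀ j : ℕ, ∀ z, ∃ c : ℂ, f (z0 + A ^ j * (z - z0)) = c • f z := by
    intro j
    induction j with
    | zero => exact fun z => ⟨1, by rw [pow_zero, one_mul, one_smul]; congr 1; ring⟩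
    | succ j ih =>
      intro z
      obtain ⟨c, hc⟩ := ih (z0 + A * (z - z0))
      obtain ⟨c', hc'⟩ := h z
      refine ⟨c * c', ?_⟩
      rw [← smul_smul, ← hc', ← hc]
      congr 1
      ring
  have horb' : ∀ j : ℕ, ∀ z, ∃ c : ℂ, f (z0 + (A⁻¹) ^ j * (z - z0)) = c • f z := by
    intro j z
    obtain ⟨c, hc⟩ := horb j (z0 + (A⁻¹) ^ j * (z - z0))
    have h1 : z0 + A ^ j * (z0 + A⁻¹ ^ j * (z - z0) - z0) = z := by
      rw [inv_pow]
      have : A ^ j ≠ 0 := pow_ne_zero _ hA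
      field_simp
      ring
    rw [h1] at hc
    have hc0 : c ≠ 0 := by
      rintro rfl
      rw [zero_smul] at hc
      exact h0 z hc
    refine ⟨c⁻¹, ?_⟩
    rw [hc, smul_smul, inv_mul_cancel₀ hc0, one_smul]
  -- a contraction or isometry
  obtain ⟨B, hB0, hB1, hB, hBo⟩ : ∃ B : ℂ, B ≠ 0 ∧ ‖B‖ ≤ 1 ∧ (∀ k : ℕ, 0 < k → B ^ k ≠ 1) ∧
      ∀ j : ℕ, ∀ z, ∃ c : ℂ, f (z0 + B ^ j * (z - z0)) = c • f z := by
    rcases le_total ‖A‖ 1 with h1 | h1
    · exact ⟨A, hA, h1, hcon, horb⟩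
    · refine ⟨A⁻¹, inv_ne_zero hA, ?_, ?_, horb'⟩
      · rw [norm_inv]
        exact inv_le_one_of_one_le₀ h1
      · intro k hk h2
        rw [inv_pow, inv_eq_one] at h2
        exact hcon k hk h2
  have hinj : Function.Injective fun j : ℕ => B ^ j := by
    intro i j hij
    simp only at hij
    by_contra hne
    rcases lt_or_gt_of_ne hne with h1 | h1
    · have h2 : B ^ (j - i) = 1 := by
        have h3 : B ^ j = B ^ (j - i) * B ^ i := by rw [← pow_add]; congr 1; omega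
        have h4 : B ^ i ≠ 0 := pow_ne_zero _ hB0
        rw [h3] at hij
        exact mul_right_cancel₀ h4 (by rw [← hij, one_mul])
      exact hB _ (by omega) h2
    · have h2 : B ^ (i - j) = 1 := by
        have h3 : B ^ i = B ^ (i - j) * B ^ j := by rw [← pow_add]; congr 1; omega
        have h4 : B ^ j ≠ 0 := pow_ne_zero _ hB0
        rw [h3] at hij
        exact mul_right_cancel₀ h4 (by rw [hij, one_mul])
      exact hB _ (by omega) h2
  -- all minors with `f (z0 + 1)` vanish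
  have hmin : ∀ i j w, f w i * f (z0 + 1) j = f w j * f (z0 + 1) i := by
    intro i j
    set H : ℂ → ℂ := fun w => f (z0 + w) i * f (z0 + 1) j - f (z0 + w) j * f (z0 + 1) i with hH
    have hHd : Differentiable ℂ H := by
      have e1 : ∀ l, Differentiable ℂ fun w => f (z0 + w) l := fun l =>
        (coord_diff hf.1 l).comp (differentiable_id.const_add z0)
      exact ((e1 i).mul_const _).sub ((e1 j).mul_const _)
    have hinf : (Set.range fun j : ℕ => B ^ j).Infinite := Set.infinite_range_of_injective hinj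
    have hsub : (Set.range fun j : ℕ => B ^ j) ⊆ Metric.closedBall (0 : ℂ) 1 := by
      rintro _ ⟨j, rfl⟩
      rw [mem_closedBall_zero_iff, norm_pow]
      exact pow_le_one₀ (norm_nonneg _) hB1
    obtain ⟨a, -, ha⟩ := hinf.exists_accPt_of_subset_isCompact (isCompact_closedBall 0 1) hsub
    have hfr : ∃ᶠ w in 𝓝[≠] a, H w = 0 := by
      rw [accPt_iff_frequently_nhdsNE] at ha
      refine ha.mono ?_
      rintro w ⟨j', rfl⟩
      have h1 := hBo j' (z0 + 1)
      rw [show z0 + B ^ j' * (z0 + 1 - z0) = z0 + B ^ j' by ring] at h1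
      have h2 := hcr h1 i j
      rw [hH]
      simp only
      rw [h2, sub_self]
    have hHa : AnalyticOnNhd ℂ H Set.univ := fun z _ => hHd.analyticAt z
    have hall := hHa.eqOn_zero_of_preconnected_of_frequently_eq_zero isPreconnected_univ
      (Set.mem_univ a) hfr
    intro w
    have h1 := hall (Set.mem_univ (w - z0))
    simp only [hH, Pi.zero_apply] at h1
    rw [show z0 + (w - z0) = w by ring] at h1
    exact sub_eq_zero.1 h1
  obtain ⟨z, w, hzw⟩ := hf.2.2
  obtain ⟨j, hj⟩ : ∃ j, f (z0 + 1) j ≠ 0 := by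
    by_contra hc
    push Not at hc
    exact h0 _ (funext hc)
  have hwj : f w j ≠ 0 := by
    intro h1
    apply h0 w
    funext i
    have h2 := hmin i j w
    rw [h1, zero_mul] at h2
    exact (mul_eq_zero.1 h2).resolve_right hj
  apply hzw (f z j / f w j)
  funext i
  have h1 := hmin i j z
  have h2 := hmin i j w
  simp only [Pi.smul_apply, smul_eq_mul]
  field_simp
  -- f z i * f w j = f z j * f w i
  have h3 : (f z i * f w j) * f (z0 + 1) j = (f z j * f w i) * f (z0 + 1) j := by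
    linear_combination f w j * h1 - f z j * h2
  exact mul_right_cancel₀ hj h3

theorem Bd.root {M : ℕ} (hM : Bd M p Q) {f : ℂ → Fin (n + 1) → ℂ} (hf : EntireCurve p Q f)
    (hd : ZDense p f Set.univ) {a b : ℂ} (ha : a ≠ 0)
    (h : SameSections (fun z => f (a * z + b)) f) : ∃ k : ℕ, 0 < k ∧ a ^ k = 1 := by
  by_cases ha1 : a = 1
  · exact ⟨1, one_pos, by rw [ha1, one_pow]⟩
  obtain ⟨k, hk, -, h1⟩ := hM.iter hf hd (σ := fun z => a * z + b) ⟨a, b, ha, fun z => rfl⟩ h
  have ha' : (1 : ℂ) - a ≠ 0 := sub_ne_zero.2 (Ne.symm ha1)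
  set z0 : ℂ := b / (1 - a) with hz0
  have hz : a * z0 + b = z0 := by
    rw [hz0]
    field_simp
    ring
  have hit : ∀ k : ℕ, ∀ z, (fun z => a * z + b)^[k] z = z0 + a ^ k * (z - z0) := by
    intro k
    induction k with
    | zero => intro z; simp
    | succ k ih =>
      intro z
      rw [Function.iterate_succ_apply', ih, pow_succ]
      linear_combination hz
  obtain ⟨l, hl, h2⟩ := root_of_inv hf (A := a ^ k) (z0 := z0) (pow_ne_zero k ha) fun z => by
    obtain ⟨c, hc⟩ := h1 z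
    simp only at hc
    rw [hit] at hc
    exact ⟨c, hc⟩
  exact ⟨k * l, Nat.mul_pos hk hl, by rw [pow_mul, h2]⟩

end Pool.Agent.Q72.SH
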