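import Pool.Agent.Q72.SH.Circ

/-!
Linear relations between rows of units.
-/

set_option autoImplicit false

namespace Pool.Agent.Q72.SH

open Finset

section core

variable {K : Type} [Field K] {Γ : Type} [AddCommGroup Γ]

/-- The homomorphism `e` from `Γ` to the multiplicative group of `K` has the property of Borel's
theorem: sums of elements `e γ` which vanish, vanish along the classes modulo `H`. -/
structure Borel (e : Γ → K) (H : AddSubgroup Γ) : Prop where
  add : ∀ a b, e (a + b) = e a * e b
  ne : ∀ a, e a ≠ 0
  bor : ∀ (ι : Type) [Fintype ι] (c : ι → ℤ) (γ : ι → Γ), ∑ i, (c i : K) * e (γ i) = 0 →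
    ∀ (Q : Γ → Prop) [DecidablePred Q], (∀ a b, a - b ∈ H → (Q a ↔ Q b)) →
      ∑ i, (if Q (γ i) then (c i : K) * e (γ i) else 0) = 0

theorem Borel.zero {e : Γ → K} {H : AddSubgroup Γ} (hB : Borel e H) : e 0 = 1 := by
  have h1 := hB.add 0 0
  rw [add_zero] at h1
  exact (mul_left_cancel₀ (hB.ne 0) (by rw [mul_one]; exact h1)).symm

theorem Borel.sum {e : Γ → K} {H : AddSubgroup Γ} (hB : Borel e H) {ι : Type*} (T : Finset ι)
    (g : ι → Γ) : e (∑ i ∈ T, g i) = ∏ i ∈ T, e (g i) := by
  classical
  induction T using Finset.induction_on with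
  | empty => simp [hB.zero]
  | insert a T ha ih => rw [Finset.sum_insert ha, Finset.prod_insert ha, hB.add, ih]

open Classical in
/-- **Relations between rows of units** hold along the classes. -/
theorem core {e : Γ → K} {H : AddSubgroup Γ} (hB : Borel e H) {A : Type} [Fintype A]
    [DecidableEq A] {I : Type} [DecidableEq I] (γ : I → A → Γ) (r : A → A → Prop) {S : Finset I}
    (hinj : ∀ a b, ¬ r a b → ∀ s ∈ S, ∀ t ∈ S, (γ s a - γ s b) - (γ t a - γ t b) ∈ H → s = t)
    (hrob : Robust (fun s a => e (γ s a)) ((Fintype.card A).factorial ^ 2) S)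
    (C : A → Prop) (hC : ∀ a b, C a → ¬ C b → ¬ r a b)
    {v : A → K} (hv : ∀ s ∈ S, ∑ a, v a * e (γ s a) = 0) :
    ∀ s ∈ S, ∑ a, (if C a then v a * e (γ s a) else 0) = 0 := by
  let V : Submodule K (A → K) :=
    { carrier := {v | ∀ s ∈ S, ∑ a, v a * e (γ s a) = 0}
      add_mem' := by
        intro a b ha hb s hs
        have h1 := ha s hs
        have h2 := hb s hs
        simp only [Pi.add_apply, add_mul, Finset.sum_add_distrib]
        rw [h1, h2, add_zero]
      zero_mem' := by
        intro s _
        simp
      smul_mem' := by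
        intro c a ha s hs
        have h1 := ha s hs
        simp only [Pi.smul_apply, smul_eq_mul, mul_assoc]
        rw [← Finset.mul_sum, h1, mul_zero] }
  let V' : Submodule K (A → K) :=
    { carrier := {v | ∀ s ∈ S, ∑ a, (if C a then v a * e (γ s a) else 0) = 0}
      add_mem' := by
        intro a b ha hb s hs
        have h1 := ha s hs
        have h2 := hb s hs
        have h3 : ∀ x, (if C x then (a + b) x * e (γ s x) else 0) =
            (if C x then a x * e (γ s x) else 0) + (if C x then b x * e (γ s x) else 0) := by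
          intro x
          split_ifs
          · rw [Pi.add_apply, add_mul]
          · rw [add_zero]
        simp only [h3, Finset.sum_add_distrib]
        rw [h1, h2, add_zero]
      zero_mem' := by
        intro s _
        simp
      smul_mem' := by
        intro c a ha s hs
        have h1 := ha s hs
        have h3 : ∀ x, (if C x then (c • a) x * e (γ s x) else 0) =
            c * (if C x then a x * e (γ s x) else 0) := by
          intro x
          split_ifs
          · rw [Pi.smul_apply, smul_eq_mul, mul_assoc]
          · rw [mul_zero]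
        simp only [h3]
        rw [← Finset.mul_sum, h1, mul_zero] }
  have hmain : V ≤ V' := by
    refine circ_span V V' fun c hc => ?_
    have hcV : ∀ s ∈ S, ∑ a, c a * e (γ s a) = 0 := hc.1
    -- the support
    obtain ⟨a0, ha0⟩ := Function.ne_iff.1 hc.2.1
    have ha0' : c a0 ≠ 0 := ha0
    let A0 := {a // c a ≠ 0}
    have hpos : 0 < Fintype.card A0 := Fintype.card_pos_iff.2 ⟨⟨a0, ha0'⟩⟩
    obtain ⟨m, hm⟩ : ∃ m, Fintype.card A0 = m + 1 := ⟨Fintype.card A0 - 1, by omega⟩
    let ε : Fin (m + 1) ≃ A0 := (Fintype.equivFinOfCardEq hm).symm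
    have hmA : m + 1 ≤ Fintype.card A := by
      rw [← hm]
      exact Fintype.card_subtype_le _
    -- sums over the support
    have hsumA : ∀ g : A → K, (∀ a, c a = 0 → g a = 0) → ∑ a, g a = ∑ i, g (ε i) := by
      intro g hg
      rw [Equiv.sum_comp ε (fun a : A0 => g a)]
      rw [← Finset.sum_subtype (Finset.univ.filter fun a => c a ≠ 0) (by intro x; simp) g,
        Finset.sum_filter]
      refine Finset.sum_congr rfl fun a _ => ?_
      split_ifs with h1
      · rfl
      · exact hg a (not_not.1 h1)
    let ρ : I → Fin (m + 1) → K := fun s i => e (γ s (ε i))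
    let L : (Fin (m + 1) → K) →ₗ[K] K :=
      { toFun := fun x => ∑ i, x i * c (ε i)
        map_add' := by
          intro x y
          simp only [Pi.add_apply, add_mul, Finset.sum_add_distrib]
        map_smul' := by
          intro t x
          simp only [Pi.smul_apply, smul_eq_mul, mul_assoc, Finset.mul_sum, RingHom.id_apply] }
    have hLdef : ∀ x, L x = ∑ i, x i * c (ε i) := fun x => rfl
    set W0 : Submodule K (Fin (m + 1) → K) := Submodule.span K (ρ '' (S : Set I)) with hW0
    have hLW : W0 ≤ LinearMap.ker L := by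
      rw [hW0, Submodule.span_le]
      rintro _ ⟨s, hs, rfl⟩
      change L (ρ s) = 0
      rw [hLdef]
      refine Eq.trans ?_ ((hsumA (fun a => c a * e (γ s a))
        (fun a ha => by rw [ha, zero_mul])).symm.trans (hcV s hs))
      exact Finset.sum_congr rfl fun i _ => mul_comm _ _
    -- all functionals which vanish on the rows are multiples of `L`
    have huniq : ∀ D : (Fin (m + 1) → K) →ₗ[K] K, W0 ≤ LinearMap.ker D → ∃ t : K, D = t • L := by
      intro D hD
      let d : A → K := fun a => if h : c a ≠ 0 then D (Pi.single (ε.symm ⟨a, h⟩) 1) else 0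
      have hd0 : ∀ a, c a = 0 → d a = 0 := fun a ha => by simp [d, ha]
      have hdi : ∀ i, d (ε i) = D (Pi.single i 1) := by
        intro i
        have h1 : c (ε i) ≠ 0 := (ε i).2
        simp only [d, dif_pos h1]
        congr 2
        exact ε.symm_apply_apply i
      have hDx : ∀ x : Fin (m + 1) → K, D x = ∑ i, x i * d (ε i) := by
        intro x
        have h1 : x = ∑ i, x i • (Pi.single i 1 : Fin (m + 1) → K) := by
          funext j
          simp [Finset.sum_apply, Pi.single_apply]
        conv_lhs => rw [h1]
        rw [map_sum]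
        refine Finset.sum_congr rfl fun i _ => ?_
        rw [map_smul, smul_eq_mul, hdi]
      have hdV : d ∈ V := by
        intro s hs
        have h1 : D (ρ s) = 0 := hD (Submodule.subset_span ⟨s, hs, rfl⟩)
        rw [hDx] at h1
        refine (hsumA (fun a => d a * e (γ s a))
          (fun a ha => by rw [hd0 a ha, zero_mul])).trans (Eq.trans ?_ h1)
        exact Finset.sum_congr rfl fun i _ => mul_comm _ _
      obtain ⟨t, ht⟩ := hc.unique hdV hd0
      refine ⟨t, LinearMap.ext fun x => ?_⟩
      rw [hDx, LinearMap.smul_apply, smul_eq_mul, hLdef, Finset.mul_sum]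
      refine Finset.sum_congr rfl fun i _ => ?_
      rw [ht, Pi.smul_apply, smul_eq_mul]
      ring
    -- dimension
    have hL0 : L ≠ 0 := by
      intro h0
      have h1 : L (Pi.single (ε.symm ⟨a0, ha0'⟩) 1) = 0 := by rw [h0]; rfl
      rw [hLdef, Finset.sum_eq_single (ε.symm ⟨a0, ha0'⟩)] at h1
      · rw [Pi.single_eq_same, one_mul, Equiv.apply_symm_apply] at h1
        exact ha0' h1
      · intro j _ hj
        rw [Pi.single_eq_of_ne hj, zero_mul]
      · intro h2
        exact absurd (Finset.mem_univ _) h2
    obtain ⟨x0, hx0⟩ : ∃ x0, L x0 ≠ 0 := by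
      by_contra h
      push Not at h
      exact hL0 (LinearMap.ext h)
    have hx0W : x0 ∉ W0 := fun h => hx0 (hLW h)
    have hdim1 : Module.finrank K (W0.dualAnnihilator) ≤ 1 := by
      have h1 : W0.dualAnnihilator ≤ Submodule.span K {L} := by
        intro D hD
        rw [Submodule.mem_dualAnnihilator] at hD
        obtain ⟨t, ht⟩ := huniq D (fun x hx => hD x hx)
        rw [ht]
        exact Submodule.smul_mem _ _ (Submodule.mem_span_singleton_self L)
      exact (Submodule.finrank_mono h1).trans (finrank_span_singleton hL0).le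
    have hdim2 := Subspace.finrank_add_finrank_dualAnnihilator_eq W0
    rw [Module.finrank_fin_fun] at hdim2
    have hdim3 : Module.finrank K W0 < m + 1 := by
      have h1 : W0 < ⊤ := lt_top_iff_ne_top.2 fun h2 => hx0W (h2 ▸ Submodule.mem_top)
      have h2 := Submodule.finrank_lt_finrank_of_lt h1
      rwa [finrank_top, Module.finrank_fin_fun] at h2
    have hdim : Module.finrank K W0 = m := by omega
    -- independent rows
    obtain ⟨b, hb1, hb2, hb3⟩ := exists_linearIndependent K (ρ '' (S : Set I))
    have hbfin : b.Finite := (S.finite_toSet.image ρ).subset hb1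
    have := hbfin.fintype
    have hbcard : Fintype.card b = m := by
      have h1 := finrank_span_set_eq_card hb3
      rw [hb2, ← hW0, Set.toFinset_card] at h1
      exact h1.symm.trans hdim
    let η : Fin m ≃ b := (Fintype.equivFinOfCardEq hbcard).symm
    have hsel : ∀ j : Fin m, ∃ s ∈ S, ρ s = (η j : Fin (m + 1) → K) := by
      intro j
      obtain ⟨s, hs, h1⟩ := hb1 (η j).2
      exact ⟨s, hs, h1⟩
    choose sr hsr1 hsr2 using hsel
    have hli : LinearIndependent K (fun j : Fin m => ρ (sr j)) := by
      have h1 : (fun j : Fin m => ρ (sr j)) = (Subtype.val : b → _) ∘ η := by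
        funext j
        exact hsr2 j
      rw [h1]
      exact hb3.comp η η.injective
    have hspan : Submodule.span K (Set.range fun j : Fin m => ρ (sr j)) = W0 := by
      rw [hW0, ← hb2]
      congr 1
      ext x
      constructor
      · rintro ⟨j, rfl⟩
        rw [show (fun j : Fin m => ρ (sr j)) j = ρ (sr j) from rfl, hsr2 j]
        exact (η j).2
      · intro hx
        refine ⟨η.symm ⟨x, hx⟩, ?_⟩
        change ρ (sr (η.symm ⟨x, hx⟩)) = x
        rw [hsr2, Equiv.apply_symm_apply]
    -- the determinant
    let base : Fin (m + 1) → Fin (m + 1) → K :=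
      Fin.cons (0 : Fin (m + 1) → K) (fun j : Fin m => ρ (sr j))
    let D : (Fin (m + 1) → K) →ₗ[K] K :=
      ((Matrix.detRowAlternating (n := Fin (m + 1)) (R := K)).toMultilinearMap).toLinearMap base 0
    have hDdef : ∀ x : Fin (m + 1) → K, D x =
        Matrix.det (Matrix.of (Fin.cons x (fun j : Fin m => ρ (sr j)) :
          Fin (m + 1) → Fin (m + 1) → K)) := by
      intro x
      change Matrix.det (Function.update base 0 x) = _
      rw [Fin.update_cons_zero]
      rfl
    have hDW : W0 ≤ LinearMap.ker D := by
      rw [← hspan, Submodule.span_le]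
      rintro _ ⟨j, rfl⟩
      change D (ρ (sr j)) = 0
      rw [hDdef]
      refine Matrix.det_zero_of_row_eq (i := 0) (j := j.succ) (Fin.succ_ne_zero j).symm ?_
      funext i
      simp [Matrix.of_apply]
    have hDx0 : D x0 ≠ 0 := by
      rw [hDdef]
      have h1 : LinearIndependent K (Fin.cons x0 (fun j : Fin m => ρ (sr j)) :
          Fin (m + 1) → Fin (m + 1) → K) := by
        rw [linearIndependent_finCons]
        exact ⟨hli, by rw [hspan]; exact hx0W⟩
      have h2 : IsUnit (Matrix.of (Fin.cons x0 (fun j : Fin m => ρ (sr j)) :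
          Fin (m + 1) → Fin (m + 1) → K)) := by
        rw [← Matrix.linearIndependent_rows_iff_isUnit]
        exact h1
      exact (Matrix.isUnit_iff_isUnit_det _).1 h2 |>.ne_zero
    obtain ⟨t, ht⟩ := huniq D hDW
    have ht0 : t ≠ 0 := by
      rintro rfl
      apply hDx0
      rw [ht, zero_smul, LinearMap.zero_apply]
    -- the terms of the determinant
    let G : I → Fin (m + 1) → Fin (m + 1) → Γ := fun u =>
      Fin.cons (fun i => γ u (ε i)) (fun j i => γ (sr j) (ε i))
    let Gs : I → Equiv.Perm (Fin (m + 1)) → Γ := fun u σ => ∑ i, G u (σ i) i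
    let col : Equiv.Perm (Fin (m + 1)) → A := fun σ => (ε (σ.symm 0) : A)
    have hG0 : ∀ u i, G u 0 i = γ u (ε i) := fun u i => rfl
    have hGS : ∀ u j i, G u (Fin.succ j) i = γ (sr j) (ε i) := fun u j i => rfl
    have hGs : ∀ u u' σ, Gs u σ - Gs u' σ = γ u (col σ) - γ u' (col σ) := by
      intro u u' σ
      simp only [Gs]
      rw [← Finset.sum_sub_distrib, Finset.sum_eq_single (σ.symm 0)]
      · rw [Equiv.apply_symm_apply, hG0, hG0]
      · intro i _ hi
        have h1 : σ i ≠ 0 := by
          intro h2
          apply hi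
          rw [← h2, Equiv.symm_apply_apply]
        obtain ⟨j, hj⟩ := Fin.exists_succ_eq.2 h1
        rw [← hj, hGS, hGS, sub_self]
      · intro h
        exact absurd (Finset.mem_univ _) h
    have hentry : ∀ u j i, (Fin.cons (ρ u) (fun j : Fin m => ρ (sr j)) :
        Fin (m + 1) → Fin (m + 1) → K) j i = e (G u j i) := by
      intro u j i
      refine Fin.cases ?_ (fun j' => ?_) j
      · rfl
      · rfl
    have hDρ : ∀ u, D (ρ u) = ∑ σ : Equiv.Perm (Fin (m + 1)),
        ((Equiv.Perm.sign σ : ℤ) : K) * e (Gs u σ) := by
      intro u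
      rw [hDdef, Matrix.det_apply']
      refine Finset.sum_congr rfl fun σ _ => ?_
      congr 1
      rw [hB.sum]
      refine Finset.prod_congr rfl fun i _ => ?_
      rw [Matrix.of_apply, hentry]
    have hDC : ∀ u, D (fun i => if C (ε i) then ρ u i else 0) =
        ∑ σ : Equiv.Perm (Fin (m + 1)),
          (if C (col σ) then ((Equiv.Perm.sign σ : ℤ) : K) * e (Gs u σ) else 0) := by
      intro u
      rw [hDdef, Matrix.det_apply']
      refine Finset.sum_congr rfl fun σ _ => ?_
      split_ifs with h1
      · congr 1
        rw [hB.sum]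
        refine Finset.prod_congr rfl fun i _ => ?_
        rw [Matrix.of_apply, ← hentry]
        by_cases h2 : σ i = 0
        · rw [h2]
          have h3 : i = σ.symm 0 := by rw [← h2, Equiv.symm_apply_apply]
          have h4 : C (ε i) := by rw [h3]; exact h1
          simp only [Fin.cons_zero]
          rw [if_pos h4]
        · obtain ⟨j, hj⟩ := Fin.exists_succ_eq.2 h2
          rw [← hj]
          simp only [Fin.cons_succ]
      · rw [Finset.prod_eq_zero (i := σ.symm 0) (Finset.mem_univ _), mul_zero]
        rw [Matrix.of_apply, Equiv.apply_symm_apply]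
        simp only [Fin.cons_zero]
        exact if_neg h1
    -- the bad rows
    let Bσ : Equiv.Perm (Fin (m + 1)) × Equiv.Perm (Fin (m + 1)) → Finset I := fun p =>
      S.filter fun u => C (col p.1) ∧ ¬ C (col p.2) ∧ Gs u p.1 - Gs u p.2 ∈ H
    let B : Finset I := Finset.univ.biUnion Bσ
    have hBσ : ∀ p, (Bσ p).card ≤ 1 := by
      intro p
      rw [Finset.card_le_one]
      intro u hu u' hu'
      obtain ⟨h1, h2, h3, h4⟩ := Finset.mem_filter.1 hu
      obtain ⟨h1', -, -, h4'⟩ := Finset.mem_filter.1 hu'
      refine hinj _ _ (hC _ _ h2 h3) u h1 u' h1' ?_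
      have h5 := H.sub_mem h4 h4'
      have h6 := hGs u u' p.1
      have h7 := hGs u u' p.2
      have h8 : γ u (col p.1) - γ u (col p.2) - (γ u' (col p.1) - γ u' (col p.2)) =
          Gs u p.1 - Gs u p.2 - (Gs u' p.1 - Gs u' p.2) := by
        have h9 : γ u (col p.1) - γ u (col p.2) - (γ u' (col p.1) - γ u' (col p.2)) =
          (γ u (col p.1) - γ u' (col p.1)) - (γ u (col p.2) - γ u' (col p.2)) := by abel
        rw [h9, ← h6, ← h7]
        abel
      rw [h8]
      exact h5
    have hBcard : B.card ≤ (Fintype.card A).factorial ^ 2 := by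
      refine (Finset.card_biUnion_le).trans ?_
      refine (Finset.sum_le_sum fun p _ => hBσ p).trans ?_
      rw [Finset.sum_const, smul_eq_mul, mul_one, Finset.card_univ, Fintype.card_prod,
        Fintype.card_perm, Fintype.card_fin, ← pow_two]
      exact Nat.pow_le_pow_left (Nat.factorial_le hmA) 2
    have hBS : B ⊆ S := by
      intro u hu
      obtain ⟨p, _, hp⟩ := Finset.mem_biUnion.1 hu
      exact (Finset.mem_filter.1 hp).1
    -- the other rows
    have hgood : ∀ u ∈ S \ B, ∑ a, (if C a then c a * e (γ u a) else 0) = 0 := by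
      intro u hu
      obtain ⟨huS, huB⟩ := Finset.mem_sdiff.1 hu
      have hnc : ∀ σ σ', C (col σ) → ¬ C (col σ') → Gs u σ - Gs u σ' ∉ H := by
        intro σ σ' h1 h2 h3
        apply huB
        refine Finset.mem_biUnion.2 ⟨(σ, σ'), Finset.mem_univ _, ?_⟩
        exact Finset.mem_filter.2 ⟨huS, h1, h2, h3⟩
      have h1 : D (ρ u) = 0 := hDW (Submodule.subset_span ⟨u, huS, rfl⟩)
      rw [hDρ] at h1
      have h2 := hB.bor (Equiv.Perm (Fin (m + 1))) (fun σ => (Equiv.Perm.sign σ : ℤ)) (Gs u) h1
        (fun g => ∃ σ, C (col σ) ∧ g - Gs u σ ∈ H) (by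
          intro a b hab
          constructor
          · rintro ⟨σ, h3, h4⟩
            refine ⟨σ, h3, ?_⟩
            have h5 := H.sub_mem h4 hab
            have h6 : a - Gs u σ - (a - b) = b - Gs u σ := by abel
            rwa [h6] at h5
          · rintro ⟨σ, h3, h4⟩
            refine ⟨σ, h3, ?_⟩
            have h5 := H.add_mem h4 hab
            have h6 : b - Gs u σ + (a - b) = a - Gs u σ := by abel
            rwa [h6] at h5)
      have h3 : ∀ σ, (∃ σ', C (col σ') ∧ Gs u σ - Gs u σ' ∈ H) ↔ C (col σ) := by
        intro σ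
        constructor
        · rintro ⟨σ', h4, h5⟩
          by_contra h6
          apply hnc σ' σ h4 h6
          have h7 := H.neg_mem h5
          rwa [neg_sub] at h7
        · intro h4
          exact ⟨σ, h4, by rw [sub_self]; exact H.zero_mem⟩
      have h4 : D (fun i => if C (ε i) then ρ u i else 0) = 0 := by
        refine (hDC u).trans (Eq.trans ?_ h2)
        refine Finset.sum_congr rfl fun σ _ => ?_
        by_cases h5 : C (col σ)
        · rw [if_pos h5, if_pos ((h3 σ).2 h5)]
        · exact (if_neg h5).trans (if_neg (fun h6 => h5 ((h3 σ).1 h6))).symm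
      rw [ht, LinearMap.smul_apply, smul_eq_mul] at h4
      have h5 := (mul_eq_zero.1 h4).resolve_left ht0
      rw [hLdef] at h5
      refine (hsumA (fun a => if C a then c a * e (γ u a) else 0)
        (fun a ha => by rw [ha, zero_mul, ite_self])).trans (Eq.trans ?_ h5)
      refine Finset.sum_congr rfl fun i _ => ?_
      by_cases h6 : C (ε i)
      · simp only [if_pos h6]
        exact mul_comm _ _
      · simp only [if_neg h6, zero_mul]
    -- robustness
    intro s hs
    let F : (A → K) →ₗ[K] K :=
      { toFun := fun x => ∑ a, (if C a then c a * x a else 0)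
        map_add' := by
          intro x y
          rw [← Finset.sum_add_distrib]
          refine Finset.sum_congr rfl fun a _ => ?_
          split_ifs
          · rw [Pi.add_apply, mul_add]
          · rw [add_zero]
        map_smul' := by
          intro t x
          rw [RingHom.id_apply, smul_eq_mul, Finset.mul_sum]
          refine Finset.sum_congr rfl fun a _ => ?_
          split_ifs
          · rw [Pi.smul_apply, smul_eq_mul]; ring
          · rw [mul_zero] }
    have hF : Submodule.span K ((fun s a => e (γ s a)) '' ((S \ B : Finset I) : Set I)) ≤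
        LinearMap.ker F := by
      rw [Submodule.span_le]
      rintro _ ⟨u, hu, rfl⟩
      exact hgood u (Finset.mem_coe.1 hu)
    exact hF (hrob B hBS hBcard s hs)
  exact hmain hv

end core

end Pool.Agent.Q72.SH
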