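import Pool.Agent.Q72.SH.ExpT

/-!
Curves of exponential type with a period are images of the multiplicative group.
-/

set_option autoImplicit false

namespace Pool.Agent.Q72.SH

open Filter Topology Metric MvPolynomial
open Pool.Agent.TH143.EL Pool.Agent.TH143.GT Pool.Agent.W602.GT Pool.Agent.TH143
open Pool.Agent.W603.BPR (EntireCurve)

/-- division of entire functions -/
theorem entire_div {f g : ℂ → ℂ} (hf : Differentiable ℂ f) (hg : Differentiable ℂ g)
    (hne : ∃ z, g z ≠ 0) (hord : ∀ z, analyticOrderAt g z ≤ analyticOrderAt f z) :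
    ∃ k : ℂ → ℂ, Differentiable ℂ k ∧ ∀ z, f z = g z * k z := by
  have hfin : ∀ z, analyticOrderAt g z ≠ ⊤ := by
    intro z htop
    obtain ⟨w, hw⟩ := hne
    apply hw
    have := AnalyticOnNhd.eqOn_zero_of_preconnected_of_eventuallyEq_zero
      (f := g) (U := Set.univ) (fun z _ => hg.analyticAt z) isPreconnected_univ (Set.mem_univ z)
      (analyticOrderAt_eq_top.1 htop)
    exact this (Set.mem_univ w)
  have hq : MeromorphicOn (f / g) Set.univ := fun z _ =>
    (hf.analyticAt z).meromorphicAt.div (hg.analyticAt z).meromorphicAt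
  have hqo : ∀ z, 0 ≤ meromorphicOrderAt (f / g) z := by
    intro z
    rw [meromorphicOrderAt_div (hf.analyticAt z).meromorphicAt (hg.analyticAt z).meromorphicAt,
      (hf.analyticAt z).meromorphicOrderAt_eq, (hg.analyticAt z).meromorphicOrderAt_eq]
    have h1 := hord z
    obtain ⟨n, hn⟩ := ENat.ne_top_iff_exists.1 (hfin z)
    rw [← hn] at h1 ⊢
    rcases eq_or_ne (analyticOrderAt f z) ⊤ with h2 | h2
    · rw [h2]
      simp
    · obtain ⟨m, hm⟩ := ENat.ne_top_iff_exists.1 h2
      rw [← hm] at h1 ⊢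
      have h3 : n ≤ m := by exact_mod_cast h1
      have h4 : (0 : WithTop ℤ) ≤ (((m : ℤ) - (n : ℤ) : ℤ) : WithTop ℤ) := by
        exact_mod_cast sub_nonneg.2 (by exact_mod_cast h3 : (n : ℤ) ≤ m)
      simpa using h4
  set k : ℂ → ℂ := toMeromorphicNFOn (f / g) Set.univ with hk
  have hkNF : ∀ z, MeromorphicNFAt k z := fun z =>
    meromorphicNFOn_toMeromorphicNFOn (f / g) Set.univ (Set.mem_univ z)
  have hka : ∀ z, AnalyticAt ℂ k z := fun z =>
    ((hkNF z).meromorphicOrderAt_nonneg_iff_analyticAt).1 (by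
      rw [hk, meromorphicOrderAt_toMeromorphicNFOn hq (Set.mem_univ z)]
      exact hqo z)
  have hkd : Differentiable ℂ k := fun z => (hka z).differentiableAt
  refine ⟨k, hkd, fun z => ?_⟩
  have hev : (fun z => f z) =ᶠ[𝓝[≠] z] (fun z => g z * k z) := by
    have e1 := hq.toMeromorphicNFOn_eq_self_on_nhdsNE (Set.mem_univ z)
    have e2 : ∀ᶠ w in 𝓝[≠] z, g w ≠ 0 := by
      rcases (hg.analyticAt z).eventually_eq_zero_or_eventually_ne_zero with h | h
      · exact absurd (analyticOrderAt_eq_top.2 h) (hfin z)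
      · exact h
    filter_upwards [e1, e2] with w hw1 hw2
    have : k w = f w / g w := hw1
    rw [this]
    field_simp
  have hev2 := (ContinuousAt.eventuallyEq_nhds_iff_eventuallyEq_nhdsNE
    (hf.continuous.continuousAt) ((hg.continuous.mul hkd.continuous).continuousAt)).1 hev
  exact hev2.eq_of_nhds

/-- periodic zeros -/
def PO (h : ℂ → ℂ) : Prop :=
  ∀ z, analyticOrderAt h (z + 2 * Real.pi * Complex.I) = analyticOrderAt h z

theorem order_add {h : ℂ → ℂ} (hd : Differentiable ℂ h) (b z : ℂ) :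
    analyticOrderAt (fun z => h (z + b)) z = analyticOrderAt h (z + b) := by
  have h1 := analyticOrderAt_comp_of_deriv_ne_zero (f := h) (g := fun z : ℂ => z + b) (z₀ := z)
    ((analyticAt_id).add analyticAt_const) (by simp)
  exact h1

theorem PO.int {h : ℂ → ℂ} (hP : PO h) (m : ℤ) (z : ℂ) :
    analyticOrderAt h (z + m * (2 * Real.pi * Complex.I)) = analyticOrderAt h z := by
  induction m using Int.induction_on with
  | zero => simp
  | succ i ih =>
    have h1 : z + ((i + 1 : ℤ) : ℂ) * (2 * Real.pi * Complex.I) =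
      (z + (i : ℤ) * (2 * Real.pi * Complex.I)) + 2 * Real.pi * Complex.I := by
      push_cast
      ring
    rw [h1, hP, ih]
  | pred i ih =>
    have h1 : z + ((-i : ℤ) : ℂ) * (2 * Real.pi * Complex.I) =
      (z + ((-i - 1 : ℤ) : ℂ) * (2 * Real.pi * Complex.I)) + 2 * Real.pi * Complex.I := by
      push_cast
      ring
    rw [h1, hP] at ih
    exact ih

/-- the function `exp z - exp w` -/
noncomputable def ew (w z : ℂ) : ℂ := Complex.exp z - Complex.exp w

theorem ew_diff (w : ℂ) : Differentiable ℂ (ew w) := Complex.differentiable_exp.sub_const _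

theorem ew_PO (w : ℂ) : PO (ew w) := by
  intro z
  rw [← order_add (ew_diff w)]
  congr 1
  funext z
  unfold ew
  rw [Complex.exp_periodic z]

theorem ew_order_one {w z : ℂ} (h : Complex.exp z = Complex.exp w) :
    analyticOrderAt (ew w) z = 1 := by
  have h1 : ew w = fun u => Complex.exp u - Complex.exp z := by
    funext u
    unfold ew
    rw [h]
  rw [h1]
  exact (Complex.differentiable_exp.analyticAt z).analyticOrderAt_sub_eq_one_of_deriv_ne_zero (by
    rw [Complex.deriv_exp]
    exact Complex.exp_ne_zero z)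

theorem ew_order_zero {w z : ℂ} (h : Complex.exp z ≠ Complex.exp w) :
    analyticOrderAt (ew w) z = 0 :=
  ((ew_diff w).analyticAt z).analyticOrderAt_eq_zero.2 (sub_ne_zero.2 h)

theorem ew_order_ne (w z : ℂ) : analyticOrderAt (ew w) z ≠ ⊤ := by
  by_cases h : Complex.exp z = Complex.exp w
  · rw [ew_order_one h]
    exact ENat.one_ne_top
  · rw [ew_order_zero h]
    exact ENat.zero_ne_top

theorem PO.div {q q' : ℂ → ℂ} (hq' : Differentiable ℂ q') {w : ℂ} (hP : PO q)
    (h : ∀ z, q z = ew w z * q' z) : PO q' := by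
  have h0 : q = ew w * q' := funext h
  have h1 : ∀ z, analyticOrderAt q z = analyticOrderAt (ew w) z + analyticOrderAt q' z := by
    intro z
    rw [h0, analyticOrderAt_mul ((ew_diff w).analyticAt z) (hq'.analyticAt z)]
  intro z
  have h2 := hP z
  rw [h1, h1, ew_PO] at h2
  exact (ENat.addLECancellable_of_ne_top (ew_order_ne w z)).inj.1 h2

/-- **Functions of exponential type with periodic zeros.** -/
theorem factor_PE {h : ℂ → ℂ} (hd : Differentiable ℂ h) (hE : ET h) (h0 : h 0 ≠ 0) (hP : PO h) :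
    ∃ (W : List ℂ) (q : ℂ → ℂ), Differentiable ℂ q ∧ (∀ z, q z ≠ 0) ∧
      ∀ z, h z = PE W z * q z := by
  by_contra hcon
  obtain ⟨N, hN⟩ := count_bound hE h0
  have step : ∀ k : ℕ, ∃ (W : List ℂ) (q : ℂ → ℂ), W.length = k ∧ Differentiable ℂ q ∧ PO q ∧
      ∀ z, h z = PE W z * q z := by
    intro k
    induction k with
    | zero => exact ⟨[], h, rfl, hd, hP, fun z => by rw [PE_nil, one_mul]⟩
    | succ k ih =>
      obtain ⟨W, q, hlen, hq, hqP, hWq⟩ := ih
      obtain ⟨z0, hz0⟩ : ∃ z0, q z0 = 0 := by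
        by_contra hne
        push Not at hne
        exact hcon ⟨W, q, hq, hne, hWq⟩
      obtain ⟨q', hq', hqq'⟩ := entire_div hq (ew_diff z0) (by
        refine ⟨z0 + 1, fun h1 => ?_⟩
        unfold ew at h1
        rw [Complex.exp_add, sub_eq_zero] at h1
        have h2 : Complex.exp z0 * (Complex.exp 1 - 1) = 0 := by linear_combination h1
        rcases mul_eq_zero.1 h2 with h3 | h3
        · exact Complex.exp_ne_zero _ h3
        · have h4 : Real.exp 1 = 1 := by
            have h5 : (Complex.exp 1) = ((Real.exp 1 : ℝ) : ℂ) := by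
              rw [Complex.ofReal_exp, Complex.ofReal_one]
            rw [h5, sub_eq_zero] at h3
            exact_mod_cast h3
          have h5 := Real.add_one_lt_exp (one_ne_zero : (1 : ℝ) ≠ 0)
          linarith) (fun z => by
        by_cases hz : Complex.exp z = Complex.exp z0
        · rw [ew_order_one hz]
          obtain ⟨m, hm⟩ := Complex.exp_eq_exp_iff_exists_int.1 hz
          rw [hm, hqP.int]
          rw [Order.one_le_iff_ne_zero]
          exact (hq.analyticAt z0).analyticOrderAt_ne_zero.2 hz0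
        · rw [ew_order_zero hz]
          exact zero_le)
      refine ⟨z0 :: W, q', by simp [hlen], hq', hqP.div hq' hqq', fun z => ?_⟩
      rw [hWq, PE_cons, hqq']
      unfold ew
      ring
  obtain ⟨W, q, hlen, hq, -, hWq⟩ := step (N + 1)
  have := hN W q hq hWq
  omega

variable {n : ℕ} {E : Set (MvPolynomial (Fin (n + 1)) ℂ)} {Q : MvPolynomial (Fin (n + 1)) ℂ}
  {f : ℂ → Fin (n + 1) → ℂ}

/-- The homogeneous coordinates of `f` are of exponential type. -/
def ExpType (f : ℂ → Fin (n + 1) → ℂ) : Prop :=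
  ∃ C : ℝ, ∀ z l, ‖f z l‖ ≤ Real.exp (C * (‖z‖ + 1))

/-- curves of exponential type with the period `2 π i` -/
theorem gm_core {q : ℕ} (hE : ∀ F ∈ E, IsForm F) (hQ : Q.IsHomogeneous q)
    (hf : EntireCurve (Ideal.span E) Q f) (hT : ∀ l, ET fun z => f z l)
    (h0 : ∀ l, (∃ z, f z l ≠ 0) → f 0 l ≠ 0)
    (hper : SameCurve (fun z => f (z + 2 * Real.pi * Complex.I)) f) :
    ∃ (g : ℂ → Fin (n + 1) → ℂ) (c : ℂ → ℂ), EntireCurve (Ideal.span E) Q g ∧ GmCurve g ∧
      ∀ z, c z ≠ 0 ∧ f z = c z • g z := by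
  have hss : SameSections (fun z => f (z + 2 * Real.pi * Complex.I)) f :=
    sameSections_of_sameCurve (hf.1.comp (differentiable_id.add_const _)) hf.1
      (fun z => (hf.2.1 _).1) (fun z => (hf.2.1 z).1) hper
  have hPO : ∀ l, PO fun z => f z l := by
    intro l z
    rw [← order_add (coord_diff hf.1 l)]
    exact hss l z
  have hA : ∀ l, ∃ (A : Polynomial ℂ) (a : ℂ), ∀ z, f z l = A.eval (Complex.exp z) *
      Complex.exp (a * z) := by
    intro l
    by_cases hl : ∃ z, f z l ≠ 0
    · have hl0 := h0 l hl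
      obtain ⟨W, q, hq, hq0, hWq⟩ := factor_PE (coord_diff hf.1 l) (hT l) hl0 (hPO l)
      obtain ⟨a, b, hab⟩ := affine_of_quot (PE_diff W) (PE_ET W) (by
        intro h1
        apply hl0
        rw [hWq, h1, zero_mul]) (coord_diff hf.1 l) (hT l) hq hq0 hWq
      obtain ⟨A, hA⟩ := PE_poly W
      refine ⟨A * Polynomial.C (Complex.exp b), a, fun z => ?_⟩
      rw [hWq, hab, hA, Polynomial.eval_mul, Polynomial.eval_C, Complex.exp_add]
      ring
    · push Not at hl
      exact ⟨0, 0, fun z => by rw [hl, Polynomial.eval_zero, zero_mul]⟩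
  choose A a hAa using hA
  obtain ⟨m0, hm0⟩ : ∃ m, f 0 m ≠ 0 := by
    by_contra hc
    push Not at hc
    exact (hf.2.1 0).1 (funext hc)
  have hk : ∀ l, ∃ k : ℤ, f 0 l ≠ 0 → a l = a m0 + k := by
    intro l
    by_cases hl : f 0 l = 0
    · exact ⟨0, fun h => absurd hl h⟩
    · obtain ⟨c, hc⟩ := hper 0
      have h1 : ∀ j, f 0 j ≠ 0 → Complex.exp (a j * (2 * Real.pi * Complex.I)) = c := by
        intro j hj
        have h2 : f (0 + 2 * Real.pi * Complex.I) j = c * f 0 j := congrFun hc j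
        rw [zero_add, hAa, hAa j 0, Complex.exp_two_pi_mul_I, Complex.exp_zero, mul_zero,
          Complex.exp_zero, mul_one] at h2
        have h3 : (A j).eval 1 ≠ 0 := by
          intro h4
          apply hj
          rw [hAa, Complex.exp_zero, h4, zero_mul]
        apply mul_left_cancel₀ h3
        linear_combination h2
      obtain ⟨k, hk⟩ := Complex.exp_eq_exp_iff_exists_int.1 ((h1 l hl).trans (h1 m0 hm0).symm)
      refine ⟨k, fun _ => ?_⟩
      have h2 : (2 * Real.pi * Complex.I : ℂ) ≠ 0 := Complex.two_pi_I_ne_zero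
      apply mul_right_cancel₀ h2
      rw [hk]
      ring
  choose k hk using hk
  set B : ℕ := ∑ l, (k l).natAbs with hB
  have hBl : ∀ l, 0 ≤ k l + B := by
    intro l
    have h3 : (k l).natAbs ≤ B := Finset.single_le_sum
      (f := fun l => (k l).natAbs) (fun _ _ => Nat.zero_le _) (Finset.mem_univ l)
    omega
  set nn : Fin (n + 1) → ℕ := fun l => (k l + B).toNat with hnn'
  have hnn : ∀ l, (nn l : ℤ) = k l + B := fun l => Int.toNat_of_nonneg (hBl l)
  set g : ℂ → Fin (n + 1) → ℂ := fun z l =>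
    (A l * Polynomial.X ^ nn l).eval (Complex.exp z) with hg
  set c : ℂ → ℂ := fun z => Complex.exp ((a m0 - B) * z) with hc
  have hfg : ∀ z, f z = c z • g z := by
    intro z
    funext l
    rw [Pi.smul_apply, smul_eq_mul]
    simp only [hg, hc]
    rw [hAa, Polynomial.eval_mul, Polynomial.eval_pow, Polynomial.eval_X, ← Complex.exp_nat_mul]
    by_cases hl : f 0 l = 0
    · have h1 : ∀ z, f z l = 0 := by
        by_contra hcon
        push Not at hcon
        exact h0 l hcon hl
      have h2 : (A l).eval (Complex.exp z) = 0 := by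
        have h3 := hAa l z
        rw [h1] at h3
        exact (mul_eq_zero.1 h3.symm).resolve_right (Complex.exp_ne_zero _)
      rw [h2]
      ring
    · have h1 : a l * z = (a m0 - B) * z + nn l * z := by
        have h2 : (nn l : ℂ) = k l + B := by exact_mod_cast hnn l
        rw [hk l hl, h2]
        ring
      rw [h1, Complex.exp_add]
      ring
  have hc0 : ∀ z, c z ≠ 0 := fun z => Complex.exp_ne_zero _
  have hgf : ∀ z, g z = fun l => (c z)⁻¹ * f z l := by
    intro z
    funext l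
    rw [hfg z, Pi.smul_apply, smul_eq_mul, ← mul_assoc, inv_mul_cancel₀ (hc0 z), one_mul]
  refine ⟨g, c, ⟨?_, fun z => ⟨?_, fun H hH => ?_, ?_⟩, ?_⟩, ⟨fun l => A l * Polynomial.X ^ nn l,
    fun z l => rfl⟩, fun z => ⟨hc0 z, hfg z⟩⟩
  · refine differentiable_pi.2 fun l => ?_
    exact (A l * Polynomial.X ^ nn l).differentiable.comp Complex.differentiable_exp
  · intro h1
    apply (hf.2.1 z).1
    rw [hfg, h1, smul_zero]
  · have h1 : Ideal.span E ≤ RingHom.ker (eval (g z)) := by
      rw [Ideal.span_le]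
      intro F hF
      obtain ⟨e, he⟩ := hE F hF
      change eval (g z) F = 0
      rw [hgf, eval_scale he, (hf.2.1 z).2.1 F (Ideal.subset_span hF), mul_zero]
    exact h1 hH
  · rw [hgf, eval_scale hQ]
    exact mul_ne_zero (pow_ne_zero _ (inv_ne_zero (hc0 z))) (hf.2.1 z).2.2
  · obtain ⟨z, w, hzw⟩ := hf.2.2
    refine ⟨z, w, fun d hd => hzw (c z * d * (c w)⁻¹) ?_⟩
    rw [hfg z, hfg w, hd, smul_smul, smul_smul]
    congr 1
    field_simp [hc0 w]

/-- **Curves of exponential type with a period.** -/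
theorem exp_spGm {q : ℕ} (hE : ∀ F ∈ E, IsForm F) (hQ : Q.IsHomogeneous q)
    (hf : EntireCurve (Ideal.span E) Q f) (hT : ExpType f) {τ : ℂ} (hτ : τ ≠ 0)
    (hper : SameCurve (fun z => f (z + τ)) f) (z : ℂ) : f z ∈ SpGm E Q := by
  have h2pi : (2 * Real.pi * Complex.I : ℂ) ≠ 0 := Complex.two_pi_I_ne_zero
  obtain ⟨z0, hz0⟩ : ∃ z0, ∀ l, (∃ z, f z l ≠ 0) → f z0 l ≠ 0 := by
    have h1 : ∀ᶠ z in codiscrete ℂ, ∀ l, (∃ z, f z l ≠ 0) → f z l ≠ 0 := by
      rw [Filter.eventually_all]
      intro l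
      by_cases hl : ∃ z, f z l ≠ 0
      · filter_upwards [codis_ne (coord_diff hf.1 l) hl] with z hz _
        exact hz
      · exact Filter.Eventually.of_forall fun z h => absurd h hl
    exact h1.exists
  set σ : ℂ → ℂ := fun w => τ / (2 * Real.pi * Complex.I) * w + z0 with hσ
  have hσA : Aff σ := ⟨_, _, div_ne_zero hτ h2pi, fun w => rfl⟩
  obtain ⟨C, hC⟩ := hT
  obtain ⟨g, c, hg1, hg2, hg3⟩ := gm_core (f := fun w => f (σ w)) hE hQ (EC.comp hf hσA)
    (fun l => (ET.comp (f := fun z => f z l) ⟨C, fun z => hC z l⟩ _ _)) (by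
      rintro l ⟨w, hw⟩
      have h1 : σ 0 = z0 := by simp [hσ]
      change f (σ 0) l ≠ 0
      rw [h1]
      exact hz0 l ⟨_, hw⟩) (by
      intro w
      have h1 : σ (w + 2 * Real.pi * Complex.I) = σ w + τ := by
        simp only [hσ]
        field_simp
        ring
      obtain ⟨d, hd⟩ := hper (σ w)
      refine ⟨d, ?_⟩
      change f (σ (w + 2 * Real.pi * Complex.I)) = d • f (σ w)
      rw [h1]
      exact hd)
  refine ⟨(hf.2.1 z).1, fun G hG h1 => ?_⟩
  obtain ⟨w, hw⟩ := hσA.surj z
  rw [← hw]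
  obtain ⟨e, he⟩ := hG
  have h2 : f (σ w) = fun l => c w * g w l := by
    have := (hg3 w).2
    funext l
    exact congrFun this l
  rw [h2, eval_scale he, h1 g ⟨hg1, hg2⟩ w, mul_zero]

theorem ET.add {f g : ℂ → ℂ} (hf : ET f) (hg : ET g) : ET fun z => f z + g z := by
  obtain ⟨C, hC0, hC⟩ := hf.pos
  obtain ⟨D, hD0, hD⟩ := hg.pos
  refine ⟨C + D + 1, fun z => (norm_add_le _ _).trans ?_⟩
  have h1 : Real.exp (C * (‖z‖ + 1)) ≤ Real.exp ((C + D) * (‖z‖ + 1)) := by
    rw [Real.exp_le_exp]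
    exact mul_le_mul_of_nonneg_right (by linarith) (by positivity)
  have h2 : Real.exp (D * (‖z‖ + 1)) ≤ Real.exp ((C + D) * (‖z‖ + 1)) := by
    rw [Real.exp_le_exp]
    exact mul_le_mul_of_nonneg_right (by linarith) (by positivity)
  have h3 : (2 : ℝ) ≤ Real.exp (1 * (‖z‖ + 1)) := by
    have := Real.add_one_le_exp (1 * (‖z‖ + 1))
    have := norm_nonneg z
    linarith
  have h4 : Real.exp ((C + D + 1) * (‖z‖ + 1)) =
      Real.exp ((C + D) * (‖z‖ + 1)) * Real.exp (1 * (‖z‖ + 1)) := by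
    rw [← Real.exp_add]
    ring_nf
  rw [h4]
  have h5 := Real.exp_pos ((C + D) * (‖z‖ + 1))
  have h6 := hC z
  have h7 := hD z
  nlinarith

theorem ET.polyexp (A : Polynomial ℂ) : ET fun z => A.eval (Complex.exp z) := by
  have hexp : ET Complex.exp := by
    refine ⟨1, fun z => (Complex.norm_exp_le_exp_norm z).trans ?_⟩
    rw [Real.exp_le_exp]
    linarith
  induction A using Polynomial.induction_on' with
  | add p q hp hq =>
    have h1 := hp.add hq
    simp only [Polynomial.eval_add]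
    exact h1
  | monomial k a =>
    simp only [Polynomial.eval_monomial]
    refine (ET.const a).mul ?_
    induction k with
    | zero => simpa using ET.const 1
    | succ k ih =>
      simp only [pow_succ]
      exact ih.mul hexp

theorem expType_of {f : ℂ → Fin (n + 1) → ℂ} (h : ∀ l, ET fun z => f z l) : ExpType f := by
  have h1 : ∀ l, ∃ C : ℝ, 0 ≤ C ∧ ∀ z, ‖f z l‖ ≤ Real.exp (C * (‖z‖ + 1)) := fun l => (h l).pos
  choose C hC0 hC using h1
  refine ⟨∑ l, C l, fun z l => (hC l z).trans ?_⟩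
  rw [Real.exp_le_exp]
  exact mul_le_mul_of_nonneg_right (Finset.single_le_sum (fun j _ => hC0 j) (Finset.mem_univ l))
    (by positivity)

theorem GmCurve.expType {f : ℂ → Fin (n + 1) → ℂ} (h : GmCurve f) : ExpType f := by
  obtain ⟨P, hP⟩ := h
  refine expType_of fun l => ?_
  simp only [hP]
  exact ET.polyexp (P l)

theorem GmCurve.per {f : ℂ → Fin (n + 1) → ℂ} (h : GmCurve f) (z : ℂ) :
    f (z + 2 * Real.pi * Complex.I) = f z := by
  obtain ⟨P, hP⟩ := h
  funext l
  rw [hP, hP, Complex.exp_periodic]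

/-- translations and exponential type -/
theorem exp_trans {d q : ℕ} (hE : ∀ F ∈ E, ∃ e ≤ d, F.IsHomogeneous e) (hq : q ≤ d)
    (hQ : Q.IsHomogeneous q) (hf : EntireCurve (Ideal.span E) Q f) (hT : ExpType f) {τ : ℂ}
    (hτ : τ ≠ 0) (hs : SameSections (fun z => f (z + τ)) f) (z : ℂ) : f z ∈ SpGm E Q := by
  rcases bd_or_weighted hE hq hQ hf with ⟨M, hM⟩ | hw
  · obtain ⟨k, hk, hp⟩ := per_of_bd hM hf hs
    have hk0 : (k : ℂ) ≠ 0 := by exact_mod_cast hk.ne'
    exact exp_spGm (fun F hF => by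
      obtain ⟨e, -, he⟩ := hE F hF
      exact ⟨e, he⟩) hQ hf hT (mul_ne_zero hk0 hτ) hp z
  · exact weighted_spGm hE hq hQ hf hw z

end Pool.Agent.Q72.SH
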