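import Pool.Agent.Q72.SH.SpG
import Pool.Agent.H159R3.NV.Growth
import Pool.Agent.TH143.Punct

/-!
Entire functions of exponential type with periodic zeros.
-/

set_option autoImplicit false

namespace Pool.Agent.Q72.SH

open Filter Topology Metric
open Pool.Agent.H159R3.NV (L P T2 P_nil P_cons P_diff count_le distinct_fac avg_le_cod ci_log
  ci_posLog ne_cod mero_of_diff quot_mero jensen_entire avg_abs_quot poisson_diff)

/-- exponential type -/
def ET (h : ℂ → ℂ) : Prop := ∃ C : ℝ, ∀ z, ‖h z‖ ≤ Real.exp (C * (‖z‖ + 1))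

theorem ET.pos {h : ℂ → ℂ} (hh : ET h) : ∃ C : ℝ, 0 ≤ C ∧ ∀ z, ‖h z‖ ≤ Real.exp (C * (‖z‖ + 1)) := by
  obtain ⟨C, hC⟩ := hh
  refine ⟨|C|, abs_nonneg C, fun z => (hC z).trans ?_⟩
  rw [Real.exp_le_exp]
  exact mul_le_mul_of_nonneg_right (le_abs_self C) (by positivity)

theorem ET.mul {f g : ℂ → ℂ} (hf : ET f) (hg : ET g) : ET fun z => f z * g z := by
  obtain ⟨C, hC⟩ := hf
  obtain ⟨D, hD⟩ := hg
  refine ⟨C + D, fun z => ?_⟩
  rw [norm_mul, add_mul, Real.exp_add]
  exact mul_le_mul (hC z) (hD z) (norm_nonneg _) (Real.exp_pos _).le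

theorem ET.const (c : ℂ) : ET fun _ => c := by
  refine ⟨‖c‖, fun z => ?_⟩
  have h1 := Real.add_one_le_exp (‖c‖ * (‖z‖ + 1))
  have h2 : 0 ≤ ‖c‖ * ‖z‖ := by positivity
  nlinarith

theorem ET.comp {f : ℂ → ℂ} (hf : ET f) (a b : ℂ) : ET fun z => f (a * z + b) := by
  obtain ⟨C, hC0, hC⟩ := hf.pos
  refine ⟨C * (‖a‖ + ‖b‖ + 1), fun z => (hC _).trans ?_⟩
  rw [Real.exp_le_exp, mul_assoc]
  apply mul_le_mul_of_nonneg_left _ hC0
  have h1 : ‖a * z + b‖ ≤ ‖a‖ * ‖z‖ + ‖b‖ := (norm_add_le _ _).trans (by rw [norm_mul])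
  have h2 : 0 ≤ ‖b‖ * ‖z‖ := by positivity
  have h3 := norm_nonneg a
  have h4 := norm_nonneg z
  nlinarith

theorem ET.expsub (w : ℂ) : ET fun z => Complex.exp z - Complex.exp w := by
  refine ⟨1 + ‖Complex.exp w‖, fun z => ?_⟩
  have h1 : ‖Complex.exp z - Complex.exp w‖ ≤ Real.exp ‖z‖ + ‖Complex.exp w‖ :=
    (norm_sub_le _ _).trans (by
      gcongr
      exact Complex.norm_exp_le_exp_norm z)
  have h0 := norm_nonneg (Complex.exp w)
  have h2 : Real.exp ‖z‖ + ‖Complex.exp w‖ ≤ Real.exp ‖z‖ * (1 + ‖Complex.exp w‖) := by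
    have := Real.one_le_exp (norm_nonneg z)
    nlinarith
  have h3 : (1 + ‖Complex.exp w‖) ≤ Real.exp (‖Complex.exp w‖) := by
    have := Real.add_one_le_exp ‖Complex.exp w‖
    linarith
  refine h1.trans (h2.trans ?_)
  calc Real.exp ‖z‖ * (1 + ‖Complex.exp w‖) ≤ Real.exp ‖z‖ * Real.exp (‖Complex.exp w‖) := by gcongr
    _ = Real.exp (‖z‖ + ‖Complex.exp w‖) := by rw [Real.exp_add]
    _ ≤ _ := by
      rw [Real.exp_le_exp]
      have := norm_nonneg z
      nlinarith

/-- logarithms of functions of exponential type -/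
theorem ET.log {h : ℂ → ℂ} {C : ℝ} (hC : 0 ≤ C) (hh : ∀ z, ‖h z‖ ≤ Real.exp (C * (‖z‖ + 1))) (z : ℂ) :
    Real.log ‖h z‖ ≤ C * (‖z‖ + 1) := by
  rcases eq_or_ne (h z) 0 with h0 | h0
  · rw [h0, norm_zero, Real.log_zero]
    positivity
  · have h1 := Real.log_le_log (norm_pos_iff.2 h0) (hh z)
    rwa [Real.log_exp] at h1

theorem L_le {h : ℂ → ℂ} (hd : Differentiable ℂ h) {C : ℝ} (hC : 0 ≤ C)
    (hh : ∀ z, ‖h z‖ ≤ Real.exp (C * (‖z‖ + 1))) {R : ℝ} (hR : 0 < R) : L h R ≤ C * (R + 1) := by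
  unfold L
  apply Real.circleAverage_mono_on_of_le_circle (ci_log (mero_of_diff hd) R)
  intro z hz
  rw [mem_sphere, dist_zero_right, abs_of_pos hR] at hz
  have := ET.log hC hh z
  rwa [hz] at this

/-- **Zero-free quotients of functions of exponential type.** -/
theorem affine_of_quot {f g q : ℂ → ℂ} (hf : Differentiable ℂ f) (hfE : ET f) (hf0 : f 0 ≠ 0)
    (hg : Differentiable ℂ g) (hgE : ET g) (hq : Differentiable ℂ q) (hq0 : ∀ z, q z ≠ 0)
    (hgf : ∀ z, g z = f z * q z) : ∃ a b : ℂ, ∀ z, q z = Complex.exp (a * z + b) := by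
  have hg0 : g 0 ≠ 0 := by
    rw [hgf]
    exact mul_ne_zero hf0 (hq0 0)
  obtain ⟨C₁, hC₁, hfC⟩ := hfE.pos
  obtain ⟨C₂, hC₂, hgC⟩ := hgE.pos
  set C := max C₁ C₂ with hC
  have hC0 : 0 ≤ C := hC₁.trans (le_max_left _ _)
  set c0 := |Real.log ‖f 0‖| + |Real.log ‖g 0‖| with hc0
  -- mean of the absolute value of the logarithm
  have hT : ∀ R : ℝ, 0 < R → T2 f g R ≤ C * (R + 1) := by
    intro R hR
    have i1 := ci_log (mero_of_diff hf) R
    have i2 := ci_posLog (quot_mero hf hg) R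
    have e : T2 f g R = Real.circleAverage
        (fun z => Real.log ‖f z‖ + Real.posLog ‖g z / f z‖) 0 R := by
      rw [Real.circleAverage_fun_add i1 i2]
      rfl
    have e2 : C * (R + 1) = Real.circleAverage (fun _ : ℂ => C * (R + 1)) 0 R := by
      rw [Real.circleAverage_const]
    rw [e, e2]
    apply avg_le_cod (i1.add i2) (circleIntegrable_const _ _ _) hR.ne'
    have hsph : ∀ᶠ z in codiscreteWithin (sphere (0 : ℂ) |R|), z ∈ sphere (0 : ℂ) |R| :=
      self_mem_codiscreteWithin _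
    filter_upwards [ne_cod hf hf0 R, hsph] with z h1 h2
    rw [mem_sphere, dist_zero_right, abs_of_pos hR] at h2
    have p1 : 0 < ‖f z‖ := norm_pos_iff.mpr h1
    change Real.log ‖f z‖ + Real.posLog ‖g z / f z‖ ≤ C * (R + 1)
    rw [Real.posLog_eq_log_max_one (norm_nonneg _)]
    have p3 : 0 < max 1 ‖g z / f z‖ := lt_of_lt_of_le one_pos (le_max_left _ _)
    rw [← Real.log_mul p1.ne' p3.ne', ← Real.log_exp (C * (R + 1))]
    apply Real.log_le_log (by positivity)
    rw [mul_max_of_nonneg _ _ p1.le, mul_one, norm_div, mul_div_cancel₀ _ p1.ne']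
    apply max_le
    · refine (hfC z).trans ?_
      rw [Real.exp_le_exp, h2]
      exact mul_le_mul_of_nonneg_right (le_max_left _ _) (by linarith)
    · refine (hgC z).trans ?_
      rw [Real.exp_le_exp, h2]
      exact mul_le_mul_of_nonneg_right (le_max_right _ _) (by linarith)
  have hA : ∀ R : ℝ, 0 < R →
      Real.circleAverage (fun z => |Real.log ‖q z‖|) 0 R ≤ 2 * (C * (R + 1)) + c0 := by
    intro R hR
    have e : Real.circleAverage (fun z => |Real.log ‖q z‖|) 0 R =
        Real.circleAverage (fun z => |Real.log ‖g z / f z‖|) 0 R := by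
      apply Real.circleAverage_congr_codiscreteWithin _ hR.ne'
      filter_upwards [ne_cod hf hf0 R] with z h1
      rw [hgf, mul_div_cancel_left₀ _ h1]
    rw [e, avg_abs_quot hf hg hf0 hg0 hR.ne']
    have h1 := jensen_entire hR hf hf0
    have h2 := jensen_entire hR hg hg0
    have h3 := hT R hR
    have h4 := neg_abs_le (Real.log ‖f 0‖)
    have h5 := neg_abs_le (Real.log ‖g 0‖)
    linarith
  -- growth of `q`
  set D := |Real.log ‖q 0‖| + 4 * (2 * (C * 3) + c0) with hD
  have hD0 : 0 ≤ D := by positivity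
  have hgr : ∀ z : ℂ, 1 ≤ ‖z‖ → ‖q z‖ ≤ Real.exp (D * ‖z‖ ^ 1) := by
    intro z hz
    have hz0 : 0 < ‖z‖ := by linarith
    have h1 := poisson_diff (k := q) (R := 2 * ‖z‖) (δ := ‖z‖) (by linarith) hz0
      (fun z _ => hq.analyticAt z) (fun z _ => hq0 z) (w := z) (z := 0) (by linarith)
      (by rw [norm_zero]; linarith)
    have h2 := hA (2 * ‖z‖) (by linarith)
    have h3 : 2 * (2 * ‖z‖) * ‖z - 0‖ / ‖z‖ ^ 2 = 4 := by
      rw [sub_zero]
      field_simp
      ring
    rw [h3] at h1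
    have h4 : Real.log ‖q z‖ ≤ D * ‖z‖ := by
      have h5 := le_abs_self (Real.log ‖q z‖ - Real.log ‖q 0‖)
      have h6 := le_abs_self (Real.log ‖q 0‖)
      have h7 : |Real.log ‖q 0‖| ≤ |Real.log ‖q 0‖| * ‖z‖ := le_mul_of_one_le_right (abs_nonneg _) hz
      have h8 : c0 ≤ c0 * ‖z‖ := le_mul_of_one_le_right (by positivity) hz
      have h9 : C * (2 * ‖z‖ + 1) ≤ C * 3 * ‖z‖ := by
        rw [mul_assoc]
        exact mul_le_mul_of_nonneg_left (by linarith) hC0
      rw [hD]
      nlinarith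
    rw [pow_one, ← Real.log_le_iff_le_exp (norm_pos_iff.2 (hq0 z))]
    exact h4
  obtain ⟨h, hh, hqh, C', hC'⟩ := Pool.Agent.TH143.log_growth hq hq0 (p := 1) hD0 hgr
  -- Liouville
  have hds : Differentiable ℂ (dslope h 0) := Pool.Agent.H159R3.NV.dslope_diff hh 0
  have hbd : Bornology.IsBounded (Set.range (dslope h 0)) := by
    obtain ⟨M, hM⟩ := (isCompact_closedBall (0 : ℂ) 1).image_of_continuousOn
      hds.continuous.continuousOn |>.isBounded.exists_norm_le
    rw [isBounded_iff_forall_norm_le]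
    refine ⟨max M (C' + ‖h 0‖), ?_⟩
    rintro _ ⟨z, rfl⟩
    rcases le_or_gt ‖z‖ 1 with h1 | h1
    · exact (hM _ (Set.mem_image_of_mem _ (by rw [mem_closedBall, dist_zero_right]; exact h1))).trans
        (le_max_left _ _)
    · have hz0 : z ≠ 0 := by
        rintro rfl
        rw [norm_zero] at h1
        linarith
      rw [dslope_of_ne _ hz0, slope_def_field, sub_zero, norm_div]
      refine le_trans ?_ (le_max_right _ _)
      rw [div_le_iff₀ (by linarith)]
      have h2 := hC' z h1.le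
      rw [pow_one] at h2
      have h3 := norm_sub_le (h z) (h 0)
      have h4 : ‖h 0‖ ≤ ‖h 0‖ * ‖z‖ := le_mul_of_one_le_right (norm_nonneg _) h1.le
      linarith
  obtain ⟨a, ha⟩ := hds.exists_const_forall_eq_of_bounded hbd
  refine ⟨a, h 0, fun z => ?_⟩
  rw [hqh]
  congr 1
  have h1 := sub_smul_dslope h 0 z
  rw [ha z, sub_zero, smul_eq_mul] at h1
  linear_combination -h1

/-- products of factors `exp z - exp w` -/
noncomputable def PE (W : List ℂ) (z : ℂ) : ℂ := (W.map fun w => Complex.exp z - Complex.exp w).prod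

theorem PE_nil (z : ℂ) : PE [] z = 1 := rfl

theorem PE_cons (w : ℂ) (W : List ℂ) (z : ℂ) :
    PE (w :: W) z = (Complex.exp z - Complex.exp w) * PE W z := by
  unfold PE
  rw [List.map_cons, List.prod_cons]

theorem PE_diff (W : List ℂ) : Differentiable ℂ (PE W) := by
  induction W with
  | nil =>
    have : PE [] = fun _ => 1 := funext PE_nil
    rw [this]
    exact differentiable_const _
  | cons w W ih =>
    have : PE (w :: W) = fun z => (Complex.exp z - Complex.exp w) * PE W z := funext (PE_cons w W)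
    rw [this]
    exact (Complex.differentiable_exp.sub_const _).mul ih

theorem PE_ET (W : List ℂ) : ET (PE W) := by
  induction W with
  | nil =>
    have : PE [] = fun _ => 1 := funext PE_nil
    rw [this]
    exact ET.const 1
  | cons w W ih =>
    have : PE (w :: W) = fun z => (Complex.exp z - Complex.exp w) * PE W z := funext (PE_cons w W)
    rw [this]
    exact (ET.expsub w).mul ih

/-- `PE W` is a polynomial in the exponential function -/
theorem PE_poly (W : List ℂ) : ∃ A : Polynomial ℂ, ∀ z, PE W z = A.eval (Complex.exp z) := by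
  induction W with
  | nil => exact ⟨1, fun z => by rw [PE_nil, Polynomial.eval_one]⟩
  | cons w W ih =>
    obtain ⟨A, hA⟩ := ih
    refine ⟨(Polynomial.X - Polynomial.C (Complex.exp w)) * A, fun z => ?_⟩
    rw [PE_cons, hA, Polynomial.eval_mul, Polynomial.eval_sub, Polynomial.eval_X,
      Polynomial.eval_C]

theorem P_append (A B : List ℂ) (z : ℂ) : P (A ++ B) z = P A z * P B z := by
  unfold P
  rw [List.map_append, List.prod_append]

/-- many zeros -/
theorem PE_zeros (W : List ℂ) {ρ0 : ℝ} (hW : ∀ w ∈ W, ‖w‖ ≤ ρ0) (K : ℕ) :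
    ∃ (Z : List ℂ) (k : ℂ → ℂ), Differentiable ℂ k ∧ (∀ z, PE W z = P Z z * k z) ∧
      Z.length = W.length * (2 * K + 1) ∧ ∀ a ∈ Z, ‖a‖ ≤ ρ0 + 7 * K := by
  induction W with
  | nil =>
    exact ⟨[], fun _ => 1, differentiable_const _, fun z => by rw [PE_nil, P_nil, mul_one],
      by simp, by simp⟩
  | cons w W ih =>
    obtain ⟨Z, k, hk, hkz, hlen, hZ⟩ := ih fun w' hw' => hW w' (List.mem_cons_of_mem _ hw')
    set A : List ℂ := (List.range (2 * K + 1)).map fun j : ℕ =>
      w + 2 * Real.pi * Complex.I * ((j : ℂ) - K) with hA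
    have hpi : (2 * Real.pi * Complex.I : ℂ) ≠ 0 := by
      exact Complex.two_pi_I_ne_zero
    have hAn : A.Nodup := by
      rw [hA]
      apply List.Nodup.map _ List.nodup_range
      intro i j hij
      have h1 := mul_left_cancel₀ hpi (add_left_cancel hij)
      have h2 : (i : ℂ) = j := by linear_combination h1
      exact_mod_cast h2
    have hAz : ∀ a ∈ A, Complex.exp a - Complex.exp w = 0 := by
      intro a ha
      rw [hA, List.mem_map] at ha
      obtain ⟨j, -, rfl⟩ := ha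
      rw [sub_eq_zero]
      have h1 : w + 2 * Real.pi * Complex.I * ((j : ℂ) - K) =
          w + ((j - K : ℤ) : ℂ) * (2 * Real.pi * Complex.I) := by
        push_cast
        ring
      rw [h1]
      exact (Complex.exp_periodic.int_mul (j - K : ℤ)) w
    obtain ⟨k', hk', hkz'⟩ := distinct_fac A hAn (fun z => Complex.exp z - Complex.exp w)
      (Complex.differentiable_exp.sub_const _) hAz
    refine ⟨A ++ Z, fun z => k' z * k z, hk'.mul hk, fun z => ?_, ?_, fun a ha => ?_⟩
    · rw [PE_cons, hkz, P_append]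
      have h1 := hkz' z
      rw [h1]
      ring
    · rw [List.length_append, hlen, hA, List.length_map, List.length_range, List.length_cons]
      ring
    · rcases List.mem_append.1 ha with h1 | h1
      · rw [hA, List.mem_map] at h1
        obtain ⟨j, hj, rfl⟩ := h1
        rw [List.mem_range] at hj
        have h2 := hW w List.mem_cons_self
        have h3 : ‖(2 * Real.pi * Complex.I * ((j : ℂ) - K) : ℂ)‖ ≤ 7 * K := by
          rw [norm_mul, norm_mul, norm_mul, Complex.norm_I, mul_one, Complex.norm_real,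
            Real.norm_eq_abs, abs_of_pos Real.pi_pos]
          have h4 : ‖((j : ℂ) - K)‖ ≤ K := by
            have h5 : ((j : ℂ) - K) = (((j : ℝ) - K : ℝ) : ℂ) := by push_cast; rfl
            rw [h5, Complex.norm_real, Real.norm_eq_abs, abs_le]
            have h6 : (j : ℝ) < 2 * K + 1 := by exact_mod_cast hj
            have h7 : (j : ℝ) ≤ 2 * K := by exact_mod_cast Nat.lt_succ_iff.1 hj
            have h8 : (0 : ℝ) ≤ j := Nat.cast_nonneg _
            constructor <;> linarith
          have h5 : ‖(2 : ℂ)‖ = 2 := by simp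
          rw [h5]
          have h6 := Real.pi_lt_d2
          have h7 : 0 ≤ ‖((j : ℂ) - K)‖ := norm_nonneg _
          have h8 : (0 : ℝ) ≤ K := Nat.cast_nonneg _
          have h9 : 2 * Real.pi ≤ 7 := by linarith
          exact mul_le_mul h9 h4 h7 (by norm_num)
        exact (norm_add_le _ _).trans (add_le_add h2 h3)
      · exact hZ a h1

/-- **Only finitely many zeros modulo the period.** -/
theorem count_bound {h : ℂ → ℂ} (hhE : ET h) (h0 : h 0 ≠ 0) : ∃ N : ℕ, ∀ (W : List ℂ) (q : ℂ → ℂ),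
    Differentiable ℂ q → (∀ z, h z = PE W z * q z) → W.length ≤ N := by
  obtain ⟨C, hC0, hC⟩ := hhE.pos
  have hl2 : 0 < Real.log 2 := Real.log_pos (by norm_num)
  obtain ⟨N, hN⟩ := exists_nat_gt (7 * C / Real.log 2)
  refine ⟨N, fun W q hq hW => ?_⟩
  by_contra hcon
  push Not at hcon
  -- a bound for the norms
  obtain ⟨ρ0, hρ0, hWρ⟩ : ∃ ρ0 : ℝ, 0 < ρ0 ∧ ∀ w ∈ W, ‖w‖ ≤ ρ0 := by
    clear hW hcon
    induction W with
    | nil => exact ⟨1, one_pos, by simp⟩
    | cons w W ih =>
      obtain ⟨ρ, h1, h2⟩ := ih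
      refine ⟨max ρ ‖w‖, lt_of_lt_of_le h1 (le_max_left _ _), fun a ha => ?_⟩
      rcases List.mem_cons.1 ha with rfl | h3
      · exact le_max_right _ _
      · exact (h2 a h3).trans (le_max_left _ _)
  have key : ∀ K : ℕ, (W.length : ℝ) * (2 * K + 1) * Real.log 2 ≤
      C * (2 * (ρ0 + 7 * K) + 1) - Real.log ‖h 0‖ := by
    intro K
    obtain ⟨Z, k, hk, hkz, hlen, hZ⟩ := PE_zeros W hWρ K
    have hρ : 0 < ρ0 + 7 * (K : ℝ) := by positivity
    have e : ∀ z, h z = P Z z * (k z * q z) := by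
      intro z
      rw [hW, hkz]
      ring
    have h1 := count_le Z (fun z => k z * q z) (hk.mul hq) hρ (R := 2 * (ρ0 + 7 * K))
      (by linarith) hZ (by rw [← e]; exact h0)
    have e1 : (fun z => P Z z * (k z * q z)) = h := funext fun z => (e z).symm
    have e2 : P Z 0 * (k 0 * q 0) = h 0 := (e 0).symm
    have h1' : (Z.length : ℝ) * Real.log (2 * (ρ0 + 7 * (K : ℝ)) / (ρ0 + 7 * K)) ≤
      L (fun z => P Z z * (k z * q z)) (2 * (ρ0 + 7 * K)) - Real.log ‖P Z 0 * (k 0 * q 0)‖ := h1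
    have hd : Differentiable ℂ h := by
      rw [← e1]
      exact (P_diff Z).mul (hk.mul hq)
    rw [e1, e2, hlen] at h1'
    have e3 : 2 * (ρ0 + 7 * (K : ℝ)) / (ρ0 + 7 * K) = 2 := by field_simp
    rw [e3] at h1'
    push_cast at h1'
    have h2 := L_le hd hC0 hC (R := 2 * (ρ0 + 7 * K)) (by linarith)
    linarith
  have hlt : 7 * C < W.length * Real.log 2 := by
    rw [div_lt_iff₀ hl2] at hN
    have h1 : (N : ℝ) < W.length := by exact_mod_cast hcon
    nlinarith
  set δ := W.length * Real.log 2 - 7 * C with hδ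
  have hδ0 : 0 < δ := by linarith
  obtain ⟨K, hK⟩ := exists_nat_gt ((C * (2 * ρ0 + 1) - Real.log ‖h 0‖) / (2 * δ))
  rw [div_lt_iff₀ (by linarith)] at hK
  have h1 := key K
  have h2 : 0 ≤ (W.length : ℝ) * Real.log 2 := by positivity
  have h3 : (W.length : ℝ) * (2 * K + 1) * Real.log 2 = 2 * K * (W.length * Real.log 2) +
      W.length * Real.log 2 := by ring
  have h4 : (W.length : ℝ) * Real.log 2 = δ + 7 * C := by rw [hδ]; ring
  rw [h3, h4] at h1
  nlinarith

end Pool.Agent.Q72.SH
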