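import Pool.Agent.Q72.SH.Case2

/-!
Entire curves with given hyperplane sections: uniform finiteness.
-/

set_option autoImplicit false

namespace Pool.Agent.Q72.SH

open Finset MvPolynomial Filter
open Pool.Agent.TH143.EL Pool.Agent.TH143.GT Pool.Agent.W602.GT Pool.Agent.TH143
open Pool.Agent.W603.BPR (EntireCurve)

variable {n D : ℕ} {p : Ideal (MvPolynomial (Fin (n + 1)) ℂ)}
  {Q : MvPolynomial (Fin (n + 1)) ℂ}

/-- The curves `g` and `g'`, given by homogeneous coordinates without common zeros, have the same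
intersections, with multiplicities, with the coordinate hyperplanes. -/
def SameSections (g g' : ℂ → Fin (n + 1) → ℂ) : Prop :=
  ∀ l z, analyticOrderAt (fun z => g z l) z = analyticOrderAt (fun z => g' z l) z

/-- the two vectors of homogeneous coordinates give the same curve -/
def SameCurve (g g' : ℂ → Fin (n + 1) → ℂ) : Prop := ∀ z, ∃ c : ℂ, g z = c • g' z

theorem coord_diff {g : ℂ → Fin (n + 1) → ℂ} (hg : Differentiable ℂ g) (l : Fin (n + 1)) :
    Differentiable ℂ fun z => g z l := fun z => (differentiableAt_pi.1 (hg z)) l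

theorem eval_diff {g : ℂ → Fin (n + 1) → ℂ} (hg : Differentiable ℂ g)
    (F : MvPolynomial (Fin (n + 1)) ℂ) : Differentiable ℂ fun z => eval (g z) F := by
  induction F using MvPolynomial.induction_on with
  | C a => simp only [eval_C]; exact differentiable_const a
  | add P R hP hR => simp only [map_add]; exact hP.add hR
  | mul_X P l hP => simp only [map_mul, eval_X]; exact hP.mul (coord_diff hg l)

theorem exists_unit {u v : ℂ → ℂ} (hu : Differentiable ℂ u) (hv : Differentiable ℂ v)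
    (h : ∀ z, analyticOrderAt u z = analyticOrderAt v z) :
    ∃ G : Ent, ∀ z, u z = Complex.exp (G.1 z) * v z := by
  by_cases h0 : ∃ z, v z ≠ 0
  · obtain ⟨g, hg1, hg2⟩ := Pool.Agent.TH735.QM.ratio hu hv h0 h
    exact ⟨⟨g, hg1⟩, hg2⟩
  · push Not at h0
    refine ⟨0, fun z => ?_⟩
    rw [h0 z, mul_zero]
    by_contra hz
    obtain ⟨g, hg1, hg2⟩ := Pool.Agent.TH735.QM.ratio hv hu ⟨z, hz⟩ fun z => (h z).symm
    have h1 := hg2 z
    rw [h0 z] at h1
    exact (mul_ne_zero (Complex.exp_ne_zero _) hz) h1.symm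

theorem exists_data {I : Type} {g : I → ℂ → Fin (n + 1) → ℂ} (hg : ∀ s, EntireCurve p Q (g s))
    (hs : ∀ s t, SameSections (g s) (g t)) (i0 : I) :
    ∃ G : I → Option (Fin (n + 1)) → Ent, Data p Q g (g i0) G := by
  have h1 : ∀ s l, ∃ G : Ent, ∀ z, g s z l = Complex.exp (G.1 z) * g i0 z l := fun s l =>
    exists_unit (coord_diff (hg s).1 l) (coord_diff (hg i0).1 l) fun z => hs s i0 l z
  have h2 : ∀ s, ∃ G : Ent, ∀ z, eval (g s z) Q = Complex.exp (G.1 z) := by
    intro s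
    obtain ⟨G, hG1, hG2⟩ := Pool.Agent.TH735.QM.entire_log (eval_diff (hg s).1 Q)
      fun z => ((hg s).2.1 z).2.2
    exact ⟨⟨G, hG1⟩, hG2⟩
  choose G1 hG1 using h1
  choose G2 hG2 using h2
  refine ⟨fun s l => match l with
    | some l => G1 s l
    | none => G2 s, (hg i0).1, fun s => (hg s).1, hG1, hG2, fun s z F hF =>
      ((hg s).2.1 z).2.1 F hF⟩

theorem leD_of_homog {F : MvPolynomial (Fin (n + 1)) ℂ} {e d : ℕ} (hF : F.IsHomogeneous e)
    (he : e ≤ d) : LeD (d + 1) F := by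
  intro m hm l
  have h1 : Finsupp.degree m = e := by
    rw [Finsupp.degree_eq_weight_one]
    exact hF (mem_support_iff.1 hm)
  have h2 : m l ≤ Finsupp.degree m := by
    rw [Finsupp.degree_eq_sum]
    exact Finset.single_le_sum (f := fun l => m l) (fun _ _ => Nat.zero_le _) (Finset.mem_univ l)
  omega

/-- the family has a weight: the components vanish at the generic point -/
def HasWeight (d : ℕ) (Sg : Set (MvPolynomial (Fin (n + 1)) ℂ)) (Q : MvPolynomial (Fin (n + 1)) ℂ)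
    {K : Type} [Field K] [Algebra ℂ K] (y : Fin (n + 1) → K) : Prop :=
  ∃ b : Option (Fin (n + 1)) → ℤ,
    (∀ F ∈ Sg, ∀ k, aeval y (comp (d + 1) (fun l => b (some l)) k F) = 0) ∧
    (∀ k, k ≠ b none → aeval y (comp (d + 1) (fun l => b (some l)) k Q) = 0) ∧
    ∃ i j, y i ≠ 0 ∧ y j ≠ 0 ∧ b (some i) ≠ b (some j)

open Classical in
/-- a robust subfamily -/
theorem exists_sub (n d m : ℕ) : ∃ M : ℕ, ∀ G : Fin (M + 1) → Option (Fin (n + 1)) → Ent,
    ∃ S : Finset (Fin (M + 1)), m ≤ S.card ∧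
      Robust (fun s (a : Option (Ex (Fin (n + 1)) (d + 1))) => eE (gam (G s) a))
        ((Fintype.card (Option (Ex (Fin (n + 1)) (d + 1)))).factorial ^ 2) S ∧
      ∀ a b : Option (Ex (Fin (n + 1)) (d + 1)), ¬ rr (d + 1) G S a b →
        ∀ s ∈ S, ∀ t ∈ S, (gam (G s) a - gam (G s) b) - (gam (G t) a - gam (G t) b) ∈ Cst →
        s = t := by
  set cA := Fintype.card (Option (Ex (Fin (n + 1)) (d + 1))) with hcA
  obtain ⟨M, hM⟩ := exists_CI
    (P := Option (Ex (Fin (n + 1)) (d + 1)) × Option (Ex (Fin (n + 1)) (d + 1)))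
    (cA * cA.factorial ^ 2 + m)
  refine ⟨M, fun G => ?_⟩
  -- constant or injective
  obtain ⟨S1, -, hS1, hS1c⟩ := hM (Fin (M + 1)) (Ent ⧸ Cst)
    (fun ab s => QuotientAddGroup.mk (gam (G s) ab.1 - gam (G s) ab.2)) Finset.univ (by
      rw [Finset.card_univ, Fintype.card_fin]
      omega)
  -- a robust subset
  obtain ⟨S, hS, hSm, hrob⟩ := exists_robust
    (fun s (a : Option (Ex (Fin (n + 1)) (d + 1))) => eE (gam (G s) a)) (cA.factorial ^ 2) m cA S1
    ((Submodule.finrank_le _).trans (by rw [Module.finrank_fintype_fun_eq_card])) hS1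
  refine ⟨S, hSm, hrob, ?_⟩
  intro a b hab s hs' t ht hst
  rcases (hS1c (a, b)).mono hS with h1 | h1
  · exfalso
    apply hab
    intro s hs t ht
    have h2 := h1 s hs t ht
    have h3 := QuotientAddGroup.eq.1 h2
    have h4 := Cst.neg_mem h3
    have h5 : -(-(gam (G s) a - gam (G s) b) + (gam (G t) a - gam (G t) b)) =
      (gam (G s) a - gam (G s) b) - (gam (G t) a - gam (G t) b) := by abel
    rwa [h5] at h4
  · apply h1 s hs' t ht
    apply QuotientAddGroup.eq.2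
    have h4 := Cst.neg_mem hst
    have h5 : -((gam (G s) a - gam (G s) b) - (gam (G t) a - gam (G t) b)) =
      -(gam (G s) a - gam (G s) b) + (gam (G t) a - gam (G t) b) := by abel
    rwa [h5] at h4

open Classical in
/-- **Uniform finiteness.** -/
theorem weights (n d : ℕ) : ∃ M : ℕ, ∀ (p : Ideal (MvPolynomial (Fin (n + 1)) ℂ))
    (Q : MvPolynomial (Fin (n + 1)) ℂ) (q : ℕ), q ≤ d → Q.IsHomogeneous q →
    ∀ Sg : Set (MvPolynomial (Fin (n + 1)) ℂ), p = Ideal.span Sg →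
    (∀ F ∈ Sg, ∃ e ≤ d, F.IsHomogeneous e) →
    ∀ (K : Type) [Field K] [Algebra ℂ K] (y : Fin (n + 1) → K), GP p Q y →
    ∀ g : Fin (M + 1) → ℂ → Fin (n + 1) → ℂ, (∀ s, EntireCurve p Q (g s)) →
      (∀ s, ZDense p (g s) Set.univ) → (∀ s t, SameSections (g s) (g t)) →
      (∀ s t, SameCurve (g s) (g t) → s = t) → HasWeight d Sg Q y := by
  obtain ⟨N1, hN1⟩ := exists_bound
    (ex' : Option (Ex (Fin (n + 1)) (d + 1)) → Option (Fin (n + 1)) → ℕ)
  obtain ⟨M, hM⟩ := exists_sub n d (N1 + 2)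
  refine ⟨M, fun p Q q hq hQ Sg hp hSg K _ _ y hy g hg hd hs hdist => ?_⟩
  obtain ⟨G, h⟩ := exists_data hg hs 0
  have hSg' : ∀ F ∈ Sg, LeD (d + 1) F ∧ ∃ e, F.IsHomogeneous e := by
    intro F hF
    obtain ⟨e, he, hFe⟩ := hSg F hF
    exact ⟨leD_of_homog hFe he, e, hFe⟩
  have hQD : LeD (d + 1) Q := leD_of_homog hQ hq
  obtain ⟨S, hSm, hrob, hinj⟩ := hM G
  have hne : S.Nonempty := Finset.card_pos.1 (by omega)
  by_cases hall : ∀ i j, y i ≠ 0 → y j ≠ 0 →
      rr (d + 1) G S (some (ei d i)) (some (ei d j))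
  · exact h.case2 hd hy hQ hQD hp hSg' hN1 (S := S) (by omega) hinj hrob
      (fun s _ t _ hst => hdist s t hst) hall
  · push Not at hall
    obtain ⟨i, j, hi, hj, hij⟩ := hall
    obtain ⟨b, hb, hbij⟩ := exists_weight hij
    refine ⟨b, fun F hF k => ?_, fun k hk => ?_, i, j, hi, hj, hbij⟩
    · have hFp : F ∈ p := by
        rw [hp]
        exact Ideal.subset_span hF
      exact h.comps hd hy hne hinj hrob hb (hSg' F hF).1 (hSg' F hF).2 k (Or.inl hFp)
    · exact h.comps hd hy hne hinj hrob hb hQD ⟨q, hQ⟩ k (Or.inr ⟨rfl, hk⟩)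

/-- **Uniform finiteness.** -/
theorem main (n d : ℕ) : ∃ M : ℕ, ∀ (p : Ideal (MvPolynomial (Fin (n + 1)) ℂ))
    (Q : MvPolynomial (Fin (n + 1)) ℂ) (q : ℕ), q ≤ d → Q.IsHomogeneous q →
    ∀ Sg : Set (MvPolynomial (Fin (n + 1)) ℂ), p = Ideal.span Sg →
    (∀ F ∈ Sg, ∃ e ≤ d, F.IsHomogeneous e) →
    ∀ (K : Type) [Field K] [Algebra ℂ K] (w : ℕ) (y : Fin (n + 1) → K), FunField p Q K w y →
    ∀ g : Fin (M + 1) → ℂ → Fin (n + 1) → ℂ, (∀ s, EntireCurve p Q (g s)) →
      (∀ s, ZDense p (g s) Set.univ) → (∀ s t, SameSections (g s) (g t)) →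
      (∀ s t, SameCurve (g s) (g t) → s = t) → ∃ r : K, ¬ AllFlat Q y r := by
  obtain ⟨M, hM⟩ := weights n d
  refine ⟨M, fun p Q q hq hQ Sg hp hSg K _ _ w y hy g hg hd hs hdist => ?_⟩
  have hSg' : ∀ F ∈ Sg, LeD (d + 1) F ∧ ∃ e, F.IsHomogeneous e := by
    intro F hF
    obtain ⟨e, he, hFe⟩ := hSg F hF
    exact ⟨leD_of_homog hFe he, e, hFe⟩
  obtain ⟨b, hb1, hb2, i, j, hi, hj, hij⟩ := hM p Q q hq hQ Sg hp hSg K y (gp_of hy) g hg hd hs
    hdist
  exact fam_of_weight hy hQ (leD_of_homog hQ hq) hp hSg' (fun l => b (some l)) (b none) hb1 hb2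
    hi hj hij

end Pool.Agent.Q72.SH
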