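import Pool.Agent.Q72.SH.Set

/-!
Consequences of the finiteness for a single curve.
-/

set_option autoImplicit false

namespace Pool.Agent.Q72.SH

open Finset MvPolynomial Filter
open Pool.Agent.TH143.EL Pool.Agent.TH143.GT Pool.Agent.W602.GT Pool.Agent.TH143
open Pool.Agent.W603.BPR (EntireCurve)

variable {n : ℕ} {E : Set (MvPolynomial (Fin (n + 1)) ℂ)} {Q : MvPolynomial (Fin (n + 1)) ℂ}
  {f : ℂ → Fin (n + 1) → ℂ} {M : ℕ}

/-- The curves `g` and `f` have the same Zariski closure. -/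
def SameClosure (g f : ℂ → Fin (n + 1) → ℂ) : Prop :=
  ∀ H : MvPolynomial (Fin (n + 1)) ℂ, IsForm H →
    ((∀ z, eval (g z) H = 0) ↔ ∀ z, eval (f z) H = 0)

theorem idl_of_same {g : ℂ → Fin (n + 1) → ℂ} (h : SameClosure g f)
    {p : Ideal (MvPolynomial (Fin (n + 1)) ℂ)} (hg : EntireCurve p Q g) :
    EntireCurve (idl f) Q g ∧ ZDense (idl f) g Set.univ := by
  refine ⟨⟨hg.1, fun z => ⟨(hg.2.1 z).1, fun H hH => ?_, (hg.2.1 z).2.2⟩, hg.2.2⟩,
    fun H hH h0 => Ideal.subset_span ⟨hH, (h H hH).1 fun z => h0 z trivial⟩⟩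
  have h1 : idl f ≤ RingHom.ker (eval (g z)) := by
    unfold idl
    rw [Ideal.span_le]
    intro G hG
    exact (h G hG.1).2 hG.2 z
  exact h1 hH

/-- finitely many curves with the same sections and the same closure -/
theorem fam_of_bd (hB : Bd M (idl f) Q) {p : Ideal (MvPolynomial (Fin (n + 1)) ℂ)}
    (g : Fin (M + 1) → ℂ → Fin (n + 1) → ℂ) (hg : ∀ s, EntireCurve p Q (g s))
    (hc : ∀ s, SameClosure (g s) f) (hs : ∀ s, SameSections (g s) f) :
    ∃ s t, s ≠ t ∧ SameCurve (g s) (g t) :=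
  hB g (fun s => (idl_of_same (hc s) (hg s)).1) (fun s => (idl_of_same (hc s) (hg s)).2)
    fun s t => (hs s).trans (hs t).symm

theorem index_of_bd (hB : Bd M (idl f) Q) (hf : EntireCurve (Ideal.span E) Q f)
    (σ : Fin (M + 1) → ℂ → ℂ) (hσ : ∀ s, Aff (σ s))
    (h : ∀ s, SameSections (fun z => f (σ s z)) f) :
    ∃ s t, s ≠ t ∧ SameCurve (fun z => f (σ s z)) fun z => f (σ t z) :=
  hB.index (EC.idl hf) (zd_idl f) σ hσ h

theorem per_of_bd (hB : Bd M (idl f) Q) (hf : EntireCurve (Ideal.span E) Q f) {b : ℂ}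
    (hb : SameSections (fun z => f (z + b)) f) :
    ∃ k : ℕ, 0 < k ∧ SameCurve (fun z => f (z + k * b)) f := by
  obtain ⟨k, hk, -, h1⟩ := hB.iter (EC.idl hf) (zd_idl f) (σ := fun z => z + b)
    ⟨1, b, one_ne_zero, fun z => by rw [one_mul]⟩ hb
  refine ⟨k, hk, fun z => ?_⟩
  have h2 := h1 z
  simp only [add_iter] at h2
  exact h2

theorem root_of_bd (hB : Bd M (idl f) Q) (hf : EntireCurve (Ideal.span E) Q f) {a b : ℂ}
    (ha : a ≠ 0) (h : SameSections (fun z => f (a * z + b)) f) : ∃ k : ℕ, 0 < k ∧ a ^ k = 1 :=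
  hB.root (EC.idl hf) (zd_idl f) ha h

/-- varieties which are not covered by rational curves -/
theorem allFlat_of {p : Ideal (MvPolynomial (Fin (n + 1)) ℂ)} {K : Type} [Field K] [Algebra ℂ K]
    {w : ℕ} {y : Fin (n + 1) → K} (hy : FunField p 1 K w y)
    (hX : ¬ Covered K ∨ (∃ N, 0 < N ∧ ∃ ω : (Fin w → Derivation ℂ K K) → K,
      Pluricanonical w N ω ∧ ω ≠ 0) ∨ GeneralType ℂ K w) (r : K) : AllFlat 1 y r := by
  by_contra hr
  rcases hX with h1 | ⟨N, hN, ω, hω, hω0⟩ | ⟨-, N, hN, ω, hpl, hreg, D, hD0, -⟩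
  · exact h1 (Pool.Agent.TH143.DE.covered' hy hr)
  · exact hω0 (Pool.Agent.TH143.DE.sec_zero' hy hr hN hω)
  · refine hD0 ?_
    rw [Pool.Agent.TH143.DE.sec_zero' hy hr hN
      (ω := ω 0) ⟨hpl 0, fun P hP => hreg P hP 0⟩]
    rfl

end Pool.Agent.Q72.SH
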