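import Pool.Agent.Q72.SH.Rows

/-!
Entire curves with the same hyperplane sections: the main theorem.
-/

set_option autoImplicit false

namespace Pool.Agent.Q72.SH

open Finset MvPolynomial Filter
open Pool.Agent.TH143.EL Pool.Agent.TH143.GT Pool.Agent.W602.GT Pool.Agent.TH143
open Pool.Agent.W603.BPR (EntireCurve)

variable {n D : ℕ} {p : Ideal (MvPolynomial (Fin (n + 1)) ℂ)}
  {Q : MvPolynomial (Fin (n + 1)) ℂ}
  {I : Type} {g : I → ℂ → Fin (n + 1) → ℂ} {f : ℂ → Fin (n + 1) → ℂ}
  {G : I → Option (Fin (n + 1)) → Ent}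

/-- the exponent of a coordinate -/
def ei (D : ℕ) (l : Fin (n + 1)) : Ex (Fin (n + 1)) (D + 1) := fun m => if m = l then 1 else 0

theorem gam_ei (G : Option (Fin (n + 1)) → Ent) (l : Fin (n + 1)) :
    gam G (some (ei D l)) = G (some l) := by
  rw [gam_some, Finset.sum_eq_single l]
  · simp [ei]
  · intro m _ hm
    simp [ei, hm]
  · intro h
    exact absurd (Finset.mem_univ _) h

theorem wt_ei (b : Option (Fin (n + 1)) → ℤ) (l : Fin (n + 1)) :
    wt b (ex' (some (ei D l))) = b (some l) := by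
  rw [wt_some]
  unfold wt exf
  rw [Finset.sum_eq_single l]
  · simp [ei]
  · intro m _ hm
    simp [ei, hm]
  · intro h
    exact absurd (Finset.mem_univ _) h

/-- **Case 1.** weights from units which are not proportional -/
theorem exists_weight {S : Finset I} {i j : Fin (n + 1)}
    (hij : ¬ rr (D + 1) G S (some (ei D i)) (some (ei D j))) :
    ∃ b : Option (Fin (n + 1)) → ℤ, (∀ a a' : Option (Ex (Fin (n + 1)) (D + 1)),
      rr (D + 1) G S a a' → wt b (ex' a) = wt b (ex' a')) ∧ b (some i) ≠ b (some j) := by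
  unfold rr at hij
  push Not at hij
  obtain ⟨s, hs, t, ht, hst⟩ := hij
  rw [gam_ei, gam_ei, gam_ei, gam_ei] at hst
  let hh : Option (Fin (n + 1)) → Ent := fun l => G s l - G t l
  let Wc : Submodule ℚ (ℂ → ℂ) :=
    { carrier := {u | ∃ c : ℂ, ∀ z, u z = c}
      add_mem' := by
        rintro a b ⟨c, hc⟩ ⟨d, hd⟩
        exact ⟨c + d, fun z => by rw [Pi.add_apply, hc, hd]⟩
      zero_mem' := ⟨0, fun z => rfl⟩
      smul_mem' := by
        rintro q a ⟨c, hc⟩
        exact ⟨q • c, fun z => by rw [Pi.smul_apply, hc]⟩ }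
  have hnm : ((hh (some i)).1 - (hh (some j)).1) ∉ Wc := by
    rintro ⟨c, hc⟩
    apply hst
    refine ⟨c, fun z => ?_⟩
    rw [← hc z]
    change ((G s (some i)).1 z - (G s (some j)).1 z) - ((G t (some i)).1 z - (G t (some j)).1 z) =
      ((G s (some i)).1 z - (G t (some i)).1 z) - ((G s (some j)).1 z - (G t (some j)).1 z)
    ring
  obtain ⟨φ, hφ1, hφ2⟩ := Submodule.exists_le_ker_of_notMem hnm
  obtain ⟨D0, b, hD0, hb⟩ := exists_int_multiple fun l => φ (hh l).1
  have hD0' : (D0 : ℚ) ≠ 0 := by exact_mod_cast hD0.ne'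
  refine ⟨b, fun a a' haa => ?_, fun h => ?_⟩
  · have h1 := haa s hs t ht
    obtain ⟨c, hc⟩ := h1
    have h2 : φ (∑ l, ((ex' a l : ℚ) - ex' a' l) • (hh l).1) = 0 := by
      apply hφ2
      refine ⟨c, fun z => ?_⟩
      rw [← hc z]
      have hg : ∀ (s : I) (a : Option (Ex (Fin (n + 1)) (D + 1))),
          (gam (G s) a).1 z = ∑ l, (ex' a l : ℂ) * (G s l).1 z := by
        intro s a
        unfold gam
        have h3 : Ent.subtype (∑ l, ex' a l • G s l) = ∑ l, Ent.subtype (ex' a l • G s l) :=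
          map_sum _ _ _
        change (Ent.subtype (∑ l, ex' a l • G s l)) z = _
        rw [h3, Finset.sum_apply]
        refine Finset.sum_congr rfl fun l _ => ?_
        rw [map_nsmul]
        change (ex' a l • (G s l).1) z = _
        rw [Pi.smul_apply, nsmul_eq_mul]
      change _ = ((gam (G s) a).1 z - (gam (G s) a').1 z) -
        ((gam (G t) a).1 z - (gam (G t) a').1 z)
      rw [hg, hg, hg, hg, Finset.sum_apply, ← Finset.sum_sub_distrib, ← Finset.sum_sub_distrib,
        ← Finset.sum_sub_distrib]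
      refine Finset.sum_congr rfl fun l _ => ?_
      rw [Pi.smul_apply]
      change (((ex' a l : ℚ) - ex' a' l) • ((G s l).1 z - (G t l).1 z) : ℂ) = _
      rw [Algebra.smul_def]
      simp only [map_sub, map_natCast]
      ring
    rw [map_sum] at h2
    have h3 : ((wt b (ex' a) : ℤ) : ℚ) - wt b (ex' a') = D0 * 0 := by
      rw [← h2]
      unfold wt
      push_cast
      rw [← Finset.sum_sub_distrib, Finset.mul_sum]
      refine Finset.sum_congr rfl fun l _ => ?_
      rw [map_smul, smul_eq_mul, hb l]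
      ring
    rw [mul_zero, sub_eq_zero] at h3
    exact_mod_cast h3
  · have h1 := hb (some i)
    have h2 := hb (some j)
    rw [h, h2] at h1
    have h3 := mul_left_cancel₀ hD0' h1
    apply hφ1
    rw [map_sub, h3, sub_self]

/-- the polynomials in `p + ℂ Q`, as vectors of coefficients -/
def VV (D : ℕ) (p : Ideal (MvPolynomial (Fin (n + 1)) ℂ)) (Q : MvPolynomial (Fin (n + 1)) ℂ) :
    Submodule ℂ (Option (Ex (Fin (n + 1)) D) → ℂ) where
  carrier := {c | poly (fun a => c (some a)) + C (c none) * Q ∈ p}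
  add_mem' := by
    intro c d hc hd
    have h1 := p.add_mem hc hd
    have h2 : poly (fun a : Ex (Fin (n + 1)) D => (c + d) (some a)) + C ((c + d) none) * Q =
        (poly (fun a => c (some a)) + C (c none) * Q) +
          (poly (fun a => d (some a)) + C (d none) * Q) := by
      have h3 := poly_add (fun a : Ex (Fin (n + 1)) D => c (some a)) (fun a => d (some a))
      have h4 : (fun a : Ex (Fin (n + 1)) D => (c + d) (some a)) =
        (fun a => c (some a)) + (fun a => d (some a)) := rfl
      rw [h4, h3, Pi.add_apply, C_add]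
      ring
    change _ ∈ p
    rw [h2]
    exact h1
  zero_mem' := by
    change _ ∈ p
    have h1 : poly (fun a : Ex (Fin (n + 1)) D => (0 : Option (Ex (Fin (n + 1)) D) → ℂ) (some a)) =
        0 := by
      unfold poly
      exact Finset.sum_eq_zero fun a _ => map_zero _
    rw [h1, Pi.zero_apply, C_0, zero_mul, add_zero]
    exact p.zero_mem
  smul_mem' := by
    intro t c hc
    have h1 := p.mul_mem_left (C t) hc
    change _ ∈ p
    have h2 : poly (fun a : Ex (Fin (n + 1)) D => (t • c) (some a)) + C ((t • c) none) * Q =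
        C t * (poly (fun a => c (some a)) + C (c none) * Q) := by
      have h3 := poly_smul t (fun a : Ex (Fin (n + 1)) D => c (some a))
      have h4 : (fun a : Ex (Fin (n + 1)) D => (t • c) (some a)) =
        t • (fun a => c (some a)) := rfl
      rw [h4, h3, Pi.smul_apply, smul_eq_mul, C_mul]
      ring
    rw [h2]
    exact h1

theorem mem_VV {c : Option (Ex (Fin (n + 1)) D) → ℂ} :
    c ∈ VV D p Q ↔ poly (fun a => c (some a)) + C (c none) * Q ∈ p := Iff.rfl

/-- the substitution `x_l ↦ lam l * x_l` -/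
noncomputable def th (lam : Fin (n + 1) → ℂ) :
    MvPolynomial (Fin (n + 1)) ℂ →ₐ[ℂ] MvPolynomial (Fin (n + 1)) ℂ :=
  aeval fun l => C (lam l) * X l

theorem eval_th (lam : Fin (n + 1) → ℂ) (x : Fin (n + 1) → ℂ) (F : MvPolynomial (Fin (n + 1)) ℂ) :
    eval x (th lam F) = eval (fun l => lam l * x l) F := by
  unfold th
  have h1 := MvPolynomial.comp_aeval_apply (f := fun l => C (lam l) * X l)
    (aeval x : MvPolynomial (Fin (n + 1)) ℂ →ₐ[ℂ] ℂ) F
  have h2 : ∀ (x : Fin (n + 1) → ℂ) (F : MvPolynomial (Fin (n + 1)) ℂ), aeval x F = eval x F :=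
    fun x F => by rw [aeval_eq_eval]
  rw [h2] at h1
  rw [h1, h2]
  congr 2
  funext l
  rw [h2, map_mul, eval_C, eval_X]

theorem th_homog (lam : Fin (n + 1) → ℂ) {F : MvPolynomial (Fin (n + 1)) ℂ} {e : ℕ}
    (hF : F.IsHomogeneous e) : (th lam F).IsHomogeneous e := by
  have h1 := hF.aeval (fun l => C (lam l) * X l) (n := 1) (fun l => by
    have := (isHomogeneous_C (Fin (n + 1)) (lam l)).mul (isHomogeneous_X ℂ l)
    rwa [zero_add] at this)
  rwa [one_mul] at h1

theorem th_poly (lam : Fin (n + 1) → ℂ) (c : Ex (Fin (n + 1)) D → ℂ) :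
    th lam (poly c) = poly fun a => mon lam (exf a) * c a := by
  unfold th
  rw [aeval_poly]
  unfold poly
  refine Finset.sum_congr rfl fun a _ => ?_
  rw [monomial_eq]
  have h1 : ∏ l, (C (lam l) * X l : MvPolynomial (Fin (n + 1)) ℂ) ^ (a l : ℕ) =
      C (mon lam (exf a)) * ∏ l, (X l : MvPolynomial (Fin (n + 1)) ℂ) ^ (a l : ℕ) := by
    unfold mon exf
    rw [map_prod, ← Finset.prod_mul_distrib]
    refine Finset.prod_congr rfl fun l _ => ?_
    rw [mul_pow, C_pow]
  rw [h1, Finsupp.prod_fintype _ _ (fun l => pow_zero _)]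
  simp only [fs_apply, C_mul, algebraMap_eq]
  ring

theorem mon_some (lam : Option (Fin (n + 1)) → ℂ) (a : Ex (Fin (n + 1)) D) :
    mon lam (ex' (some a)) = mon (fun l => lam (some l)) (exf a) := by
  unfold mon
  rw [Fintype.prod_option]
  simp [ex', exf]

theorem mon_none (lam : Option (Fin (n + 1)) → ℂ) :
    mon lam (ex' (none : Option (Ex (Fin (n + 1)) D))) = lam none := by
  unfold mon
  rw [Fintype.prod_option]
  simp [ex']

end Pool.Agent.Q72.SH
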