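import Pool.Agent.Q72.SH.Cor

/-!
The translations which leave the hyperplane sections of an entire curve in a variety of (log)
general type invariant are rational multiples of one complex number.
-/

set_option autoImplicit false

namespace Pool.Agent.Q72.SH

open Finset MvPolynomial Filter Topology
open scoped LinearAlgebra.Projectivization
open Pool.Agent.TH143.EL Pool.Agent.TH143.GT Pool.Agent.W602.GT Pool.Agent.TH143
open Pool.Agent.W603.BPR (EntireCurve)
open Pool.Agent.W603.GR (OffQ SubVarP)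
open Pool.Agent.Y189.DD (torus_not_gt rat_dep' const_dim)

variable {n : ℕ} {p : Ideal (MvPolynomial (Fin (n + 1)) ℂ)}
  {Q : MvPolynomial (Fin (n + 1)) ℂ}

section proj

variable {f : ℂ → Fin (n + 1) → ℂ}

/-- the map to the projective space given by homogeneous coordinates -/
noncomputable def toP (h0 : ∀ z, f z ≠ 0) (z : ℂ) : ℙ ℂ (Fin (n + 1) → ℂ) :=
  Projectivization.mk ℂ (f z) (h0 z)

theorem toP_rep (h0 : ∀ z, f z ≠ 0) (z : ℂ) : Rep (toP h0 z) fun j => f z j := ⟨h0 z, rfl⟩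

theorem toP_eq (h0 : ∀ z, f z ≠ 0) {z w : ℂ} (h : ∃ c : ℂ, f z = c • f w) :
    toP h0 z = toP h0 w := by
  obtain ⟨c, hc⟩ := h
  exact (Projectivization.mk_eq_mk_iff' ℂ _ _ (h0 z) (h0 w)).2 ⟨c, hc.symm⟩

theorem toP_eq' (h0 : ∀ z, f z ≠ 0) {z w : ℂ} (h : toP h0 z = toP h0 w) :
    ∃ c : ℂ, f z = c • f w := by
  obtain ⟨c, hc⟩ := (Projectivization.mk_eq_mk_iff' ℂ _ _ (h0 z) (h0 w)).1 h
  exact ⟨c, hc.symm⟩

theorem toP_hol (hf : Differentiable ℂ f) (h0 : ∀ z, f z ≠ 0) : HolMap (toP h0) := fun a =>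
  ⟨fun j z => f z j, fun j => (coord_diff hf j).analyticAt a,
    Eventually.of_forall fun z => toP_rep h0 z⟩

theorem toP_inV (h0 : ∀ z, f z ≠ 0) (hX : ∀ z, ∀ F ∈ p, eval (f z) F = 0) (z : ℂ) :
    InV p (toP h0 z) := (inV_iff (toP_rep h0 z)).2 fun G hG _ => hX z G hG

theorem toP_dense (h0 : ∀ z, f z ≠ 0) (hd : ZDense p f Set.univ) :
    Pool.Agent.Y189.DD.Dense p (toP h0) := by
  intro G hG h
  refine hd G hG fun z _ => ?_
  have h2 : InV (Ideal.span {G}) (toP h0 z) := by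
    intro G' hG' _
    obtain ⟨c, rfl⟩ := Ideal.mem_span_singleton'.1 hG'
    rw [map_mul, h z, mul_zero]
  exact (inV_iff (toP_rep h0 z)).1 h2 G (Ideal.mem_span_singleton_self G) hG

end proj

/-- the dimension is positive if there is an entire curve -/
theorem pos_dim {K : Type} [Field K] [Algebra ℂ K] {w : ℕ} {y : Fin (n + 1) → K}
    (hy : FunField p Q K w y) {f : ℂ → Fin (n + 1) → ℂ} (hf : EntireCurve p Q f) : 0 < w := by
  rw [pos_iff_ne_zero]
  rintro rfl
  have hdim := hy.sub.dim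
  rw [Nat.cast_zero, trdeg_eq_zero_iff] at hdim
  have hcst : ∀ x : K, ∃ c : ℂ, x = algebraMap ℂ K c := fun x =>
    const_of_algebraic (hdim.isAlgebraic x)
  obtain ⟨j, hj⟩ : ∃ j, y j ≠ 0 := by
    by_contra hc
    push Not at hc
    exact hy.sub.ne (funext hc)
  choose c hc using fun i => hcst (y i / y j)
  have hmem : ∀ i, (X i - C (c i) * X j : MvPolynomial (Fin (n + 1)) ℂ) ∈ p := by
    intro i
    refine hy.mem _ ⟨1, (isHomogeneous_X _ _).sub ?_⟩ ?_
    · have := (isHomogeneous_C (Fin (n + 1)) (c i)).mul (isHomogeneous_X ℂ j)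
      rwa [zero_add] at this
    · unfold Pool.Agent.W602.GT.val
      rw [map_sub, map_mul, aeval_C, aeval_X, aeval_X, ← hc i]
      field_simp
      ring
  have hz : ∀ z i, f z i = c i * f z j := by
    intro z i
    have := (hf.2.1 z).2.1 _ (hmem i)
    rw [map_sub, map_mul, eval_C, eval_X, eval_X] at this
    exact sub_eq_zero.1 this
  have hj0 : ∀ z, f z j ≠ 0 := by
    intro z h0
    apply (hf.2.1 z).1
    funext i
    rw [hz, h0, mul_zero]
    rfl
  obtain ⟨z, w, hzw⟩ := hf.2.2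
  apply hzw (f z j / f w j)
  funext i
  simp only [Pi.smul_apply, smul_eq_mul]
  rw [hz z i, hz w i]
  have := hj0 w
  field_simp

/-- entire curves in affine varieties are not doubly periodic -/
theorem affine_not_torus {f : ℂ → Fin (n + 1) → ℂ} (hf : EntireCurve p Q f) {q : ℕ}
    (hQ : Q.IsHomogeneous q) (hq : q ≠ 0) {ω₁ ω₂ : ℂ} (h1 : SameCurve (fun z => f (z + ω₁)) f)
    (h2 : SameCurve (fun z => f (z + ω₂)) f) : ¬ LinearIndependent ℝ ![ω₁, ω₂] := by
  intro hind
  have hQ0 : ∀ z, eval (f z) Q ≠ 0 := fun z => (hf.2.1 z).2.2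
  have hper : ∀ ω : ℂ, SameCurve (fun z => f (z + ω)) f → ∀ (G : MvPolynomial (Fin (n + 1)) ℂ),
      G.IsHomogeneous q → ∀ z, eval (f (z + ω)) G / eval (f (z + ω)) Q =
        eval (f z) G / eval (f z) Q := by
    intro ω h G hG z
    obtain ⟨c, hc⟩ := h z
    simp only at hc
    have hc0 : c ≠ 0 := by
      rintro rfl
      rw [zero_smul] at hc
      exact (hf.2.1 (z + ω)).1 hc
    have e1 : ∀ {H : MvPolynomial (Fin (n + 1)) ℂ}, H.IsHomogeneous q →
        eval (c • f z) H = c ^ q * eval (f z) H := fun hH =>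
      Pool.Agent.TH143.EL.eval_smul_homog hH c (f z)
    rw [hc, e1 hG, e1 hQ, mul_div_mul_left _ _ (pow_ne_zero _ hc0)]
  have hcst : ∀ G : MvPolynomial (Fin (n + 1)) ℂ, G.IsHomogeneous q → ∀ z w,
      eval (f z) G / eval (f z) Q = eval (f w) G / eval (f w) Q := by
    intro G hG z w
    refine ell_liouville hind (g := fun z => eval (f z) G / eval (f z) Q) (hper ω₁ h1 G hG)
      (hper ω₂ h2 G hG) (fun z _ => ?_) z w
    exact (((eval_diff hf.1 G).div (eval_diff hf.1 Q) hQ0).analyticAt z)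
  obtain ⟨z, w, hzw⟩ := hf.2.2
  obtain ⟨j, hj⟩ : ∃ j, f w j ≠ 0 := by
    by_contra hc
    push Not at hc
    exact (hf.2.1 w).1 (funext hc)
  obtain ⟨m, rfl⟩ := Nat.exists_eq_succ_of_ne_zero hq
  have hm : ∀ i, f z i * f z j ^ m / eval (f z) Q = f w i * f w j ^ m / eval (f w) Q := by
    intro i
    have h3 := hcst (X i * X j ^ m) (by
      have h5 := (isHomogeneous_X ℂ i).mul ((isHomogeneous_X ℂ j).pow m)
      have h6 : 1 + 1 * m = m.succ := by omega
      rwa [h6] at h5) z w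
    simpa only [map_mul, map_pow, eval_X] using h3
  have hzj : f z j ≠ 0 := by
    intro h0
    have h3 := hm j
    rw [h0, zero_mul, zero_div, eq_comm, div_eq_zero_iff] at h3
    rcases h3 with h3 | h3
    · exact (mul_ne_zero hj (pow_ne_zero _ hj)) h3
    · exact hQ0 w h3
  apply hzw ((f w j ^ m * eval (f z) Q) / (eval (f w) Q * f z j ^ m))
  funext i
  simp only [Pi.smul_apply, smul_eq_mul]
  have h3 := hm i
  have e1 := hQ0 z
  have e2 := hQ0 w
  have e3 : f z j ^ m ≠ 0 := pow_ne_zero _ hzj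
  rw [div_eq_div_iff e1 e2] at h3
  field_simp
  linear_combination h3


theorem gen_of_const {K : Type} [Field K] [Algebra ℂ K] {w : ℕ} {y : Fin (n + 1) → K}
    (hQ : Q.IsHomogeneous 0) (hQ0 : Pool.Agent.W602.GT.val y Q ≠ 0)
    (h : LogGeneralType ℂ K w (OffQ Q 0 y)) : GeneralType ℂ K w := by
  obtain ⟨hdim, N, hN, ω, h1, -, h3, h4⟩ := h
  refine ⟨hdim, N, hN, ω, h1, fun P hP j => h3 P hP ?_ j, h4⟩
  rintro ⟨i, -, hi⟩
  have h5 : Q = C (coeff 0 Q) :=
    totalDegree_eq_zero_iff_eq_C.1 ((totalDegree_zero_iff_isHomogeneous _).2 hQ)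
  unfold Pool.Agent.W602.GT.val at hi hQ0
  rw [h5, aeval_C] at hi hQ0
  have hc : coeff 0 Q ≠ 0 := by
    intro h0
    rw [h0, map_zero] at hQ0
    exact hQ0 rfl
  rw [P.ord_const hc, Nat.cast_zero, zero_mul] at hi
  exact lt_irrefl _ hi

/-- Zariski-dense entire curves in varieties of log general type are not doubly periodic. -/
theorem no_torus {K : Type} [Field K] [Algebra ℂ K] {w : ℕ} {y : Fin (n + 1) → K}
    (hy : FunField p Q K w y) {q : ℕ} (hQ : Q.IsHomogeneous q)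
    (hgt : LogGeneralType ℂ K w (OffQ Q q y)) {f : ℂ → Fin (n + 1) → ℂ}
    (hf : EntireCurve p Q f) (hd : ZDense p f Set.univ) {ω₁ ω₂ : ℂ}
    (h1 : SameCurve (fun z => f (z + ω₁)) f) (h2 : SameCurve (fun z => f (z + ω₂)) f) :
    ¬ LinearIndependent ℝ ![ω₁, ω₂] := by
  by_cases hq : q = 0
  · subst hq
    intro hind
    have h0 : ∀ z, f z ≠ 0 := fun z => (hf.2.1 z).1
    have hy1 : FunField p 1 K w y := by
      refine ⟨⟨hy.sub.ne, hy.sub.mem, ?_, hy.sub.gen, hy.sub.dim⟩, hy.mem⟩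
      unfold Pool.Agent.W602.GT.val
      rw [map_one]
      exact one_ne_zero
    exact torus_not_gt hy1 (toP_hol hf.1 h0) (toP_inV h0 fun z => (hf.2.1 z).2.1)
      (toP_dense h0 hd) hind (fun z => toP_eq (z := z + ω₁) (w := z) h0 (h1 z))
      (fun z => toP_eq (z := z + ω₂) (w := z) h0 (h2 z)) (pos_dim hy hf)
      (gen_of_const hQ hy.sub.off hgt)
  · exact affine_not_torus hf hQ hq h1 h2

theorem add_iter (b : ℂ) (k : ℕ) (z : ℂ) : (fun z => z + b)^[k] z = z + k * b := by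
  induction k generalizing z with
  | zero => simp
  | succ k ih =>
    rw [Function.iterate_succ_apply', ih]
    push_cast
    ring

/-- periods of an entire curve which is not doubly periodic -/
theorem periods {M : ℕ} (hM : Bd M p Q) {f : ℂ → Fin (n + 1) → ℂ} (hf : EntireCurve p Q f)
    (hd : ZDense p f Set.univ)
    (hnt : ∀ ω₁ ω₂ : ℂ, SameCurve (fun z => f (z + ω₁)) f → SameCurve (fun z => f (z + ω₂)) f →
      ¬ LinearIndependent ℝ ![ω₁, ω₂]) :
    ∃ c : ℂ, ∀ b, SameSections (fun z => f (z + b)) f → ∃ r : ℚ, b = r * c := by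
  have h0 : ∀ z, f z ≠ 0 := fun z => (hf.2.1 z).1
  have key : ∀ b, SameSections (fun z => f (z + b)) f →
      ∃ k : ℕ, 0 < k ∧ SameCurve (fun z => f (z + k * b)) f := by
    intro b hb
    obtain ⟨k, hk, -, h1⟩ := hM.iter hf hd (σ := fun z => z + b)
      ⟨1, b, one_ne_zero, fun z => by rw [one_mul]⟩ hb
    refine ⟨k, hk, fun z => ?_⟩
    have h2 := h1 z
    simp only [add_iter] at h2
    exact h2
  by_cases hex : ∃ b, b ≠ 0 ∧ SameSections (fun z => f (z + b)) f
  · obtain ⟨b, hb0, hb⟩ := hex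
    obtain ⟨k, hk, hper⟩ := key b hb
    have hk0 : (k : ℂ) ≠ 0 := by exact_mod_cast hk.ne'
    refine ⟨b, fun b' hb' => ?_⟩
    obtain ⟨k', hk', hper'⟩ := key b' hb'
    have hk0' : (k' : ℂ) ≠ 0 := by exact_mod_cast hk'.ne'
    obtain ⟨z, w, hzw⟩ := hf.2.2
    obtain ⟨r, hr⟩ := rat_dep' (toP_hol hf.1 h0) ⟨z, w, fun h => by
        obtain ⟨c, hc⟩ := toP_eq' h0 h
        exact hzw c hc⟩ (h := fun j z => f z j)
      (fun j => fun z => ((coord_diff hf.1 j).analyticAt z).meromorphicAt)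
      (Eventually.of_forall fun z => toP_rep h0 z) (mul_ne_zero hk0 hb0)
      (fun z => toP_eq (z := z + k * b) (w := z) h0 (hper z))
      (fun z => toP_eq (z := z + k' * b') (w := z) h0 (hper' z)) (hnt _ _ hper hper')
    refine ⟨r * k / k', ?_⟩
    push_cast
    field_simp
    linear_combination hr
  · push Not at hex
    exact ⟨0, fun b hb => ⟨0, by
      by_contra hb0
      rw [mul_zero] at hb0
      exact hex b hb0 hb⟩⟩

end Pool.Agent.Q72.SH
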