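import Pool.Agent.Q72.SH.Stab
import Pool.Agent.TH143.DE.Gen

/-!
Polynomials with bounded exponents; weights; families of rational curves given by weights.
-/

set_option autoImplicit false

namespace Pool.Agent.Q72.SH

open Finset MvPolynomial

section poly

variable {σ : Type} [Fintype σ] [DecidableEq σ] {D : ℕ}

/-- exponents which are at most `D` -/
abbrev Ex (σ : Type) (D : ℕ) : Type := σ → Fin (D + 1)

/-- exponents as functions -/
def exf (a : Ex σ D) : σ → ℕ := fun l => (a l : ℕ)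

/-- exponents as finitely supported functions -/
noncomputable def fs (a : Ex σ D) : σ →₀ ℕ := Finsupp.equivFunOnFinite.symm (exf a)

theorem fs_apply (a : Ex σ D) (l : σ) : fs a l = (a l : ℕ) := rfl

theorem fs_inj : Function.Injective (fs : Ex σ D → σ →₀ ℕ) := by
  intro a b h
  funext l
  apply Fin.ext
  have := DFunLike.congr_fun h l
  rwa [fs_apply, fs_apply] at this

/-- all exponents of `F` are at most `D` -/
def LeD (D : ℕ) (F : MvPolynomial σ ℂ) : Prop := ∀ m ∈ F.support, ∀ l, m l ≤ D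

theorem exists_fs {m : σ →₀ ℕ} (h : ∀ l, m l ≤ D) : ∃ a : Ex σ D, fs a = m :=
  ⟨fun l => ⟨m l, Nat.lt_succ_of_le (h l)⟩, Finsupp.ext fun l => rfl⟩

theorem aeval_sum {R : Type*} [CommRing R] [Algebra ℂ R] (x : σ → R) {F : MvPolynomial σ ℂ}
    (hF : LeD D F) : aeval x F =
      ∑ a : Ex σ D, algebraMap ℂ R (coeff (fs a) F) * ∏ l, x l ^ (a l : ℕ) := by
  rw [aeval_def, eval₂_eq']
  let φ : (σ →₀ ℕ) → R := fun m => algebraMap ℂ R (coeff m F) * ∏ l, x l ^ m l
  have h1 : ∑ a : Ex σ D, algebraMap ℂ R (coeff (fs a) F) * ∏ l, x l ^ (a l : ℕ) =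
      ∑ m ∈ Finset.univ.image (fs : Ex σ D → σ →₀ ℕ), φ m := by
    rw [Finset.sum_image fun a _ b _ h => fs_inj h]
    rfl
  rw [h1]
  refine Finset.sum_subset (fun m hm => ?_) fun m _ hm => ?_
  · obtain ⟨a, rfl⟩ := exists_fs (hF m hm)
    exact Finset.mem_image_of_mem _ (Finset.mem_univ _)
  · rw [notMem_support_iff.1 hm, map_zero, zero_mul]

/-- the polynomial with given coefficients -/
noncomputable def poly (c : Ex σ D → ℂ) : MvPolynomial σ ℂ := ∑ a, monomial (fs a) (c a)

theorem coeff_poly (c : Ex σ D → ℂ) (a : Ex σ D) : coeff (fs a) (poly c) = c a := by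
  unfold poly
  rw [coeff_sum, Finset.sum_eq_single a]
  · rw [coeff_monomial, if_pos rfl]
  · intro b _ hb
    rw [coeff_monomial, if_neg fun h => hb (fs_inj h)]
  · intro h
    exact absurd (Finset.mem_univ _) h

theorem leD_poly (c : Ex σ D → ℂ) : LeD D (poly c) := by
  intro m hm l
  rw [mem_support_iff] at hm
  have h1 : ∃ a : Ex σ D, fs a = m := by
    by_contra hcon
    push Not at hcon
    apply hm
    unfold poly
    rw [coeff_sum]
    exact Finset.sum_eq_zero fun a _ => by rw [coeff_monomial, if_neg (hcon a)]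
  obtain ⟨a, rfl⟩ := h1
  rw [fs_apply]
  exact Nat.lt_succ_iff.1 (a l).2

theorem aeval_poly {R : Type*} [CommRing R] [Algebra ℂ R] (x : σ → R) (c : Ex σ D → ℂ) :
    aeval x (poly c) = ∑ a : Ex σ D, algebraMap ℂ R (c a) * ∏ l, x l ^ (a l : ℕ) := by
  rw [aeval_sum x (leD_poly c)]
  exact Finset.sum_congr rfl fun a _ => by rw [coeff_poly]

theorem poly_coeff {F : MvPolynomial σ ℂ} (hF : LeD D F) :
    poly (fun a : Ex σ D => coeff (fs a) F) = F := by
  have h1 := aeval_poly (R := MvPolynomial σ ℂ) X (fun a : Ex σ D => coeff (fs a) F)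
  have h2 := aeval_sum (R := MvPolynomial σ ℂ) X hF
  rw [aeval_X_left, AlgHom.id_apply] at h1 h2
  rw [h1, ← h2]

theorem poly_homog {c : Ex σ D → ℂ} {e : ℕ} (h : ∀ a, c a ≠ 0 → ∑ l, (a l : ℕ) = e) :
    (poly c).IsHomogeneous e := by
  unfold poly
  refine IsHomogeneous.sum _ _ _ fun a _ => ?_
  by_cases h0 : c a = 0
  · rw [h0, map_zero]
    exact isHomogeneous_zero _ _ _
  · apply isHomogeneous_monomial
    rw [← h a h0, Finsupp.degree_eq_sum]
    rfl

theorem homog_sum {F : MvPolynomial σ ℂ} {e : ℕ} (hF : F.IsHomogeneous e) {a : Ex σ D}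
    (h : coeff (fs a) F ≠ 0) : ∑ l, (a l : ℕ) = e := by
  have h1 : Finsupp.degree (fs a) = e := by
    rw [Finsupp.degree_eq_weight_one]
    exact hF h
  rw [← h1, Finsupp.degree_eq_sum]
  rfl

theorem poly_add (c d : Ex σ D → ℂ) : poly (c + d) = poly c + poly d := by
  unfold poly
  rw [← Finset.sum_add_distrib]
  exact Finset.sum_congr rfl fun a _ => by rw [Pi.add_apply, map_add]

theorem poly_smul (t : ℂ) (c : Ex σ D → ℂ) : poly (t • c) = C t * poly c := by
  unfold poly
  rw [Finset.mul_sum]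
  exact Finset.sum_congr rfl fun a _ => by rw [Pi.smul_apply, smul_eq_mul, C_mul_monomial]

/-- the component of weight `k` -/
noncomputable def comp (D : ℕ) (b : σ → ℤ) (k : ℤ) (F : MvPolynomial σ ℂ) : MvPolynomial σ ℂ :=
  poly fun a : Ex σ D => if wt b (exf a) = k then coeff (fs a) F else 0

theorem comp_homog {F : MvPolynomial σ ℂ} {e : ℕ} (hF : F.IsHomogeneous e) (b : σ → ℤ) (k : ℤ) :
    (comp D b k F).IsHomogeneous e := by
  refine poly_homog fun a ha => ?_
  split_ifs at ha with h1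
  · exact homog_sum hF ha
  · exact absurd rfl ha

theorem aeval_comp {R : Type*} [CommRing R] [Algebra ℂ R] (x : σ → R) (b : σ → ℤ) (k : ℤ)
    (F : MvPolynomial σ ℂ) : aeval x (comp D b k F) = ∑ a : Ex σ D,
      (if wt b (exf a) = k then algebraMap ℂ R (coeff (fs a) F) * ∏ l, x l ^ (a l : ℕ)
        else 0) := by
  unfold comp
  rw [aeval_poly]
  refine Finset.sum_congr rfl fun a _ => ?_
  split_ifs
  · rfl
  · rw [map_zero, zero_mul]

end poly

section fam

open Pool.Agent.TH143.GT Pool.Agent.W602.GT Pool.Agent.TH143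

variable {n D : ℕ} {p : Ideal (MvPolynomial (Fin (n + 1)) ℂ)} {Q : MvPolynomial (Fin (n + 1)) ℂ}
  {K : Type} [Field K] [Algebra ℂ K] {w : ℕ} {y : Fin (n + 1) → K}

theorem coeff_weight (y : Fin (n + 1) → K) {F : MvPolynomial (Fin (n + 1)) ℂ} (hF : LeD D F)
    {e : ℕ} (hFe : F.IsHomogeneous e) (b : Fin (n + 1) → ℤ) (B : ℕ) (nn : Fin (n + 1) → ℕ)
    (hnn : ∀ l, (nn l : ℤ) = b l + B) (j : ℕ) :
    (aeval (fun l => Polynomial.C (y l) * Polynomial.X ^ nn l) F : Polynomial K).coeff j =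
      aeval y (comp D b ((j : ℤ) - B * e) F) := by
  rw [aeval_sum _ hF, aeval_comp, Polynomial.finsetSum_coeff]
  refine Finset.sum_congr rfl fun a _ => ?_
  have h1 : ∏ l, (Polynomial.C (y l) * Polynomial.X ^ nn l) ^ (a l : ℕ) =
      Polynomial.C (∏ l, y l ^ (a l : ℕ)) * Polynomial.X ^ (∑ l, nn l * (a l : ℕ)) := by
    rw [map_prod, ← Finset.prod_pow_eq_pow_sum, ← Finset.prod_mul_distrib]
    refine Finset.prod_congr rfl fun l _ => ?_
    rw [mul_pow, map_pow, ← pow_mul]
  have h2 : (algebraMap ℂ (Polynomial K)) (coeff (fs a) F) =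
      Polynomial.C (algebraMap ℂ K (coeff (fs a) F)) := rfl
  rw [h1, h2, ← mul_assoc, ← Polynomial.C_mul, Polynomial.coeff_C_mul_X_pow]
  by_cases h0 : coeff (fs a) F = 0
  · rw [h0]
    simp
  · have h3 := homog_sum hFe h0
    have h4 : ((∑ l, nn l * (a l : ℕ) : ℕ) : ℤ) = wt b (exf a) + B * e := by
      unfold wt exf
      rw [← h3]
      push_cast
      rw [Finset.mul_sum, ← Finset.sum_add_distrib]
      refine Finset.sum_congr rfl fun l _ => ?_
      rw [hnn l]
      ring
    by_cases h5 : j = ∑ l, nn l * (a l : ℕ)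
    · rw [if_pos h5, if_pos]
      rw [h5, h4]
      ring
    · rw [if_neg h5, if_neg]
      intro h6
      apply h5
      have h7 : (j : ℤ) = ((∑ l, nn l * (a l : ℕ) : ℕ) : ℤ) := by
        rw [h4, h6]
        ring
      exact_mod_cast h7

/-- **A weight gives a family of rational curves.** -/
theorem fam_of_weight (hy : FunField p Q K w y) {q : ℕ} (hQ : Q.IsHomogeneous q) (hQD : LeD D Q)
    {S : Set (MvPolynomial (Fin (n + 1)) ℂ)} (hp : p = Ideal.span S)
    (hS : ∀ F ∈ S, LeD D F ∧ ∃ e, F.IsHomogeneous e) (b : Fin (n + 1) → ℤ) (b0 : ℤ)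
    (h1 : ∀ F ∈ S, ∀ k, aeval y (comp D b k F) = 0)
    (h2 : ∀ k, k ≠ b0 → aeval y (comp D b k Q) = 0)
    {i j : Fin (n + 1)} (hi : y i ≠ 0) (hj : y j ≠ 0) (hij : b i ≠ b j) :
    ∃ r : K, ¬ AllFlat Q y r := by
  have : CharZero K := charZero_of_injective_algebraMap (algebraMap ℂ K).injective
  set B : ℕ := ∑ l, (b l).natAbs with hB
  have hBl : ∀ l, 0 ≤ b l + B := by
    intro l
    have h3 : (b l).natAbs ≤ B := Finset.single_le_sum (f := fun l => (b l).natAbs)
      (fun _ _ => Nat.zero_le _) (Finset.mem_univ l)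
    omega
  set nn : Fin (n + 1) → ℕ := fun l => (b l + B).toNat with hnn'
  have hnn : ∀ l, (nn l : ℤ) = b l + B := fun l => Int.toNat_of_nonneg (hBl l)
  set W : Fin (n + 1) → Polynomial K := fun l => Polynomial.C (y l) * Polynomial.X ^ nn l with hW
  have hWy : ∀ l, (W l).eval 1 = y l := by
    intro l
    simp [hW]
  have hev : ∀ F : MvPolynomial (Fin (n + 1)) ℂ, (aeval W F : Polynomial K).eval 1 = aeval y F := by
    intro F
    have h3 := MvPolynomial.comp_aeval_apply (f := W)
      ((Polynomial.aeval (1 : K)).restrictScalars ℂ) F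
    have h4 : (fun l => ((Polynomial.aeval (1 : K)).restrictScalars ℂ) (W l)) = y := by
      funext l
      change Polynomial.aeval (1 : K) (W l) = y l
      rw [Polynomial.coe_aeval_eq_eval, hWy]
    rw [h4] at h3
    rw [← h3]
    change _ = Polynomial.aeval (1 : K) (aeval W F)
    rw [Polynomial.coe_aeval_eq_eval]
  have hSW : ∀ F ∈ S, (aeval W F : Polynomial K) = 0 := by
    intro F hF
    obtain ⟨hFD, e, he⟩ := hS F hF
    ext j
    rw [coeff_weight y hFD he b B nn hnn, h1 F hF, Polynomial.coeff_zero]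
  have hpW : ∀ F ∈ p, (aeval W F : Polynomial K) = 0 := by
    intro F hF
    have h3 : p ≤ RingHom.ker (aeval W : MvPolynomial (Fin (n + 1)) ℂ →ₐ[ℂ] Polynomial K) := by
      rw [hp, Ideal.span_le]
      intro F hF
      exact hSW F hF
    exact h3 hF
  -- the boundary
  set P : Polynomial K := aeval W Q with hP
  have hP1 : P.eval 1 ≠ 0 := by
    rw [hP, hev]
    exact hy.sub.off
  have hPc : ∀ j : ℕ, ((j : ℤ) - B * q) ≠ b0 → P.coeff j = 0 := by
    intro j hj
    rw [hP, coeff_weight y hQD hQ b B nn hnn, h2 _ hj]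
  obtain ⟨l, hl⟩ : ∃ l, P.coeff l ≠ 0 := by
    by_contra hcon
    push Not at hcon
    apply hP1
    have : P = 0 := by
      ext j
      rw [hcon j, Polynomial.coeff_zero]
    rw [this, Polynomial.eval_zero]
  have hl0 : (l : ℤ) - B * q = b0 := by
    by_contra h
    exact hl (hPc l h)
  have hPl : P = Polynomial.C (P.coeff l) * Polynomial.X ^ l := by
    ext j
    rw [Polynomial.coeff_C_mul_X_pow]
    split_ifs with h3
    · rw [h3]
    · apply hPc
      intro h4
      apply h3
      have h5 : (j : ℤ) = l := by linarith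
      exact_mod_cast h5
  have hF : Fam y Q W l := by
    refine ⟨fun G hG => ⟨fun h0 => hpW G (hy.mem G hG h0), fun h0 => ?_⟩, P.coeff l, hl, hPl⟩
    change aeval y G = 0
    rw [← hev, h0, Polynomial.eval_zero]
  refine ⟨y i / y j, fun hall => hij ?_⟩
  have h3 := hall K w W l hy.sub.dim hF 1 (X i) (X j) (isHomogeneous_X _ _) (isHomogeneous_X _ _)
    (by rw [Pool.Agent.TH143.GT.val_X]; exact hj)
    (by rw [Pool.Agent.TH143.GT.val_X, Pool.Agent.TH143.GT.val_X])
  rw [aeval_X, aeval_X] at h3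
  have h4 : (Polynomial.derivative (W i)).eval 1 * (W j).eval 1 =
      (W i).eval 1 * (Polynomial.derivative (W j)).eval 1 := by
    rw [← Polynomial.eval_mul, ← Polynomial.eval_mul, h3]
  rw [hWy, hWy] at h4
  have h5 : ∀ l, (Polynomial.derivative (W l)).eval 1 = y l * nn l := by
    intro l
    simp [hW, Polynomial.derivative_X_pow]
  rw [h5, h5] at h4
  have h6 : (nn i : K) = nn j := by
    apply mul_left_cancel₀ (mul_ne_zero hi hj)
    linear_combination h4
  have h7 : nn i = nn j := by exact_mod_cast h6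
  have h8 := hnn i
  have h9 := hnn j
  rw [h7] at h8
  linarith

end fam

end Pool.Agent.Q72.SH
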