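import Pool.Agent.Q72.SH.Grp
import Pool.Agent.TH143.EL.Wp

/-!
Weighted curves are swept by rational curves.
-/

set_option autoImplicit false

namespace Pool.Agent.Q72.SH

open Finset MvPolynomial Filter
open scoped LinearAlgebra.Projectivization
open Pool.Agent.TH143.EL Pool.Agent.TH143.GT Pool.Agent.W602.GT Pool.Agent.TH143
open Pool.Agent.W603.BPR (EntireCurve)
open Pool.Agent.TH143.HE (RatCurvesIn IsPtP NonConst)

variable {n : ℕ} {E : Set (MvPolynomial (Fin (n + 1)) ℂ)} {Q : MvPolynomial (Fin (n + 1)) ℂ}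
  {f : ℂ → Fin (n + 1) → ℂ}

/-- forms which vanish where two coordinates do not vanish -/
theorem zero_of_offcoord (hf : Differentiable ℂ f) {i j : Fin (n + 1)} (hi : ∃ z, f z i ≠ 0)
    (hj : ∃ z, f z j ≠ 0) {G : MvPolynomial (Fin (n + 1)) ℂ}
    (h : ∀ z, f z i ≠ 0 → f z j ≠ 0 → eval (f z) G = 0) (z : ℂ) : eval (f z) G = 0 := by
  have h1 : aeval (hat hf) (G * (X i * X j)) = 0 := by
    rw [aeval_hat]
    intro z
    rw [map_mul, map_mul, eval_X, eval_X]
    by_cases h2 : f z i = 0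
    · rw [h2, zero_mul, mul_zero]
    · by_cases h3 : f z j = 0
      · rw [h3, mul_zero, mul_zero]
      · rw [h z h2 h3, zero_mul]
  have hne : ∀ l, (∃ z, f z l ≠ 0) → hat hf l ≠ 0 := by
    rintro l ⟨z, hz⟩ h0
    apply hz
    have h2 : aeval (hat hf) (X l : MvPolynomial (Fin (n + 1)) ℂ) = 0 := by rw [aeval_X, h0]
    have h3 := (aeval_hat hf (X l)).1 h2 z
    rwa [eval_X] at h3
  rw [map_mul, map_mul, aeval_X, aeval_X] at h1
  have h2 := (mul_eq_zero.1 h1).resolve_right (mul_ne_zero (hne i hi) (hne j hj))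
  exact (aeval_hat hf G).1 h2 z

theorem exists_off (hf : Differentiable ℂ f) {i j : Fin (n + 1)} (hi : ∃ z, f z i ≠ 0)
    (hj : ∃ z, f z j ≠ 0) : ∃ z, f z i ≠ 0 ∧ f z j ≠ 0 := by
  by_contra hcon
  push Not at hcon
  have h1 := zero_of_offcoord hf hi hj (G := 1) fun z h2 h3 => absurd (hcon z h2) h3
  have h2 := h1 0
  rw [map_one] at h2
  exact one_ne_zero h2

/-- The orbits are rational curves. -/
theorem orbit_rat {D : ℕ} (hE : ∀ F ∈ E, LeD D F ∧ ∃ e, F.IsHomogeneous e)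
    {b : Fin (n + 1) → ℤ} {x : Fin (n + 1) → ℂ}
    (h : ∀ F ∈ E, ∀ k, eval x (comp D b k F) = 0) {i j : Fin (n + 1)} (hi : x i ≠ 0)
    (hj : x j ≠ 0) (hij : b i ≠ b j) :
    ∃ p : Fin (n + 1) → Polynomial ℂ, (∀ u, IsPtP (RingHom.id ℂ) (Ideal.span E)
      (fun l => (p l).eval u)) ∧ NonConst p ∧ (∀ l, (p l).eval 1 = x l) := by
  set B : ℕ := ∑ l, (b l).natAbs with hB
  have hBl : ∀ l, 0 ≤ b l + B := by
    intro l
    have h3 : (b l).natAbs ≤ B := Finset.single_le_sum (f := fun l => (b l).natAbs)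
      (fun _ _ => Nat.zero_le _) (Finset.mem_univ l)
    omega
  set nn : Fin (n + 1) → ℕ := fun l => (b l + B).toNat with hnn'
  have hnn : ∀ l, (nn l : ℤ) = b l + B := fun l => Int.toNat_of_nonneg (hBl l)
  set p : Fin (n + 1) → Polynomial ℂ := fun l => Polynomial.C (x l) * Polynomial.X ^ nn l with hp
  have hev : ∀ u l, (p l).eval u = x l * u ^ nn l := by
    intro u l
    simp [hp]
  have hzero : ∀ F ∈ E, (aeval p F : Polynomial ℂ) = 0 := by
    intro F hF
    obtain ⟨hFD, e, he⟩ := hE F hF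
    apply Polynomial.eq_zero_of_infinite_isRoot
    refine Set.Infinite.mono (s := {u : ℂ | u ≠ 0}) ?_ ?_
    · intro u hu
      change (aeval p F : Polynomial ℂ).eval u = 0
      rw [eval_comp_poly]
      have h1 : (fun l => (p l).eval u) = fun l => u ^ B * (u ^ b l * x l) := by
        funext l
        rw [hev, ← zpow_natCast u (nn l), hnn l, zpow_add₀ hu, zpow_natCast]
        ring
      rw [h1, eval_scale he, orbit_zero hFD (h F hF) hu, mul_zero]
    · exact (Set.finite_singleton (0 : ℂ)).infinite_compl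
  refine ⟨p, fun u G hG hGh => ?_, ⟨i, j, 2, 1, ?_⟩, fun l => by rw [hev, one_pow, mul_one]⟩
  · rw [eval₂_id, ← eval_comp_poly]
    have h1 : Ideal.span E ≤ RingHom.ker (aeval p : MvPolynomial (Fin (n + 1)) ℂ →ₐ[ℂ]
        Polynomial ℂ) := by
      rw [Ideal.span_le]
      intro F hF
      exact hzero F hF
    have h2 : (aeval p G : Polynomial ℂ) = 0 := h1 hG
    rw [h2, Polynomial.eval_zero]
  · rw [hev, hev, hev, hev, one_pow, one_pow, mul_one, mul_one]
    intro h1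
    have h2 : (2 : ℂ) ^ nn i = 2 ^ nn j := by
      apply mul_left_cancel₀ (mul_ne_zero hi hj)
      linear_combination h1
    have h3 : (2 : ℕ) ^ nn i = 2 ^ nn j := by exact_mod_cast h2
    have h4 := Nat.pow_right_injective (le_refl 2) h3
    apply hij
    have h5 := hnn i
    have h6 := hnn j
    rw [h4] at h5
    linarith

/-- Every holomorphic map from a one-dimensional complex torus to the projective algebraic set of
the forms of `E` is constant. -/
def NoTorusMaps (E : Set (MvPolynomial (Fin (n + 1)) ℂ)) : Prop :=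
  ∀ ω₁ ω₂ : ℂ, LinearIndependent ℝ ![ω₁, ω₂] → ∀ t : ℂ → ℙ ℂ (Fin (n + 1) → ℂ), HolMap t →
    (∀ z, t (z + ω₁) = t z) → (∀ z, t (z + ω₂) = t z) → (∀ z, InV (Ideal.span E) (t z)) →
    ∀ z w, t z = t w

theorem not_weighted (hT : NoTorusMaps E) {d : ℕ} (hE : ∀ F ∈ E, ∃ e ≤ d, F.IsHomogeneous e)
    (hf : EntireCurve (Ideal.span E) Q f) : ¬ Weighted (d + 1) E Q f := by
  rintro ⟨b, hb1, -, i, j, hi, hj, hij⟩
  obtain ⟨z, hzi, hzj⟩ := exists_off hf.1 hi hj
  obtain ⟨p, hp1, hp2, -⟩ := orbit_rat (x := f z) (b := fun l => b (some l)) (D := d + 1)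
    (fun F hF => by
      obtain ⟨e, he, hFe⟩ := hE F hF
      exact ⟨leD_of_homog hFe he, e, hFe⟩) (fun F hF k => hb1 F hF k z) hzi hzj hij
  have hTM : TorusMapsIn (Ideal.span E) (⊤ : Ideal (MvPolynomial (Fin (n + 1)) ℂ)) := by
    intro ω₁ ω₂ hind t ht h1 h2 hI ⟨z, w, hzw⟩
    exact absurd (hT ω₁ ω₂ hind t ht h1 h2 hI z w) hzw
  have h1 := ratCurves_of_torus hTM p hp1 hp2 0 1 Submodule.mem_top ⟨0, isHomogeneous_one _ _⟩
  rw [eval₂_one] at h1
  exact one_ne_zero h1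

/-- no lattice-invariant sections -/
theorem not_torus (hT : NoTorusMaps E) (hf : EntireCurve (Ideal.span E) Q f) {ω₁ ω₂ : ℂ}
    (h1 : SameCurve (fun z => f (z + ω₁)) f) (h2 : SameCurve (fun z => f (z + ω₂)) f) :
    ¬ LinearIndependent ℝ ![ω₁, ω₂] := by
  intro hind
  have h0 : ∀ z, f z ≠ 0 := fun z => (hf.2.1 z).1
  have h3 := hT ω₁ ω₂ hind (toP h0) (toP_hol hf.1 h0)
    (fun z => toP_eq (z := z + ω₁) (w := z) h0 (h1 z))
    (fun z => toP_eq (z := z + ω₂) (w := z) h0 (h2 z)) (toP_inV h0 fun z => (hf.2.1 z).2.1)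
  obtain ⟨z, w, hzw⟩ := hf.2.2
  obtain ⟨c, hc⟩ := toP_eq' h0 (h3 z w)
  exact hzw c hc

end Pool.Agent.Q72.SH
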