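import Pool.Agent.Q72.SH.RigP

/-!
Varieties with Zariski-dense entire curves which are not rigid are uniruled.
-/

set_option autoImplicit false

namespace Pool.Agent.Q72.SH

open Finset MvPolynomial Filter Topology
open scoped LinearAlgebra.Projectivization
open Pool.Agent.TH143.EL Pool.Agent.TH143.GT Pool.Agent.W602.GT Pool.Agent.TH143
open Pool.Agent.W603.BPR (EntireCurve)
open Pool.Agent.Y189.DD (IsEll)

variable {n : ℕ} {E : Set (MvPolynomial (Fin (n + 1)) ℂ)} {Q : MvPolynomial (Fin (n + 1)) ℂ}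
  {f : ℂ → Fin (n + 1) → ℂ}

theorem idl_eq (hE : ∀ F ∈ E, IsForm F) (hf : EntireCurve (Ideal.span E) Q f)
    (hd : ZDense (Ideal.span E) f Set.univ) : idl f = Ideal.span E := by
  apply le_antisymm
  · unfold idl
    rw [Ideal.span_le]
    intro G hG
    exact hd G hG.1 fun z _ => hG.2 z
  · rw [Ideal.span_le]
    intro F hF
    exact Ideal.subset_span ⟨hE F hF, fun z => (hf.2.1 z).2.1 F (Ideal.subset_span hF)⟩

/-- periodic curves of exponential type are images of the multiplicative group -/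
theorem exp_gm {q : ℕ} (hE : ∀ F ∈ E, IsForm F) (hQ : Q.IsHomogeneous q)
    (hf : EntireCurve (Ideal.span E) Q f) (hT : ExpType f) {τ : ℂ} (hτ : τ ≠ 0)
    (hper : SameCurve (fun z => f (z + τ)) f) :
    ∃ g, EntireCurve (Ideal.span E) Q g ∧ GmCurve g ∧
      ∀ G : MvPolynomial (Fin (n + 1)) ℂ, IsForm G →
        ((∀ z, eval (f z) G = 0) ↔ ∀ z, eval (g z) G = 0) := by
  have h2pi : (2 * Real.pi * Complex.I : ℂ) ≠ 0 := Complex.two_pi_I_ne_zero
  obtain ⟨z0, hz0⟩ : ∃ z0, ∀ l, (∃ z, f z l ≠ 0) → f z0 l ≠ 0 := by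
    have h1 : ∀ᶠ z in codiscrete ℂ, ∀ l, (∃ z, f z l ≠ 0) → f z l ≠ 0 := by
      rw [Filter.eventually_all]
      intro l
      by_cases hl : ∃ z, f z l ≠ 0
      · filter_upwards [codis_ne (coord_diff hf.1 l) hl] with z hz _
        exact hz
      · exact Filter.Eventually.of_forall fun z h => absurd h hl
    exact h1.exists
  set σ : ℂ → ℂ := fun w => τ / (2 * Real.pi * Complex.I) * w + z0 with hσ
  have hσA : Aff σ := ⟨_, _, div_ne_zero hτ h2pi, fun w => rfl⟩
  obtain ⟨C, hC⟩ := hT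
  obtain ⟨g, c, hg1, hg2, hg3⟩ := gm_core (f := fun w => f (σ w)) hE hQ (EC.comp hf hσA)
    (fun l => (ET.comp (f := fun z => f z l) ⟨C, fun z => hC z l⟩ _ _)) (by
      rintro l ⟨w, hw⟩
      have h1 : σ 0 = z0 := by simp [hσ]
      change f (σ 0) l ≠ 0
      rw [h1]
      exact hz0 l ⟨_, hw⟩) (by
      intro w
      have h1 : σ (w + 2 * Real.pi * Complex.I) = σ w + τ := by
        simp only [hσ]
        field_simp
        ring
      obtain ⟨d, hd⟩ := hper (σ w)
      refine ⟨d, ?_⟩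
      change f (σ (w + 2 * Real.pi * Complex.I)) = d • f (σ w)
      rw [h1]
      exact hd)
  refine ⟨g, hg1, hg2, fun G hG => ?_⟩
  obtain ⟨e, he⟩ := hG
  have key : ∀ w, eval (f (σ w)) G = c w ^ e * eval (g w) G := by
    intro w
    have h2 : f (σ w) = fun l => c w * g w l := by
      have := (hg3 w).2
      funext l
      exact congrFun this l
    rw [h2, eval_scale he]
  constructor
  · intro h w
    have h3 := key w
    rw [h (σ w)] at h3
    exact (mul_eq_zero.1 h3.symm).resolve_left (pow_ne_zero _ (hg3 w).1)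
  · intro h z
    obtain ⟨w, hw⟩ := hσA.surj z
    rw [← hw, key w, h w, mul_zero]

/-- fields embedded in a field of elliptic functions -/
theorem dim_le_one {K : Type} [Field K] [Algebra ℂ K] (ι : K →ₐ[ℂ] MK) {ω₁ ω₂ : ℂ}
    (hind : LinearIndependent ℝ ![ω₁, ω₂]) (hper : ∀ x : K, IsEll ω₁ ω₂ (ι x)) {w : ℕ}
    (htr : Algebra.trdeg ℂ K = w) : w ≤ 1 := by
  by_contra hcon
  have h2 : 2 ≤ w := by omega
  have hinj : ∀ {x y : K}, ι x = ι y → x = y := fun h => ι.toRingHom.injective h
  obtain ⟨s, hs⟩ := exists_isTranscendenceBasis ℂ K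
  have hcard : Cardinal.mk s = w := by
    rw [hs.cardinalMk_eq_trdeg, htr]
  have h3 : (2 : Cardinal) ≤ Cardinal.mk s := by
    rw [hcard]
    exact_mod_cast h2
  obtain ⟨a, b, hab⟩ : ∃ a b : s, a ≠ b := by
    rw [Cardinal.two_le_iff] at h3
    exact h3
  have hf : Function.Injective (![a, b] : Fin 2 → s) := by
    intro i j hij
    fin_cases i <;> fin_cases j
    · rfl
    · exact absurd hij hab
    · exact absurd hij.symm hab
    · rfl
  have h4 := hs.1.comp (![a, b] : Fin 2 → s) hf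
  obtain ⟨P, hP0, hP⟩ := (hper (a : K)).dep hind (hper (b : K))
  apply hP0
  rw [algebraicIndependent_iff] at h4
  apply h4
  apply hinj
  rw [map_zero, ← hP]
  have h1 := MvPolynomial.comp_aeval_apply
    (f := (fun x : s => (x : K)) ∘ (![a, b] : Fin 2 → s)) ι P
  rw [h1]
  congr 2
  funext j
  fin_cases j <;> rfl

/-- the closure of the image of a torus is a curve -/
theorem torus_dim (hE : ∀ F ∈ E, IsForm F) {K : Type} [Field K] [Algebra ℂ K]
    {w : ℕ} {y : Fin (n + 1) → K} (hy : FunField (Ideal.span E) 1 K w y)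
    (hf : EntireCurve (Ideal.span E) 1 f) (hd : ZDense (Ideal.span E) f Set.univ)
    (ht : Torus f) : w ≤ 1 := by
  obtain ⟨ω₁, ω₂, hind, h1, h2⟩ := ht
  have h0 : ∀ z, f z ≠ 0 := fun z => (hf.2.1 z).1
  obtain ⟨h, hh, hr⟩ := Pool.Agent.TH600.LK.torus_coords_ell (toP_hol hf.1 h0)
    (fun z => toP_eq (z := z + ω₁) (w := z) h0 (h1 z))
    (fun z => toP_eq (z := z + ω₂) (w := z) h0 (h2 z))
  have hm : ∀ j, Meromorphic fun z => h z j := fun j => (hh j).1
  let y' : Fin (n + 1) → MK := fun j => cl (fun z => h z j) (hm j)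
  have hval : ∀ G : MvPolynomial (Fin (n + 1)) ℂ, Pool.Agent.W602.GT.val y' G =
      cl (fun z => eval (fun j => h z j) G) (mero_eval hm G) := fun G =>
    aeval_cl (fun j z => h z j) hm G
  have hprop : ∀ G : MvPolynomial (Fin (n + 1)) ℂ, IsForm G → ∀ z, Rep (toP h0 z) (h z) →
      (eval (f z) G = 0 ↔ eval (h z) G = 0) := by
    rintro G ⟨e, he⟩ z hz
    have h5 := (rep_iff (toP_rep h0 z)).1 hz
    obtain ⟨k, hk⟩ : ∃ k, h z k ≠ 0 := by
      by_contra hc
      push Not at hc
      exact h5.1 (funext hc)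
    have hfk : f z k ≠ 0 := by
      intro h6
      apply h0 z
      funext j
      have h7 := h5.2 j k
      rw [h6, zero_mul] at h7
      exact (mul_eq_zero.1 h7).resolve_right hk
    have h8 : f z = fun j => (f z k / h z k) * h z j := by
      funext j
      have h7 := h5.2 j k
      field_simp
      linear_combination h7
    rw [h8, eval_scale he]
    constructor
    · intro h9
      exact (mul_eq_zero.1 h9).resolve_left (pow_ne_zero _ (div_ne_zero hfk hk))
    · intro h9
      rw [h9, mul_zero]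
  have hrel : ∀ G : MvPolynomial (Fin (n + 1)) ℂ, IsForm G →
      (Pool.Agent.W602.GT.val y G = 0 ↔ Pool.Agent.W602.GT.val y' G = 0) := by
    intro G hG
    rw [hval, cl_eq_zero]
    constructor
    · intro h3
      have h4 := hy.mem G hG h3
      filter_upwards [hr] with z e1
      exact (hprop G hG z e1).1 ((hf.2.1 z).2.1 G h4)
    · intro h3
      refine hy.sub.mem G (hd G hG fun z _ => ?_)
      refine ent_zero (f := fun z => eval (f z) G) (eval_diff hf.1 G).continuous ?_ z
      filter_upwards [h3, hr] with z e1 e2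
      exact (hprop G hG z e2).2 e1
  obtain ⟨φ, hφ⟩ := emb_gen hy.sub.ne hy.sub.gen hrel
  refine dim_le_one φ hind (fun x => ?_) hy.sub.dim
  obtain ⟨d, g1, g0, i1, i0, hn, rfl⟩ := exists_frac hy.sub.gen x
  rw [hφ d g1 g0 i1 i0 hn, div_eq_mul_inv, hval, hval]
  have hev : ∀ G : MvPolynomial (Fin (n + 1)) ℂ,
      IsEll ω₁ ω₂ (cl (fun z => eval (fun j => h z j) G) (mero_eval hm G)) := by
    intro G
    refine ⟨_, ⟨mero_eval hm G, fun z => ?_, fun z => ?_⟩, rfl⟩
    · congr 2
      funext j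
      exact (hh j).2.1 z
    · congr 2
      funext j
      exact (hh j).2.2 z
  exact (hev g1).mul (hev g0).inv

/-- The entire curve `f` in the projective algebraic set given by `E` is flexible: (1) there are
infinitely many entire curves in this set which have the same Zariski closure as `f` and the same
intersections, with multiplicities, with the coordinate hyperplanes; (2) or there is a nonconstant
entire function `h` which is not of the form `a z + b` with a root of unity `a` such that `f ∘ h`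
has the same intersections with the coordinate hyperplanes as `f`; (3) or the translation by some `b`
leaves these intersections invariant, but none of the numbers `k b`, `k > 0`, is a period of `f`. -/
def Flexible (E : Set (MvPolynomial (Fin (n + 1)) ℂ)) (f : ℂ → Fin (n + 1) → ℂ) : Prop :=
  EntireCurve (Ideal.span E) 1 f ∧
  ((∀ m : ℕ, ∃ g : Fin m → ℂ → Fin (n + 1) → ℂ, (∀ s, EntireCurve (Ideal.span E) 1 (g s)) ∧
      (∀ s, SameClosure (g s) f) ∧ (∀ s, SameSections (g s) f) ∧
      ∀ s t, s ≠ t → ¬ SameCurve (g s) (g t)) ∨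
    (∃ h : ℂ → ℂ, Differentiable ℂ h ∧ (∃ z w, h z ≠ h w) ∧ SameSections (fun z => f (h z)) f ∧
      ¬ ∃ a b : ℂ, (∃ k : ℕ, 0 < k ∧ a ^ k = 1) ∧ ∀ z, h z = a * z + b) ∨
    ∃ b, SameSections (fun z => f (z + b)) f ∧
      ∀ k : ℕ, 0 < k → ¬ SameCurve (fun z => f (z + k * b)) f)

theorem Flexible.weighted {d : ℕ} (hE : ∀ F ∈ E, ∃ e ≤ d, F.IsHomogeneous e)
    (h : Flexible E f) : Weighted (d + 1) E 1 f := by
  obtain ⟨hf, h⟩ := h
  rcases bd_or_weighted hE (Nat.zero_le d) (isHomogeneous_one _ _) hf with ⟨M, hM⟩ | h1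
  · exfalso
    rcases h with h2 | ⟨h, hh, hnc, hs, hna⟩ | ⟨b, hs, hk⟩
    · obtain ⟨g, hg, hc, hs, hne⟩ := h2 (M + 1)
      obtain ⟨s, t, hst, h3⟩ := fam_of_bd hM g hg hc hs
      exact hne s t hst h3
    · exact hna (subst_of_bd hM hf hh hnc hs)
    · obtain ⟨k, hk0, h3⟩ := per_of_bd hM hf hs
      exact hk k hk0 h3
  · exact h1

/-- **Flexible curves.** -/
theorem flex_main (n d : ℕ) : ∃ M : ℕ, ∀ E : Set (MvPolynomial (Fin (n + 1)) ℂ),
    (∀ F ∈ E, ∃ e ≤ d, F.IsHomogeneous e) →
    ∀ (K : Type) [Field K] [Algebra ℂ K] (w : ℕ) (y : Fin (n + 1) → K),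
      FunField (Ideal.span E) 1 K w y →
      ((∃ g : Fin (M + 1) → ℂ → Fin (n + 1) → ℂ, (∀ s, EntireCurve (Ideal.span E) 1 (g s)) ∧
          (∀ s, ZDense (Ideal.span E) (g s) Set.univ) ∧ (∀ s t, SameSections (g s) (g t)) ∧
          ∀ s t, s ≠ t → ¬ SameCurve (g s) (g t)) ∨
        (∀ G : MvPolynomial (Fin (n + 1)) ℂ, IsForm G →
          (∀ f, Flexible E f → ∀ z, eval (f z) G = 0) → G ∈ Ideal.span E) ∨
        ∃ f, EntireCurve (Ideal.span E) 1 f ∧ ZDense (Ideal.span E) f Set.univ ∧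
          ((ExpType f ∧ ∃ b, b ≠ 0 ∧ SameSections (fun z => f (z + b)) f) ∨
            (2 ≤ w ∧ Lattice f))) →
      ∃ r : K, ¬ AllFlat 1 y r := by
  obtain ⟨M, hM⟩ := main n d
  refine ⟨M, fun E hE K _ _ w y hy hX => ?_⟩
  have hE' : ∀ F ∈ E, IsForm F := fun F hF => by
    obtain ⟨e, -, he⟩ := hE F hF
    exact ⟨e, he⟩
  rcases hX with ⟨g, hg, hd, hs, hne⟩ | hX | ⟨f, hf, hd, hfl⟩
  · exact hM _ 1 0 (Nat.zero_le _) (isHomogeneous_one _ _) E rfl hE K w y hy g hg hd hs
      fun s t h => by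
        by_contra hst
        exact hne s t hst h
  · by_contra hcon
    push Not at hcon
    obtain ⟨G, hG1, hG2, hG3⟩ := exc_form (Nat.zero_le d) (isHomogeneous_one _ _) rfl hE hy hcon
    exact hG2 (hX G hG1 fun f hf z => hG3 f hf.1 (hf.weighted hE) z)
  · by_contra hcon
    have hB : Bd M (Ideal.span E) 1 := by
      intro g hg hd hs
      by_contra hcon2
      push Not at hcon2
      exact hcon (hM _ 1 0 (Nat.zero_le _) (isHomogeneous_one _ _) E rfl hE K w y hy g hg hd hs
        fun s t h => by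
          by_contra hne
          exact hcon2 s t hne h)
    have hB' : Bd M (idl f) 1 := by
      rw [idl_eq hE' hf hd]
      exact hB
    rcases hfl with ⟨hT, b, hb, hs⟩ | ⟨hw, ω₁, ω₂, hind, h1, h2⟩
    · obtain ⟨k, hk, hp⟩ := per_of_bd hB' hf hs
      have hk0 : (k : ℂ) ≠ 0 := by exact_mod_cast hk.ne'
      obtain ⟨g, hg1, ⟨T, hT'⟩, hg3⟩ := exp_gm hE' (isHomogeneous_one _ _) hf hT
        (mul_ne_zero hk0 hb) hp
      obtain ⟨h3, h4⟩ := GmCurve.mor hg1 hT'
      refine hcon (not_allFlat (isHomogeneous_one _ _) h3 h4 fun G hG => ?_)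
      have e : ∀ z, g z = fun j => (T j).eval (Complex.exp z) := fun z => funext fun j => hT' z j
      constructor
      · intro h5 z
        rw [← e]
        exact (hg3 G hG).1 (fun z => (hf.2.1 z).2.1 G (hy.mem G hG h5)) z
      · intro h5
        refine hy.sub.mem G (hd G hG fun z _ => (hg3 G hG).2 (fun z => ?_) z)
        rw [e]
        exact h5 z
    · obtain ⟨k₁, hk₁, hp1⟩ := per_of_bd hB' hf h1
      obtain ⟨k₂, hk₂, hp2⟩ := per_of_bd hB' hf h2
      have ht : Torus f := by
        refine ⟨k₁ * ω₁, k₂ * ω₂, ?_, hp1, hp2⟩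
        rw [LinearIndependent.pair_iff] at hind ⊢
        intro s t hst
        have h3 := hind (s * k₁) (t * k₂) (by
          rw [← hst]
          simp only [Complex.real_smul]
          push_cast
          ring)
        have e1 : (k₁ : ℝ) ≠ 0 := by exact_mod_cast hk₁.ne'
        have e2 : (k₂ : ℝ) ≠ 0 := by exact_mod_cast hk₂.ne'
        exact ⟨(mul_eq_zero.1 h3.1).resolve_right e1, (mul_eq_zero.1 h3.2).resolve_right e2⟩
      have := torus_dim hE' hy hf hd ht
      omega

end Pool.Agent.Q72.SH
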