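import Pool.Agent.Q72.SH.Units
import Pool.Agent.Q72.SH.Poly

/-!
Entire curves with the same hyperplane sections: the rows of units.
-/

set_option autoImplicit false

namespace Pool.Agent.Q72.SH

open Finset MvPolynomial Filter
open Pool.Agent.TH143.EL Pool.Agent.TH143.GT Pool.Agent.W602.GT Pool.Agent.TH143
open Pool.Agent.W603.BPR (EntireCurve)

variable {n D : ℕ}

/-- the exponents of the coordinates and of one more variable -/
def ex' (a : Option (Ex (Fin (n + 1)) D)) : Option (Fin (n + 1)) → ℕ :=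
  match a with
  | some a => fun l => match l with
    | some l => (a l : ℕ)
    | none => 0
  | none => fun l => match l with
    | some _ => 0
    | none => 1

theorem wt_some (b : Option (Fin (n + 1)) → ℤ) (a : Ex (Fin (n + 1)) D) :
    wt b (ex' (some a)) = wt (fun l => b (some l)) (exf a) := by
  unfold wt
  rw [Fintype.sum_option]
  simp [ex', exf]

theorem wt_none (b : Option (Fin (n + 1)) → ℤ) :
    wt b (ex' (none : Option (Ex (Fin (n + 1)) D))) = b none := by
  unfold wt
  rw [Fintype.sum_option]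
  simp [ex']

/-- The units belonging to curves with the same hyperplane sections. -/
structure Data (p : Ideal (MvPolynomial (Fin (n + 1)) ℂ)) (Q : MvPolynomial (Fin (n + 1)) ℂ)
    {I : Type} (g : I → ℂ → Fin (n + 1) → ℂ) (f : ℂ → Fin (n + 1) → ℂ)
    (G : I → Option (Fin (n + 1)) → Ent) : Prop where
  fd : Differentiable ℂ f
  gd : ∀ s, Differentiable ℂ (g s)
  unit : ∀ s l z, g s z l = Complex.exp ((G s (some l)).1 z) * f z l
  bdry : ∀ s z, eval (g s z) Q = Complex.exp ((G s none).1 z)
  mem : ∀ s z, ∀ F ∈ p, eval (g s z) F = 0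

/-- `y` is a generic point of the set with the ideal `p`; it does not lie on `Q = 0` -/
structure GP (p : Ideal (MvPolynomial (Fin (n + 1)) ℂ)) (Q : MvPolynomial (Fin (n + 1)) ℂ)
    {K : Type} [Field K] [Algebra ℂ K] (y : Fin (n + 1) → K) : Prop where
  ne : y ≠ 0
  mem : ∀ H ∈ p, aeval y H = 0
  off : aeval y Q ≠ 0
  gen : ∀ H : MvPolynomial (Fin (n + 1)) ℂ, IsForm H → aeval y H = 0 → H ∈ p

theorem gp_of {p : Ideal (MvPolynomial (Fin (n + 1)) ℂ)} {Q : MvPolynomial (Fin (n + 1)) ℂ}
    {K : Type} [Field K] [Algebra ℂ K] {w : ℕ} {y : Fin (n + 1) → K} (hy : FunField p Q K w y) :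
    GP p Q y := ⟨hy.sub.ne, hy.sub.mem, hy.sub.off, hy.mem⟩

/-- the element of `Γ` belonging to an exponent -/
def gam (G : Option (Fin (n + 1)) → Ent) (a : Option (Ex (Fin (n + 1)) D)) : Ent :=
  ∑ l, ex' a l • G l

theorem gam_some (G : Option (Fin (n + 1)) → Ent) (a : Ex (Fin (n + 1)) D) :
    gam G (some a) = ∑ l, (a l : ℕ) • G (some l) := by
  unfold gam
  rw [Fintype.sum_option]
  simp [ex']

theorem gam_none (G : Option (Fin (n + 1)) → Ent) :
    gam G (none : Option (Ex (Fin (n + 1)) D)) = G none := by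
  unfold gam
  rw [Fintype.sum_option]
  simp [ex']

theorem coord_mero {g : ℂ → Fin (n + 1) → ℂ} (hg : Differentiable ℂ g) (l : Fin (n + 1)) :
    Meromorphic fun z => g z l := fun z => by
  have h1 : Differentiable ℂ fun z => g z l := fun z => (differentiableAt_pi.1 (hg z)) l
  exact (h1.analyticAt z).meromorphicAt

/-- the coordinates as meromorphic functions -/
noncomputable def hat {g : ℂ → Fin (n + 1) → ℂ} (hg : Differentiable ℂ g) (l : Fin (n + 1)) : MK :=
  cl (fun z => g z l) (coord_mero hg l)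

theorem aeval_hat {g : ℂ → Fin (n + 1) → ℂ} (hg : Differentiable ℂ g)
    (F : MvPolynomial (Fin (n + 1)) ℂ) : aeval (hat hg) F = 0 ↔ ∀ z, eval (g z) F = 0 := by
  have h1 := aeval_cl (fun l z => g z l) (fun l => coord_mero hg l) F
  have h2 : aeval (hat hg) F = cl (fun z => eval (fun j => g z j) F)
      (mero_eval (fun l => coord_mero hg l) F) := h1
  rw [h2, cl_eq_zero]
  constructor
  · intro h z
    refine ent_zero (f := fun z => eval (fun j => g z j) F) ?_ h z
    exact (MvPolynomial.continuous_eval F).comp hg.continuous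
  · intro h
    exact Eventually.of_forall h

variable {p : Ideal (MvPolynomial (Fin (n + 1)) ℂ)} {Q : MvPolynomial (Fin (n + 1)) ℂ}
  {I : Type} {g : I → ℂ → Fin (n + 1) → ℂ} {f : ℂ → Fin (n + 1) → ℂ}
  {G : I → Option (Fin (n + 1)) → Ent}

theorem Data.hat_eq (h : Data p Q g f G) (s : I) (l : Fin (n + 1)) :
    hat (h.gd s) l = eE (G s (some l)) * hat h.fd l := by
  unfold hat eE
  rw [cl_mul, cl_eq]
  exact Eventually.of_forall fun z => h.unit s l z

theorem Data.prod_eq (h : Data p Q g f G) (s : I) (a : Ex (Fin (n + 1)) D) :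
    ∏ l, hat (h.gd s) l ^ (a l : ℕ) =
      (∏ l, hat h.fd l ^ (a l : ℕ)) * eE (gam (G s) (some a)) := by
  rw [gam_some, borel_eE.sum, ← Finset.prod_mul_distrib]
  refine Finset.prod_congr rfl fun l _ => ?_
  rw [h.hat_eq, mul_pow, mul_comm]
  congr 1
  induction (a l : ℕ) with
  | zero => rw [pow_zero, zero_smul, borel_eE.zero]
  | succ m ih => rw [pow_succ, succ_nsmul, eE_add, ih]

/-- the row of coefficients -/
noncomputable def vec (h : Data p Q g f G) (F : MvPolynomial (Fin (n + 1)) ℂ) (c : MK) :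
    Option (Ex (Fin (n + 1)) D) → MK
  | some a => algebraMap ℂ MK (coeff (fs a) F) * ∏ l, hat h.fd l ^ (a l : ℕ)
  | none => c

theorem Data.rowC (h : Data p Q g f G) (s : I) (F : MvPolynomial (Fin (n + 1)) ℂ) (c : MK)
    (b : Option (Fin (n + 1)) → ℤ) (k : ℤ) :
    ∑ a : Option (Ex (Fin (n + 1)) D), (if wt b (ex' a) = k then
      vec h F c a * eE (gam (G s) a) else 0) =
    (if b none = k then c * eE (G s none) else 0) +
      aeval (hat (h.gd s)) (comp D (fun l => b (some l)) k F) := by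
  rw [Fintype.sum_option, aeval_comp, wt_none, gam_none]
  congr 1
  refine Finset.sum_congr rfl fun a _ => ?_
  rw [wt_some]
  split_ifs
  · rw [h.prod_eq]
    change algebraMap ℂ MK (coeff (fs a) F) * (∏ l, hat h.fd l ^ (a l : ℕ)) * _ = _
    rw [mul_assoc]
  · rfl

theorem Data.row (h : Data p Q g f G) (s : I) {F : MvPolynomial (Fin (n + 1)) ℂ} (hF : LeD D F)
    (c : MK) : ∑ a : Option (Ex (Fin (n + 1)) D), vec h F c a * eE (gam (G s) a) =
      c * eE (G s none) + aeval (hat (h.gd s)) F := by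
  rw [Fintype.sum_option, aeval_sum _ hF, gam_none]
  congr 1
  refine Finset.sum_congr rfl fun a _ => ?_
  rw [h.prod_eq]
  change algebraMap ℂ MK (coeff (fs a) F) * (∏ l, hat h.fd l ^ (a l : ℕ)) * _ = _
  rw [mul_assoc]

theorem Data.bdry_hat (h : Data p Q g f G) (s : I) : aeval (hat (h.gd s)) Q = eE (G s none) := by
  have h1 := aeval_cl (fun l z => g s z l) (fun l => coord_mero (h.gd s) l) Q
  have h2 : aeval (hat (h.gd s)) Q = cl (fun z => eval (fun j => g s z j) Q)
      (mero_eval (fun l => coord_mero (h.gd s) l) Q) := h1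
  rw [h2]
  unfold eE
  rw [cl_eq]
  exact Eventually.of_forall fun z => h.bdry s z

/-- the pairs of exponents whose units have constant quotients -/
def rr (D : ℕ) (G : I → Option (Fin (n + 1)) → Ent) (S : Finset I)
    (a b : Option (Ex (Fin (n + 1)) D)) : Prop :=
  ∀ s ∈ S, ∀ t ∈ S, (gam (G s) a - gam (G s) b) - (gam (G t) a - gam (G t) b) ∈ Cst

theorem rr_refl (S : Finset I) (a : Option (Ex (Fin (n + 1)) D)) : rr D G S a a := by
  intro s _ t _
  rw [sub_self, sub_self, sub_self]
  exact Cst.zero_mem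

theorem rr_symm {S : Finset I} {a b : Option (Ex (Fin (n + 1)) D)} (h : rr D G S a b) :
    rr D G S b a := by
  intro s hs t ht
  have h1 := Cst.neg_mem (h s hs t ht)
  have h2 : -((gam (G s) a - gam (G s) b) - (gam (G t) a - gam (G t) b)) =
    (gam (G s) b - gam (G s) a) - (gam (G t) b - gam (G t) a) := by abel
  rwa [h2] at h1

theorem rr_trans {S : Finset I} {a b c : Option (Ex (Fin (n + 1)) D)} (h : rr D G S a b)
    (h' : rr D G S b c) : rr D G S a c := by
  intro s hs t ht
  have h1 := Cst.add_mem (h s hs t ht) (h' s hs t ht)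
  have h2 : ((gam (G s) a - gam (G s) b) - (gam (G t) a - gam (G t) b)) +
    ((gam (G s) b - gam (G s) c) - (gam (G t) b - gam (G t) c)) =
    (gam (G s) a - gam (G s) c) - (gam (G t) a - gam (G t) c) := by abel
  rwa [h2] at h1

open Classical in
/-- the core theorem for curves -/
theorem Data.core (h : Data p Q g f G) [DecidableEq I] {S : Finset I}
    (hinj : ∀ a b : Option (Ex (Fin (n + 1)) D), ¬ rr D G S a b → ∀ s ∈ S, ∀ t ∈ S,
      (gam (G s) a - gam (G s) b) - (gam (G t) a - gam (G t) b) ∈ Cst → s = t)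
    (hrob : Robust (fun s (a : Option (Ex (Fin (n + 1)) D)) => eE (gam (G s) a))
      ((Fintype.card (Option (Ex (Fin (n + 1)) D))).factorial ^ 2) S)
    (C : Option (Ex (Fin (n + 1)) D) → Prop) (hC : ∀ a b, C a → ¬ C b → ¬ rr D G S a b)
    {v : Option (Ex (Fin (n + 1)) D) → MK}
    (hv : ∀ s ∈ S, ∑ a, v a * eE (gam (G s) a) = 0) :
    ∀ s ∈ S, ∑ a, (if C a then v a * eE (gam (G s) a) else 0) = 0 :=
  Pool.Agent.Q72.SH.core borel_eE (fun s a => gam (G s) a) (rr D G S) hinj hrob C hC hv

variable {K : Type} [Field K] [Algebra ℂ K] {w : ℕ} {y : Fin (n + 1) → K}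

open Classical in
/-- weights which are constant on the classes: the components vanish on the curves -/
theorem Data.comps0 (h : Data p Q g f G) [DecidableEq I] {S : Finset I}
    (hinj : ∀ a b : Option (Ex (Fin (n + 1)) D), ¬ rr D G S a b → ∀ s ∈ S, ∀ t ∈ S,
      (gam (G s) a - gam (G s) b) - (gam (G t) a - gam (G t) b) ∈ Cst → s = t)
    (hrob : Robust (fun s (a : Option (Ex (Fin (n + 1)) D)) => eE (gam (G s) a))
      ((Fintype.card (Option (Ex (Fin (n + 1)) D))).factorial ^ 2) S)
    {b : Option (Fin (n + 1)) → ℤ}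
    (hb : ∀ a a' : Option (Ex (Fin (n + 1)) D), rr D G S a a' → wt b (ex' a) = wt b (ex' a'))
    {F : MvPolynomial (Fin (n + 1)) ℂ} (hF : LeD D F) (k : ℤ)
    (hcase : F ∈ p ∨ (F = Q ∧ k ≠ b none)) {s : I} (hs : s ∈ S) (z : ℂ) :
    eval (g s z) (comp D (fun l => b (some l)) k F) = 0 := by
  have hC : ∀ a a' : Option (Ex (Fin (n + 1)) D), wt b (ex' a) = k → ¬ wt b (ex' a') = k →
      ¬ rr D G S a a' := by
    intro a a' h1 h2 h3
    exact h2 ((hb a a' h3).symm.trans h1)
  have hz : aeval (hat (h.gd s)) (comp D (fun l => b (some l)) k F) = 0 := by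
    rcases hcase with hFp | ⟨rfl, hk⟩
    · have h1 := h.core hinj hrob (fun a => wt b (ex' a) = k) hC (v := vec h F 0) (by
        intro t _
        rw [h.row t hF, zero_mul, zero_add, aeval_hat]
        exact fun z => h.mem t z F hFp) s hs
      have h2 := h.rowC (D := D) s F 0 b k
      rw [zero_mul, ite_self, zero_add] at h2
      rw [← h2, ← h1]
      exact Finset.sum_congr rfl fun a _ => by congr
    · have h1 := h.core hinj hrob (fun a => wt b (ex' a) = k) hC (v := vec h F (-1)) (by
        intro t _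
        rw [h.row t hF, h.bdry_hat t]
        ring) s hs
      have h2 := h.rowC (D := D) s F (-1) b k
      rw [if_neg hk.symm, zero_add] at h2
      rw [← h2, ← h1]
      exact Finset.sum_congr rfl fun a _ => by congr
  exact (aeval_hat _ _).1 hz z

/-- weights which are constant on the classes -/
theorem Data.comps (h : Data p Q g f G) (hd : ∀ s, ZDense p (g s) Set.univ) (hy : GP p Q y)
    [DecidableEq I] {S : Finset I} (hne : S.Nonempty)
    (hinj : ∀ a b : Option (Ex (Fin (n + 1)) D), ¬ rr D G S a b → ∀ s ∈ S, ∀ t ∈ S,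
      (gam (G s) a - gam (G s) b) - (gam (G t) a - gam (G t) b) ∈ Cst → s = t)
    (hrob : Robust (fun s (a : Option (Ex (Fin (n + 1)) D)) => eE (gam (G s) a))
      ((Fintype.card (Option (Ex (Fin (n + 1)) D))).factorial ^ 2) S)
    {b : Option (Fin (n + 1)) → ℤ}
    (hb : ∀ a a' : Option (Ex (Fin (n + 1)) D), rr D G S a a' → wt b (ex' a) = wt b (ex' a'))
    {F : MvPolynomial (Fin (n + 1)) ℂ} (hF : LeD D F) (hFh : ∃ e, F.IsHomogeneous e) (k : ℤ)
    (hcase : F ∈ p ∨ (F = Q ∧ k ≠ b none)) :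
    aeval y (comp D (fun l => b (some l)) k F) = 0 := by
  obtain ⟨s, hs⟩ := hne
  obtain ⟨e, he⟩ := hFh
  exact hy.mem _ (hd s _ ⟨e, comp_homog he _ _⟩ fun z _ =>
    h.comps0 hinj hrob hb hF k hcase hs z)

end Pool.Agent.Q72.SH
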