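import Pool.Agent.Q72.SH.Per

/-!
Entire curves with the same hyperplane sections in arbitrary closed sets.
-/

set_option autoImplicit false

namespace Pool.Agent.Q72.SH

open Finset MvPolynomial Filter
open Pool.Agent.TH143.EL Pool.Agent.TH143.GT Pool.Agent.W602.GT Pool.Agent.TH143
open Pool.Agent.W603.BPR (EntireCurve)

section comp

variable {σ : Type} [Fintype σ] [DecidableEq σ] {D D' : ℕ}

theorem coeff_comp {F : MvPolynomial σ ℂ} (hF : LeD D F) (b : σ → ℤ) (k : ℤ) (m : σ →₀ ℕ) :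
    coeff m (comp D b k F) = if wt b m = k then coeff m F else 0 := by
  by_cases hm : ∀ l, m l ≤ D
  · obtain ⟨a, rfl⟩ := exists_fs hm
    unfold comp
    rw [coeff_poly]
    rfl
  · have h1 : coeff m (comp D b k F) = 0 := by
      by_contra h
      exact hm (leD_poly _ m (mem_support_iff.2 h))
    have h2 : coeff m F = 0 := by
      by_contra h
      exact hm (hF m (mem_support_iff.2 h))
    rw [h1, h2, ite_self]

theorem comp_eq {F : MvPolynomial σ ℂ} (hF : LeD D F) (hF' : LeD D' F) (b : σ → ℤ) (k : ℤ) :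
    comp D b k F = comp D' b k F := by
  ext m
  rw [coeff_comp hF, coeff_comp hF']

theorem comp_congr {F : MvPolynomial σ ℂ} (hF : LeD D F) {b b' : σ → ℤ} {k k' : ℤ}
    (h : ∀ a : Ex σ D, coeff (fs a) F ≠ 0 → (wt b (exf a) = k ↔ wt b' (exf a) = k')) :
    comp D b k F = comp D b' k' F := by
  unfold comp
  congr 1
  funext a
  by_cases h0 : coeff (fs a) F = 0
  · rw [h0, ite_self, ite_self]
  · by_cases h1 : wt b (exf a) = k
    · rw [if_pos h1, if_pos ((h a h0).1 h1)]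
    · rw [if_neg h1, if_neg fun h2 => h1 ((h a h0).2 h2)]

/-- the polynomial along an orbit -/
theorem eval_orbit {F : MvPolynomial σ ℂ} (hF : LeD D F) (b : σ → ℤ) (x : σ → ℂ) {t : ℂ}
    (ht : t ≠ 0) : eval (fun l => t ^ b l * x l) F = ∑ k ∈ (Finset.univ : Finset (Ex σ D)).image
      (fun a => wt b (exf a)), t ^ k * eval x (comp D b k F) := by
  have h0 : ∀ (x : σ → ℂ) (F : MvPolynomial σ ℂ), aeval x F = eval x F :=
    fun x F => by rw [aeval_eq_eval]
  have h1 : ∀ k, eval x (comp D b k F) = ∑ a : Ex σ D,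
      (if wt b (exf a) = k then coeff (fs a) F * ∏ l, x l ^ (a l : ℕ) else 0) := by
    intro k
    rw [← h0, aeval_comp]
    rfl
  rw [← h0, aeval_sum _ hF]
  have h2 : ∀ a : Ex σ D, algebraMap ℂ ℂ (coeff (fs a) F) * ∏ l, (t ^ b l * x l) ^ (a l : ℕ) =
      t ^ wt b (exf a) * (coeff (fs a) F * ∏ l, x l ^ (a l : ℕ)) := by
    intro a
    have h3 : ∏ l, (t ^ b l * x l) ^ (a l : ℕ) =
        t ^ wt b (exf a) * ∏ l, x l ^ (a l : ℕ) := by
      have h4 : ∀ T : Finset σ, t ^ (∑ l ∈ T, b l * (exf a l : ℤ)) =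
          ∏ l ∈ T, (t ^ b l) ^ (a l : ℕ) := by
        intro T
        induction T using Finset.induction_on with
        | empty => simp
        | insert i T hi ih =>
          rw [Finset.sum_insert hi, Finset.prod_insert hi, zpow_add₀ ht, ih, zpow_mul,
            zpow_natCast]
          rfl
      unfold wt
      rw [h4, ← Finset.prod_mul_distrib]
      exact Finset.prod_congr rfl fun l _ => mul_pow _ _ _
    rw [h3]
    change coeff (fs a) F * _ = _
    ring
  simp only [h2, h1]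
  rw [← Finset.sum_fiberwise_of_maps_to (t := (Finset.univ : Finset (Ex σ D)).image
    (fun a => wt b (exf a))) (g := fun a => wt b (exf a))
    (fun a _ => Finset.mem_image_of_mem _ (Finset.mem_univ a))]
  refine Finset.sum_congr rfl fun k _ => ?_
  rw [Finset.mul_sum, Finset.sum_filter]
  refine Finset.sum_congr rfl fun a _ => ?_
  split_ifs with h5
  · rw [h5]
  · rw [mul_zero]

theorem orbit_zero {F : MvPolynomial σ ℂ} (hF : LeD D F) {b : σ → ℤ} {x : σ → ℂ}
    (h : ∀ k, eval x (comp D b k F) = 0) {t : ℂ} (ht : t ≠ 0) :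
    eval (fun l => t ^ b l * x l) F = 0 := by
  rw [eval_orbit hF b x ht]
  exact Finset.sum_eq_zero fun k _ => by rw [h, mul_zero]

theorem orbit_mon {F : MvPolynomial σ ℂ} (hF : LeD D F) {b : σ → ℤ} {x : σ → ℂ} {k0 : ℤ}
    (h : ∀ k, k ≠ k0 → eval x (comp D b k F) = 0) {t : ℂ} (ht : t ≠ 0) :
    eval (fun l => t ^ b l * x l) F = t ^ k0 * eval x F := by
  have h1 : ∀ t : ℂ, t ≠ 0 → eval (fun l => t ^ b l * x l) F =
      ∑ k ∈ (Finset.univ : Finset (Ex σ D)).image (fun a => wt b (exf a)),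
        if k = k0 then t ^ k0 * eval x (comp D b k0 F) else 0 := by
    intro t ht
    rw [eval_orbit hF b x ht]
    refine Finset.sum_congr rfl fun k _ => ?_
    split_ifs with h2
    · rw [h2]
    · rw [h k h2, mul_zero]
  have h2 := h1 1 one_ne_zero
  simp only [one_zpow, one_mul] at h2
  rw [h1 t ht, h2, Finset.mul_sum]
  exact Finset.sum_congr rfl fun k _ => by rw [mul_ite, mul_zero]

end comp

variable {n : ℕ}

/-- The curve `f` is swept by orbits of a one-parameter group in the set `E = 0`, `Q ≠ 0`: the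
components of the forms of `E` vanish on `f`, and those of `Q`, but one. -/
def Weighted (D : ℕ) (E : Set (MvPolynomial (Fin (n + 1)) ℂ)) (Q : MvPolynomial (Fin (n + 1)) ℂ)
    (f : ℂ → Fin (n + 1) → ℂ) : Prop :=
  ∃ b : Option (Fin (n + 1)) → ℤ,
    (∀ F ∈ E, ∀ k z, eval (f z) (comp D (fun l => b (some l)) k F) = 0) ∧
    (∀ k, k ≠ b none → ∀ z, eval (f z) (comp D (fun l => b (some l)) k Q) = 0) ∧
    ∃ i j, (∃ z, f z i ≠ 0) ∧ (∃ z, f z j ≠ 0) ∧ b (some i) ≠ b (some j)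

theorem Weighted.mono {D D' : ℕ} {E E' : Set (MvPolynomial (Fin (n + 1)) ℂ)}
    {Q : MvPolynomial (Fin (n + 1)) ℂ} {f : ℂ → Fin (n + 1) → ℂ} (hE : E' ⊆ E)
    (h1 : ∀ F ∈ E', LeD D F) (h1' : ∀ F ∈ E', LeD D' F) (h2 : LeD D Q) (h2' : LeD D' Q)
    (h : Weighted D E Q f) : Weighted D' E' Q f := by
  obtain ⟨b, hb1, hb2, hb3⟩ := h
  refine ⟨b, fun F hF k z => ?_, fun k hk z => ?_, hb3⟩
  · rw [← comp_eq (h1 F hF) (h1' F hF)]
    exact hb1 F (hE hF) k z
  · rw [← comp_eq h2 h2']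
    exact hb2 k hk z

/-- `g` is `g'` multiplied by a constant invertible diagonal matrix -/
def DiagEq (g g' : ℂ → Fin (n + 1) → ℂ) : Prop :=
  ∃ D : Fin (n + 1) → ℂ, (∀ l, D l ≠ 0) ∧ SameCurve g fun z l => D l * g' z l

open Classical in
/-- **Structure theorem.** -/
theorem diag_or_weighted (n d : ℕ) : ∃ M : ℕ, ∀ (E : Set (MvPolynomial (Fin (n + 1)) ℂ)),
    (∀ F ∈ E, ∃ e ≤ d, F.IsHomogeneous e) → ∀ (Q : MvPolynomial (Fin (n + 1)) ℂ) (q : ℕ), q ≤ d →
    Q.IsHomogeneous q → ∀ g : Fin (M + 1) → ℂ → Fin (n + 1) → ℂ,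
      (∀ s, EntireCurve (Ideal.span E) Q (g s)) → (∀ s t, SameSections (g s) (g t)) →
      (∃ s t, s ≠ t ∧ DiagEq (g s) (g t)) ∨ ∃ s, Weighted (d + 1) E Q (g s) := by
  obtain ⟨M, hM⟩ := exists_sub n d 2
  refine ⟨M, fun E hE Q q hq hQ g hg hs => ?_⟩
  obtain ⟨G, h⟩ := exists_data hg hs 0
  have hQD : LeD (d + 1) Q := leD_of_homog hQ hq
  obtain ⟨S, hSm, hrob, hinj⟩ := hM G
  obtain ⟨s, hsS, t, htS, hst⟩ := Finset.one_lt_card.1 hSm
  have hz : ∀ s l, (∃ z, g s z l ≠ 0) ↔ ∃ z, g 0 z l ≠ 0 := by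
    intro s l
    constructor
    · rintro ⟨z, hz⟩
      rw [h.unit s l z] at hz
      exact ⟨z, right_ne_zero_of_mul hz⟩
    · rintro ⟨z, hz⟩
      exact ⟨z, by rw [h.unit s l z]; exact mul_ne_zero (Complex.exp_ne_zero _) hz⟩
  by_cases hall : ∀ i j, (∃ z, g 0 z i ≠ 0) → (∃ z, g 0 z j ≠ 0) →
      rr (d + 1) G S (some (ei d i)) (some (ei d j))
  · left
    obtain ⟨j0, hj0⟩ : ∃ j, ∃ z, g 0 z j ≠ 0 := by
      by_contra hc
      push Not at hc
      exact ((hg 0).2.1 0).1 (funext fun j => hc j 0)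
    have hκ : ∀ l, ∃ κ : ℂ, (∃ z, g 0 z l ≠ 0) → ∀ z,
        ((G s (some l)).1 z - (G s (some j0)).1 z) -
          ((G t (some l)).1 z - (G t (some j0)).1 z) = κ := by
      intro l
      by_cases hl : ∃ z, g 0 z l ≠ 0
      · obtain ⟨c, hc⟩ := hall l j0 hl hj0 s hsS t htS
        refine ⟨c, fun _ z => ?_⟩
        rw [← hc z, gam_ei, gam_ei, gam_ei, gam_ei]
        rfl
      · exact ⟨0, fun h2 => absurd h2 hl⟩
    choose κ hκ using hκ
    refine ⟨s, t, hst, fun l => Complex.exp (κ l), fun l => Complex.exp_ne_zero _, fun z =>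
      ⟨Complex.exp ((G s (some j0)).1 z - (G t (some j0)).1 z), ?_⟩⟩
    funext l
    rw [Pi.smul_apply, smul_eq_mul]
    change g s z l = Complex.exp ((G s (some j0)).1 z - (G t (some j0)).1 z) *
      (Complex.exp (κ l) * g t z l)
    by_cases hl : ∃ z, g 0 z l ≠ 0
    · rw [h.unit s l z, h.unit t l z, ← hκ l hl z]
      have h2 : (G s (some l)).1 z = ((G s (some j0)).1 z - (G t (some j0)).1 z) +
          ((((G s (some l)).1 z - (G s (some j0)).1 z) -
          ((G t (some l)).1 z - (G t (some j0)).1 z)) + (G t (some l)).1 z) := by ring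
      conv_lhs => rw [h2]
      rw [Complex.exp_add, Complex.exp_add]
      ring
    · have h3 : ∀ s, g s z l = 0 := by
        intro s
        by_contra h4
        exact hl ((hz s l).1 ⟨z, h4⟩)
      rw [h3 s, h3 t, mul_zero, mul_zero]
  · right
    push Not at hall
    obtain ⟨i, j, hi, hj, hij⟩ := hall
    obtain ⟨b, hb, hbij⟩ := exists_weight hij
    refine ⟨s, b, fun F hF k z => ?_, fun k hk z => ?_, i, j, (hz s i).2 hi, (hz s j).2 hj, hbij⟩
    · obtain ⟨e, he, hFe⟩ := hE F hF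
      exact h.comps0 hinj hrob hb (leD_of_homog hFe he) k (Or.inl (Ideal.subset_span hF)) hsS z
    · exact h.comps0 hinj hrob hb hQD k (Or.inr ⟨rfl, hk⟩) hsS z

/-- the ideal generated by the forms which vanish on the curve `f` -/
noncomputable def idl (f : ℂ → Fin (n + 1) → ℂ) : Ideal (MvPolynomial (Fin (n + 1)) ℂ) :=
  Ideal.span {H | IsForm H ∧ ∀ z, eval (f z) H = 0}

theorem mem_idl {f : ℂ → Fin (n + 1) → ℂ} {H : MvPolynomial (Fin (n + 1)) ℂ} (h : H ∈ idl f)
    (z : ℂ) : eval (f z) H = 0 := by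
  have h1 : idl f ≤ RingHom.ker (eval (f z)) := by
    unfold idl
    rw [Ideal.span_le]
    intro G hG
    exact hG.2 z
  exact h1 h

theorem EC.idl {E : Set (MvPolynomial (Fin (n + 1)) ℂ)} {Q : MvPolynomial (Fin (n + 1)) ℂ}
    {f : ℂ → Fin (n + 1) → ℂ} (hf : EntireCurve (Ideal.span E) Q f) :
    EntireCurve (Pool.Agent.Q72.SH.idl f) Q f :=
  ⟨hf.1, fun z => ⟨(hf.2.1 z).1, fun _ hH => mem_idl hH z, (hf.2.1 z).2.2⟩, hf.2.2⟩

theorem zd_idl (f : ℂ → Fin (n + 1) → ℂ) : ZDense (idl f) f Set.univ := fun _ hH h =>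
  Ideal.subset_span ⟨hH, fun z => h z trivial⟩

/-- **Finiteness for arbitrary curves.** -/
theorem bd_or_weighted {E : Set (MvPolynomial (Fin (n + 1)) ℂ)} {d : ℕ}
    (hE : ∀ F ∈ E, ∃ e ≤ d, F.IsHomogeneous e) {Q : MvPolynomial (Fin (n + 1)) ℂ} {q : ℕ}
    (hq : q ≤ d) (hQ : Q.IsHomogeneous q) {f : ℂ → Fin (n + 1) → ℂ}
    (hf : EntireCurve (Ideal.span E) Q f) : (∃ M, Bd M (idl f) Q) ∨ Weighted (d + 1) E Q f := by
  classical
  -- bounded degrees
  obtain ⟨T, hT1, hT2⟩ := Submodule.fg_span_iff_fg_span_finset_subset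
    {H : MvPolynomial (Fin (n + 1)) ℂ | IsForm H ∧ ∀ z, eval (f z) H = 0} |>.1
    (IsNoetherian.noetherian (idl f))
  have hdeg : ∀ H : MvPolynomial (Fin (n + 1)) ℂ, ∃ e, H ∈ T → H.IsHomogeneous e := by
    intro H
    by_cases hH : H ∈ T
    · obtain ⟨e, he⟩ := (hT1 hH).1
      exact ⟨e, fun _ => he⟩
    · exact ⟨0, fun h => absurd h hH⟩
  choose de hde using hdeg
  set d' : ℕ := d + ∑ H ∈ T, de H with hd'
  have hdd : d ≤ d' := Nat.le_add_right _ _
  set Sg : Set (MvPolynomial (Fin (n + 1)) ℂ) := (T : Set _) ∪ E with hSg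
  have hEI : E ⊆ {H | IsForm H ∧ ∀ z, eval (f z) H = 0} := by
    intro F hF
    obtain ⟨e, -, he⟩ := hE F hF
    exact ⟨⟨e, he⟩, fun z => (hf.2.1 z).2.1 F (Ideal.subset_span hF)⟩
  have hp : idl f = Ideal.span Sg := by
    apply le_antisymm
    · have h1 : idl f = Ideal.span (T : Set (MvPolynomial (Fin (n + 1)) ℂ)) := hT2
      rw [h1]
      exact Ideal.span_mono Set.subset_union_left
    · rw [Ideal.span_le]
      rintro F (hF | hF)
      · exact Ideal.subset_span (hT1 hF)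
      · exact Ideal.subset_span (hEI hF)
  have hSgd : ∀ F ∈ Sg, ∃ e ≤ d', F.IsHomogeneous e := by
    rintro F (hF | hF)
    · refine ⟨de F, ?_, hde F hF⟩
      have h1 : de F ≤ ∑ H ∈ T, de H :=
        Finset.single_le_sum (f := de) (fun _ _ => Nat.zero_le _) hF
      omega
    · obtain ⟨e, he, hFe⟩ := hE F hF
      exact ⟨e, he.trans hdd, hFe⟩
  have hgp : GP (idl f) Q (hat hf.1) := by
    refine ⟨?_, fun H hH => (aeval_hat hf.1 H).2 fun z => mem_idl hH z, ?_, fun H hH h0 => ?_⟩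
    · intro h0
      apply (hf.2.1 0).1
      funext l
      have h1 : aeval (hat hf.1) (X l : MvPolynomial (Fin (n + 1)) ℂ) = 0 := by
        rw [aeval_X, h0]
        rfl
      have h2 := (aeval_hat hf.1 (X l)).1 h1 0
      rwa [eval_X] at h2
    · intro h0
      exact (hf.2.1 0).2.2 ((aeval_hat hf.1 Q).1 h0 0)
    · exact Ideal.subset_span ⟨hH, (aeval_hat hf.1 H).1 h0⟩
  obtain ⟨M, hM⟩ := weights n d'
  by_cases hb : Bd M (idl f) Q
  · exact Or.inl ⟨M, hb⟩
  · right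
    unfold Bd at hb
    push Not at hb
    obtain ⟨g, hg, hd, hs, hne⟩ := hb
    obtain ⟨b, hb1, hb2, i, j, hi, hj, hij⟩ := hM (idl f) Q q (hq.trans hdd) hQ Sg hp hSgd MK
      (hat hf.1) hgp g hg hd hs fun s t h => by
        by_contra hc
        exact hne s t hc h
    have hnz : ∀ l, hat hf.1 l ≠ 0 → ∃ z, f z l ≠ 0 := by
      intro l hl
      by_contra hc
      push Not at hc
      apply hl
      have h1 := (aeval_hat hf.1 (X l)).2 fun z => by rw [eval_X]; exact hc z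
      rwa [aeval_X] at h1
    have h1 : Weighted (d' + 1) Sg Q f := ⟨b, fun F hF k z => (aeval_hat hf.1 _).1 (hb1 F hF k) z,
      fun k hk z => (aeval_hat hf.1 _).1 (hb2 k hk) z, i, j, hnz i hi, hnz j hj, hij⟩
    refine h1.mono Set.subset_union_right (fun F hF => ?_) (fun F hF => ?_)
      (leD_of_homog hQ (hq.trans hdd)) (leD_of_homog hQ hq)
    · obtain ⟨e, he, hFe⟩ := hE F hF
      exact leD_of_homog hFe (he.trans hdd)
    · obtain ⟨e, he, hFe⟩ := hE F hF
      exact leD_of_homog hFe he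

/-- the conditions on the weight `b` -/
def WtOn (D : ℕ) (E : Set (MvPolynomial (Fin (n + 1)) ℂ)) (Q : MvPolynomial (Fin (n + 1)) ℂ)
    (f : ℂ → Fin (n + 1) → ℂ) (b : Option (Fin (n + 1)) → ℤ) : Prop :=
  (∀ F ∈ E, ∀ k z, eval (f z) (comp D (fun l => b (some l)) k F) = 0) ∧
    (∀ k, k ≠ b none → ∀ z, eval (f z) (comp D (fun l => b (some l)) k Q) = 0) ∧
    ∃ i j, (∃ z, f z i ≠ 0) ∧ (∃ z, f z j ≠ 0) ∧ b (some i) ≠ b (some j)

/-- the pairs of exponents with the same weight -/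
def Rel (n D : ℕ) (b : Option (Fin (n + 1)) → ℤ) :
    Set (Option (Ex (Fin (n + 1)) D) × Option (Ex (Fin (n + 1)) D)) :=
  {x | wt b (ex' x.1) = wt b (ex' x.2)}

open Classical in
/-- **The exceptional set** of a variety which is not covered by rational curves. -/
theorem exc_form {p : Ideal (MvPolynomial (Fin (n + 1)) ℂ)} {Q : MvPolynomial (Fin (n + 1)) ℂ}
    {q d : ℕ} (hq : q ≤ d) (hQ : Q.IsHomogeneous q) {E : Set (MvPolynomial (Fin (n + 1)) ℂ)}
    (hp : p = Ideal.span E) (hE : ∀ F ∈ E, ∃ e ≤ d, F.IsHomogeneous e)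
    {K : Type} [Field K] [Algebra ℂ K] {w : ℕ} {y : Fin (n + 1) → K} (hy : FunField p Q K w y)
    (hno : ∀ r : K, AllFlat Q y r) :
    ∃ G : MvPolynomial (Fin (n + 1)) ℂ, IsForm G ∧ G ∉ p ∧
      ∀ f, EntireCurve p Q f → Weighted (d + 1) E Q f → ∀ z, eval (f z) G = 0 := by
  have hQD : LeD (d + 1) Q := leD_of_homog hQ hq
  have hED : ∀ F ∈ E, LeD (d + 1) F ∧ ∃ e, F.IsHomogeneous e := by
    intro F hF
    obtain ⟨e, he, hFe⟩ := hE F hF
    exact ⟨leD_of_homog hFe he, e, hFe⟩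
  have key : ∀ R : Set (Option (Ex (Fin (n + 1)) (d + 1)) × Option (Ex (Fin (n + 1)) (d + 1))),
      ∃ G : MvPolynomial (Fin (n + 1)) ℂ, IsForm G ∧ aeval y G ≠ 0 ∧
        ∀ f b, Rel n (d + 1) b = R → EntireCurve p Q f → WtOn (d + 1) E Q f b →
          ∀ z, eval (f z) G = 0 := by
    intro R
    by_cases hex : ∃ f b, Rel n (d + 1) b = R ∧ EntireCurve p Q f ∧ WtOn (d + 1) E Q f b
    · obtain ⟨f0, b0, hR0, hf0, hb1, hb2, i, j, ⟨zi, hzi⟩, ⟨zj, hzj⟩, hij⟩ := hex
      have hyn : ∀ l z, f0 z l ≠ 0 → y l ≠ 0 := by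
        intro l z hl h0
        apply hl
        have h1 : (X l : MvPolynomial (Fin (n + 1)) ℂ) ∈ p := by
          refine hy.mem _ ⟨1, isHomogeneous_X _ _⟩ ?_
          rw [Pool.Agent.TH143.GT.val_X]
          exact h0
        have h2 := (hf0.2.1 z).2.1 _ h1
        rwa [eval_X] at h2
      have hcase : (∃ F ∈ E, ∃ k, aeval y (comp (d + 1) (fun l => b0 (some l)) k F) ≠ 0) ∨
          ∃ k, k ≠ b0 none ∧ aeval y (comp (d + 1) (fun l => b0 (some l)) k Q) ≠ 0 := by
        by_contra hcon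
        push Not at hcon
        obtain ⟨r, hr⟩ := fam_of_weight hy hQ hQD hp hED (fun l => b0 (some l)) (b0 none)
          hcon.1 hcon.2 (hyn i zi hzi) (hyn j zj hzj) hij
        exact hr (hno r)
      -- components which do not vanish come from exponents
      have hexp : ∀ (F : MvPolynomial (Fin (n + 1)) ℂ) (k : ℤ),
          aeval y (comp (d + 1) (fun l => b0 (some l)) k F) ≠ 0 →
          ∃ a0 : Ex (Fin (n + 1)) (d + 1), wt (fun l => b0 (some l)) (exf a0) = k := by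
        intro F k hne
        by_contra hcon
        push Not at hcon
        apply hne
        rw [aeval_comp]
        exact Finset.sum_eq_zero fun a _ => if_neg (hcon a)
      have htr : ∀ (F : MvPolynomial (Fin (n + 1)) ℂ) (hF : LeD (d + 1) F) (k : ℤ)
          (a0 : Ex (Fin (n + 1)) (d + 1)) (b : Option (Fin (n + 1)) → ℤ),
          wt (fun l => b0 (some l)) (exf a0) = k → Rel n (d + 1) b = R →
          comp (d + 1) (fun l => b0 (some l)) k F =
            comp (d + 1) (fun l => b (some l)) (wt (fun l => b (some l)) (exf a0)) F := by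
        intro F hF k a0 b ha0 hb
        refine comp_congr hF fun a _ => ?_
        have h1 : ((some a, some a0) : Option (Ex (Fin (n + 1)) (d + 1)) ×
            Option (Ex (Fin (n + 1)) (d + 1))) ∈ Rel n (d + 1) b0 ↔
            ((some a, some a0) : Option (Ex (Fin (n + 1)) (d + 1)) ×
            Option (Ex (Fin (n + 1)) (d + 1))) ∈ Rel n (d + 1) b := by rw [hR0, hb]
        unfold Rel at h1
        simp only [Set.mem_ofPred_eq, wt_some] at h1
        rw [← ha0]
        exact h1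
      rcases hcase with ⟨F, hF, k, hk⟩ | ⟨k, hkb, hk⟩
      · obtain ⟨a0, ha0⟩ := hexp F k hk
        obtain ⟨hFD, e, he⟩ := hED F hF
        refine ⟨_, ⟨e, comp_homog he _ _⟩, hk, fun f b hR hf hb z => ?_⟩
        rw [htr F hFD k a0 b ha0 hR]
        exact hb.1 F hF _ z
      · obtain ⟨a0, ha0⟩ := hexp Q k hk
        refine ⟨_, ⟨q, comp_homog hQ _ _⟩, hk, fun f b hR hf hb z => ?_⟩
        rw [htr Q hQD k a0 b ha0 hR]
        refine hb.2.1 _ (fun h0 => hkb ?_) z
        have h1 : ((some a0, none) : Option (Ex (Fin (n + 1)) (d + 1)) ×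
            Option (Ex (Fin (n + 1)) (d + 1))) ∈ Rel n (d + 1) b0 ↔
            ((some a0, none) : Option (Ex (Fin (n + 1)) (d + 1)) ×
            Option (Ex (Fin (n + 1)) (d + 1))) ∈ Rel n (d + 1) b := by rw [hR0, hR]
        unfold Rel at h1
        simp only [Set.mem_ofPred_eq, wt_some, wt_none] at h1
        rw [← ha0]
        exact h1.2 h0
    · refine ⟨1, ⟨0, isHomogeneous_one _ _⟩, by rw [map_one]; exact one_ne_zero,
        fun f b hR hf hb => absurd ⟨f, b, hR, hf, hb⟩ hex⟩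
  choose Gr hG1 hG2 hG3 using key
  refine ⟨∏ R, Gr R, ?_, ?_, ?_⟩
  · choose de hde using hG1
    exact ⟨∑ R, de R, IsHomogeneous.prod _ _ _ fun R _ => hde R⟩
  · intro hmem
    have h1 := hy.sub.mem _ hmem
    unfold Pool.Agent.W602.GT.val at h1
    rw [map_prod] at h1
    obtain ⟨R, -, hR⟩ := Finset.prod_eq_zero_iff.1 h1
    exact hG2 R hR
  · rintro f hf ⟨b, hb⟩ z
    rw [map_prod]
    exact Finset.prod_eq_zero (Finset.mem_univ (Rel n (d + 1) b)) (hG3 _ f b rfl hf hb z)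

end Pool.Agent.Q72.SH
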