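import Mathlib

/-!
Two entire functions without common zeros with the same periodicity factors: a nonconstant map from
a complex torus to the projective line, given by theta functions.
-/

set_option autoImplicit false

namespace Pool.Agent.Q72.SH

open Filter Topology Complex

/-- zeros of a nonzero entire function -/
theorem zeros_countable {f : ℂ → ℂ} (hf : Differentiable ℂ f) (h0 : ∃ z, f z ≠ 0) :
    {z | f z = 0}.Countable := by
  have h1 : {z | f z = 0} = ⋃ n : ℕ, ({z | f z = 0} ∩ Metric.closedBall 0 n) := by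
    ext z
    simp only [Set.mem_ofPred_eq, Set.mem_iUnion, Set.mem_inter_iff, mem_closedBall_zero_iff]
    constructor
    · intro h
      obtain ⟨n, hn⟩ := exists_nat_ge ‖z‖
      exact ⟨n, h, hn⟩
    · rintro ⟨n, h, -⟩
      exact h
  rw [h1]
  refine Set.countable_iUnion fun n => Set.Finite.countable ?_
  by_contra hinf
  obtain ⟨a, -, ha⟩ := Set.Infinite.exists_accPt_of_subset_isCompact hinf
    (isCompact_closedBall (0 : ℂ) n) Set.inter_subset_right
  rw [accPt_iff_frequently_nhdsNE] at ha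
  have hfa : AnalyticOnNhd ℂ f Set.univ := fun z _ => hf.analyticAt z
  have hall := hfa.eqOn_zero_of_preconnected_of_frequently_eq_zero isPreconnected_univ
    (Set.mem_univ a) (ha.mono fun w hw => hw.1)
  obtain ⟨z, hz⟩ := h0
  exact hz (hall (Set.mem_univ z))

/-- the theta function -/
noncomputable def th0 (z : ℂ) : ℂ := jacobiTheta₂ z I

theorem im_I_pos : (0 : ℝ) < (I : ℂ).im := by rw [I_im]; exact one_pos

theorem th0_diff : Differentiable ℂ th0 := fun z => differentiableAt_jacobiTheta₂_fst z im_I_pos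

theorem th0_one (z : ℂ) : th0 (z + 1) = th0 z := jacobiTheta₂_add_left z I

theorem th0_I (z : ℂ) : th0 (z + I) = cexp (-Real.pi * I * (I + 2 * z)) * th0 z :=
  jacobiTheta₂_add_left' z I

theorem th0_neg (z : ℂ) : th0 (-z) = th0 z := jacobiTheta₂_neg_left z I

theorem th0_zero : th0 0 ≠ 0 := by
  intro h0
  have h1 := hasSum_jacobiTheta₂_term 0 im_I_pos
  have h2 : jacobiTheta₂ 0 I = 0 := h0
  rw [h2] at h1
  have h3 := hasSum_re h1
  have hterm : ∀ n : ℤ, (jacobiTheta₂_term n 0 I).re = Real.exp (-Real.pi * n ^ 2) := by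
    intro n
    unfold jacobiTheta₂_term
    have h4 : (2 * Real.pi * I * n * 0 + Real.pi * I * n ^ 2 * I : ℂ) =
        ((-Real.pi * (n : ℝ) ^ 2 : ℝ) : ℂ) := by
      push_cast
      have h5 : (Real.pi : ℂ) * I * n ^ 2 * I = Real.pi * n ^ 2 * (I * I) := by ring
      rw [h5, I_mul_I]
      ring
    rw [h4, ← Complex.ofReal_exp, Complex.ofReal_re]
  have h4 : HasSum (fun n : ℤ => Real.exp (-Real.pi * n ^ 2)) 0 := by
    have h5 : (fun n : ℤ => (jacobiTheta₂_term n 0 I).re) =
        fun n : ℤ => Real.exp (-Real.pi * n ^ 2) := funext hterm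
    rw [← h5]
    simpa using h3
  have h5 := (hasSum_zero_iff_of_nonneg (fun n => (Real.exp_pos _).le)).1 h4
  have h6 := congrFun h5 0
  simp at h6

theorem th0_mid : th0 ((1 + I) / 2) = 0 := by
  have h1 := th0_I ((1 - I) / 2)
  have h2 : (1 - I) / 2 + I = (1 + I) / 2 := by ring
  have h3 : -Real.pi * I * (I + 2 * ((1 - I) / 2)) = -(Real.pi * I) := by ring
  rw [h2, h3, Complex.exp_neg, Complex.exp_pi_mul_I] at h1
  have h4 := th0_neg ((1 - I) / 2)
  have h5 := th0_one (-((1 - I) / 2))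
  have h6 : -((1 - I) / 2) + 1 = (1 + I) / 2 := by ring
  rw [h6, h4] at h5
  rw [← h5] at h1
  norm_num at h1
  have h7 : (2 : ℂ) * th0 ((1 + I) / 2) = 0 := by linear_combination h1
  exact (mul_eq_zero.1 h7).resolve_left two_ne_zero

/-- **A map from a torus to the line.** -/
theorem exists_theta : ∃ A B : ℂ → ℂ, Differentiable ℂ A ∧ Differentiable ℂ B ∧
    (∀ z, A z = 0 → B z = 0 → False) ∧ LinearIndependent ℝ ![(1 : ℂ), I] ∧
    (∀ ω : ℂ, (ω = 1 ∨ ω = I) → ∃ c : ℂ → ℂ, (∀ z, c z ≠ 0) ∧ (∀ z, A (z + ω) = c z * A z) ∧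
      ∀ z, B (z + ω) = c z * B z) ∧ ∃ z w, A z * B w ≠ A w * B z := by
  have hc := zeros_countable th0_diff ⟨0, th0_zero⟩
  set Z : Set ℂ := {z | th0 z = 0} with hZ
  have hbad : ((fun x : ℂ × ℂ => x.1 - x.2) '' (Z ×ˢ Z)).Countable := (hc.prod hc).image _
  obtain ⟨b, hb⟩ : ∃ b, b ∉ (fun x : ℂ × ℂ => x.1 - x.2) '' (Z ×ˢ Z) := by
    by_contra hcon
    push Not at hcon
    have h1 : (fun x : ℂ × ℂ => x.1 - x.2) '' (Z ×ˢ Z) = Set.univ := Set.eq_univ_of_forall hcon
    rw [h1] at hbad
    exact not_countable_complex hbad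
  have hb1 : ∀ z, th0 z = 0 → th0 (z + b) ≠ 0 := by
    intro z h1 h2
    exact hb ⟨(z + b, z), ⟨h2, h1⟩, by ring⟩
  have hb2 : ∀ z, th0 z = 0 → th0 (z - b) ≠ 0 := by
    intro z h1 h2
    exact hb ⟨(z, z - b), ⟨h1, h2⟩, by ring⟩
  refine ⟨fun z => th0 z ^ 2, fun z => th0 (z + b) * th0 (z - b), th0_diff.pow 2, ?_, ?_, ?_, ?_,
    ?_⟩
  · exact (th0_diff.comp (differentiable_id.add_const b)).mul
      (th0_diff.comp (differentiable_id.sub_const b))
  · intro z h1 h2
    have h3 : th0 z = 0 := pow_eq_zero_iff two_ne_zero |>.1 h1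
    exact (mul_ne_zero (hb1 z h3) (hb2 z h3)) h2
  · rw [LinearIndependent.pair_iff]
    intro s t h
    have h1 := congrArg Complex.re h
    have h2 := congrArg Complex.im h
    simp at h1 h2
    exact ⟨h1, h2⟩
  · rintro ω (rfl | rfl)
    · refine ⟨fun _ => 1, fun _ => one_ne_zero, fun z => ?_, fun z => ?_⟩
      · simp only
        rw [th0_one, one_mul]
      · simp only
        have h1 : z + 1 + b = z + b + 1 := by ring
        have h2 : z + 1 - b = z - b + 1 := by ring
        rw [h1, h2, th0_one, th0_one, one_mul]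
    · refine ⟨fun z => cexp (-Real.pi * I * (I + 2 * z)) ^ 2,
        fun z => pow_ne_zero _ (Complex.exp_ne_zero _), fun z => ?_, fun z => ?_⟩
      · simp only
        rw [th0_I, mul_pow]
      · simp only
        have h1 : z + I + b = z + b + I := by ring
        have h2 : z + I - b = z - b + I := by ring
        rw [h1, h2, th0_I, th0_I]
        have h3 : cexp (-Real.pi * I * (I + 2 * (z + b))) * cexp (-Real.pi * I * (I + 2 * (z - b))) =
            cexp (-Real.pi * I * (I + 2 * z)) ^ 2 := by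
          rw [← Complex.exp_add, ← Complex.exp_nat_mul]
          congr 1
          push_cast
          ring
        rw [← h3]
        ring
  · refine ⟨0, (1 + I) / 2, ?_⟩
    simp only
    rw [th0_mid]
    have h1 := hb1 _ th0_mid
    have h2 := hb2 _ th0_mid
    have h3 : th0 0 ^ 2 * (th0 ((1 + I) / 2 + b) * th0 ((1 + I) / 2 - b)) ≠ 0 :=
      mul_ne_zero (pow_ne_zero _ th0_zero) (mul_ne_zero h1 h2)
    intro h4
    apply h3
    rw [h4]
    ring

end Pool.Agent.Q72.SH
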