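import Pool.Agent.Q72.SH.Rat
import Pool.Agent.Q72.SH.Theta

/-!
Special sets given by entire curves: tori, and entire curves with lattice-invariant hyperplane
sections.
-/

set_option autoImplicit false

namespace Pool.Agent.Q72.SH

open Finset MvPolynomial Filter Topology
open Pool.Agent.TH143.EL Pool.Agent.TH143.GT Pool.Agent.W602.GT Pool.Agent.TH143
open Pool.Agent.W603.BPR (EntireCurve)
open Pool.Agent.TH143.HE (RatCurvesIn IsPtP NonConst)

variable {n : ℕ} {E : Set (MvPolynomial (Fin (n + 1)) ℂ)} {Q : MvPolynomial (Fin (n + 1)) ℂ}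
  {f : ℂ → Fin (n + 1) → ℂ}

/-- The intersections of `f` with the coordinate hyperplanes are invariant under a lattice. -/
def Lattice (f : ℂ → Fin (n + 1) → ℂ) : Prop :=
  ∃ ω₁ ω₂ : ℂ, LinearIndependent ℝ ![ω₁, ω₂] ∧ SameSections (fun z => f (z + ω₁)) f ∧
    SameSections (fun z => f (z + ω₂)) f

/-- `f` factors through a one-dimensional complex torus. -/
def Torus (f : ℂ → Fin (n + 1) → ℂ) : Prop :=
  ∃ ω₁ ω₂ : ℂ, LinearIndependent ℝ ![ω₁, ω₂] ∧ SameCurve (fun z => f (z + ω₁)) f ∧
    SameCurve (fun z => f (z + ω₂)) f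

/-- The homogeneous coordinates of `f` are polynomials. -/
def PolyCurve (f : ℂ → Fin (n + 1) → ℂ) : Prop :=
  ∃ P : Fin (n + 1) → Polynomial ℂ, ∀ z l, f z l = (P l).eval z

/-- the cone over the Zariski closure of the union of the images of the curves in `T` -/
def ZCl (T : Set (ℂ → Fin (n + 1) → ℂ)) : Set (Fin (n + 1) → ℂ) :=
  {x | x ≠ 0 ∧ ∀ G : MvPolynomial (Fin (n + 1)) ℂ, IsForm G →
    (∀ f ∈ T, ∀ z, eval (f z) G = 0) → eval x G = 0}

theorem codis_ne {B : ℂ → ℂ} (hB : Differentiable ℂ B) (h : ∃ z, B z ≠ 0) :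
    ∀ᶠ z in codiscrete ℂ, B z ≠ 0 := by
  apply codis_of_ev
  intro x
  rcases (hB.analyticAt x).eventually_eq_zero_or_eventually_ne_zero with h1 | h1
  · exfalso
    obtain ⟨z, hz⟩ := h
    have hBa : AnalyticOnNhd ℂ B Set.univ := fun z _ => hB.analyticAt z
    exact hz (hBa.eqOn_zero_of_preconnected_of_eventuallyEq_zero isPreconnected_univ
      (Set.mem_univ x) h1 (Set.mem_univ z))
  · exact h1

theorem mul_ent_zero {u B : ℂ → ℂ} (hu : Continuous u) (hB : Differentiable ℂ B)
    (hB0 : ∃ z, B z ≠ 0) (h : ∀ z, B z ≠ 0 → u z = 0) (z : ℂ) : u z = 0 := by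
  refine ent_zero hu ?_ z
  filter_upwards [codis_ne hB hB0] with w hw
  exact h w hw

section AB

variable {A B : ℂ → ℂ}

theorem nc_div (hA : Differentiable ℂ A) (hB : Differentiable ℂ B)
    (hAB : ∃ z w, A z * B w ≠ A w * B z) : NC fun z => A z / B z := by
  obtain ⟨z0, w0, hne⟩ := hAB
  have hB0 : ∃ z, B z ≠ 0 := by
    by_contra hcon
    push Not at hcon
    apply hne
    rw [hcon, hcon, mul_zero, mul_zero]
  rintro ⟨c, hc⟩
  have h1 : ∀ z, A z - c * B z = 0 := by
    intro z
    refine ent_zero (f := fun z => A z - c * B z)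
      (hA.continuous.sub (continuous_const.mul hB.continuous)) ?_ z
    filter_upwards [hc, codis_ne hB hB0] with w h2 h3
    rw [← h2]
    field_simp
    ring
  apply hne
  have h2 := sub_eq_zero.1 (h1 z0)
  have h3 := sub_eq_zero.1 (h1 w0)
  rw [h2, h3]
  ring

theorem div_mero (hA : Differentiable ℂ A) (hB : Differentiable ℂ B) :
    Meromorphic fun z => A z / B z := fun z =>
  (hA.analyticAt z).meromorphicAt.div (hB.analyticAt z).meromorphicAt

theorem poly_zero_AB (hA : Differentiable ℂ A) (hB : Differentiable ℂ B)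
    (hAB : ∃ z w, A z * B w ≠ A w * B z) {P : Polynomial ℂ}
    (h : ∀ z, B z ≠ 0 → P.eval (A z / B z) = 0) : P = 0 := by
  refine nc_poly (div_mero hA hB) (nc_div hA hB hAB) ?_
  have hB0 : ∃ z, B z ≠ 0 := by
    obtain ⟨z0, w0, hne⟩ := hAB
    by_contra hcon
    push Not at hcon
    apply hne
    rw [hcon, hcon, mul_zero, mul_zero]
  filter_upwards [codis_ne hB hB0] with z hz
  exact h z hz

end AB

theorem sameSections_of_sameCurve {g : ℂ → Fin (n + 1) → ℂ} (hg : Differentiable ℂ g)
    (hf : Differentiable ℂ f) (hg0 : ∀ z, g z ≠ 0) (hf0 : ∀ z, f z ≠ 0) (h : SameCurve g f) :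
    SameSections g f := by
  intro l z
  obtain ⟨j, hj⟩ : ∃ j, f z j ≠ 0 := by
    by_contra hc
    push Not at hc
    exact hf0 z (funext hc)
  set c : ℂ → ℂ := fun w => g w j / f w j with hc
  have hfa : ∀ l, AnalyticAt ℂ (fun w => f w l) z := fun l => (coord_diff hf l).analyticAt z
  have hga : ∀ l, AnalyticAt ℂ (fun w => g w l) z := fun l => (coord_diff hg l).analyticAt z
  have hca : AnalyticAt ℂ c z := (hga j).div (hfa j) hj
  have hev : ∀ᶠ w in 𝓝 z, f w j ≠ 0 := (hfa j).continuousAt.eventually_ne hj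
  have hgc : ∀ᶠ w in 𝓝 z, g w l = c w * f w l := by
    filter_upwards [hev] with w hw
    obtain ⟨t, ht⟩ := h w
    have h1 : g w l = t * f w l := congrFun ht l
    have h2 : g w j = t * f w j := congrFun ht j
    simp only [hc]
    rw [h1, h2]
    field_simp
  have hcz : c z ≠ 0 := by
    intro h0
    have h1 : g z j = 0 := by
      simp only [hc] at h0
      rcases div_eq_zero_iff.1 h0 with h2 | h2
      · exact h2
      · exact absurd h2 hj
    obtain ⟨t, ht⟩ := h z
    have h2 : g z j = t * f z j := congrFun ht j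
    rw [h1] at h2
    have h3 : t = 0 := (mul_eq_zero.1 h2.symm).resolve_right hj
    rw [h3, zero_smul] at ht
    exact hg0 z ht
  rw [analyticOrderAt_congr hgc]
  have h1 := analyticOrderAt_mul hca (hfa l)
  change analyticOrderAt (c * fun w => f w l) z = _
  rw [h1, hca.analyticOrderAt_eq_zero.2 hcz, zero_add]

theorem Torus.lattice (hf : EntireCurve (Ideal.span E) Q f) (h : Torus f) : Lattice f := by
  obtain ⟨ω₁, ω₂, hind, h1, h2⟩ := h
  have key : ∀ ω : ℂ, SameCurve (fun z => f (z + ω)) f → SameSections (fun z => f (z + ω)) f := by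
    intro ω hω
    refine sameSections_of_sameCurve ?_ hf.1 (fun z => (hf.2.1 _).1) (fun z => (hf.2.1 z).1) hω
    exact hf.1.comp (differentiable_id.add_const ω)
  exact ⟨ω₁, ω₂, hind, key _ h1, key _ h2⟩

/-- **Rational curves are images of tori.** -/
theorem torus_of_poly (hE : ∀ F ∈ E, IsForm F) (hf : EntireCurve (Ideal.span E) 1 f)
    (hp : PolyCurve f) : ∃ h, EntireCurve (Ideal.span E) 1 h ∧ Torus h ∧
      ∀ G : MvPolynomial (Fin (n + 1)) ℂ, IsForm G → (∀ z, eval (h z) G = 0) →
        ∀ z, eval (f z) G = 0 := by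
  obtain ⟨P, hP⟩ := hp
  obtain ⟨A, B, hA, hB, hAB0, hind, hper, hAB⟩ := exists_theta
  have hfP : ∀ z, f z = fun l => (P l).eval z := fun z => funext fun l => hP z l
  have hB0 : ∃ z, B z ≠ 0 := by
    obtain ⟨z0, w0, hne⟩ := hAB
    by_contra hcon
    push Not at hcon
    apply hne
    rw [hcon, hcon, mul_zero, mul_zero]
  set N : ℕ := Finset.univ.sup fun l => (P l).natDegree with hN
  have hNl : ∀ l, (P l).natDegree ≤ N := fun l =>
    Finset.le_sup (f := fun l => (P l).natDegree) (Finset.mem_univ l)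
  obtain ⟨l0, -, hl0⟩ := Finset.exists_mem_eq_sup (Finset.univ : Finset (Fin (n + 1)))
    Finset.univ_nonempty fun l => (P l).natDegree
  set h : ℂ → Fin (n + 1) → ℂ := fun z l =>
    ∑ k ∈ range (N + 1), (P l).coeff k * (A z ^ k * B z ^ (N - k)) with hh
  have hhB : ∀ z, B z ≠ 0 → h z = fun l => B z ^ N * f (A z / B z) l := by
    intro z hz
    funext l
    simp only [hh]
    rw [hP, Polynomial.eval_eq_sum_range' (Nat.lt_succ_of_le (hNl l)), Finset.mul_sum]
    refine Finset.sum_congr rfl fun k hk => ?_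
    have hkN : k ≤ N := Nat.lt_succ_iff.1 (Finset.mem_range.1 hk)
    have h1 : B z ^ N = B z ^ (N - k) * B z ^ k := by rw [← pow_add, Nat.sub_add_cancel hkN]
    rw [h1, div_pow]
    field_simp
  have hhd : Differentiable ℂ h := by
    refine differentiable_pi.2 fun l => ?_
    exact Differentiable.fun_sum fun k _ => ((hA.pow k).mul (hB.pow (N - k))).const_mul _
  have hG : ∀ G : MvPolynomial (Fin (n + 1)) ℂ, IsForm G → (∀ z, eval (h z) G = 0) →
      ∀ z, eval (f z) G = 0 := by
    rintro G ⟨e, hGe⟩ hGh z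
    have h1 : (aeval P G : Polynomial ℂ) = 0 := by
      refine poly_zero_AB hA hB hAB fun z hz => ?_
      rw [eval_comp_poly, ← hfP]
      have h2 := hGh z
      rw [hhB z hz, eval_scale hGe] at h2
      exact (mul_eq_zero.1 h2).resolve_left (pow_ne_zero _ (pow_ne_zero _ hz))
    rw [hfP, ← eval_comp_poly, h1, Polynomial.eval_zero]
  refine ⟨h, ⟨hhd, fun z => ⟨?_, fun H hH => ?_, ?_⟩, ?_⟩, ?_, hG⟩
  · intro h0
    by_cases hz : B z = 0
    · have hAz : A z ≠ 0 := fun h1 => hAB0 z h1 hz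
      have h1 := congrFun h0 l0
      simp only [hh, Pi.zero_apply] at h1
      rw [Finset.sum_eq_single N] at h1
      · rw [Nat.sub_self, pow_zero, mul_one] at h1
        have h2 : (P l0).coeff N = 0 := (mul_eq_zero.1 h1).resolve_right (pow_ne_zero _ hAz)
        have h3 : N = (P l0).natDegree := hl0
        rw [h3, Polynomial.coeff_natDegree, Polynomial.leadingCoeff_eq_zero] at h2
        -- all polynomials are constants, hence `f` is constant
        have hN0 : N = 0 := by rw [h3, h2, Polynomial.natDegree_zero]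
        obtain ⟨z1, w1, hzw⟩ := hf.2.2
        apply hzw 1
        rw [one_smul]
        funext l
        have h4 : (P l).natDegree = 0 := Nat.le_zero.1 (hN0 ▸ hNl l)
        rw [hP, hP, Polynomial.eq_C_of_natDegree_eq_zero h4, Polynomial.eval_C,
          Polynomial.eval_C]
      · intro k hk hkN
        have h2 : k < N := lt_of_le_of_ne (Nat.lt_succ_iff.1 (Finset.mem_range.1 hk)) hkN
        rw [hz, zero_pow (by omega), mul_zero, mul_zero]
      · intro h2
        exact absurd (Finset.mem_range.2 (Nat.lt_succ_self N)) h2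
    · rw [hhB z hz] at h0
      apply (hf.2.1 (A z / B z)).1
      funext l
      exact (mul_eq_zero.1 (congrFun h0 l)).resolve_left (pow_ne_zero _ hz)
  · have h1 : Ideal.span E ≤ RingHom.ker (eval (h z)) := by
      rw [Ideal.span_le]
      intro F hF
      obtain ⟨e, he⟩ := hE F hF
      refine mul_ent_zero (u := fun z => eval (h z) F) (eval_diff hhd F).continuous hB hB0
        (fun z hz => ?_) z
      rw [hhB z hz, eval_scale he, (hf.2.1 _).2.1 F (Ideal.subset_span hF), mul_zero]
    exact h1 hH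
  · rw [map_one]
    exact one_ne_zero
  · by_contra hcon
    push Not at hcon
    obtain ⟨z1, w1, hzw⟩ := hf.2.2
    -- minors
    have hmin : ∀ i j s t, (P i).eval s * (P j).eval t = (P j).eval s * (P i).eval t := by
      intro i j s t
      have h1 : ∀ s', (∃ z, B z ≠ 0 ∧ s' = A z / B z) →
          (Polynomial.C ((P i).eval s') * P j - Polynomial.C ((P j).eval s') * P i) = 0 := by
        rintro s' ⟨z, hz, rfl⟩
        refine poly_zero_AB hA hB hAB fun w hw => ?_
        rw [Polynomial.eval_sub, Polynomial.eval_mul, Polynomial.eval_mul, Polynomial.eval_C,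
          Polynomial.eval_C]
        obtain ⟨c, hc⟩ := hcon z w
        rw [hhB z hz, hhB w hw] at hc
        have e1 : B z ^ N * (P i).eval (A z / B z) = c * (B w ^ N * (P i).eval (A w / B w)) := by
          have := congrFun hc i
          rw [hP, Pi.smul_apply, smul_eq_mul, hP] at this
          exact this
        have e2 : B z ^ N * (P j).eval (A z / B z) = c * (B w ^ N * (P j).eval (A w / B w)) := by
          have := congrFun hc j
          rw [hP, Pi.smul_apply, smul_eq_mul, hP] at this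
          exact this
        have hBz : B z ^ N ≠ 0 := pow_ne_zero _ hz
        apply mul_left_cancel₀ hBz
        linear_combination (P j).eval (A w / B w) * e1 - (P i).eval (A w / B w) * e2
      have h2 : (Polynomial.C ((P j).eval t) * P i - Polynomial.C ((P i).eval t) * P j) = 0 := by
        refine poly_zero_AB hA hB hAB fun z hz => ?_
        have h3 := congrArg (Polynomial.eval t) (h1 _ ⟨z, hz, rfl⟩)
        simp only [Polynomial.eval_sub, Polynomial.eval_mul, Polynomial.eval_C,
          Polynomial.eval_zero] at h3 ⊢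
        linear_combination h3
      have h3 := congrArg (Polynomial.eval s) h2
      simp only [Polynomial.eval_sub, Polynomial.eval_mul, Polynomial.eval_C,
        Polynomial.eval_zero] at h3
      linear_combination h3
    obtain ⟨j, hj⟩ : ∃ j, f w1 j ≠ 0 := by
      by_contra hc
      push Not at hc
      exact (hf.2.1 w1).1 (funext hc)
    apply hzw (f z1 j / f w1 j)
    funext i
    have h1 := hmin i j z1 w1
    rw [← hP, ← hP, ← hP, ← hP] at h1
    rw [Pi.smul_apply, smul_eq_mul]
    field_simp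
    linear_combination h1
  · have key : ∀ ω : ℂ, (ω = 1 ∨ ω = Complex.I) → SameCurve (fun z => h (z + ω)) h := by
      intro ω hω z
      obtain ⟨c, -, hcA, hcB⟩ := hper ω hω
      refine ⟨c z ^ N, ?_⟩
      funext l
      rw [Pi.smul_apply, smul_eq_mul]
      simp only [hh]
      rw [Finset.mul_sum]
      refine Finset.sum_congr rfl fun k hk => ?_
      have hkN : k ≤ N := Nat.lt_succ_iff.1 (Finset.mem_range.1 hk)
      have h1 : c z ^ N = c z ^ k * c z ^ (N - k) := by rw [← pow_add, Nat.add_sub_cancel' hkN]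
      rw [hcA, hcB, mul_pow, mul_pow, h1]
      ring
    exact ⟨1, Complex.I, hind, key 1 (Or.inl rfl), key _ (Or.inr rfl)⟩

/-- The orbits are rational curves, without common zeros. -/
theorem orbit_poly {D : ℕ} (hE : ∀ F ∈ E, LeD D F ∧ ∃ e, F.IsHomogeneous e)
    {b : Fin (n + 1) → ℤ} {x : Fin (n + 1) → ℂ}
    (h : ∀ F ∈ E, ∀ k, eval x (comp D b k F) = 0) {i j : Fin (n + 1)} (hi : x i ≠ 0)
    (hj : x j ≠ 0) (hij : b i ≠ b j) :
    ∃ g, EntireCurve (Ideal.span E) 1 g ∧ PolyCurve g ∧ g 1 = x := by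
  classical
  obtain ⟨l0, hl0, hmin⟩ := Finset.exists_min_image (Finset.univ.filter fun l => x l ≠ 0) b
    ⟨i, Finset.mem_filter.2 ⟨Finset.mem_univ _, hi⟩⟩
  have hl0' : x l0 ≠ 0 := (Finset.mem_filter.1 hl0).2
  have hmin' : ∀ l, x l ≠ 0 → b l0 ≤ b l := fun l hl =>
    hmin l (Finset.mem_filter.2 ⟨Finset.mem_univ _, hl⟩)
  set nn : Fin (n + 1) → ℕ := fun l => (b l - b l0).toNat with hnn'
  have hnn : ∀ l, x l ≠ 0 → (nn l : ℤ) = b l - b l0 := fun l hl =>
    Int.toNat_of_nonneg (by have := hmin' l hl; omega)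
  set p : Fin (n + 1) → Polynomial ℂ := fun l => Polynomial.C (x l) * Polynomial.X ^ nn l with hp
  have hev : ∀ u l, (p l).eval u = x l * u ^ nn l := by
    intro u l
    simp [hp]
  have hzero : ∀ F ∈ E, (aeval p F : Polynomial ℂ) = 0 := by
    intro F hF
    obtain ⟨hFD, e, he⟩ := hE F hF
    apply Polynomial.eq_zero_of_infinite_isRoot
    refine Set.Infinite.mono (s := {u : ℂ | u ≠ 0}) ?_ ?_
    · intro u hu
      change (aeval p F : Polynomial ℂ).eval u = 0
      rw [eval_comp_poly]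
      have h1 : (fun l => (p l).eval u) = fun l => u ^ (-b l0) * (u ^ b l * x l) := by
        funext l
        rw [hev]
        by_cases hxl : x l = 0
        · rw [hxl, zero_mul, mul_zero, mul_zero]
        · rw [← zpow_natCast u (nn l), hnn l hxl, zpow_sub₀ hu, zpow_neg]
          field_simp
      rw [h1, eval_scale he, orbit_zero hFD (h F hF) hu, mul_zero]
    · exact (Set.finite_singleton (0 : ℂ)).infinite_compl
  refine ⟨fun z l => (p l).eval z, ⟨?_, fun z => ⟨?_, fun H hH => ?_, ?_⟩, ?_⟩,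
    ⟨p, fun z l => rfl⟩, ?_⟩
  · exact differentiable_pi.2 fun l => (p l).differentiable
  · intro h0
    by_cases hz : z = 0
    · have h1 := congrFun h0 l0
      simp only [Pi.zero_apply] at h1
      rw [hev] at h1
      have h2 : nn l0 = 0 := by simp [hnn']
      rw [h2, pow_zero, mul_one] at h1
      exact hl0' h1
    · have h1 := congrFun h0 i
      simp only [Pi.zero_apply] at h1
      rw [hev] at h1
      exact mul_ne_zero hi (pow_ne_zero _ hz) h1
  · have h1 : Ideal.span E ≤ RingHom.ker (aeval p : MvPolynomial (Fin (n + 1)) ℂ →ₐ[ℂ]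
        Polynomial ℂ) := by
      rw [Ideal.span_le]
      intro F hF
      exact hzero F hF
    have h2 : (aeval p H : Polynomial ℂ) = 0 := h1 hH
    rw [← eval_comp_poly, h2, Polynomial.eval_zero]
  · rw [map_one]
    exact one_ne_zero
  · refine ⟨2, 1, fun c hc => hij ?_⟩
    have h1 := congrFun hc i
    have h2 := congrFun hc j
    simp only [Pi.smul_apply, smul_eq_mul] at h1 h2
    rw [hev, hev, one_pow, mul_one] at h1 h2
    have h3 : (2 : ℂ) ^ nn i = c := by
      apply mul_left_cancel₀ hi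
      rw [h1]
      ring
    have h4 : (2 : ℂ) ^ nn j = c := by
      apply mul_left_cancel₀ hj
      rw [h2]
      ring
    have h5 : (2 : ℂ) ^ nn i = 2 ^ nn j := h3.trans h4.symm
    have h6 : (2 : ℕ) ^ nn i = 2 ^ nn j := by exact_mod_cast h5
    have h7 := Nat.pow_right_injective (le_refl 2) h6
    have h8 := hnn i hi
    have h9 := hnn j hj
    rw [h7] at h8
    linarith
  · funext l
    simp only
    rw [hev, one_pow, mul_one]

/-- the set given by tori -/
def SpTor (E : Set (MvPolynomial (Fin (n + 1)) ℂ)) : Set (Fin (n + 1) → ℂ) :=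
  ZCl {f | EntireCurve (Ideal.span E) 1 f ∧ Torus f}

/-- the set given by rational curves -/
def SpRat (E : Set (MvPolynomial (Fin (n + 1)) ℂ)) : Set (Fin (n + 1) → ℂ) :=
  ZCl {f | EntireCurve (Ideal.span E) 1 f ∧ PolyCurve f}

/-- the set given by the entire curves with lattice-invariant hyperplane sections -/
def SpLat (E : Set (MvPolynomial (Fin (n + 1)) ℂ)) : Set (Fin (n + 1) → ℂ) :=
  ZCl {f | EntireCurve (Ideal.span E) 1 f ∧ Lattice f}

/-- weighted curves lie in the closure of the union of the rational curves -/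
theorem weighted_spRat {d : ℕ} (hE : ∀ F ∈ E, ∃ e ≤ d, F.IsHomogeneous e)
    (hf : EntireCurve (Ideal.span E) 1 f) (hw : Weighted (d + 1) E 1 f) (z : ℂ) :
    f z ∈ SpRat E := by
  obtain ⟨b, hb1, -, i, j, hi, hj, hij⟩ := hw
  refine ⟨(hf.2.1 z).1, fun G hG h0 => ?_⟩
  refine zero_of_offcoord hf.1 hi hj (fun z hzi hzj => ?_) z
  obtain ⟨g, hg1, hg2, hg3⟩ := orbit_poly (x := f z) (b := fun l => b (some l)) (D := d + 1)
    (fun F hF => by
      obtain ⟨e, he, hFe⟩ := hE F hF
      exact ⟨leD_of_homog hFe he, e, hFe⟩) (fun F hF k => hb1 F hF k z) hzi hzj hij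
  rw [← hg3]
  exact h0 g ⟨hg1, hg2⟩ 1

theorem spRat_sub (hE : ∀ F ∈ E, IsForm F) : SpRat E ⊆ SpTor E := by
  rintro x ⟨hx, h⟩
  refine ⟨hx, fun G hG h0 => h G hG ?_⟩
  rintro f ⟨hf, hp⟩ z
  obtain ⟨h, h1, h2, h3⟩ := torus_of_poly hE hf hp
  exact h3 G hG (fun z => h0 h ⟨h1, h2⟩ z) z

/-- the dichotomy -/
theorem lattice_dich {d : ℕ} (hE : ∀ F ∈ E, ∃ e ≤ d, F.IsHomogeneous e)
    (hf : EntireCurve (Ideal.span E) 1 f) (hl : Lattice f) :
    (∀ z, f z ∈ SpRat E) ∨ Torus f := by
  rcases bd_or_weighted hE (Nat.zero_le d) (isHomogeneous_one _ _) hf with ⟨M, hM⟩ | hw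
  · right
    obtain ⟨ω₁, ω₂, hind, h1, h2⟩ := hl
    obtain ⟨k₁, hk₁, hp1⟩ := per_of_bd hM hf h1
    obtain ⟨k₂, hk₂, hp2⟩ := per_of_bd hM hf h2
    refine ⟨k₁ * ω₁, k₂ * ω₂, ?_, hp1, hp2⟩
    rw [LinearIndependent.pair_iff] at hind ⊢
    intro s t hst
    have h3 := hind (s * k₁) (t * k₂) (by
      rw [← hst]
      simp only [Complex.real_smul]
      push_cast
      ring)
    have hk₁' : (k₁ : ℝ) ≠ 0 := by exact_mod_cast hk₁.ne'
    have hk₂' : (k₂ : ℝ) ≠ 0 := by exact_mod_cast hk₂.ne'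
    exact ⟨(mul_eq_zero.1 h3.1).resolve_right hk₁', (mul_eq_zero.1 h3.2).resolve_right hk₂'⟩
  · left
    exact fun z => weighted_spRat hE hf hw z

theorem spLat_eq {d : ℕ} (hE : ∀ F ∈ E, ∃ e ≤ d, F.IsHomogeneous e) : SpLat E = SpTor E := by
  have hE' : ∀ F ∈ E, IsForm F := fun F hF => by
    obtain ⟨e, -, he⟩ := hE F hF
    exact ⟨e, he⟩
  apply Set.Subset.antisymm
  · rintro x ⟨hx, h⟩
    refine ⟨hx, fun G hG h0 => h G hG ?_⟩
    rintro f ⟨hf, hl⟩ z
    rcases lattice_dich hE hf hl with h1 | h1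
    · exact (spRat_sub hE' (h1 z)).2 G hG h0
    · exact h0 f ⟨hf, h1⟩ z
  · rintro x ⟨hx, h⟩
    refine ⟨hx, fun G hG h0 => h G hG ?_⟩
    rintro f ⟨hf, ht⟩ z
    exact h0 f ⟨hf, ht.lattice hf⟩ z

end Pool.Agent.Q72.SH
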