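import Pool.Agent.Q72.SH.Sp

/-!
Special sets of quasi-projective sets given by entire curves: images of the multiplicative group.
-/

set_option autoImplicit false

namespace Pool.Agent.Q72.SH

open Finset MvPolynomial Filter Topology
open Pool.Agent.TH143.EL Pool.Agent.TH143.GT Pool.Agent.W602.GT Pool.Agent.TH143
open Pool.Agent.W603.BPR (EntireCurve)

variable {n : ℕ} {E : Set (MvPolynomial (Fin (n + 1)) ℂ)} {Q : MvPolynomial (Fin (n + 1)) ℂ}
  {f : ℂ → Fin (n + 1) → ℂ}

/-- The homogeneous coordinates of `f` are polynomials in the exponential function. -/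
def GmCurve (f : ℂ → Fin (n + 1) → ℂ) : Prop :=
  ∃ P : Fin (n + 1) → Polynomial ℂ, ∀ z l, f z l = (P l).eval (Complex.exp z)

/-- the set given by the images of the multiplicative group -/
def SpGm (E : Set (MvPolynomial (Fin (n + 1)) ℂ)) (Q : MvPolynomial (Fin (n + 1)) ℂ) :
    Set (Fin (n + 1) → ℂ) :=
  ZCl {f | EntireCurve (Ideal.span E) Q f ∧ GmCurve f}

theorem orbit_gm {D q : ℕ} (hE : ∀ F ∈ E, LeD D F ∧ ∃ e, F.IsHomogeneous e) (hQD : LeD D Q)
    (hQ : Q.IsHomogeneous q) {b : Option (Fin (n + 1)) → ℤ} {x : Fin (n + 1) → ℂ}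
    (h : ∀ F ∈ E, ∀ k, eval x (comp D (fun l => b (some l)) k F) = 0)
    (h' : ∀ k, k ≠ b none → eval x (comp D (fun l => b (some l)) k Q) = 0) (hQx : eval x Q ≠ 0)
    {i j : Fin (n + 1)} (hi : x i ≠ 0) (hj : x j ≠ 0) (hij : b (some i) ≠ b (some j)) :
    ∃ g, EntireCurve (Ideal.span E) Q g ∧ GmCurve g ∧ g 0 = x := by
  set B : ℕ := ∑ l, (b (some l)).natAbs with hB
  have hBl : ∀ l, 0 ≤ b (some l) + B := by
    intro l
    have h3 : (b (some l)).natAbs ≤ B := Finset.single_le_sum
      (f := fun l => (b (some l)).natAbs) (fun _ _ => Nat.zero_le _) (Finset.mem_univ l)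
    omega
  set nn : Fin (n + 1) → ℕ := fun l => (b (some l) + B).toNat with hnn'
  have hnn : ∀ l, (nn l : ℤ) = b (some l) + B := fun l => Int.toNat_of_nonneg (hBl l)
  set g : ℂ → Fin (n + 1) → ℂ := fun z l => x l * Complex.exp z ^ nn l with hg
  have hgz : ∀ z, g z = fun l => Complex.exp z ^ B * (Complex.exp z ^ b (some l) * x l) := by
    intro z
    funext l
    have hu := Complex.exp_ne_zero z
    simp only [hg]
    rw [← zpow_natCast (Complex.exp z) (nn l), hnn l, zpow_add₀ hu, zpow_natCast]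
    ring
  refine ⟨g, ⟨?_, fun z => ⟨?_, fun H hH => ?_, ?_⟩, ?_⟩,
    ⟨fun l => Polynomial.C (x l) * Polynomial.X ^ nn l, fun z l => by simp [hg]⟩, ?_⟩
  · refine differentiable_pi.2 fun l => ?_
    exact (Complex.differentiable_exp.pow _).const_mul _
  · intro h0
    have h1 := congrFun h0 i
    exact mul_ne_zero hi (pow_ne_zero _ (Complex.exp_ne_zero z)) h1
  · have h1 : Ideal.span E ≤ RingHom.ker (eval (g z)) := by
      rw [Ideal.span_le]
      intro F hF
      obtain ⟨hFD, e, he⟩ := hE F hF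
      change eval (g z) F = 0
      rw [hgz, eval_scale he, orbit_zero hFD (h F hF) (Complex.exp_ne_zero z), mul_zero]
    exact h1 hH
  · rw [hgz, eval_scale hQ, orbit_mon hQD h' (Complex.exp_ne_zero z)]
    exact mul_ne_zero (pow_ne_zero _ (pow_ne_zero _ (Complex.exp_ne_zero z)))
      (mul_ne_zero (zpow_ne_zero _ (Complex.exp_ne_zero z)) hQx)
  · refine ⟨Complex.log 2, 0, fun c hc => hij ?_⟩
    have h1 := congrFun hc i
    have h2 := congrFun hc j
    simp only [hg, Pi.smul_apply, smul_eq_mul, Complex.exp_zero, one_pow, mul_one,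
      Complex.exp_log (two_ne_zero : (2 : ℂ) ≠ 0)] at h1 h2
    have h3 : (2 : ℂ) ^ nn i = c := by
      apply mul_left_cancel₀ hi
      rw [h1]
      ring
    have h4 : (2 : ℂ) ^ nn j = c := by
      apply mul_left_cancel₀ hj
      rw [h2]
      ring
    have h5 : (2 : ℂ) ^ nn i = 2 ^ nn j := h3.trans h4.symm
    have h6 : (2 : ℕ) ^ nn i = 2 ^ nn j := by exact_mod_cast h5
    have h7 := Nat.pow_right_injective (le_refl 2) h6
    have h8 := hnn i
    have h9 := hnn j
    rw [h7] at h8
    linarith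
  · funext l
    simp [hg]

/-- weighted curves lie in the closure of the union of the images of the multiplicative group -/
theorem weighted_spGm {d q : ℕ} (hE : ∀ F ∈ E, ∃ e ≤ d, F.IsHomogeneous e) (hq : q ≤ d)
    (hQ : Q.IsHomogeneous q) (hf : EntireCurve (Ideal.span E) Q f)
    (hw : Weighted (d + 1) E Q f) (z : ℂ) : f z ∈ SpGm E Q := by
  obtain ⟨b, hb1, hb2, i, j, hi, hj, hij⟩ := hw
  refine ⟨(hf.2.1 z).1, fun G hG h0 => ?_⟩
  refine zero_of_offcoord hf.1 hi hj (fun z hzi hzj => ?_) z
  obtain ⟨g, hg1, hg2, hg3⟩ := orbit_gm (x := f z) (b := b) (D := d + 1)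
    (fun F hF => by
      obtain ⟨e, he, hFe⟩ := hE F hF
      exact ⟨leD_of_homog hFe he, e, hFe⟩) (leD_of_homog hQ hq) hQ
    (fun F hF k => hb1 F hF k z) (fun k hk => hb2 k hk z) (hf.2.1 z).2.2 hzi hzj hij
  rw [← hg3]
  exact h0 g ⟨hg1, hg2⟩ 0

/-- images of the affine line lie in the closure of the union of the images of the
multiplicative group -/
theorem poly_spGm (hf : EntireCurve (Ideal.span E) Q f) (hp : PolyCurve f) (z : ℂ) :
    f z ∈ SpGm E Q := by
  obtain ⟨P, hP⟩ := hp
  refine ⟨(hf.2.1 z).1, fun G hG h0 => ?_⟩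
  have hfP : ∀ z, f z = fun l => (P l).eval z := fun z => funext fun l => hP z l
  -- nonconstant composite
  have hnc : ∃ z w, ∀ c : ℂ, f (Complex.exp z) ≠ c • f (Complex.exp w) := by
    by_contra hcon
    push Not at hcon
    obtain ⟨z1, w1, hzw⟩ := hf.2.2
    have hmin : ∀ i j s t, (P i).eval s * (P j).eval t = (P j).eval s * (P i).eval t := by
      intro i j s t
      have h1 : ∀ s', s' ≠ 0 →
          (Polynomial.C ((P i).eval s') * P j - Polynomial.C ((P j).eval s') * P i) = 0 := by
        intro s' hs'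
        apply Polynomial.eq_zero_of_infinite_isRoot
        refine Set.Infinite.mono (s := {u : ℂ | u ≠ 0}) ?_
          (Set.finite_singleton (0 : ℂ)).infinite_compl
        intro u hu
        rw [Set.mem_ofPred_eq, Polynomial.IsRoot.def, Polynomial.eval_sub, Polynomial.eval_mul,
          Polynomial.eval_mul, Polynomial.eval_C, Polynomial.eval_C]
        obtain ⟨c, hc⟩ := hcon (Complex.log s') (Complex.log u)
        rw [Complex.exp_log hs', Complex.exp_log hu, hfP, hfP] at hc
        have e1 : (P i).eval s' = c * (P i).eval u := congrFun hc i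
        have e2 : (P j).eval s' = c * (P j).eval u := congrFun hc j
        rw [e1, e2]
        ring
      have h2 : (Polynomial.C ((P j).eval t) * P i - Polynomial.C ((P i).eval t) * P j) = 0 := by
        apply Polynomial.eq_zero_of_infinite_isRoot
        refine Set.Infinite.mono (s := {u : ℂ | u ≠ 0}) ?_
          (Set.finite_singleton (0 : ℂ)).infinite_compl
        intro u hu
        rw [Set.mem_ofPred_eq, Polynomial.IsRoot.def, Polynomial.eval_sub, Polynomial.eval_mul,
          Polynomial.eval_mul, Polynomial.eval_C, Polynomial.eval_C]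
        have h3 := congrArg (Polynomial.eval t) (h1 u hu)
        simp only [Polynomial.eval_sub, Polynomial.eval_mul, Polynomial.eval_C,
          Polynomial.eval_zero] at h3
        linear_combination h3
      have h3 := congrArg (Polynomial.eval s) h2
      simp only [Polynomial.eval_sub, Polynomial.eval_mul, Polynomial.eval_C,
        Polynomial.eval_zero] at h3
      linear_combination h3
    obtain ⟨j, hj⟩ : ∃ j, f w1 j ≠ 0 := by
      by_contra hc
      push Not at hc
      exact (hf.2.1 w1).1 (funext hc)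
    apply hzw (f z1 j / f w1 j)
    funext i
    have h1 := hmin i j z1 w1
    rw [← hP, ← hP, ← hP, ← hP] at h1
    rw [Pi.smul_apply, smul_eq_mul]
    field_simp
    linear_combination h1
  have h1 : EntireCurve (Ideal.span E) Q fun z => f (Complex.exp z) :=
    ⟨hf.1.comp Complex.differentiable_exp, fun z => hf.2.1 _, hnc⟩
  have h2 := h0 _ ⟨h1, P, fun z l => hP _ l⟩
  have h3 : (aeval P G : Polynomial ℂ) = 0 := by
    apply Polynomial.eq_zero_of_infinite_isRoot
    refine Set.Infinite.mono (s := {u : ℂ | u ≠ 0}) ?_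
      (Set.finite_singleton (0 : ℂ)).infinite_compl
    intro u hu
    change (aeval P G : Polynomial ℂ).eval u = 0
    rw [eval_comp_poly, ← hfP]
    have h4 := h2 (Complex.log u)
    rwa [Complex.exp_log hu] at h4
  rw [hfP, ← eval_comp_poly, h3, Polynomial.eval_zero]

/-- the dichotomy -/
theorem lattice_dichQ {d q : ℕ} (hE : ∀ F ∈ E, ∃ e ≤ d, F.IsHomogeneous e) (hq : q ≤ d)
    (hQ : Q.IsHomogeneous q) (hf : EntireCurve (Ideal.span E) Q f) (hl : Lattice f) :
    (∀ z, f z ∈ SpGm E Q) ∨ Torus f := by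
  rcases bd_or_weighted hE hq hQ hf with ⟨M, hM⟩ | hw
  · right
    obtain ⟨ω₁, ω₂, hind, h1, h2⟩ := hl
    obtain ⟨k₁, hk₁, hp1⟩ := per_of_bd hM hf h1
    obtain ⟨k₂, hk₂, hp2⟩ := per_of_bd hM hf h2
    refine ⟨k₁ * ω₁, k₂ * ω₂, ?_, hp1, hp2⟩
    rw [LinearIndependent.pair_iff] at hind ⊢
    intro s t hst
    have h3 := hind (s * k₁) (t * k₂) (by
      rw [← hst]
      simp only [Complex.real_smul]
      push_cast
      ring)
    have hk₁' : (k₁ : ℝ) ≠ 0 := by exact_mod_cast hk₁.ne'
    have hk₂' : (k₂ : ℝ) ≠ 0 := by exact_mod_cast hk₂.ne'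
    exact ⟨(mul_eq_zero.1 h3.1).resolve_right hk₁', (mul_eq_zero.1 h3.2).resolve_right hk₂'⟩
  · left
    exact fun z => weighted_spGm hE hq hQ hf hw z

end Pool.Agent.Q72.SH
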