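import Pool.Agent.Q72.SH.Circ

/-!
Diagonal matrices which preserve a space of polynomials of bounded degree.
-/

set_option autoImplicit false

namespace Pool.Agent.Q72.SH

open Finset

variable {σ : Type} [Fintype σ] [DecidableEq σ]

/-- the monomial with the exponents `α` -/
def mon (lam : σ → ℂ) (α : σ → ℕ) : ℂ := ∏ l, lam l ^ α l

/-- the weight of a monomial -/
def wt (b : σ → ℤ) (α : σ → ℕ) : ℤ := ∑ l, b l * α l

section stab

variable {A : Type} [Fintype A] [DecidableEq A] (ex : A → σ → ℕ)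

/-- the pairs of exponents which occur together in circuits -/
def Dl (V : Submodule ℂ (A → ℂ)) : Set (A × A) :=
  {p | ∃ c, IsCirc V c ∧ c p.1 ≠ 0 ∧ c p.2 ≠ 0}

/-- a diagonal matrix which preserves `V` -/
theorem mon_eq_of_stab {V : Submodule ℂ (A → ℂ)} {lam : σ → ℂ} (hl : ∀ j, lam j ≠ 0)
    (hV : ∀ c ∈ V, (fun a => mon lam (ex a) * c a) ∈ V) {a b : A} (h : (a, b) ∈ Dl V) :
    mon lam (ex a) = mon lam (ex b) := by
  obtain ⟨c, hc, ha, hb⟩ := h
  have hm : ∀ a, mon lam (ex a) ≠ 0 := fun a =>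
    Finset.prod_ne_zero_iff.2 fun l _ => pow_ne_zero _ (hl l)
  obtain ⟨t, ht⟩ := hc.unique (hV c hc.1) (fun a h0 => by rw [h0, mul_zero])
  have h1 : mon lam (ex a) = t := by
    have := congrFun ht a
    simp only [Pi.smul_apply, smul_eq_mul] at this
    exact mul_right_cancel₀ ha this
  have h2 : mon lam (ex b) = t := by
    have := congrFun ht b
    simp only [Pi.smul_apply, smul_eq_mul] at this
    exact mul_right_cancel₀ hb this
  rw [h1, h2]

/-- a weight which is constant on the circuits -/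
theorem comp_mem {V : Submodule ℂ (A → ℂ)} {b : σ → ℤ}
    (hb : ∀ p ∈ Dl V, wt b (ex p.1) = wt b (ex p.2)) (k : ℤ) {c : A → ℂ} (hc : c ∈ V) :
    (fun a => if wt b (ex a) = k then c a else 0) ∈ V := by
  let pr : (A → ℂ) →ₗ[ℂ] (A → ℂ) :=
    { toFun := fun c a => if wt b (ex a) = k then c a else 0
      map_add' := by
        intro x y
        funext a
        simp only [Pi.add_apply]
        split_ifs <;> simp
      map_smul' := by
        intro t x
        funext a
        simp only [Pi.smul_apply, smul_eq_mul, RingHom.id_apply]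
        split_ifs <;> simp }
  have h1 : V ≤ V.comap pr := by
    refine circ_span _ _ fun c hc => ?_
    rw [Submodule.mem_comap]
    obtain ⟨a0, ha0⟩ := Function.ne_iff.1 hc.2.1
    have ha0' : c a0 ≠ 0 := ha0
    by_cases hk : wt b (ex a0) = k
    · have h2 : pr c = c := by
        funext a
        change (if wt b (ex a) = k then c a else 0) = c a
        by_cases h3 : c a = 0
        · rw [h3, ite_self]
        · rw [if_pos]
          rw [← hk]
          exact hb (a, a0) ⟨c, hc, h3, ha0'⟩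
      rw [h2]
      exact hc.1
    · have h2 : pr c = 0 := by
        funext a
        change (if wt b (ex a) = k then c a else 0) = 0
        by_cases h3 : c a = 0
        · rw [h3, ite_self]
        · rw [if_neg]
          intro h4
          apply hk
          rw [← h4]
          exact hb (a0, a) ⟨c, hc, ha0', h3⟩
      rw [h2]
      exact V.zero_mem
  exact h1 hc

end stab

section fin

variable {A : Type} (ex : A → σ → ℕ)

/-- the diagonal matrices, normalised outside of `J` and at `j0`, on which the pairs of monomials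
in `Δ` agree -/
def Lam (Δ : Set (A × A)) (J : Set σ) (j0 : σ) : Set (σ → ℂ) :=
  {lam | (∀ j, lam j ≠ 0) ∧ (∀ j, (j ∉ J ∨ j = j0) → lam j = 1) ∧
    ∀ p ∈ Δ, mon lam (ex p.1) = mon lam (ex p.2)}

/-- integral multiples of rational vectors -/
theorem exists_int_multiple (x : σ → ℚ) : ∃ (D : ℕ) (b : σ → ℤ), 0 < D ∧
    ∀ l, (b l : ℚ) = D * x l := by
  refine ⟨∏ l, (x l).den, fun l => (x l).num * ∏ m ∈ univ.erase l, ((x m).den : ℤ),
    Finset.prod_pos fun l _ => (x l).den_pos, fun l => ?_⟩
  have h1 : (∏ l, ((x l).den : ℚ)) = (x l).den * ∏ m ∈ univ.erase l, ((x m).den : ℚ) :=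
    (Finset.mul_prod_erase univ (fun l => ((x l).den : ℚ)) (Finset.mem_univ l)).symm
  push_cast
  rw [h1]
  have h3 : ((x l).num : ℚ) = x l * (x l).den := (Rat.mul_den_eq_num (x l)).symm
  rw [h3]
  ring

theorem lam_finite (Δ : Set (A × A)) (J : Set σ) (j0 : σ)
    (h : ∀ b : σ → ℤ, (∀ p ∈ Δ, wt b (ex p.1) = wt b (ex p.2)) →
      (∀ l, (l ∉ J ∨ l = j0) → b l = 0) → ∀ l, b l = 0) :
    (Lam ex Δ J j0).Finite := by
  classical
  let vs : Set (σ → ℚ) := {v | (∃ p ∈ Δ, v = fun l => ((ex p.1 l : ℚ) - ex p.2 l)) ∨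
    ∃ l, (l ∉ J ∨ l = j0) ∧ v = Pi.single l 1}
  -- all basis vectors are in the span
  have hspan : ∀ j, (Pi.single j 1 : σ → ℚ) ∈ Submodule.span ℚ vs := by
    intro j
    by_contra hj
    obtain ⟨φ, hφ1, hφ2⟩ := Submodule.exists_le_ker_of_notMem hj
    obtain ⟨D, b, hD, hb⟩ := exists_int_multiple fun l => φ (Pi.single l 1)
    have hφx : ∀ x : σ → ℚ, φ x = ∑ l, x l * φ (Pi.single l 1) := by
      intro x
      have h1 : x = ∑ i, x i • (Pi.single i 1 : σ → ℚ) := by
        funext j
        simp [Finset.sum_apply, Pi.single_apply]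
      conv_lhs => rw [h1]
      rw [map_sum]
      refine Finset.sum_congr rfl fun i _ => ?_
      rw [map_smul, smul_eq_mul]
    have h1 : ∀ p ∈ Δ, wt b (ex p.1) = wt b (ex p.2) := by
      intro p hp
      have h2 : φ (fun l => ((ex p.1 l : ℚ) - ex p.2 l)) = 0 :=
        hφ2 (Submodule.subset_span (Or.inl ⟨p, hp, rfl⟩))
      rw [hφx] at h2
      have h3 : ((wt b (ex p.1) : ℤ) : ℚ) - wt b (ex p.2) = D * 0 := by
        rw [← h2]
        unfold wt
        push_cast
        rw [← Finset.sum_sub_distrib, Finset.mul_sum]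
        refine Finset.sum_congr rfl fun l _ => ?_
        rw [hb l]
        ring
      rw [mul_zero, sub_eq_zero] at h3
      exact_mod_cast h3
    have h3 : ∀ l, (l ∉ J ∨ l = j0) → b l = 0 := by
      intro l hl
      have h4 : φ (Pi.single l 1) = 0 := hφ2 (Submodule.subset_span (Or.inr ⟨l, hl, rfl⟩))
      have h5 := hb l
      rw [h4, mul_zero] at h5
      exact_mod_cast h5
    have h4 : b j = 0 := h b h1 h3 j
    have h5 := hb j
    rw [h4, Int.cast_zero] at h5
    have h6 : (D : ℚ) ≠ 0 := by exact_mod_cast hD.ne'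
    exact hφ1 ((mul_eq_zero.1 h5.symm).resolve_left h6)
  -- powers
  have hpow : ∀ v ∈ Submodule.span ℚ vs, ∃ (N : ℕ) (m : σ → ℤ), 0 < N ∧
      (∀ l, (N : ℚ) * v l = m l) ∧ ∀ lam ∈ Lam ex Δ J j0, ∏ l, lam l ^ m l = 1 := by
    intro v hv
    induction hv using Submodule.span_induction with
    | mem v hv =>
      rcases hv with ⟨p, hp, rfl⟩ | ⟨l, hl, rfl⟩
      · refine ⟨1, fun l => (ex p.1 l : ℤ) - ex p.2 l, one_pos, fun l => by push_cast; ring,
          fun lam hlam => ?_⟩
        have h1 := hlam.2.2 p hp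
        unfold mon at h1
        have h2 : ∀ l, lam l ^ ((ex p.1 l : ℤ) - ex p.2 l) =
            lam l ^ (ex p.1 l) / lam l ^ (ex p.2 l) := by
          intro l
          rw [zpow_sub₀ (hlam.1 l), zpow_natCast, zpow_natCast]
        simp only [h2]
        rw [Finset.prod_div_distrib, h1, div_self]
        exact Finset.prod_ne_zero_iff.2 fun l _ => pow_ne_zero _ (hlam.1 l)
      · refine ⟨1, Pi.single l 1, one_pos, fun m => ?_, fun lam hlam => ?_⟩
        · by_cases hml : m = l
          · subst hml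
            simp
          · simp [hml]
        · rw [Finset.prod_eq_single l]
          · rw [hlam.2.1 l hl, one_zpow]
          · intro m _ hm
            rw [Pi.single_eq_of_ne hm, zpow_zero]
          · intro h0
            exact absurd (Finset.mem_univ _) h0
    | zero => exact ⟨1, 0, one_pos, fun l => by simp, fun lam _ => by simp⟩
    | add v w _ _ h1 h2 =>
      obtain ⟨N1, m1, hN1, hm1, hl1⟩ := h1
      obtain ⟨N2, m2, hN2, hm2, hl2⟩ := h2
      refine ⟨N1 * N2, fun l => N2 * m1 l + N1 * m2 l, Nat.mul_pos hN1 hN2, fun l => ?_,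
        fun lam hlam => ?_⟩
      · push_cast
        rw [← hm1 l, ← hm2 l, Pi.add_apply]
        ring
      · have h3 : ∀ l, lam l ^ ((N2 : ℤ) * m1 l + N1 * m2 l) =
            (lam l ^ m1 l) ^ N2 * (lam l ^ m2 l) ^ N1 := by
          intro l
          rw [zpow_add₀ (hlam.1 l), mul_comm (N2 : ℤ), mul_comm (N1 : ℤ), zpow_mul, zpow_mul,
            zpow_natCast, zpow_natCast]
        simp only [h3]
        rw [Finset.prod_mul_distrib, Finset.prod_pow, Finset.prod_pow, hl1 lam hlam,
          hl2 lam hlam, one_pow, one_pow, one_mul]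
    | smul q v _ h1 =>
      obtain ⟨N, m, hN, hm, hl⟩ := h1
      refine ⟨N * q.den, fun l => q.num * m l, Nat.mul_pos hN q.den_pos, fun l => ?_,
        fun lam hlam => ?_⟩
      · push_cast
        rw [← hm l, Pi.smul_apply, smul_eq_mul]
        have h3 : (q.num : ℚ) = q * q.den := (Rat.mul_den_eq_num q).symm
        rw [h3]
        ring
      · have h3 : ∀ l, lam l ^ (q.num * m l) = (lam l ^ m l) ^ q.num := by
          intro l
          rw [mul_comm, zpow_mul]
        simp only [h3]
        rw [Finset.prod_zpow, hl lam hlam, one_zpow]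
  have hroot : ∀ j, ∃ N : ℕ, 0 < N ∧ ∀ lam ∈ Lam ex Δ J j0, lam j ^ N = 1 := by
    intro j
    obtain ⟨N, m, hN, hm, hl⟩ := hpow _ (hspan j)
    refine ⟨N, hN, fun lam hlam => ?_⟩
    have h1 := hl lam hlam
    have h2 : ∀ l, l ≠ j → m l = 0 := by
      intro l hlj
      have h3 := hm l
      rw [Pi.single_eq_of_ne hlj, mul_zero] at h3
      exact_mod_cast h3.symm
    have h3 : m j = N := by
      have h4 := hm j
      rw [Pi.single_eq_same, mul_one] at h4
      exact_mod_cast h4.symm
    rw [Finset.prod_eq_single j (fun l _ hlj => by rw [h2 l hlj, zpow_zero])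
      (fun h0 => absurd (Finset.mem_univ _) h0), h3, zpow_natCast] at h1
    exact h1
  choose Nr hNr1 hNr2 using hroot
  refine Set.Finite.subset (Set.Finite.pi' (t := fun j => {x : ℂ | x ^ Nr j = 1}) fun j => ?_) ?_
  · have h1 : {x : ℂ | x ^ Nr j = 1} ⊆
        ((Polynomial.nthRoots (Nr j) (1 : ℂ)).toFinset : Set ℂ) := by
      intro x hx
      rw [Finset.mem_coe, Multiset.mem_toFinset, Polynomial.mem_nthRoots (hNr1 j)]
      exact hx
    exact (Finset.finite_toSet _).subset h1
  · intro lam hlam j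
    exact hNr2 j lam hlam

/-- **A uniform bound** for the finite ones of these sets. -/
theorem exists_bound [Finite A] : ∃ N : ℕ, ∀ (Δ : Set (A × A)) (J : Set σ) (j0 : σ),
    (∃ b : σ → ℤ, (∀ p ∈ Δ, wt b (ex p.1) = wt b (ex p.2)) ∧
      (∀ l, (l ∉ J ∨ l = j0) → b l = 0) ∧ ∃ l, b l ≠ 0) ∨
      ∀ F : Finset (σ → ℂ), (F : Set (σ → ℂ)) ⊆ Lam ex Δ J j0 → F.card ≤ N := by
  classical
  have := Fintype.ofFinite A
  have hf : (Set.range fun p : Set (A × A) × Set σ × σ => (Lam ex p.1 p.2.1 p.2.2).ncard).Finite :=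
    Set.finite_range _
  obtain ⟨N, hN⟩ := hf.bddAbove
  refine ⟨N, fun Δ J j0 => ?_⟩
  by_cases hb : ∃ b : σ → ℤ, (∀ p ∈ Δ, wt b (ex p.1) = wt b (ex p.2)) ∧
      (∀ l, (l ∉ J ∨ l = j0) → b l = 0) ∧ ∃ l, b l ≠ 0
  · exact Or.inl hb
  · right
    intro F hF
    push Not at hb
    have h1 := lam_finite ex Δ J j0 fun b h1 h2 => hb b h1 h2
    have h2 := Set.ncard_le_ncard hF h1
    rw [Set.ncard_coe_finset] at h2
    exact h2.trans (hN ⟨(Δ, J, j0), rfl⟩)

end fin

end Pool.Agent.Q72.SH
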