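import Pool.Agent.Q72.SH.Core
import Pool.Agent.TH143.EL.Alg
import Pool.Agent.H159R3.Exp.Borel
import Pool.Agent.TH735.QM.Units

/-!
Exponentials of entire functions in the field of meromorphic functions.
-/

set_option autoImplicit false

namespace Pool.Agent.Q72.SH

open Finset Filter Topology Pool.Agent.TH143.EL

/-- the group of entire functions -/
def Ent : AddSubgroup (ℂ → ℂ) where
  carrier := {f | Differentiable ℂ f}
  add_mem' := fun ha hb => Differentiable.add ha hb
  zero_mem' := differentiable_const 0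
  neg_mem' := fun ha => Differentiable.neg ha

/-- the constants -/
def Cst : AddSubgroup Ent where
  carrier := {g | ∃ c : ℂ, ∀ z, g.1 z = c}
  add_mem' := by
    rintro a b ⟨c, hc⟩ ⟨d, hd⟩
    exact ⟨c + d, fun z => by
      change a.1 z + b.1 z = c + d
      rw [hc, hd]⟩
  zero_mem' := ⟨0, fun z => rfl⟩
  neg_mem' := by
    rintro a ⟨c, hc⟩
    exact ⟨-c, fun z => by
      change -(a.1 z) = -c
      rw [hc]⟩

theorem mem_Cst {g : Ent} : g ∈ Cst ↔ ∃ c : ℂ, ∀ z, g.1 z = c := Iff.rfl

theorem exp_mero (g : Ent) : Meromorphic fun z => Complex.exp (g.1 z) := fun z =>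
  ((g.2.cexp).analyticAt z).meromorphicAt

/-- the exponential of an entire function as a meromorphic function -/
noncomputable def eE (g : Ent) : MK := cl (fun z => Complex.exp (g.1 z)) (exp_mero g)

theorem eE_add (a b : Ent) : eE (a + b) = eE a * eE b := by
  unfold eE
  rw [cl_mul, cl_eq]
  refine Eventually.of_forall fun z => ?_
  change Complex.exp (a.1 z + b.1 z) = Complex.exp (a.1 z) * Complex.exp (b.1 z)
  exact Complex.exp_add _ _

theorem eE_ne (a : Ent) : eE a ≠ 0 := by
  unfold eE
  rw [Ne, cl_eq_zero]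
  intro h
  obtain ⟨z, hz⟩ := h.exists
  exact Complex.exp_ne_zero _ hz

/-- entire functions which vanish outside of a discrete set vanish -/
theorem ent_zero {f : ℂ → ℂ} (hf : Continuous f) (h : ∀ᶠ z in codiscrete ℂ, f z = 0) (z : ℂ) :
    f z = 0 := by
  have h1 : ∀ᶠ w in 𝓝[≠] z, f w = 0 := codis_punct h z
  have h2 : Tendsto f (𝓝[≠] z) (𝓝 (f z)) := (hf.tendsto z).mono_left nhdsWithin_le_nhds
  have h3 : Tendsto f (𝓝[≠] z) (𝓝 0) := (tendsto_congr' h1).2 tendsto_const_nhds
  exact tendsto_nhds_unique h2 h3

open Classical in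
theorem borel_eE : Borel eE Cst where
  add := eE_add
  ne := eE_ne
  bor := by
    intro ι _ c γ h Q hQd hQ
    -- the relation holds pointwise
    let x : ι → MerS := fun i => ⟨fun z => Complex.exp ((γ i).1 z), exp_mero (γ i)⟩
    have h1 : (Ideal.Quotient.mk MJ) (∑ i, (c i : MerS) * x i) = 0 := by
      rw [map_sum, ← h]
      refine Finset.sum_congr rfl fun i _ => ?_
      rw [map_mul, map_intCast]
      rfl
    have hcoe : ∀ z, (∑ i, (c i : MerS) * x i).1 z = ∑ i, (c i : ℂ) * Complex.exp ((γ i).1 z) := by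
      intro z
      have h2 := map_sum (evS z) (fun i => (c i : MerS) * x i) Finset.univ
      have h3 : evS z (∑ i, (c i : MerS) * x i) = (∑ i, (c i : MerS) * x i).1 z := rfl
      rw [← h3, h2]
      refine Finset.sum_congr rfl fun i _ => ?_
      rw [map_mul, map_intCast]
      rfl
    have h2 : ∀ z, ∑ i, (c i : ℂ) * Complex.exp ((γ i).1 z) = 0 := by
      refine ent_zero ?_ ?_
      · refine continuous_finsetSum _ fun i _ => continuous_const.mul ?_
        exact (γ i).2.continuous.cexp
      · have h3 : (∑ i, (c i : MerS) * x i) ∈ MJ := Ideal.Quotient.eq_zero_iff_mem.1 h1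
        filter_upwards [mem_MJ.1 h3] with z hz
        rw [← hcoe z, hz]
    have h3 := Pool.Agent.H159R3.Exp.borel_spec (B := MK) (ι := ι) (fun i => (γ i).1)
      (fun i => (γ i).2) (fun i => if Q (γ i) then eE (γ i) else 0) (by
        intro i j a hij
        have h4 : γ i - γ j ∈ Cst := ⟨a, fun z => by
          change (γ i).1 z - (γ j).1 z = a
          rw [hij z]; ring⟩
        have h5 := hQ _ _ h4
        by_cases h6 : Q (γ i)
        · rw [if_pos h6, if_pos (h5.1 h6)]
          unfold eE
          rw [Algebra.smul_def, ← cl_const, cl_mul, cl_eq]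
          refine Eventually.of_forall fun z => ?_
          change Complex.exp ((γ i).1 z) = Complex.exp a * Complex.exp ((γ j).1 z)
          rw [hij z, Complex.exp_add, mul_comm]
        · rw [if_neg h6, if_neg (fun h7 => h6 (h5.2 h7)), smul_zero]) Finset.univ
      (fun i => (c i : ℂ)) h2
    refine Eq.trans ?_ h3
    refine Finset.sum_congr rfl fun i _ => ?_
    by_cases h4 : Q (γ i)
    · rw [if_pos h4, if_pos h4, Algebra.smul_def]
      congr 1
    · rw [if_neg h4, if_neg h4, smul_zero]

end Pool.Agent.Q72.SH
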